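import Mathlib

/-! # Module FLD: cubic extensions in characteristic 3 -/

set_option autoImplicit false

namespace NCP

theorem FLD_prime {K M : Type} [Field K] [Field M] [Algebra K M]
    (hd : Module.finrank K M = 3) (F : IntermediateField K M) : F = ⊥ ∨ F = ⊤ := by
  have hfin : FiniteDimensional K M := Module.finite_of_finrank_pos (by rw [hd]; norm_num)
  have h1 := Module.finrank_mul_finrank K F M
  rw [hd] at h1
  have h2 : Module.finrank K F ∣ 3 := ⟨_, h1.symm⟩
  rcases (Nat.dvd_prime Nat.prime_three).1 h2 with h | h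
  · left
    exact IntermediateField.finrank_eq_one_iff.1 h
  · right
    apply IntermediateField.eq_of_le_of_finrank_eq le_top
    rw [h, IntermediateField.finrank_top', hd]

/-- Artin–Schreier: a cubic extension `M/K` in characteristic 3 with a non-trivial
`K`-automorphism `h` contains `μ ∉ K` with `μ³ - μ ∈ K`.
Proof: `M^h = K` and `h³ = 1` (`[M : M^{<h>}] = |<h>|` divides 3).  `D = h - 1` satisfies
`D³ = h³ - 1 = 0`, `D ≠ 0`.  Take `x` with `D x ≠ 0 = D² x` (an element or its image under `D`),
`y = D x ∈ M^h = K`, `μ = x / y`: `h μ = μ + 1`, so `μ³ - μ` is fixed by `h`. -/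
theorem artin_schreier {K M : Type} [Field K] [Field M] [Algebra K M] (h3 : (3 : M) = 0)
    (hd : Module.finrank K M = 3) (h : M ≃ₐ[K] M) (hne : ∃ x, h x ≠ x) :
    ∃ μ : M, μ ∉ Set.range (algebraMap K M) ∧ μ ^ 3 - μ ∈ Set.range (algebraMap K M) := by
  have hfin : FiniteDimensional K M := Module.finite_of_finrank_pos (by rw [hd]; norm_num)
  set F := IntermediateField.fixedField (Subgroup.zpowers h) with hF
  have hmem : ∀ x : M, h x = x → x ∈ F := by
    intro x hx
    rw [hF, IntermediateField.mem_fixedField_iff]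
    intro f hf
    have h1 : Subgroup.zpowers h ≤ MulAction.stabilizer (M ≃ₐ[K] M) x := by
      rw [Subgroup.zpowers_le, MulAction.mem_stabilizer_iff]
      exact hx
    exact MulAction.mem_stabilizer_iff.1 (h1 hf)
  have hmem' : ∀ x : M, x ∈ F → h x = x := by
    intro x hx
    rw [hF, IntermediateField.mem_fixedField_iff] at hx
    exact hx h (Subgroup.mem_zpowers h)
  have hbot : F = ⊥ := by
    rcases FLD_prime hd F with hb | ht
    · exact hb
    · exfalso
      obtain ⟨x, hx⟩ := hne
      apply hx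
      apply hmem'
      rw [ht]
      exact IntermediateField.mem_top
  have hrange : ∀ x : M, h x = x → x ∈ Set.range (algebraMap K M) := by
    intro x hx
    have h1 := hmem x hx
    rw [hbot] at h1
    exact IntermediateField.mem_bot.1 h1
  have hcard : Nat.card (Subgroup.zpowers h) = 3 := by
    rw [← IntermediateField.finrank_fixedField_eq_card, ← hF, hbot,
      IntermediateField.finrank_bot', hd]
  have hord : h ^ 3 = 1 := by
    rw [← hcard, Nat.card_zpowers]
    exact pow_orderOf_eq_one h
  have hcube : ∀ x, h (h (h x)) = x := by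
    intro x
    have h1 := congrArg (fun g : M ≃ₐ[K] M => g x) hord
    simpa [pow_succ] using h1
  have key : ∃ x, h x - x ≠ 0 ∧ h (h x - x) = h x - x := by
    obtain ⟨x, hx⟩ := hne
    have hx' : h x - x ≠ 0 := sub_ne_zero.2 hx
    by_cases h1 : h (h x - x) = h x - x
    · exact ⟨x, hx', h1⟩
    · refine ⟨h x - x, sub_ne_zero.2 h1, ?_⟩
      have e := hcube x
      simp only [map_sub]
      rw [e]
      linear_combination (-(h (h x)) + h x) * h3
  obtain ⟨x, hx0, hx1⟩ := key
  refine ⟨x / (h x - x), ?_, ?_⟩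
  · rintro ⟨r, hr⟩
    have h1 : h (x / (h x - x)) = x / (h x - x) := by
      rw [← hr]
      exact h.commutes r
    rw [map_div₀, hx1, div_left_inj' hx0] at h1
    exact hx0 (sub_eq_zero.2 h1)
  · apply hrange
    have h1 : h (x / (h x - x)) = x / (h x - x) + 1 := by
      rw [map_div₀, hx1]
      field_simp
      ring
    rw [map_sub, map_pow, h1]
    linear_combination ((x / (h x - x)) ^ 2 + (x / (h x - x))) * h3

/-- A cubic extension in characteristic 3: `μ ∉ K`, `μ⁹ ∈ K` imply `μ³ ∈ K`.
Proof: otherwise `1, μ³, μ⁶` is a `K`-basis of `M`, `μ = Σ b_i μ^{3i}`, and cubing,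
`μ³ = Σ b_i³ μ^{9i} ∈ K`. -/
theorem insep_cube {K M : Type} [Field K] [Field M] [Algebra K M] (h3 : (3 : M) = 0)
    (hd : Module.finrank K M = 3) (μ : M) (h9 : μ ^ 9 ∈ Set.range (algebraMap K M)) :
    μ ^ 3 ∈ Set.range (algebraMap K M) := by
  let S : IntermediateField K M :=
    { carrier := {x | x ^ 3 ∈ Set.range (algebraMap K M)}
      mul_mem' := by
        rintro a b ⟨r, hr⟩ ⟨s, hs⟩
        exact ⟨r * s, by rw [map_mul, hr, hs, mul_pow]⟩
      one_mem' := ⟨1, by rw [map_one, one_pow]⟩
      add_mem' := by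
        rintro a b ⟨r, hr⟩ ⟨s, hs⟩
        refine ⟨r + s, ?_⟩
        rw [map_add, hr, hs]
        linear_combination (-(a ^ 2 * b) - a * b ^ 2) * h3
      zero_mem' := ⟨0, by rw [map_zero]; ring⟩
      algebraMap_mem' := fun r => ⟨r ^ 3, by rw [map_pow]⟩
      inv_mem' := by
        rintro a ⟨r, hr⟩
        exact ⟨r⁻¹, by rw [map_inv₀, hr, inv_pow]⟩ }
  have hν : μ ^ 3 ∈ S := by
    show (μ ^ 3) ^ 3 ∈ Set.range (algebraMap K M)
    rw [← pow_mul]
    exact h9
  rcases FLD_prime hd S with hb | ht
  · rw [hb] at hν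
    exact IntermediateField.mem_bot.1 hν
  · have h1 : μ ∈ S := by
      rw [ht]
      exact IntermediateField.mem_top
    exact h1

end NCP
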