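import Pool.Agent.H24.NCP.CD
import Pool.Agent.H24.NCP.FLD

/-! # Module ADJ: commutative subalgebras of `C` -/

set_option autoImplicit false

namespace NCP

/-- dimension of a commutative finite-dimensional domain acting on a module -/
theorem adj_dvd {K A B : Type} [Field K] [Ring A] [IsDomain A] [Algebra K A]
    [FiniteDimensional K A] [AddCommGroup B] [Module K B] [Module A B] [IsScalarTower K A B] :
    Module.finrank K A ∣ Module.finrank K B := by
  let : DivisionRing A := divisionRingOfFiniteDimensional K A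
  exact ⟨Module.finrank A B, (Module.finrank_mul_finrank K A B).symm⟩

theorem adj_as_aux {K A : Type} [Field K] [Ring A] [IsDomain A] [Algebra K A]
    [FiniteDimensional K A] (hc : ∀ x y : A, x * y = y * x) (h3 : (3 : A) = 0)
    (hd : Module.finrank K A = 3) (h : A ≃ₐ[K] A) (hne : ∃ x, h x ≠ x) :
    ∃ μ : A, μ ∉ Set.range (algebraMap K A) ∧ μ ^ 3 - μ ∈ Set.range (algebraMap K A) := by
  let : CommRing A := { (inferInstance : Ring A) with mul_comm := hc }
  let : Field A := fieldOfFiniteDimensional K A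
  exact artin_schreier h3 hd h hne

theorem adj_insep_aux {K A : Type} [Field K] [Ring A] [IsDomain A] [Algebra K A]
    [FiniteDimensional K A] (hc : ∀ x y : A, x * y = y * x) (h3 : (3 : A) = 0)
    (hd : Module.finrank K A = 3) (μ : A) (h9 : μ ^ 9 ∈ Set.range (algebraMap K A)) :
    μ ^ 3 ∈ Set.range (algebraMap K A) := by
  let : CommRing A := { (inferInstance : Ring A) with mul_comm := hc }
  let : Field A := fieldOfFiniteDimensional K A
  exact insep_cube h3 hd μ h9

variable {k K C : Type} [Field k] [Field K] [DivisionRing C] [Algebra k K] [Algebra K C]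
    [Algebra k C] [IsScalarTower k K C]

theorem adj_fin (d : CD k K C) : FiniteDimensional K C :=
  Module.finite_of_finrank_pos (by rw [d.dK]; norm_num)

/-- A commutative `K`-subalgebra of `C` has dimension 1 or 3: it is a field `M` (finite-dimensional
domain), `[C : K] = 9 = [M : K] [C : M]` (`C` as a left `M`-space), and `M ≠ C` since `C` is not
commutative (`[C : K] = 9`, `K` the centre). -/
theorem comm_dim (d : CD k K C) (M : Subalgebra K C) (hM : ∀ x ∈ M, ∀ y ∈ M, x * y = y * x) :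
    Module.finrank K M = 1 ∨ Module.finrank K M = 3 := by
  have := adj_fin d
  have : FiniteDimensional K M := inferInstanceAs (FiniteDimensional K (Subalgebra.toSubmodule M))
  have hdvd : Module.finrank K M ∣ 9 := by
    rw [← d.dK]
    exact adj_dvd
  have h9 : Module.finrank K M ≠ 9 := by
    intro h
    have htop : M = ⊤ := by
      rw [← Algebra.toSubmodule_eq_top]
      apply Submodule.eq_top_of_finrank_eq
      rw [d.dK]
      exact h
    have hall : ∀ x : C, x ∈ Set.range (algebraMap K C) := fun x =>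
      (d.cK x).1 (fun y => hM x (by rw [htop]; trivial) y (by rw [htop]; trivial))
    have : Module.finrank K C ≤ 1 := by
      apply finrank_le_one (1 : C)
      intro w
      obtain ⟨c, hc⟩ := hall w
      exact ⟨c, by rw [← hc, Algebra.smul_def, mul_one]⟩
    rw [d.dK] at this
    omega
  have h5 : Module.finrank K M ≤ 9 := Nat.le_of_dvd (by norm_num) hdvd
  generalize Module.finrank K M = n at *
  interval_cases n <;> simp_all (config := { decide := true })

/-- `M = ⊥` or `[M : K] = 3`. -/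
theorem comm_dim' (d : CD k K C) (M : Subalgebra K C) (hM : ∀ x ∈ M, ∀ y ∈ M, x * y = y * x)
    (hne : ∃ x ∈ M, ¬ ∀ y, x * y = y * x) : Module.finrank K M = 3 := by
  rcases comm_dim d M hM with h | h
  · exfalso
    rw [Subalgebra.finrank_eq_one_iff] at h
    subst h
    obtain ⟨x, hx, hx'⟩ := hne
    rw [Algebra.mem_bot] at hx
    exact hx' ((d.cK x).2 hx)
  · exact h

/-- The subalgebra generated by `K` and a commutative set is commutative
(`Algebra.adjoin_induction₂`). -/
theorem adjoin_comm (S : Set C) (hS : ∀ x ∈ S, ∀ y ∈ S, x * y = y * x) :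
    ∀ x ∈ Algebra.adjoin K S, ∀ y ∈ Algebra.adjoin K S, x * y = y * x := by
  have h1 : Algebra.adjoin K S ≤ Subalgebra.centralizer K S := by
    apply Algebra.adjoin_le
    intro x hx
    rw [SetLike.mem_coe, Subalgebra.mem_centralizer_iff]
    intro g hg
    exact hS g hg x hx
  have h2 : Algebra.adjoin K S ≤ Subalgebra.centralizer K (Algebra.adjoin K S : Set C) := by
    apply Algebra.adjoin_le
    intro x hx
    rw [SetLike.mem_coe, Subalgebra.mem_centralizer_iff]
    intro g hg
    have := h1 hg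
    rw [Subalgebra.mem_centralizer_iff] at this
    exact (this x hx).symm
  intro x hx y hy
  have := h2 hy
  rw [Subalgebra.mem_centralizer_iff] at this
  exact this x hx

/-- From `artin_schreier` : if `b ≠ 0` normalises the commutative subalgebra `M ≠ K` and does not
commute with all its elements, there is a non-central `μ ∈ M` with `μ³ - μ` central. -/
theorem adj_as (d : CD k K C) (M : Subalgebra K C) (hM : ∀ x ∈ M, ∀ y ∈ M, x * y = y * x)
    (b : C) (hb : b ≠ 0) (hbM : ∀ x ∈ M, b * x * b⁻¹ ∈ M) (x : C) (hx : x ∈ M)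
    (hbx : b * x ≠ x * b) :
    ∃ μ ∈ M, (¬ ∀ y, μ * y = y * μ) ∧ ∀ y, (μ ^ 3 - μ) * y = y * (μ ^ 3 - μ) := by
  have := adj_fin d
  have : FiniteDimensional K M := inferInstanceAs (FiniteDimensional K (Subalgebra.toSubmodule M))
  have hd : Module.finrank K M = 3 :=
    comm_dim' d M hM ⟨x, hx, fun h => hbx (h b).symm⟩
  have hc : ∀ x y : M, x * y = y * x := fun x y => Subtype.ext (hM x x.2 y y.2)
  have h3 : (3 : M) = 0 := by
    have h := d.three
    have h' : ((3 : M) : C) = (3 : C) := by norm_cast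
    exact Subtype.ext (by rw [h', h]; rfl)
  let φ : M →ₐ[K] M :=
    { toFun := fun z => ⟨b * z * b⁻¹, hbM z z.2⟩
      map_one' := Subtype.ext (by simp [hb])
      map_mul' := fun z w => Subtype.ext (by
        simp only [Subalgebra.coe_mul]
        have : b * (↑z * ↑w) * b⁻¹ = b * ↑z * (b⁻¹ * b) * ↑w * b⁻¹ := by
          rw [inv_mul_cancel₀ hb]; simp [mul_assoc]
        rw [this]
        simp only [mul_assoc])
      map_zero' := Subtype.ext (by simp)
      map_add' := fun z w => Subtype.ext (by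
        simp only [Subalgebra.coe_add]
        rw [mul_add, add_mul])
      commutes' := fun r => Subtype.ext (by
        simp only [Subalgebra.coe_algebraMap]
        rw [← Algebra.commutes r b, mul_assoc, mul_inv_cancel₀ hb, mul_one]) }
  have hφ : Function.Injective φ := by
    intro z w h
    have h1 : b * (z : C) * b⁻¹ = b * (w : C) * b⁻¹ := congrArg Subtype.val h
    have h2 := mul_right_cancel₀ (inv_ne_zero hb) h1
    exact Subtype.ext (mul_left_cancel₀ hb h2)
  have hφ' : Function.Bijective φ :=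
    ⟨hφ, (LinearMap.injective_iff_surjective (f := φ.toLinearMap)).1 hφ⟩
  obtain ⟨μ, h1, h2⟩ := adj_as_aux hc h3 hd (AlgEquiv.ofBijective φ hφ') ⟨⟨x, hx⟩, by
    intro h
    have h1 : b * x * b⁻¹ = x := congrArg Subtype.val h
    apply hbx
    calc b * x = b * x * b⁻¹ * b := by rw [mul_assoc (b * x), inv_mul_cancel₀ hb, mul_one]
      _ = x * b := by rw [h1]⟩
  refine ⟨μ, μ.2, ?_, ?_⟩
  · intro h
    obtain ⟨r, hr⟩ := (d.cK μ).1 h
    exact h1 ⟨r, Subtype.ext hr⟩
  · obtain ⟨r, hr⟩ := h2
    exact (d.cK _).2 ⟨r, by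
      have := congrArg Subtype.val hr
      simpa using this⟩

/-- From `insep_cube`. -/
theorem adj_insep (d : CD k K C) (M : Subalgebra K C) (hM : ∀ x ∈ M, ∀ y ∈ M, x * y = y * x)
    (μ : C) (hμ : μ ∈ M) (hμc : ¬ ∀ y, μ * y = y * μ) (h9 : ∀ y, μ ^ 9 * y = y * μ ^ 9) :
    ∀ y, μ ^ 3 * y = y * μ ^ 3 := by
  have := adj_fin d
  have : FiniteDimensional K M := inferInstanceAs (FiniteDimensional K (Subalgebra.toSubmodule M))
  have hd : Module.finrank K M = 3 := comm_dim' d M hM ⟨μ, hμ, hμc⟩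
  have hc : ∀ x y : M, x * y = y * x := fun x y => Subtype.ext (hM x x.2 y y.2)
  have h3 : (3 : M) = 0 := by
    have h := d.three
    have h' : ((3 : M) : C) = (3 : C) := by norm_cast
    exact Subtype.ext (by rw [h', h]; rfl)
  obtain ⟨r, hr⟩ := (d.cK _).1 h9
  obtain ⟨s, hs⟩ := adj_insep_aux (K := K) hc h3 hd ⟨μ, hμ⟩ ⟨r, Subtype.ext (by simpa using hr)⟩
  exact (d.cK _).2 ⟨s, by
    have := congrArg Subtype.val hs
    simpa using this⟩

/-- The use of (★): if `ψ' = Int(a) ψ` maps the commutative subalgebra `M` to itself then no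
non-central `μ ∈ M` has `μ³` or `μ³ - μ` central: `ψ'³ μ = q μ q⁻¹ ∈ M`,
`q = a ψ(a) ψ²(a) c`, commutes with `μ`. -/
theorem star_use (d : CD k K C) (M : Subalgebra K C) (hM : ∀ x ∈ M, ∀ y ∈ M, x * y = y * x)
    (a : C) (ha : a ≠ 0) (haM : ∀ x ∈ M, a * d.ψ x * a⁻¹ ∈ M) (μ : C) (hμ : μ ∈ M)
    (hμc : ¬ ∀ y, μ * y = y * μ) :
    (¬ ∀ y, μ ^ 3 * y = y * μ ^ 3) ∧ ¬ ∀ y, (μ ^ 3 - μ) * y = y * (μ ^ 3 - μ) := by
  have key : Commute μ ((a * d.ψ a * d.ψ (d.ψ a) * d.c) * μ *
      (a * d.ψ a * d.ψ (d.ψ a) * d.c)⁻¹) := by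
    have h3 : d.ψ (d.ψ (d.ψ μ)) = d.c * μ * d.c⁻¹ := by
      rw [← d.ψ3 μ, mul_assoc, mul_inv_cancel₀ d.c0, mul_one]
    have h4 := haM _ (haM _ (haM μ hμ))
    simp only [map_mul, map_inv₀, h3] at h4
    have h5 : (a * d.ψ a * d.ψ (d.ψ a) * d.c) * μ * (a * d.ψ a * d.ψ (d.ψ a) * d.c)⁻¹ =
        a * (d.ψ a * (d.ψ (d.ψ a) * (d.c * μ * d.c⁻¹) * (d.ψ (d.ψ a))⁻¹) * (d.ψ a)⁻¹) * a⁻¹ := by
      simp only [mul_inv_rev, mul_assoc]
    rw [h5]
    exact hM μ hμ _ h4
  exact ⟨fun h => d.star μ hμc (Or.inl h) a ha key, fun h => d.star μ hμc (Or.inr h) a ha key⟩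

end NCP
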