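import Mathlib

/-! # Module ART: Artin's theorem for one automorphism of prime order -/

set_option autoImplicit false

namespace NCP

/-- The fixed field of one automorphism. -/
def fixF {M : Type} [Field M] (τ : M ≃+* M) : Subfield M where
  carrier := {x | τ x = x}
  mul_mem' := by intro a b ha hb; simp only [Set.mem_setOf_eq, map_mul] at *; rw [ha, hb]
  one_mem' := map_one τ
  add_mem' := by intro a b ha hb; simp only [Set.mem_setOf_eq, map_add] at *; rw [ha, hb]
  zero_mem' := map_zero τ
  neg_mem' := by intro a ha; simp only [Set.mem_setOf_eq, map_neg] at *; rw [ha]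
  inv_mem' := by intro a ha; simp only [Set.mem_setOf_eq, map_inv₀] at *; rw [ha]

theorem mem_fixF {M : Type} [Field M] (τ : M ≃+* M) (x : M) : x ∈ fixF τ ↔ τ x = x := Iff.rfl

/-- iterates and powers -/
theorem art_pow {M : Type} [Field M] (τ : RingAut M) (n : ℕ) (x : M) : (τ ^ n) x = τ^[n] x := by
  induction n generalizing x with
  | zero => rfl
  | succ n ih =>
    rw [pow_succ, Function.iterate_succ_apply, ← ih]
    rfl

/-- `[M : M^τ] = p` for an automorphism `τ ≠ 1` with `τ^p = 1`, `p` prime.
Use `FixedPoints.finrank_eq_card` for the subgroup `Subgroup.zpowers τ` of `M ≃+* M` (of order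
`p`: `orderOf_eq_prime`), acting on `M`; its `FixedPoints.subfield` is `fixF τ`. -/
theorem finrank_fixF {M : Type} [Field M] (τ : M ≃+* M) (p : ℕ) (hp : p.Prime)
    (hτ : ∀ x, τ^[p] x = x) (hne : ∃ x, τ x ≠ x) : Module.finrank (fixF τ) M = p := by
  have : Fact p.Prime := ⟨hp⟩
  let σ : RingAut M := τ
  have h1 : σ ^ p = 1 := by
    ext x
    rw [art_pow]
    exact hτ x
  have h2 : σ ≠ 1 := by
    rintro h
    obtain ⟨x, hx⟩ := hne
    apply hx
    change σ x = x
    rw [h]
    rfl
  have h3 : orderOf σ = p := orderOf_eq_prime h1 h2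
  have hfin : Finite (Subgroup.zpowers σ) := by
    have h4 : Nat.card (Subgroup.zpowers σ) ≠ 0 := by
      rw [Nat.card_zpowers, h3]
      exact hp.ne_zero
    exact Nat.finite_of_card_ne_zero h4
  have := Fintype.ofFinite (Subgroup.zpowers σ)
  have h5 := FixedPoints.finrank_eq_card (Subgroup.zpowers σ) M
  have h6 : fixF τ = FixedPoints.subfield (Subgroup.zpowers σ) M := by
    ext x
    rw [mem_fixF]
    constructor
    · rintro h ⟨g, hg⟩
      obtain ⟨n, hn⟩ := Subgroup.mem_zpowers_iff.1 hg
      have hx : σ ∈ MulAction.stabilizer (RingAut M) x := h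
      have h7 : σ ^ n ∈ MulAction.stabilizer (RingAut M) x := Subgroup.zpow_mem _ hx n
      rw [hn] at h7
      exact h7
    · intro h
      exact h ⟨σ, Subgroup.mem_zpowers σ⟩
  rw [h6, h5, ← Nat.card_eq_fintype_card, Nat.card_zpowers, h3]

end NCP
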