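import Pool.Agent.H24.NCP.LATS

/-! # Module LAT: the residue algebra is large -/

set_option autoImplicit false

namespace NCP
open HahnSeries

variable {k K C : Type} [Field k] [Field K] [DivisionRing C] [Algebra k K] [Algebra K C]
    [Algebra k C] [IsScalarTower k K C]

theorem lat_lowD_sub (d : CD k K C) {n : ℤ} {x y : DD d} (hx : LowD d n x) (hy : LowD d n y) :
    LowD d n (x - y) := by
  intro m hm
  rw [map_sub, hx m hm, hy m hm, sub_zero]

theorem lat_lowD_succ (d : CD k K C) {n : ℤ} {x : DD d} (hx : LowD d n x) (h : cf d n x = 0) :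
    LowD d (n + 1) x := by
  intro m hm
  rcases lt_or_eq_of_le (Int.lt_add_one_iff.1 hm) with h1 | h1
  · exact hx m h1
  · rw [h1]; exact h

theorem lat_lowD_mono (d : CD k K C) {n m : ℤ} {x : DD d} (hx : LowD d n x) (h : m ≤ n) :
    LowD d m x := fun j hj => hx j (lt_of_lt_of_le hj h)

theorem lat_lowD_sum (d : CD k K C) {n : ℤ} {ι : Type} (s : Finset ι) (f : ι → DD d)
    (h : ∀ i ∈ s, LowD d n (f i)) : LowD d n (∑ i ∈ s, f i) := by
  intro m hm
  rw [map_sum]
  exact Finset.sum_eq_zero fun i hi => h i hi m hm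

theorem lat_lowD_one (d : CD k K C) : LowD d 0 (1 : DD d) := by
  intro m hm
  have h : m / 3 ≠ 0 := by omega
  rw [cf_apply, Cyc3.one_x0, Cyc3.one_x1, Cyc3.one_x2, HahnSeries.coeff_one, if_neg h]
  simp

/-- Scalars from `k`. -/
theorem lat_const_smul (d : CD k K C) (a : k) {n : ℤ} {x : DD d} (hx : LowD d n x) :
    LowD d n ((single 0 a : FF k) • x) ∧
      cf d n ((single 0 a : FF k) • x) = a • cf d n x := by
  have h := dd_smul d 0 n (single 0 a : FF k) x
    (fun m hm => HahnSeries.coeff_single_of_ne (ne_of_lt hm)) hx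
  rw [HahnSeries.coeff_single_same, neg_zero, zpow_zero, mul_one, mul_zero, zero_add] at h
  rw [Algebra.smul_def a (cf d n x)]
  exact h

/-- If `x` has order `≥ 3` then `t⁻¹ x` has order `≥ 0`. -/
theorem lat_t_inv (d : CD k K C) {x : DD d} (hx : LowD d 3 x) :
    LowD d 0 ((single (-1) 1 : FF k) • x) := by
  intro m hm
  have h := cf_t_inv_smul d (m + 3) x
  rw [add_sub_cancel_right, hx (m + 3) (by omega), zero_mul] at h
  exact h

theorem lat_t_tinv {L : Type} [Field L] [Algebra (FF k) L] (l : L) :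
    (single 1 1 : FF k) • ((single (-1) 1 : FF k) • l) = l := by
  rw [smul_smul, HahnSeries.single_mul_single]
  simp

/-- The first step of the approximation. -/
theorem lat_step (d : CD k K C) {L : Type} [Field L] [Algebra (FF k) L] (φ : L →ₐ[FF k] DD d)
    (hC : Module.finrank k C = 27) :
    ∃ s : Fin (Module.finrank k (Lbar d φ)) → L, (∀ i, LowD d 0 (φ (s i))) ∧
      ∀ l : L, LowD d 0 (φ l) → ∃ (a : Fin (Module.finrank k (Lbar d φ)) → k) (m : L),
        LowD d 1 (φ m) ∧ l = ∑ i, (single 0 (a i) : FF k) • s i + m := by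
  have : FiniteDimensional k C := FiniteDimensional.of_finrank_pos (by omega)
  have : FiniteDimensional k (Lbar d φ) :=
    FiniteDimensional.finiteDimensional_submodule (Subalgebra.toSubmodule (Lbar d φ))
  let b := Module.finBasis k (Lbar d φ)
  have hb : ∀ i, ∃ l : L, LowD d 0 (φ l) ∧ cf d 0 (φ l) = (b i : C) := fun i => (b i).2
  choose s hs1 hs2 using hb
  refine ⟨s, hs1, ?_⟩
  intro l hl
  let y : Lbar d φ := ⟨cf d 0 (φ l), l, hl, rfl⟩
  refine ⟨fun i => b.repr y i, l - ∑ i, (single 0 (b.repr y i) : FF k) • s i, ?_, by ring⟩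
  have h1 : LowD d 0 (∑ i, (single 0 (b.repr y i) : FF k) • φ (s i)) :=
    lat_lowD_sum d _ _ fun i _ => (lat_const_smul d _ (hs1 i)).1
  rw [map_sub, map_sum]
  simp only [map_smul]
  refine lat_lowD_succ d (lat_lowD_sub d hl h1) ?_
  rw [map_sub, map_sum, sub_eq_zero]
  have h2 : (∑ i, b.repr y i • b i) = y := b.sum_repr y
  have h3 : cf d 0 (φ l) = ((∑ i, b.repr y i • b i : Lbar d φ) : C) := by rw [h2]
  rw [h3]
  push_cast
  refine Finset.sum_congr rfl fun i _ => ?_
  rw [(lat_const_smul d _ (hs1 i)).2, hs2]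

/-- If all orders of non-zero elements of `L` are divisible by 3 then `[L : F] ≤ dim_k L̄`
(`s_i` lifts of a `k`-basis of `L̄`). -/
theorem lat_unram (d : CD k K C) {L : Type} [Field L] [Algebra (FF k) L] (φ : L →ₐ[FF k] DD d)
    (hC : Module.finrank k C = 27)
    (hA : ∀ (l : L) (n : ℤ), LowD d n (φ l) → cf d n (φ l) ≠ 0 → (3 : ℤ) ∣ n) :
    Module.finrank (FF k) L ≤ Module.finrank k (Lbar d φ) := by
  obtain ⟨s, hs, H⟩ := lat_step d φ hC
  have hspan := lat_span d φ _ s hs (by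
    intro l hl
    obtain ⟨a, m, hm, rfl⟩ := H l hl
    have hm1 : cf d 1 (φ m) = 0 := by
      by_contra h
      have := hA m 1 hm h
      omega
    have hm2 := lat_lowD_succ d hm hm1
    have hm3 : cf d 2 (φ m) = 0 := by
      by_contra h
      have := hA m 2 hm2 h
      omega
    have hm4 := lat_lowD_succ d hm2 hm3
    refine ⟨a, (single (-1) 1 : FF k) • m, ?_, ?_⟩
    · rw [map_smul]
      exact lat_t_inv d hm4
    · rw [lat_t_tinv])
  have h1 := finrank_range_le_card (R := FF k) s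
  rw [Set.finrank, hspan, finrank_top, Fintype.card_fin] at h1
  exact h1

/-- If `π ∈ L` has order 1 then `[L : F] ≤ 3 dim_k L̄` (`s = {l_i π^j : j = 0, 1, 2}`; the element
`π³ t⁻¹ ∈ L` and its inverse have order 0). -/
theorem lat_ram (d : CD k K C) {L : Type} [Field L] [Algebra (FF k) L] (φ : L →ₐ[FF k] DD d)
    (hC : Module.finrank k C = 27) (π : L) (hπ : LowD d 1 (φ π)) (hπ0 : cf d 1 (φ π) ≠ 0) :
    Module.finrank (FF k) L ≤ 3 * Module.finrank k (Lbar d φ) := by
  obtain ⟨s, hs, H⟩ := lat_step d φ hC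
  have hπne : π ≠ 0 := by
    rintro rfl
    rw [map_zero, map_zero] at hπ0
    exact hπ0 rfl
  -- the order of `π⁻¹`
  have hinv : LowD d (-1) (φ π⁻¹) := by
    have h1 : φ π⁻¹ ≠ 0 := by
      intro h
      have h2 : φ (π * π⁻¹) = 0 := by rw [map_mul, h, mul_zero]
      rw [mul_inv_cancel₀ hπne, map_one] at h2
      exact one_ne_zero h2
    obtain ⟨n, hn, hn0⟩ := exists_ord d _ h1
    have h2 := dd_Q2 d 1 n (φ π) (φ π⁻¹) hπ hn
    rw [← map_mul, mul_inv_cancel₀ hπne, map_one] at h2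
    have h3 : cf d (1 + n) (1 : DD d) ≠ 0 := by
      rw [h2.2]
      refine mul_ne_zero hπ0 ?_
      rw [Ne, map_eq_zero_iff _ (RingEquiv.injective _)]
      exact hn0
    have h4 : 0 ≤ 1 + n := by
      by_contra h
      exact h3 (lat_lowD_one d _ (not_le.1 h))
    exact lat_lowD_mono d hn (by omega)
  -- multiplication by `π` and `π⁻¹`
  have hmulπ : ∀ (n : ℤ) (l : L), LowD d n (φ l) → LowD d (n + 1) (φ (l * π)) := by
    intro n l hl
    rw [map_mul]
    exact (dd_Q2 d n 1 _ _ hl hπ).1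
  have hdiv : ∀ l : L, LowD d 1 (φ l) → LowD d 0 (φ (l * π⁻¹)) := by
    intro l hl
    rw [map_mul]
    exact (dd_Q2 d 1 (-1) _ _ hl hinv).1
  have H2 : ∀ l : L, LowD d 1 (φ l) → ∃ (a : Fin (Module.finrank k (Lbar d φ)) → k) (m : L),
        LowD d 1 (φ m) ∧ l = (∑ i, (single 0 (a i) : FF k) • s i) * π + m * π := by
    intro l hl
    obtain ⟨a, m, hm, h⟩ := H (l * π⁻¹) (hdiv l hl)
    refine ⟨a, m, hm, ?_⟩
    rw [← add_mul, ← h, mul_assoc, inv_mul_cancel₀ hπne, mul_one]
  have hspan := lat_span d φ (3 * Module.finrank k (Lbar d φ))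
    (fun q => s (finProdFinEquiv.symm q).2 * π ^ ((finProdFinEquiv.symm q).1 : ℕ)) ?_ ?_
  · have h1 := finrank_range_le_card (R := FF k)
      (fun q : Fin (3 * Module.finrank k (Lbar d φ)) =>
        s (finProdFinEquiv.symm q).2 * π ^ ((finProdFinEquiv.symm q).1 : ℕ))
    rw [Set.finrank, hspan, finrank_top, Fintype.card_fin] at h1
    exact h1
  · have hp : ∀ (l : L) (j : ℕ), LowD d 0 (φ l) → LowD d 0 (φ (l * π ^ j)) := by
      intro l j hl
      induction j with
      | zero => rwa [pow_zero, mul_one]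
      | succ j ih =>
        rw [pow_succ, ← mul_assoc]
        exact lat_lowD_mono d (hmulπ 0 _ ih) (by omega)
    intro q
    exact hp _ _ (hs _)
  · intro l hl
    obtain ⟨a, m, hm, rfl⟩ := H l hl
    obtain ⟨b, m1, hm1, rfl⟩ := H2 m hm
    obtain ⟨c, m2, hm2, rfl⟩ := H2 m1 hm1
    have h3 : LowD d 3 (φ (m2 * π * π)) := hmulπ 2 _ (hmulπ 1 _ hm2)
    refine ⟨fun q => ![a (finProdFinEquiv.symm q).2, b (finProdFinEquiv.symm q).2,
      c (finProdFinEquiv.symm q).2] (finProdFinEquiv.symm q).1,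
      (single (-1) 1 : FF k) • (m2 * π * π), ?_, ?_⟩
    · rw [map_smul]
      exact lat_t_inv d h3
    · rw [lat_t_tinv]
      rw [Equiv.sum_comp finProdFinEquiv.symm (fun q : Fin 3 × Fin (Module.finrank k (Lbar d φ)) =>
        (single 0 (![a q.2, b q.2, c q.2] q.1) : FF k) • (s q.2 * π ^ (q.1 : ℕ)))]
      rw [Fintype.sum_prod_type, Fin.sum_univ_three]
      simp only [Matrix.cons_val_zero, Matrix.cons_val_one, Matrix.cons_val_two, Matrix.head_cons,
        Matrix.tail_cons, Fin.val_zero, Fin.val_one, Fin.val_two, pow_zero,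
        mul_one, pow_one, ← smul_mul_assoc, ← Finset.sum_mul]
      ring

end NCP
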