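import Pool.Agent.H24.NCP.INN
import Pool.Agent.H24.NCP.LAT
import Pool.Agent.H24.NCP.ADJ

/-! # Module CA1: Step I, unramified case, first part -/

set_option autoImplicit false

namespace NCP
open HahnSeries

variable {k K C : Type} [Field k] [Field K] [DivisionRing C] [Algebra k K] [Algebra K C]
    [Algebra k C] [IsScalarTower k K C]

theorem CA1_cube {K : Type} [Field K] (h3 : (3 : K) = 0) (a b : K) (h : a ^ 3 = b ^ 3) :
    a = b := by
  have h1 : (a - b) ^ 3 = 0 := by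
    linear_combination h - (a ^ 2 * b - a * b ^ 2) * h3
  exact sub_eq_zero.1 (pow_eq_zero_iff (by norm_num) |>.1 h1)

/-- Two central elements with the same ninth power are equal. -/
theorem CA1_nine (d : CD k K C) (x y : C) (hx : ∀ z, x * z = z * x) (hy : ∀ z, y * z = z * y)
    (h : x ^ 9 = y ^ 9) : x = y := by
  obtain ⟨x', rfl⟩ := (d.cK x).1 hx
  obtain ⟨y', rfl⟩ := (d.cK y).1 hy
  have hinj : Function.Injective (algebraMap K C) := (algebraMap K C).injective
  have h3 : (3 : K) = 0 := by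
    apply hinj
    rw [map_zero, map_ofNat]
    exact d.three
  rw [← map_pow, ← map_pow] at h
  have h' := hinj h
  congr 1
  apply CA1_cube h3
  apply CA1_cube h3
  rw [← pow_mul, ← pow_mul]
  exact h'

/-- In the unramified case some Galois automorphism is induced by an element of order 1.
Proof: otherwise all `Inn d φ g n u` have `3 ∣ n` (if `3 ∤ n`, scale and square: `n ≡ 2` gives
`2 n ≡ 1`).  Take `θ` (`exists_theta`), in `L̄` by `full_of_dim`, `l` a lift.  Scale to `n = 0`: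
`b θ = \overline{g l} b` and `θ` central, so `\overline{g l} = θ` for all `g`; `res_norm`:
`θ⁹ ∈ k`, so `(ψ θ)⁹ = θ⁹`, `(ψ θ - θ)⁹ = 0`, contradiction. -/
theorem exists_inn_one (d : CD k K C) {L : Type} [Field L] [Algebra (FF k) L]
    (φ : L →ₐ[FF k] DD d) [FiniteDimensional (FF k) L] [IsGalois (FF k) L]
    (h9 : Module.finrank (FF k) L = 9) (hK : ∀ x : C, (∀ y, x * y = y * x) → x ∈ Lbar d φ) :
    ∃ g u, Inn d φ g 1 u := by
  by_contra hcon
  push Not at hcon
  have hone : ∀ (g : L ≃ₐ[FF k] L) (n : ℤ) (u : DD d), Inn d φ g n u → n % 3 ≠ 1 := by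
    intro g n u h hn
    obtain ⟨u', hu'⟩ := h.scale (-(n / 3))
    have e : n + 3 * (-(n / 3)) = 1 := by omega
    rw [e] at hu'
    exact hcon g u' hu'
  have hthree : ∀ (g : L ≃ₐ[FF k] L) (n : ℤ) (u : DD d), Inn d φ g n u → n % 3 = 0 := by
    intro g n u h
    have h1 := hone g n u h
    have h2 := hone _ _ _ (h.mul h)
    omega
  obtain ⟨θ, hθ1, hθ2, _⟩ := exists_theta d
  obtain ⟨l, hl1, hl2⟩ := (mem_Lbar d φ θ).1 (hK θ hθ1)
  have hall : ∀ g : L ≃ₐ[FF k] L, LowD d 0 (φ (g l)) ∧ cf d 0 (φ (g l)) = θ := by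
    intro g
    obtain ⟨n, u, hu⟩ := exists_inn d φ g
    have h1 := hthree g n u hu
    obtain ⟨u', hu'⟩ := hu.scale (-(n / 3))
    have e : n + 3 * (-(n / 3)) = 0 := by omega
    rw [e] at hu'
    obtain ⟨h2, h3⟩ := hu'.res l hl1
    refine ⟨h2, ?_⟩
    rw [zpow_zero, hl2] at h3
    have h4 : cf d 0 u' * θ = cf d 0 (φ (g l)) * cf d 0 u' := h3
    rw [← hθ1] at h4
    exact (mul_right_cancel₀ hu'.2.2 h4).symm
  obtain ⟨r, hr⟩ := res_norm d φ h9 l θ hall
  have h1 : d.ψ (θ ^ 9) = θ ^ 9 := by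
    rw [← hr]
    exact ψ_algebraMap d r
  rw [map_pow] at h1
  apply hθ2
  apply CA1_nine d _ _ ?_ hθ1 h1
  intro z
  obtain ⟨w, rfl⟩ := d.ψ.surjective z
  rw [← map_mul, ← map_mul, hθ1]

end NCP
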