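import Pool.Agent.H24.NCP.ADJ

/-! # Module FUL: large commutative `k`-subalgebras are `K`-subalgebras -/

set_option autoImplicit false

namespace NCP

variable {k K C : Type} [Field k] [Field K] [DivisionRing C] [Algebra k K] [Algebra K C]
    [Algebra k C] [IsScalarTower k K C]

/-- If `dim_k S ≥ 9` for a commutative `k`-subalgebra `S` of `C` then `S` is stable under `K`,
i.e. `adjoin K S = S`: `dim_K (adjoin K S) ≤ 3` (`comm_dim`) so `dim_k (adjoin K S) ≤ 9`.
It has dimension exactly 3 over `K`, so it contains non-central elements. -/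
theorem full_of_dim (d : CD k K C) (S : Subalgebra k C)
    (hS : ∀ x ∈ S, ∀ y ∈ S, x * y = y * x) (h9 : 9 ≤ Module.finrank k S) :
    (∀ x ∈ Algebra.adjoin K (S : Set C), x ∈ S) ∧ ∃ x ∈ S, ¬ ∀ y, x * y = y * x := by
  have hM : ∀ x ∈ Algebra.adjoin K (S : Set C), ∀ y ∈ Algebra.adjoin K (S : Set C),
      x * y = y * x := adjoin_comm (S : Set C) hS
  have hdim := comm_dim d (Algebra.adjoin K (S : Set C)) hM
  have hpos : 0 < Module.finrank K (Algebra.adjoin K (S : Set C)) := by
    rcases hdim with h | h <;> omega
  have hfinK : Module.Finite k K := Module.finite_of_finrank_pos (by rw [d.dk]; norm_num)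
  have hfinM : Module.Finite K (Algebra.adjoin K (S : Set C)) := Module.finite_of_finrank_pos hpos
  have hfin : Module.Finite k (Algebra.adjoin K (S : Set C)) := Module.Finite.trans K _
  have hmul := Module.finrank_mul_finrank k K (Algebra.adjoin K (S : Set C))
  rw [d.dk] at hmul
  -- compare as `k`-submodules
  have hle : Subalgebra.toSubmodule S ≤
      (Subalgebra.toSubmodule (Algebra.adjoin K (S : Set C))).restrictScalars k := by
    intro x hx
    exact Algebra.subset_adjoin hx
  have hfin' : Module.Finite k
      ((Subalgebra.toSubmodule (Algebra.adjoin K (S : Set C))).restrictScalars k) := hfin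
  have hfr : Module.finrank k
      ((Subalgebra.toSubmodule (Algebra.adjoin K (S : Set C))).restrictScalars k) =
      Module.finrank k (Algebra.adjoin K (S : Set C)) := rfl
  have hfrS : Module.finrank k (Subalgebra.toSubmodule S) = Module.finrank k S := rfl
  have hle' := Submodule.finrank_mono hle
  rw [hfr, hfrS] at hle'
  have h3 : Module.finrank K (Algebra.adjoin K (S : Set C)) = 3 := by
    rcases hdim with h | h
    · rw [h] at hmul; omega
    · exact h
  refine ⟨?_, ?_⟩
  · have heq : Subalgebra.toSubmodule S =
        (Subalgebra.toSubmodule (Algebra.adjoin K (S : Set C))).restrictScalars k := by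
      refine Submodule.eq_of_le_of_finrank_le hle ?_
      rw [hfr, hfrS]
      rw [h3] at hmul
      omega
    intro x hx
    have hx' : x ∈ (Subalgebra.toSubmodule (Algebra.adjoin K (S : Set C))).restrictScalars k := hx
    rw [← heq] at hx'
    exact hx'
  · by_contra hcon
    push Not at hcon
    have hbot : Algebra.adjoin K (S : Set C) ≤ ⊥ := by
      refine Algebra.adjoin_le fun x hx => ?_
      rw [SetLike.mem_coe, Algebra.mem_bot]
      exact (d.cK x).1 (hcon x hx)
    have hbot' : Algebra.adjoin K (S : Set C) = ⊥ := le_bot_iff.1 hbot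
    rw [hbot'] at h3
    rw [Subalgebra.finrank_bot] at h3
    omega

end NCP
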