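import Pool.Agent.H24.NCP.CD

/-! # Module VAN: a Vandermonde argument -/

set_option autoImplicit false

namespace NCP

variable {k K C : Type} [Field k] [Field K] [DivisionRing C] [Algebra k K] [Algebra K C]
    [Algebra k C] [IsScalarTower k K C]

/-- Vandermonde: `ψ'` is an additive map with `ψ'(κ x) = ψ(κ) ψ'(x)` for central `κ`.  If `x` is
not central then one of `θⁱ x + ψ'(θⁱ x) + ψ'²(θⁱ x)`, `i = 0, 1, 2`, is not central (`θ`, `ψ θ`,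
`ψ² θ` are distinct central elements; solve the linear system). -/
theorem vand (d : CD k K C) (θ : C) (hθ : ∀ y, θ * y = y * θ) (h1 : d.ψ θ ≠ θ)
    (h2 : d.ψ (d.ψ θ) ≠ θ) (h3 : d.ψ (d.ψ (d.ψ θ)) = θ) (a : C) (ha : a ≠ 0) (x : C)
    (hx : ¬ ∀ y, x * y = y * x) :
    ∃ i : ℕ, ¬ ∀ y, (θ ^ i * x + a * d.ψ (θ ^ i * x) * a⁻¹ +
      a * d.ψ (a * d.ψ (θ ^ i * x) * a⁻¹) * a⁻¹) * y =
      y * (θ ^ i * x + a * d.ψ (θ ^ i * x) * a⁻¹ + a * d.ψ (a * d.ψ (θ ^ i * x) * a⁻¹) * a⁻¹) := by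
  by_contra hcon
  push Not at hcon
  set θ1 := d.ψ θ with hθ1
  set θ2 := d.ψ θ1 with hθ2
  have hc1 : ∀ y, θ1 * y = y * θ1 := by
    intro y
    have h4 := hθ (d.ψ.symm y)
    have h5 := congrArg d.ψ h4
    rw [map_mul, map_mul, d.ψ.apply_symm_apply] at h5
    exact h5
  have hc2 : ∀ y, θ2 * y = y * θ2 := by
    intro y
    have h4 := hc1 (d.ψ.symm y)
    have h5 := congrArg d.ψ h4
    rw [map_mul, map_mul, d.ψ.apply_symm_apply] at h5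
    exact h5
  set X1 := a * d.ψ x * a⁻¹ with hX1
  set X2 := a * d.ψ X1 * a⁻¹ with hX2
  have hp1 : ∀ i : ℕ, ∀ y, θ1 ^ i * y = y * θ1 ^ i := fun i y => (hc1 y |> fun h =>
    (Commute.pow_left (show Commute θ1 y from h) i).eq)
  have hp2 : ∀ i : ℕ, ∀ y, θ2 ^ i * y = y * θ2 ^ i := fun i y => (hc2 y |> fun h =>
    (Commute.pow_left (show Commute θ2 y from h) i).eq)
  have e1 : ∀ i : ℕ, a * d.ψ (θ ^ i * x) * a⁻¹ = θ1 ^ i * X1 := by
    intro i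
    rw [map_mul, map_pow, ← hθ1, hX1, ← mul_assoc a (θ1 ^ i) (d.ψ x), ← hp1 i a]
    simp only [mul_assoc]
  have e2 : ∀ i : ℕ, a * d.ψ (θ1 ^ i * X1) * a⁻¹ = θ2 ^ i * X2 := by
    intro i
    rw [map_mul, map_pow, ← hθ2, hX2, ← mul_assoc a (θ2 ^ i) (d.ψ X1), ← hp2 i a]
    simp only [mul_assoc]
  have hT : ∀ i : ℕ, ∀ y, (θ ^ i * x + θ1 ^ i * X1 + θ2 ^ i * X2) * y =
      y * (θ ^ i * x + θ1 ^ i * X1 + θ2 ^ i * X2) := by
    intro i y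
    have h4 := hcon i y
    rw [e1, e2] at h4
    exact h4
  have hmem : ∀ z : C, z ∈ Subring.center C ↔ ∀ y, z * y = y * z := by
    intro z
    rw [Subring.mem_center_iff]
    exact ⟨fun h y => (h y).symm, fun h y => (h y).symm⟩
  have m0 := (hmem θ).2 hθ
  have m1 := (hmem θ1).2 hc1
  have m2 := (hmem θ2).2 hc2
  have t0 := (hmem _).2 (hT 0)
  have t1 := (hmem _).2 (hT 1)
  have t2 := (hmem _).2 (hT 2)
  have key : θ1 * θ2 * (θ ^ 0 * x + θ1 ^ 0 * X1 + θ2 ^ 0 * X2) -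
      (θ1 + θ2) * (θ ^ 1 * x + θ1 ^ 1 * X1 + θ2 ^ 1 * X2) +
      (θ ^ 2 * x + θ1 ^ 2 * X1 + θ2 ^ 2 * X2) = (θ - θ1) * (θ - θ2) * x := by
    have a1 : θ1 * θ2 - (θ1 + θ2) * θ + θ ^ 2 = (θ - θ1) * (θ - θ2) := by
      rw [sub_mul, mul_sub, mul_sub, add_mul, hθ θ2, sq]
      abel
    have a2 : θ1 * θ2 - (θ1 + θ2) * θ1 + θ1 ^ 2 = 0 := by
      rw [add_mul, hc1 θ2, sq]
      abel
    have a3 : θ1 * θ2 - (θ1 + θ2) * θ2 + θ2 ^ 2 = 0 := by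
      rw [add_mul, sq]
      abel
    calc _ = (θ1 * θ2 - (θ1 + θ2) * θ + θ ^ 2) * x + (θ1 * θ2 - (θ1 + θ2) * θ1 + θ1 ^ 2) * X1 +
          (θ1 * θ2 - (θ1 + θ2) * θ2 + θ2 ^ 2) * X2 := by
            simp only [pow_zero, pow_one, one_mul, mul_add, add_mul, sub_mul, mul_assoc]
            abel
      _ = _ := by rw [a1, a2, a3, zero_mul, zero_mul, add_zero, add_zero]
  have hZ : (θ - θ1) * (θ - θ2) * x ∈ Subring.center C := by
    rw [← key]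
    exact add_mem (sub_mem (mul_mem (mul_mem m1 m2) t0) (mul_mem (add_mem m1 m2) t1)) t2
  have hP : (θ - θ1) * (θ - θ2) ∈ Subring.center C := mul_mem (sub_mem m0 m1) (sub_mem m0 m2)
  have hP0 : (θ - θ1) * (θ - θ2) ≠ 0 :=
    mul_ne_zero (sub_ne_zero.2 h1.symm) (sub_ne_zero.2 h2.symm)
  have hPinv : ((θ - θ1) * (θ - θ2))⁻¹ ∈ Subring.center C :=
    (hmem _).2 fun y => (Commute.inv_left₀ (show Commute _ y from (hmem _).1 hP y)).eq
  have hfin : x ∈ Subring.center C := by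
    have h4 : ((θ - θ1) * (θ - θ2))⁻¹ * ((θ - θ1) * (θ - θ2) * x) = x := by
      rw [← mul_assoc, inv_mul_cancel₀ hP0, one_mul]
    rw [← h4]
    exact mul_mem hPinv hZ
  exact hx ((hmem x).1 hfin)

end NCP
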