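import Pool.Agent.H24.NCP.CA1
import Pool.Agent.H24.NCP.FUL
import Pool.Agent.H24.NCP.VAN

/-! # Module CA2: Step I, unramified case, second part -/

set_option autoImplicit false

namespace NCP
open HahnSeries

variable {k K C : Type} [Field k] [Field K] [DivisionRing C] [Algebra k K] [Algebra K C]
    [Algebra k C] [IsScalarTower k K C]

/-- Proof.  `dim_k L̄ ≥ 9` (`lat_unram`), so `L̄ = adjoin K L̄ =: M` (`full_of_dim`), contains the
centre and a non-central `x`.  `Inn d φ g₁ 1 u₁` (`exists_inn_one`), `a = cf 1 u₁`,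
`ψ' = Int(a) ψ`: `ψ'(l̄) = \overline{g₁ l}`, so `ψ' M ⊆ M` and `star_use` applies.
For `Inn d φ g 0 u`, `b = cf 0 u` normalises `M` (`b l̄ b⁻¹ = \overline{g l}`), so by `adj_as` and
`star_use` it commutes with `M`: `\overline{g l} = l̄` for all `l` (*).
`Inn.mul` twice and scaling: `Inn d φ g₁³ 0 _`, so `ψ'³ = 1` on `M`.  By `vand`
(`exists_theta`) there is `μ = x' + ψ' x' + ψ'² x' ∈ M` (`x' = θⁱ x`) non-central, `ψ' μ = μ`.
Let `l` be a lift of `μ`.  For every `g`, `\overline{g l} = μ`: take `Inn d φ g n u`; if `3 ∣ n`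
use (*); if `n ≡ 1` use (*) for `g g₁²` (`n + 2 ≡ 0`): `\overline{g (g₁² l)} = μ`, and
`\overline{g l'}` only depends on `l̄'` (`Inn.res`), with `\overline{g₁² l} = ψ'² μ = μ`;
`n ≡ 2`: use `g g₁`.  `res_norm`: `μ⁹ ∈ k`; `adj_insep`, `star_use`: contradiction. -/
theorem case_A (d : CD k K C) {L : Type} [Field L] [Algebra (FF k) L] (φ : L →ₐ[FF k] DD d)
    [FiniteDimensional (FF k) L] [IsGalois (FF k) L] (h9 : Module.finrank (FF k) L = 9)
    (hA : ∀ (l : L) (n : ℤ), LowD d n (φ l) → cf d n (φ l) ≠ 0 → (3 : ℤ) ∣ n) : False := by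
  have hC : Module.finrank k C = 27 := by
    rw [← Module.finrank_mul_finrank k K C, d.dk, d.dK]
  have h9' : 9 ≤ Module.finrank k (Lbar d φ) := h9 ▸ lat_unram d φ hC hA
  have hScomm : ∀ x ∈ Lbar d φ, ∀ y ∈ Lbar d φ, x * y = y * x :=
    fun x hx y hy => Lbar_comm d φ x y hx hy
  obtain ⟨hfull, x0, hx0S, hx0⟩ := full_of_dim d (Lbar d φ) hScomm h9'
  have hKS : ∀ x : C, (∀ y, x * y = y * x) → x ∈ Lbar d φ := by
    intro x hx
    obtain ⟨r, rfl⟩ := (d.cK x).1 hx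
    exact hfull _ (Subalgebra.algebraMap_mem _ r)
  obtain ⟨g₁, u₁, hu₁⟩ := exists_inn_one d φ h9 hKS
  set M := Algebra.adjoin K ((Lbar d φ : Subalgebra k C) : Set C) with hMdef
  have hMS : ∀ x, x ∈ M ↔ x ∈ Lbar d φ := fun x => ⟨hfull x, fun h => Algebra.subset_adjoin h⟩
  have hMc : ∀ x ∈ M, ∀ y ∈ M, x * y = y * x := adjoin_comm _ hScomm
  set a := cf d 1 u₁ with hadef
  have ha : a ≠ 0 := hu₁.2.2
  -- action of `g₁`
  have hact : ∀ l, LowD d 0 (φ l) → LowD d 0 (φ (g₁ l)) ∧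
      a * d.ψ (cf d 0 (φ l)) * a⁻¹ = cf d 0 (φ (g₁ l)) := by
    intro l hl
    obtain ⟨h1, h2⟩ := hu₁.res l hl
    refine ⟨h1, ?_⟩
    rw [zpow_one] at h2
    have h2' : a * d.ψ (cf d 0 (φ l)) = cf d 0 (φ (g₁ l)) * a := h2
    rw [h2', mul_assoc, mul_inv_cancel₀ ha, mul_one]
  have haM : ∀ x ∈ M, a * d.ψ x * a⁻¹ ∈ M := by
    intro x hx
    obtain ⟨l, hl, rfl⟩ := (hMS x).1 hx
    rw [(hact l hl).2]
    exact (hMS _).2 ⟨g₁ l, (hact l hl).1, rfl⟩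
  -- elements of order 0 act trivially on the residues
  have hzero : ∀ (g : L ≃ₐ[FF k] L) (u : DD d), Inn d φ g 0 u → ∀ l, LowD d 0 (φ l) →
      cf d 0 (φ (g l)) = cf d 0 (φ l) := by
    intro g u hu
    set b := cf d 0 u with hbdef
    have hb : b ≠ 0 := hu.2.2
    have hres : ∀ l, LowD d 0 (φ l) → LowD d 0 (φ (g l)) ∧
        b * cf d 0 (φ l) = cf d 0 (φ (g l)) * b := by
      intro l hl
      obtain ⟨h1, h2⟩ := hu.res l hl
      rw [zpow_zero] at h2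
      exact ⟨h1, h2⟩
    have hcomm : ∀ x ∈ M, b * x = x * b := by
      intro x hx
      by_contra hne
      obtain ⟨μ, hμM, hμc, hμ3⟩ := adj_as d M hMc b hb (by
        intro x hx
        obtain ⟨l, hl, rfl⟩ := (hMS x).1 hx
        rw [(hres l hl).2, mul_assoc, mul_inv_cancel₀ hb, mul_one]
        exact (hMS _).2 ⟨g l, (hres l hl).1, rfl⟩) x hx hne
      exact (star_use d M hMc a ha haM μ hμM hμc).2 hμ3
    intro l hl
    have h1 := (hres l hl).2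
    rw [hcomm _ ((hMS _).2 ⟨l, hl, rfl⟩)] at h1
    exact (mul_right_cancel₀ hb h1).symm
  -- `g₁³` acts trivially on the residues
  have hcube : ∀ l, LowD d 0 (φ l) → cf d 0 (φ (g₁ (g₁ (g₁ l)))) = cf d 0 (φ l) := by
    intro l hl
    obtain ⟨u, hu⟩ := ((hu₁.mul hu₁).mul hu₁).scale (-1)
    have h0 : (1 + 1 + 1 + 3 * (-1) : ℤ) = 0 := by norm_num
    rw [h0] at hu
    exact hzero _ u hu l hl
  -- a fixed non-central residue
  obtain ⟨θ, hθ, t1, t2, t3⟩ := exists_theta d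
  obtain ⟨i, hi⟩ := vand d θ hθ t1 t2 t3 a ha x0 hx0
  have hxS : θ ^ i * x0 ∈ Lbar d φ :=
    Subalgebra.mul_mem _ (Subalgebra.pow_mem _ (hKS θ hθ) i) hx0S
  obtain ⟨l', hl', hl'x⟩ := hxS
  have r1 := hact l' hl'
  have r2 := hact (g₁ l') r1.1
  have r3 := hact (g₁ (g₁ l')) r2.1
  rw [← hl'x, r1.2, r2.2] at hi
  set μ := cf d 0 (φ l') + cf d 0 (φ (g₁ l')) + cf d 0 (φ (g₁ (g₁ l'))) with hμ
  have hsum : ∀ x y z : L, LowD d 0 (φ x) → LowD d 0 (φ y) → LowD d 0 (φ z) →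
      LowD d 0 (φ (x + y + z)) ∧
        cf d 0 (φ (x + y + z)) = cf d 0 (φ x) + cf d 0 (φ y) + cf d 0 (φ z) := by
    intro x y z hx hy hz
    constructor
    · intro m hm
      rw [map_add, map_add, map_add, map_add, hx m hm, hy m hm, hz m hm, add_zero, add_zero]
    · rw [map_add, map_add, map_add, map_add]
  set l := l' + g₁ l' + g₁ (g₁ l') with hldef
  have hl := hsum l' (g₁ l') (g₁ (g₁ l')) hl' r1.1 r2.1
  rw [← hldef, ← hμ] at hl
  have hgl : LowD d 0 (φ (g₁ l)) ∧ cf d 0 (φ (g₁ l)) = μ := by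
    refine ⟨(hact l hl.1).1, ?_⟩
    have h1 : g₁ l = g₁ l' + g₁ (g₁ l') + g₁ (g₁ (g₁ l')) := by rw [hldef, map_add, map_add]
    rw [h1, (hsum _ _ _ r1.1 r2.1 r3.1).2, hcube l' hl', hμ]
    abel
  have hggl : LowD d 0 (φ (g₁ (g₁ l))) ∧ cf d 0 (φ (g₁ (g₁ l))) = μ := by
    have h1 := hact (g₁ l) hgl.1
    refine ⟨h1.1, ?_⟩
    rw [← h1.2, hgl.2]
    have h2 := (hact l hl.1).2
    rw [hl.2, hgl.2] at h2
    exact h2
  have hMμ : μ ∈ M := (hMS μ).2 ⟨l, hl.1, hl.2⟩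
  -- all conjugates of `l` have residue `μ`
  have hall : ∀ g : L ≃ₐ[FF k] L, LowD d 0 (φ (g l)) ∧ cf d 0 (φ (g l)) = μ := by
    intro g
    obtain ⟨n, u, hu⟩ := exists_inn d φ g
    refine ⟨(hu.res l hl.1).1, ?_⟩
    have hu0 : cf d n u ≠ 0 := hu.2.2
    have hsame : ∀ y, LowD d 0 (φ y) → cf d 0 (φ y) = μ → cf d 0 (φ (g l)) = cf d 0 (φ (g y)) := by
      intro y hy hyμ
      have h1 := (hu.res l hl.1).2
      have h2 := (hu.res y hy).2
      rw [hl.2] at h1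
      rw [hyμ, h1] at h2
      exact mul_right_cancel₀ hu0 h2
    have hsc : ∀ (g' : L ≃ₐ[FF k] L) (n' : ℤ) (u' : DD d), Inn d φ g' n' u' → (3 : ℤ) ∣ n' →
        ∀ y, LowD d 0 (φ y) → cf d 0 (φ (g' y)) = cf d 0 (φ y) := by
      intro g' n' u' hu' h3 y hy
      obtain ⟨m, rfl⟩ := h3
      obtain ⟨u'', hu''⟩ := hu'.scale (-m)
      have h0 : (3 * m + 3 * (-m) : ℤ) = 0 := by ring
      rw [h0] at hu''
      exact hzero _ u'' hu'' y hy
    have hcases : (3 : ℤ) ∣ n ∨ (3 : ℤ) ∣ n + 1 ∨ (3 : ℤ) ∣ n + 1 + 1 := by omega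
    rcases hcases with h | h | h
    · rw [hsc g n u hu h l hl.1, hl.2]
    · have h1 := hsc _ _ _ (hu.mul hu₁) h l hl.1
      rw [hl.2] at h1
      rw [hsame (g₁ l) hgl.1 hgl.2]
      exact h1
    · have h1 := hsc _ _ _ ((hu.mul hu₁).mul hu₁) h l hl.1
      rw [hl.2] at h1
      rw [hsame (g₁ (g₁ l)) hggl.1 hggl.2]
      exact h1
  obtain ⟨r, hr⟩ := res_norm d φ h9 l μ hall
  have h9c : ∀ y, μ ^ 9 * y = y * μ ^ 9 := by
    intro y
    rw [← hr]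
    exact Algebra.commutes r y
  exact (star_use d M hMc a ha haM μ hMμ hi).1 (adj_insep d M hMc μ hMμ hi h9c)

end NCP
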