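import Pool.Agent.H24.NCP.INN
import Pool.Agent.H24.NCP.LAT
import Pool.Agent.H24.NCP.ADJ

/-! # Module CB: Step I, the case where `L` contains an element of order 1 -/

set_option autoImplicit false

namespace NCP
open HahnSeries

variable {k K C : Type} [Field k] [Field K] [DivisionRing C] [Algebra k K] [Algebra K C]
    [Algebra k C] [IsScalarTower k K C]

theorem cb_psi_central (d : CD k K C) {z : C} (hz : ∀ y, z * y = y * z) (y : C) :
    d.ψ z * y = y * d.ψ z := by
  have h := congrArg d.ψ (hz (d.ψ.symm y))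
  rw [map_mul, map_mul, RingEquiv.apply_symm_apply] at h
  exact h

/-- conjugation by `b` composed with a ring homomorphism preserves `adjoin K S` -/
theorem cb_stable (d : CD k K C) (S : Set C) (b : C) (hb : b ≠ 0) (f : C →+* C)
    (hf : ∀ z, (∀ y, z * y = y * z) → ∀ y, f z * y = y * f z)
    (hS : ∀ x ∈ S, b * f x * b⁻¹ ∈ Algebra.adjoin K S) :
    ∀ x ∈ Algebra.adjoin K S, b * f x * b⁻¹ ∈ Algebra.adjoin K S := by
  intro x hx
  induction hx using Algebra.adjoin_induction with
  | mem x hx => exact hS x hx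
  | algebraMap r =>
    have h1 : ∀ y, algebraMap K C r * y = y * algebraMap K C r := (d.cK _).2 ⟨r, rfl⟩
    have h2 := hf _ h1
    rw [← h2 b, mul_assoc, mul_inv_cancel₀ hb, mul_one]
    obtain ⟨s, hs⟩ := (d.cK _).1 h2
    rw [← hs]
    exact Subalgebra.algebraMap_mem _ s
  | add x y _ _ hx hy =>
    rw [map_add, mul_add, add_mul]
    exact Subalgebra.add_mem _ hx hy
  | mul x y _ _ hx hy =>
    have e : b * f (x * y) * b⁻¹ = (b * f x * b⁻¹) * (b * f y * b⁻¹) := by
      rw [map_mul]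
      calc b * (f x * f y) * b⁻¹ = b * f x * 1 * f y * b⁻¹ := by
            rw [mul_one]; simp only [mul_assoc]
        _ = b * f x * (b⁻¹ * b) * f y * b⁻¹ := by rw [inv_mul_cancel₀ hb]
        _ = (b * f x * b⁻¹) * (b * f y * b⁻¹) := by simp only [mul_assoc]
    rw [e]
    exact Subalgebra.mul_mem _ hx hy

/-- Proof.  `a = cf 1 (φ π)`; `Inn.of_mem` and `Inn.res`: `a ψ(l̄) = l̄ a` for `l̄ ∈ L̄`.
By `lat_ram`, `dim_k L̄ ≥ 3`, so there is `μ ∈ L̄` not in `k`; `μ` is not central (else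
`ψ μ = μ`, `μ ∈ k` by `d.ck`).  `M = Algebra.adjoin K L̄` is commutative (`adjoin_comm`) and stable
under `Int(a) ψ` (identity on `L̄`, `ψ` on `K`): `star_use` applies to it.  For every `g` there is
`Inn d φ g 0 u` (`exists_inn`, multiply by `φ (π^(-n))`, `ord_zpow`); `b = cf 0 u` satisfies
`b l̄ = \overline{g l} b`, so `b` normalises `M`; by `adj_as` and `star_use` `b` commutes with `M`;
hence `\overline{g l} = l̄`.  `res_norm`: `μ⁹ ∈ k`; `adj_insep`: `μ³` central; contradiction to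
`star_use`. -/
theorem case_B (d : CD k K C) {L : Type} [Field L] [Algebra (FF k) L] (φ : L →ₐ[FF k] DD d)
    [FiniteDimensional (FF k) L] [IsGalois (FF k) L] (h9 : Module.finrank (FF k) L = 9)
    (π : L) (hπ : OrdD d 1 (φ π)) : False := by
  set a := cf d 1 (φ π) with ha_def
  have ha : a ≠ 0 := hπ.2
  -- `a ψ(x) = x a` on residues
  have hres : ∀ x ∈ Lbar d φ, a * d.ψ x = x * a := by
    rintro x ⟨l, hl, rfl⟩
    have h1 := (Inn.of_mem d φ hπ).res l hl
    have h2 := h1.2
    rw [zpow_one] at h2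
    exact h2
  -- a residue outside `k`
  have hdim : 3 ≤ Module.finrank k (Lbar d φ) := by
    have h1 := lat_ram d φ (cd_finrank d) π hπ.1 hπ.2
    omega
  obtain ⟨μ, hμL, hμk⟩ : ∃ μ ∈ Lbar d φ, μ ∉ Set.range (algebraMap k C) := by
    by_contra hcon
    push Not at hcon
    have hbot : Lbar d φ = ⊥ := by
      rw [eq_bot_iff]
      intro x hx
      rw [Algebra.mem_bot]
      exact hcon x hx
    rw [hbot, Subalgebra.finrank_bot] at hdim
    omega
  have hμc : ¬ ∀ y, μ * y = y * μ := by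
    intro hc
    apply hμk
    apply (d.ck μ).1
    refine ⟨hc, ?_⟩
    have h1 := hres μ hμL
    rw [hc a] at h1
    exact mul_left_cancel₀ ha h1
  -- the commutative subalgebra `M`
  set M := Algebra.adjoin K ((Lbar d φ : Subalgebra k C) : Set C) with hM_def
  have hMc : ∀ x ∈ M, ∀ y ∈ M, x * y = y * x :=
    adjoin_comm _ (fun x hx y hy => Lbar_comm d φ x y hx hy)
  have hLM : ∀ x ∈ Lbar d φ, x ∈ M := fun x hx => Algebra.subset_adjoin hx
  have haM : ∀ x ∈ M, a * d.ψ x * a⁻¹ ∈ M := by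
    apply cb_stable d _ a ha (d.ψ : C →+* C)
    · intro z hz y
      exact cb_psi_central d hz y
    · intro x hx
      have h1 : a * (d.ψ : C →+* C) x = x * a := hres x hx
      rw [h1, mul_assoc, mul_inv_cancel₀ ha, mul_one]
      exact hLM x hx
  have hstar := fun (ν : C) (hν : ν ∈ M) (hνc : ¬ ∀ y, ν * y = y * ν) =>
    star_use d M hMc a ha haM ν hν hνc
  -- every Galois automorphism acts trivially on residues
  have htriv : ∀ (g : L ≃ₐ[FF k] L) (l : L), LowD d 0 (φ l) →
      LowD d 0 (φ (g l)) ∧ cf d 0 (φ (g l)) = cf d 0 (φ l) := by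
    intro g
    obtain ⟨n, u0, hu0⟩ := exists_inn d φ g
    obtain ⟨u, hu⟩ : ∃ u, Inn d φ g 0 u := by
      have h1 := Inn.of_mem d φ (ord_zpow d φ π 1 hπ (-n))
      have h2 := h1.mul hu0
      have e1 : -n * 1 + n = 0 := by ring
      rw [e1, one_mul] at h2
      exact ⟨_, h2⟩
    set b := cf d 0 u with hb_def
    have hb : b ≠ 0 := hu.2.2
    have hbl : ∀ l : L, LowD d 0 (φ l) →
        LowD d 0 (φ (g l)) ∧ b * cf d 0 (φ l) = cf d 0 (φ (g l)) * b := by
      intro l hl
      have h1 := hu.res l hl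
      refine ⟨h1.1, ?_⟩
      have h2 := h1.2
      rw [zpow_zero] at h2
      exact h2
    have hbM : ∀ x ∈ M, b * x * b⁻¹ ∈ M := by
      have := cb_stable d ((Lbar d φ : Subalgebra k C) : Set C) b hb (RingHom.id C)
        (fun z hz y => hz y) (by
          rintro x ⟨l, hl, rfl⟩
          have h1 := hbl l hl
          rw [RingHom.id_apply, h1.2, mul_assoc, mul_inv_cancel₀ hb, mul_one]
          exact hLM _ ⟨g l, h1.1, rfl⟩)
      exact this
    have hbc : ∀ x ∈ M, b * x = x * b := by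
      intro x hx
      by_contra hne
      obtain ⟨ν, hν, hνc, hν3⟩ := adj_as d M hMc b hb hbM x hx hne
      exact (hstar ν hν hνc).2 hν3
    intro l hl
    have h1 := hbl l hl
    refine ⟨h1.1, ?_⟩
    have h2 := hbc _ (hLM _ ⟨l, hl, rfl⟩)
    rw [h1.2] at h2
    exact mul_right_cancel₀ hb h2
  obtain ⟨l, hl, hlμ⟩ := hμL
  have h9' := res_norm d φ h9 l μ (fun g => by
    have := htriv g l hl
    rw [hlμ] at this
    exact this)
  have h9c : ∀ y, μ ^ 9 * y = y * μ ^ 9 := ((d.ck _).2 h9').1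
  have hμM : μ ∈ M := hLM μ ⟨l, hl, hlμ⟩
  exact (hstar μ hμM hμc).1 (adj_insep d M hMc μ hμM hμc h9c)

end NCP
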