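import Mathlib

/-! # The structure `CD`: the division algebra `C` with its automorphism `ψ`, used in Step I -/

set_option autoImplicit false

namespace NCP

/-- `C` is a division ring of characteristic 3, `K` its centre, `[C : K] = 9`, `ψ` an automorphism
with `ψ³ = Int(c)`, `ψ c = c`, `k = K^ψ`, `[K : k] = 3`, and the statement (★). -/
structure CD (k K C : Type) [Field k] [Field K] [DivisionRing C] [Algebra k K] [Algebra K C]
    [Algebra k C] [IsScalarTower k K C] where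
  ψ : C ≃+* C
  c : C
  c0 : c ≠ 0
  ψc : ψ c = c
  ψ3 : ∀ x, ψ (ψ (ψ x)) * c = c * x
  three : (3 : C) = 0
  cK : ∀ x : C, (∀ y, x * y = y * x) ↔ x ∈ Set.range (algebraMap K C)
  ck : ∀ x : C, ((∀ y, x * y = y * x) ∧ ψ x = x) ↔ x ∈ Set.range (algebraMap k C)
  dK : Module.finrank K C = 9
  dk : Module.finrank k K = 3
  star : ∀ μ : C, (¬ ∀ x, μ * x = x * μ) →
    ((∀ x, μ ^ 3 * x = x * μ ^ 3) ∨ (∀ x, (μ ^ 3 - μ) * x = x * (μ ^ 3 - μ))) →
    ∀ a : C, a ≠ 0 →
    ¬ Commute μ ((a * ψ a * ψ (ψ a) * c) * μ * (a * ψ a * ψ (ψ a) * c)⁻¹)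

end NCP
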