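import Mathlib

/-! # Module INV: fixed division ring of an involution that is non-trivial on the centre -/

set_option autoImplicit false

namespace NCP

/-- The division subring of fixed points of an automorphism of a division ring. -/
def fixS {A : Type} [DivisionRing A] (ι : A ≃+* A) : Subfield A where
  carrier := {x | ι x = x}
  mul_mem' := by
    intro a b ha hb
    change ι (a * b) = a * b
    rw [map_mul, show ι a = a from ha, show ι b = b from hb]
  one_mem' := map_one ι
  add_mem' := by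
    intro a b ha hb
    change ι (a + b) = a + b
    rw [map_add, show ι a = a from ha, show ι b = b from hb]
  zero_mem' := map_zero ι
  neg_mem' := by
    intro a ha
    change ι (-a) = -a
    rw [map_neg, show ι a = a from ha]
  inv_mem' := by
    intro a ha
    change ι a⁻¹ = a⁻¹
    rw [map_inv₀, show ι a = a from ha]

theorem mem_fixS {A : Type} [DivisionRing A] (ι : A ≃+* A) (x : A) : x ∈ fixS ι ↔ ι x = x :=
  Iff.rfl

section INV

variable {A : Type} [DivisionRing A]

theorem INV_two (x : A) : (2 : A) * x = x * 2 := by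
  rw [two_mul, mul_two]

theorem INV_twoInv (x : A) : (2 : A)⁻¹ * x = x * (2 : A)⁻¹ := by
  exact ((Commute.inv_left₀ (a := (2 : A)) (b := x) (INV_two x)).eq)

theorem INV_kInv {κ : A} (hκ : ∀ x, κ * x = x * κ) (x : A) : κ⁻¹ * x = x * κ⁻¹ := by
  exact ((Commute.inv_left₀ (a := κ) (b := x) (hκ x)).eq)

theorem INV_map2 (ι : A ≃+* A) : ι (2 : A)⁻¹ = (2 : A)⁻¹ := by
  rw [map_inv₀, map_ofNat]

theorem INV_fixP (ι : A ≃+* A) (ι2 : ∀ x, ι (ι x) = x) (y : A) :
    ι ((2 : A)⁻¹ * (y + ι y)) = (2 : A)⁻¹ * (y + ι y) := by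
  rw [map_mul, map_add, ι2, INV_map2, add_comm]

theorem INV_fixQ (ι : A ≃+* A) (ι2 : ∀ x, ι (ι x) = x) {κ : A} (hικ : ι κ = -κ) (y : A) :
    ι ((2 : A)⁻¹ * κ⁻¹ * (y - ι y)) = (2 : A)⁻¹ * κ⁻¹ * (y - ι y) := by
  rw [map_mul, map_mul, map_sub, ι2, INV_map2, map_inv₀, hικ, inv_neg, mul_neg, neg_mul,
    ← mul_neg, neg_sub]

theorem INV_decomp (h2 : (2 : A) ≠ 0) (ι : A ≃+* A) {κ : A} (hκ0 : κ ≠ 0) (y : A) :
    y = (2 : A)⁻¹ * (y + ι y) + κ * ((2 : A)⁻¹ * κ⁻¹ * (y - ι y)) := by
  have h1 : κ * ((2 : A)⁻¹ * κ⁻¹ * (y - ι y)) = (2 : A)⁻¹ * (y - ι y) := by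
    rw [INV_twoInv κ⁻¹, mul_assoc, ← mul_assoc κ, mul_inv_cancel₀ hκ0, one_mul]
  rw [h1, ← mul_add, add_add_sub_cancel, ← two_mul, ← mul_assoc, inv_mul_cancel₀ h2, one_mul]

end INV

/-- An element of `C = A^ι` that is central in `C` is central in `A`: `A = C + κ C`
(`x = (x + ι x)/2 + κ · (x - ι x)/(2κ)`). -/
theorem inv_center {A : Type} [DivisionRing A] (h2 : (2 : A) ≠ 0) (ι : A ≃+* A)
    (ι2 : ∀ x, ι (ι x) = x) (κ : A) (hκ : ∀ x, κ * x = x * κ) (hικ : ι κ = -κ) (hκ0 : κ ≠ 0)
    (x : fixS ι) (hx : ∀ y : fixS ι, x * y = y * x) (y : A) : (x : A) * y = y * x := by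
  have hP := congrArg (Subtype.val) (hx ⟨_, INV_fixP ι ι2 y⟩)
  have hQ := congrArg (Subtype.val) (hx ⟨_, INV_fixQ ι ι2 hικ y⟩)
  simp only [MulMemClass.coe_mul] at hP hQ
  set a := (2 : A)⁻¹ * (y + ι y) with ha
  set b := (2 : A)⁻¹ * κ⁻¹ * (y - ι y) with hb
  have hd : y = a + κ * b := INV_decomp h2 ι hκ0 y
  calc (x : A) * y = (x : A) * a + (x : A) * κ * b := by rw [hd, mul_add, mul_assoc]
    _ = a * x + κ * (x * b) := by rw [hP, ← hκ, mul_assoc κ]
    _ = y * x := by rw [hQ, ← mul_assoc κ, ← add_mul, ← hd]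

/-- `[C : Z(C)] = [A : Z(A)]`: a `Z(C)`-basis of `C` is a `Z(A)`-basis of `A` (spanning:
`A = C + κ C`; independence: `z = p + κ q` with `p, q ∈ Z(C)` for `z ∈ Z(A)`, apply `ι`). -/
theorem inv_finrank {A : Type} [DivisionRing A] (h2 : (2 : A) ≠ 0) (ι : A ≃+* A)
    (ι2 : ∀ x, ι (ι x) = x) (κ : A) (hκ : ∀ x, κ * x = x * κ) (hικ : ι κ = -κ) (hκ0 : κ ≠ 0) :
    Module.finrank (Subring.center (fixS ι)) (fixS ι) = Module.finrank (Subring.center A) A := by
  classical
  -- elements of the centre of `C` are central in `A`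
  have hZ : ∀ z : Subring.center (fixS ι), ((z : fixS ι) : A) ∈ Subring.center A := by
    intro z
    rw [Subring.mem_center_iff]
    intro g
    exact (inv_center h2 ι ι2 κ hκ hικ hκ0 z
      (fun y => (Subring.mem_center_iff.1 z.2 y).symm) g).symm
  have hκZ : κ ∈ Subring.center A := Subring.mem_center_iff.2 fun g => (hκ g).symm
  -- central elements of `A`
  have hιZ : ∀ z ∈ Subring.center A, ι z ∈ Subring.center A := by
    intro z hz
    rw [Subring.mem_center_iff] at hz ⊢
    intro g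
    have := congrArg ι (hz (ι g))
    rwa [map_mul, map_mul, ι2] at this
  have h2Z : (2 : A)⁻¹ ∈ Subring.center A :=
    Subring.mem_center_iff.2 fun g => (INV_twoInv g).symm
  have hκZ' : κ⁻¹ ∈ Subring.center A := Subring.mem_center_iff.2 fun g => (INV_kInv hκ g).symm
  have hcen : ∀ (z : A) (hz : ι z = z), z ∈ Subring.center A →
      (⟨z, hz⟩ : fixS ι) ∈ Subring.center (fixS ι) := by
    intro z hz hzc
    rw [Subring.mem_center_iff] at hzc ⊢
    intro g
    exact Subtype.ext (hzc g)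
  let b := Module.Free.chooseBasis (Subring.center (fixS ι)) (fixS ι)
  have hli : LinearIndependent (Subring.center A) (fun i => ((b i : fixS ι) : A)) := by
    rw [linearIndependent_iff']
    intro s g hg i hi
    have hg' : ∑ i ∈ s, (g i : A) * ((b i : fixS ι) : A) = 0 := hg
    have hg'' : ∑ i ∈ s, ι (g i : A) * ((b i : fixS ι) : A) = 0 := by
      have h1 := congrArg ι hg'
      rw [map_sum, map_zero] at h1
      rw [← h1]
      refine Finset.sum_congr rfl fun i _ => ?_
      rw [map_mul]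
      congr 1
      exact (b i).2.symm
    have hbi := linearIndependent_iff'.1 b.linearIndependent
    -- the `p` part
    have hP : ∀ i ∈ s, (2 : A)⁻¹ * ((g i : A) + ι (g i)) = 0 := by
      intro i hi
      have h1 := hbi s (fun i => (⟨⟨(2 : A)⁻¹ * ((g i : A) + ι (g i)), INV_fixP ι ι2 _⟩,
        hcen _ _ (Subring.mul_mem _ h2Z (Subring.add_mem _ (g i).2 (hιZ _ (g i).2)))⟩ :
          Subring.center (fixS ι))) (by
        apply Subtype.ext
        rw [AddSubmonoidClass.coe_finsetSum]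
        show ∑ i ∈ s, ((2 : A)⁻¹ * ((g i : A) + ι (g i))) * ((b i : fixS ι) : A) = 0
        calc ∑ i ∈ s, ((2 : A)⁻¹ * ((g i : A) + ι (g i))) * ((b i : fixS ι) : A)
            = (2 : A)⁻¹ * (∑ i ∈ s, (g i : A) * ((b i : fixS ι) : A) +
                ∑ i ∈ s, ι (g i : A) * ((b i : fixS ι) : A)) := by
              rw [← Finset.sum_add_distrib, Finset.mul_sum]
              refine Finset.sum_congr rfl fun i _ => ?_
              rw [mul_assoc, add_mul]
          _ = 0 := by rw [hg', hg'', add_zero, mul_zero]) i hi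
      exact congrArg (fun q : Subring.center (fixS ι) => ((q : fixS ι) : A)) h1
    have hQ : ∀ i ∈ s, (2 : A)⁻¹ * κ⁻¹ * ((g i : A) - ι (g i)) = 0 := by
      intro i hi
      have h1 := hbi s (fun i => (⟨⟨(2 : A)⁻¹ * κ⁻¹ * ((g i : A) - ι (g i)),
        INV_fixQ ι ι2 hικ _⟩,
        hcen _ _ (Subring.mul_mem _ (Subring.mul_mem _ h2Z hκZ')
          (Subring.sub_mem _ (g i).2 (hιZ _ (g i).2)))⟩ :
          Subring.center (fixS ι))) (by
        apply Subtype.ext
        rw [AddSubmonoidClass.coe_finsetSum]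
        show ∑ i ∈ s, ((2 : A)⁻¹ * κ⁻¹ * ((g i : A) - ι (g i))) * ((b i : fixS ι) : A) = 0
        calc ∑ i ∈ s, ((2 : A)⁻¹ * κ⁻¹ * ((g i : A) - ι (g i))) * ((b i : fixS ι) : A)
            = (2 : A)⁻¹ * κ⁻¹ * (∑ i ∈ s, (g i : A) * ((b i : fixS ι) : A) -
                ∑ i ∈ s, ι (g i : A) * ((b i : fixS ι) : A)) := by
              rw [← Finset.sum_sub_distrib, Finset.mul_sum]
              refine Finset.sum_congr rfl fun i _ => ?_
              rw [mul_assoc, sub_mul]
          _ = 0 := by rw [hg', hg'', sub_zero, mul_zero]) i hi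
      exact congrArg (fun q : Subring.center (fixS ι) => ((q : fixS ι) : A)) h1
    apply Subtype.ext
    have h3 := INV_decomp h2 ι hκ0 (g i : A)
    rw [hP i hi, hQ i hi, mul_zero, add_zero] at h3
    exact h3
  have hsp : ⊤ ≤ Submodule.span (Subring.center A) (Set.range (fun i => ((b i : fixS ι) : A))) := by
    have hC : ∀ c : fixS ι, (c : A) ∈ Submodule.span (Subring.center A)
        (Set.range (fun i => ((b i : fixS ι) : A))) := by
      intro c
      have h1 : c ∈ Submodule.span (Subring.center (fixS ι)) (Set.range b) := by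
        rw [b.span_eq]; trivial
      induction h1 using Submodule.span_induction with
      | mem x hx =>
        obtain ⟨i, rfl⟩ := hx
        exact Submodule.subset_span ⟨i, rfl⟩
      | zero => exact Submodule.zero_mem _
      | add x y _ _ hx hy => exact Submodule.add_mem _ hx hy
      | smul a x _ hx =>
        have h3 := Submodule.smul_mem _ (⟨((a : fixS ι) : A), hZ a⟩ : Subring.center A) hx
        exact h3
    intro y _
    have h1 := Submodule.add_mem _ (hC ⟨_, INV_fixP ι ι2 y⟩)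
      (Submodule.smul_mem _ (⟨κ, hκZ⟩ : Subring.center A) (hC ⟨_, INV_fixQ ι ι2 hικ y⟩))
    rw [INV_decomp h2 ι hκ0 y]
    exact h1
  let b' := Module.Basis.mk hli hsp
  rw [Module.finrank_eq_nat_card_basis b, Module.finrank_eq_nat_card_basis b']

end NCP
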