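import Pool.Agent.H24.NCP.RD

/-! # Module LOG: (LOG) from (KLOG) -/

set_option autoImplicit false

namespace NCP

theorem log_mul {R : Type} [Field R] (rd : RD R) (x y : R) :
    rd.δ (x * y) = x * rd.δ y + y * rd.δ x := by
  rw [Derivation.leibniz, smul_eq_mul, smul_eq_mul]

theorem log_cube {R : Type} [Field R] (rd : RD R) (x : R) : rd.δ (x ^ 3) = 0 := by
  rw [Derivation.leibniz_pow]
  have h : (3 : R) = 0 := rd.three
  simp only [nsmul_eq_mul, smul_eq_mul, Nat.cast_ofNat]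
  rw [h, zero_mul]

theorem log_inv {R : Type} [Field R] (rd : RD R) (x : R) :
    rd.δ x⁻¹ = -(x⁻¹ ^ 2 * rd.δ x) := by
  rw [Derivation.leibniz_inv]
  simp

/-- the basic identity `m δ(m δ(m X)) = m X (m² - δ²(m²))` -/
theorem log_ident {R : Type} [Field R] (rd : RD R) (m : R) :
    m * rd.δ (m * rd.δ (m * rd.X)) = m * rd.X * (m ^ 2 - rd.δ (rd.δ (m ^ 2))) := by
  have h3 : (3 : R) = 0 := rd.three
  have h2 : rd.δ (rd.δ (m ^ 2)) = 2 * (rd.δ m) ^ 2 + 2 * m * rd.δ (rd.δ m) := by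
    rw [pow_two, log_mul]
    have : m * rd.δ m + m * rd.δ m = 2 * (m * rd.δ m) := by ring
    rw [this, log_mul, log_mul]
    have h4 : rd.δ (2 : R) = 0 := by
      have : (2 : R) = ((2 : ℕ) : R) := by norm_num
      rw [this, Derivation.map_natCast]
    rw [h4]
    ring
  rw [h2, log_mul rd m rd.X, rd.δX, log_mul, map_add, log_mul, log_mul, rd.δX]
  linear_combination (m ^ 2 * rd.X * rd.δ m + m * rd.X * (rd.δ m ^ 2 + m * rd.δ (rd.δ m))) * h3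

/-- Write `N = z σ(z) σ²(z)`, `m = b N²` with `δ b = 0`.  If `b² N³ (N - δ² N) = 1` and
`j m = -m`, contradiction.

Proof.  `N` is `σ`-fixed.  `b² = 1/(N³(N-δ²N))` is `σ`-fixed, so `σ b = ± b`, and `σ b = -b` would
give `b = σ³ b = -b`.  So `σ b = b`, `σ m = m`.  Put `u = m X`, `u₁ = m δ u`, so that
`m δ u₁ = m X (m² - δ²(m²)) = m X b² N³ (N - δ² N) = u` (as `3 = 0`, `m² = b² N³ N`,
`δ(b²N³) = 0`).  If `Y := u₁ + u ≠ 0` then `m δ Y = Y`; otherwise `u₁ = -u` and `Y := u⁻¹`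
satisfies `m δ Y = Y` (`m δ u = -u`).  `Y` is `σ`-fixed and
`δ Y / Y = 1/m = (b⁻¹ (N⁻¹)³) N`; apply `KLOG` with `β = b⁻¹ (N⁻¹)³`. -/
theorem log_false {R : Type} [Field R] (rd : RD R) (z b : R) (hz : z ≠ 0) (hb : rd.δ b = 0)
    (h1 : b ^ 2 * (z * rd.σ z * rd.σ (rd.σ z)) ^ 3 *
      ((z * rd.σ z * rd.σ (rd.σ z)) - rd.δ (rd.δ (z * rd.σ z * rd.σ (rd.σ z)))) = 1)
    (h2 : rd.j (b * (z * rd.σ z * rd.σ (rd.σ z)) ^ 2) =
      -(b * (z * rd.σ z * rd.σ (rd.σ z)) ^ 2)) : False := by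
  have hσz : rd.σ z ≠ 0 := (map_ne_zero rd.σ).2 hz
  have hσσz : rd.σ (rd.σ z) ≠ 0 := (map_ne_zero rd.σ).2 hσz
  have hN0 : z * rd.σ z * rd.σ (rd.σ z) ≠ 0 := mul_ne_zero (mul_ne_zero hz hσz) hσσz
  have hσN : rd.σ (z * rd.σ z * rd.σ (rd.σ z)) = z * rd.σ z * rd.σ (rd.σ z) := by
    rw [map_mul, map_mul, rd.σ3]
    ring
  have klog := fun (Y β : R) (hY : Y ≠ 0) (h3 : rd.σ Y = Y) (h4 : rd.δ β = 0) (h5 : β ≠ 0) =>
    rd.KLOG Y β z hY h3 h4 h5 hz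
  generalize hN : z * rd.σ z * rd.σ (rd.σ z) = N at h1 h2 hN0 hσN klog
  -- `b ≠ 0`
  have hb0 : b ≠ 0 := by
    rintro rfl
    rw [zero_pow two_ne_zero, zero_mul, zero_mul] at h1
    exact zero_ne_one h1
  -- `σ b = b`
  have hσb : rd.σ b = b := by
    have h3 := congrArg rd.σ h1
    rw [map_mul, map_mul, map_pow, map_pow, map_sub, ← rd.δσ, ← rd.δσ, hσN, map_one] at h3
    have h4 : N ^ 3 * (N - rd.δ (rd.δ N)) ≠ 0 := by
      intro h5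
      rw [mul_assoc, h5, mul_zero] at h1
      exact zero_ne_one h1
    have h5 : rd.σ b ^ 2 = b ^ 2 := by
      apply mul_right_cancel₀ h4
      rw [← mul_assoc, ← mul_assoc, h3, h1]
    rcases sq_eq_sq_iff_eq_or_eq_neg.1 h5 with h6 | h6
    · exact h6
    · exfalso
      have h7 := rd.σ3 b
      have h7' : rd.σ (rd.σ (rd.σ b)) = -b := by
        rw [h6, map_neg, map_neg, h6, map_neg, h6, neg_neg]
      rw [h7'] at h7
      have h8 : b = 0 := by linear_combination b * rd.three + h7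
      exact hb0 h8
  have hm0 : b * N ^ 2 ≠ 0 := mul_ne_zero hb0 (pow_ne_zero 2 hN0)
  have hσm : rd.σ (b * N ^ 2) = b * N ^ 2 := by
    rw [map_mul, map_pow, hσb, hσN]
  -- `m² - δ²(m²) = 1`
  have hm2 : (b * N ^ 2) ^ 2 - rd.δ (rd.δ ((b * N ^ 2) ^ 2)) = 1 := by
    have hc : rd.δ (b ^ 2 * N ^ 3) = 0 := by
      rw [log_mul, log_cube, pow_two, log_mul, hb]
      ring
    have h3 : (b * N ^ 2) ^ 2 = (b ^ 2 * N ^ 3) * N := by ring
    rw [h3, log_mul, hc, mul_zero, add_zero, log_mul, hc, mul_zero, add_zero, ← mul_sub]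
    exact h1
  have hu1 := log_ident rd (b * N ^ 2)
  rw [hm2, mul_one] at hu1
  -- `β`
  have hβ : rd.δ (b⁻¹ * N⁻¹ ^ 3) = 0 := by
    rw [log_mul, log_cube, log_inv, hb]
    ring
  have hβ0 : b⁻¹ * N⁻¹ ^ 3 ≠ 0 := mul_ne_zero (inv_ne_zero hb0) (pow_ne_zero 3 (inv_ne_zero hN0))
  have hβm : b⁻¹ * N⁻¹ ^ 3 * N = (b * N ^ 2)⁻¹ := by
    field_simp
  have hj : rd.j (b⁻¹ * N⁻¹ ^ 3 * N) = -(b⁻¹ * N⁻¹ ^ 3 * N) := by
    rw [hβm, map_inv₀, h2, inv_neg]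
  generalize hmm : b * N ^ 2 = m at hm0 hσm hu1 hβm
  -- a solution of `m δ Y = Y` gives a contradiction
  have hend : ∀ Y : R, Y ≠ 0 → rd.σ Y = Y → m * rd.δ Y = Y → False := by
    intro Y hY hσY hmY
    refine klog Y (b⁻¹ * N⁻¹ ^ 3) hY hσY hβ hβ0 ?_ hj
    rw [hβm]
    calc rd.δ Y = m⁻¹ * (m * rd.δ Y) := by rw [inv_mul_cancel_left₀ hm0]
      _ = m⁻¹ * Y := by rw [hmY]
  have hσu : rd.σ (m * rd.X) = m * rd.X := by rw [map_mul, hσm, rd.σX]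
  have hσu1 : rd.σ (m * rd.δ (m * rd.X)) = m * rd.δ (m * rd.X) := by
    rw [map_mul, hσm, ← rd.δσ, hσu]
  have hu0 : m * rd.X ≠ 0 := mul_ne_zero hm0 rd.X0
  by_cases hY : m * rd.δ (m * rd.X) + m * rd.X = 0
  · refine hend (m * rd.X)⁻¹ (inv_ne_zero hu0) (by rw [map_inv₀, hσu]) ?_
    rw [log_inv]
    have h5 : m * rd.δ (m * rd.X) = -(m * rd.X) := eq_neg_of_add_eq_zero_left hY
    calc m * -((m * rd.X)⁻¹ ^ 2 * rd.δ (m * rd.X))
        = -((m * rd.X)⁻¹ ^ 2 * (m * rd.δ (m * rd.X))) := by ring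
      _ = (m * rd.X)⁻¹ ^ 2 * (m * rd.X) := by rw [h5]; ring
      _ = (m * rd.X)⁻¹ := by
          rw [pow_two, mul_assoc, inv_mul_cancel₀ hu0, mul_one]
  · refine hend _ hY (by rw [map_add, hσu1, hσu]) ?_
    rw [map_add, mul_add, hu1]
    ring

end NCP
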