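import Pool.Agent.H24.NCP.RD

/-! # Module S2B: ring identities for Step II -/

set_option autoImplicit false

namespace NCP

/-- `ad(μ)³ = ad(μ³)` in characteristic 3. -/
theorem ad_cube {A : Type} [Ring A] (h3 : (3 : A) = 0) (μ y : A) :
    μ * (μ * (μ * y - y * μ) - (μ * y - y * μ) * μ) -
        (μ * (μ * y - y * μ) - (μ * y - y * μ) * μ) * μ = μ ^ 3 * y - y * μ ^ 3 := by
  have h : μ * (μ * (μ * y - y * μ) - (μ * y - y * μ) * μ) -
        (μ * (μ * y - y * μ) - (μ * y - y * μ) * μ) * μ =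
        μ ^ 3 * y - y * μ ^ 3 + 3 * (μ * y * μ * μ - μ * μ * y * μ) := by
    noncomm_ring
  rw [h, h3, zero_mul, add_zero]

/-- the cube of a difference of commuting elements in characteristic 3 -/
theorem S2B_cube {A : Type} [Ring A] (h3 : (3 : A) = 0) {a b : A} (h : Commute a b) :
    (a - b) ^ 3 = a ^ 3 - b ^ 3 := by
  have h1 : (a - b) ^ 3 = a ^ 3 - b ^ 3 - (a * a * b + a * b * a + b * a * a) +
      (a * b * b + b * a * b + b * b * a) := by
    noncomm_ring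
  have hc : b * a = a * b := h.eq.symm
  have x1 : a * b * a = a * a * b := by rw [mul_assoc, hc, ← mul_assoc]
  have x2 : b * a * a = a * a * b := by rw [hc, x1]
  have x3 : b * a * b = a * b * b := by rw [hc]
  have x4 : b * b * a = a * b * b := by rw [mul_assoc, hc, ← mul_assoc, hc]
  have x5 : a * a * b + a * a * b + a * a * b = 3 * (a * a * b) := by noncomm_ring
  have x6 : a * b * b + a * b * b + a * b * b = 3 * (a * b * b) := by noncomm_ring
  rw [h1, x1, x2, x3, x4, x5, x6, h3, zero_mul, zero_mul, sub_zero, add_zero]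

/-- If `μ` commutes with `μ₁ = q μ q⁻¹` and `μ³` or `μ³ - μ` is central, then
`q μ - μ q = r q` with `r ∈ {0, 1, -1}`, and `r = 0` if `μ³` is central.
(`r = μ₁ - μ`, `r³ = μ₁³ - μ³`.) -/
theorem comm_cases {A : Type} [DivisionRing A] (h3 : (3 : A) = 0) (μ q : A) (hq : q ≠ 0)
    (h : Commute μ (q * μ * q⁻¹))
    (ht : (∀ x, μ ^ 3 * x = x * μ ^ 3) ∨ (∀ x, (μ ^ 3 - μ) * x = x * (μ ^ 3 - μ))) :
    q * μ - μ * q = 0 ∨
      ((∀ x, (μ ^ 3 - μ) * x = x * (μ ^ 3 - μ)) ∧ (q * μ - μ * q = q ∨ q * μ - μ * q = -q)) := by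
  set μ₁ := q * μ * q⁻¹ with hμ₁
  have h1 : μ₁ * q = q * μ := by rw [hμ₁, inv_mul_cancel_right₀ hq]
  have hr : q * μ - μ * q = (μ₁ - μ) * q := by rw [sub_mul, h1]
  have hconj : μ₁ ^ 3 = q * μ ^ 3 * q⁻¹ := by
    have : ∀ n : ℕ, μ₁ ^ n * q = q * μ ^ n := by
      intro n
      induction n with
      | zero => simp
      | succ n ih => rw [pow_succ, mul_assoc, h1, ← mul_assoc, ih, mul_assoc, ← pow_succ]
    rw [← this 3, mul_inv_cancel_right₀ hq]
  have hcube : (μ₁ - μ) ^ 3 = μ₁ ^ 3 - μ ^ 3 := S2B_cube h3 h.symm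
  rcases ht with ht | ht
  · left
    have h2 : μ₁ ^ 3 = μ ^ 3 := by
      rw [hconj, ← ht, mul_inv_cancel_right₀ hq]
    rw [h2, sub_self] at hcube
    have h4 : μ₁ - μ = 0 := by
      exact pow_eq_zero_iff (three_ne_zero) |>.1 hcube
    rw [hr, h4, zero_mul]
  · have h2 : μ₁ ^ 3 - μ₁ = μ ^ 3 - μ := by
      have h5 : μ₁ ^ 3 - μ₁ = q * (μ ^ 3 - μ) * q⁻¹ := by
        rw [hconj, hμ₁, mul_sub, sub_mul]
      rw [h5, ← ht, mul_inv_cancel_right₀ hq]
    have h6 : (μ₁ - μ) ^ 3 = μ₁ - μ := by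
      rw [hcube]
      have : μ₁ ^ 3 - μ ^ 3 = (μ₁ ^ 3 - μ₁) - (μ ^ 3 - μ) + (μ₁ - μ) := by abel
      rw [this, h2, sub_self, zero_add]
    set r := μ₁ - μ with hrdef
    have h7 : r * ((r - 1) * (r + 1)) = 0 := by
      have : r * ((r - 1) * (r + 1)) = r ^ 3 - r := by noncomm_ring
      rw [this, h6, sub_self]
    rcases mul_eq_zero.1 h7 with h8 | h8
    · left; rw [hr, h8, zero_mul]
    · right
      refine ⟨ht, ?_⟩
      rcases mul_eq_zero.1 h8 with h9 | h9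
      · left; rw [hr, sub_eq_zero.1 h9, one_mul]
      · right; rw [hr, eq_neg_of_add_eq_zero_left h9, neg_one_mul]

/-- The symbol computation for `i ≡ 1 mod 3`. -/
theorem w3_one {R : Type} [Field R] (rd : RD R) (i : ℤ) (hi : (i : R) = 1) (m w₁ w₂ w₃ : R)
    (h1 : w₁ = -(i : R) * m * rd.X)
    (h2 : w₂ = ((i + 1 : ℤ) : R) * rd.δ m * w₁ - (i : R) * m * rd.δ w₁)
    (h3 : w₃ = ((2 * i + 2 : ℤ) : R) * rd.δ m * w₂ - (i : R) * m * rd.δ w₂) :
    w₃ = rd.X * m ^ 2 * (rd.δ (rd.δ m) - m) := by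
  push_cast at h2 h3
  rw [hi] at h1 h2 h3
  have e1 : w₁ = -(m * rd.X) := by rw [h1]; ring
  have d1 : rd.δ w₁ = -(m * rd.X + rd.X * rd.δ m) := by
    rw [e1, map_neg, Derivation.leibniz, smul_eq_mul, smul_eq_mul, rd.δX]
  have e2 : w₂ = m * (m * rd.X) - m * (rd.X * rd.δ m) := by
    rw [h2, d1, e1]; ring
  have d2 : rd.δ w₂ = (m * (m * rd.X + rd.X * rd.δ m) + m * rd.X * rd.δ m) -
      (m * (rd.X * rd.δ (rd.δ m) + rd.δ m * rd.X) + rd.X * rd.δ m * rd.δ m) := by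
    rw [e2, map_sub, Derivation.leibniz, Derivation.leibniz, Derivation.leibniz,
      Derivation.leibniz, rd.δX]
    simp only [smul_eq_mul]
  rw [h3, d2, e2]
  linear_combination (rd.δ m * (m * (m * rd.X) - m * (rd.X * rd.δ m))) * rd.three

/-- The symbol computation for `i ≡ -1 mod 3`. -/
theorem w3_two {R : Type} [Field R] (rd : RD R) (i : ℤ) (hi : (i : R) = -1) (m w₁ w₂ w₃ : R)
    (h1 : w₁ = -(i : R) * m * rd.X)
    (h2 : w₂ = ((i + 1 : ℤ) : R) * rd.δ m * w₁ - (i : R) * m * rd.δ w₁)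
    (h3 : w₃ = ((2 * i + 2 : ℤ) : R) * rd.δ m * w₂ - (i : R) * m * rd.δ w₂) :
    w₃ = m * rd.X * (m ^ 2 - rd.δ (rd.δ (m ^ 2))) := by
  push_cast at h2 h3
  rw [hi] at h1 h2 h3
  have e1 : w₁ = m * rd.X := by rw [h1]; ring
  have d1 : rd.δ w₁ = m * rd.X + rd.X * rd.δ m := by
    rw [e1, Derivation.leibniz, smul_eq_mul, smul_eq_mul, rd.δX]
  have e2 : w₂ = m * (m * rd.X) + m * (rd.X * rd.δ m) := by
    rw [h2, d1, e1]; ring
  have d2 : rd.δ w₂ = (m * (m * rd.X + rd.X * rd.δ m) + m * rd.X * rd.δ m) +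
      (m * (rd.X * rd.δ (rd.δ m) + rd.δ m * rd.X) + rd.X * rd.δ m * rd.δ m) := by
    rw [e2, map_add, Derivation.leibniz, Derivation.leibniz, Derivation.leibniz,
      Derivation.leibniz, rd.δX]
    simp only [smul_eq_mul]
  have d3 : rd.δ (rd.δ (m ^ 2)) = 2 * (m * rd.δ (rd.δ m) + rd.δ m * rd.δ m) := by
    have : rd.δ (m ^ 2) = 2 * (m * rd.δ m) := by
      rw [pow_two, Derivation.leibniz, smul_eq_mul]; ring
    rw [this, two_mul, map_add, Derivation.leibniz]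
    simp only [smul_eq_mul]
    ring
  rw [h3, d2, d3]
  linear_combination (m * rd.X * (rd.δ m * rd.δ m + m * rd.δ (rd.δ m) + m * rd.δ m)) * rd.three

/-- `i δ(N) m = N δ(m)`, `i ≡ ±1`, `N, m ≠ 0`: `m = b N` resp. `m = b N²` with `δ b = 0`. -/
theorem m_eq_bN {R : Type} [Field R] (rd : RD R) (N m : R) (hN : N ≠ 0) :
    (rd.δ N * m = N * rd.δ m → rd.δ (m / N) = 0) ∧
    (-(rd.δ N * m) = N * rd.δ m → rd.δ (m / N ^ 2) = 0) := by
  constructor
  · intro h
    set b := m / N with hb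
    have hm : m = b * N := by rw [hb]; field_simp
    have hd : rd.δ m = b * rd.δ N + N * rd.δ b := by
      rw [hm, Derivation.leibniz, smul_eq_mul, smul_eq_mul]
    rw [hd, hm] at h
    have h4 : N ^ 2 * rd.δ b = 0 := by linear_combination -h
    exact (mul_eq_zero.1 h4).resolve_left (pow_ne_zero 2 hN)
  · intro h
    set b := m / N ^ 2 with hb
    have hm : m = b * (N * N) := by rw [hb]; field_simp
    have hd : rd.δ m = b * (N * rd.δ N + N * rd.δ N) + N * N * rd.δ b := by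
      rw [hm, Derivation.leibniz, Derivation.leibniz, smul_eq_mul, smul_eq_mul, smul_eq_mul]
    rw [hd, hm] at h
    have h4 : N ^ 3 * rd.δ b = 0 := by
      linear_combination -h - (b * N ^ 2 * rd.δ N) * rd.three
    exact (mul_eq_zero.1 h4).resolve_left (pow_ne_zero 3 hN)

/-- With `m = b N`, `δ b = 0`: `δ²m - m = b (δ²N - N)`; with `m = b N²`:
`m² - δ²(m²) = b² N³ (N - δ²N)`. -/
theorem delta_bN {R : Type} [Field R] (rd : RD R) (N b : R) (hb : rd.δ b = 0) :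
    rd.δ (rd.δ (b * N)) = b * rd.δ (rd.δ N) ∧
    (b * N ^ 2) ^ 2 - rd.δ (rd.δ ((b * N ^ 2) ^ 2)) = b ^ 2 * N ^ 3 * (N - rd.δ (rd.δ N)) := by
  have hbx : ∀ x, rd.δ (b * x) = b * rd.δ x := by
    intro x
    rw [Derivation.leibniz, hb, smul_zero, add_zero, smul_eq_mul]
  have hbbx : ∀ x, rd.δ (b ^ 2 * x) = b ^ 2 * rd.δ x := by
    intro x
    rw [pow_two, mul_assoc, hbx, hbx, mul_assoc]
  constructor
  · rw [hbx, hbx]
  · have hN4 : rd.δ (N ^ 4) = N ^ 3 * rd.δ N := by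
      rw [Derivation.leibniz_pow, smul_eq_mul, nsmul_eq_mul]
      push_cast
      linear_combination (N ^ 3 * rd.δ N) * rd.three
    have hN3 : rd.δ (N ^ 3) = 0 := by
      rw [Derivation.leibniz_pow, nsmul_eq_mul]
      push_cast
      rw [rd.three, zero_mul]
    have h1 : (b * N ^ 2) ^ 2 = b ^ 2 * N ^ 4 := by ring
    rw [h1, hbbx, hbbx, hN4, Derivation.leibniz, hN3]
    simp only [smul_eq_mul, mul_zero, add_zero]
    ring

end NCP
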