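import Pool.Agent.H24.NCP.S2A
import Pool.Agent.H24.NCP.S2B
import Pool.Agent.H24.NCP.LOG

/-! # Module S2: Step II, the statement (★) for `C̃` -/

set_option autoImplicit false

namespace NCP

variable {R A : Type} [Field R] [DivisionRing A] {rd : RD R}

/-- the residues of an integer modulo 3 in a field of characteristic 3 -/
theorem s2_mod (rd : RD R) (i : ℤ) :
    (3 : ℤ) ∣ i ∨ ((i : R) = 1) ∨ ((i : R) = -1) := by
  obtain ⟨t, ht⟩ : ∃ t : ℤ, i = 3 * t ∨ i = 3 * t + 1 ∨ i = 3 * t - 1 := by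
    refine ⟨(i + 1) / 3, ?_⟩
    omega
  rcases ht with h | h | h
  · left
    exact ⟨t, h⟩
  · right; left
    rw [h]
    push_cast
    rw [rd.three]
    ring
  · right; right
    rw [h]
    push_cast
    rw [rd.three]
    ring

/-- the symbol of a vanishing element is zero -/
theorem s2_L0 (P : CTP rd A) (n : ℤ) : P.L n 0 = 0 := map_zero _

/-- the case `δ² N = N` is impossible, `δ²`-part -/
theorem s2_no (rd : RD R) (z : R) (hz : z ≠ 0)
    (h : rd.δ (rd.δ (z * rd.σ z * rd.σ (rd.σ z))) = z * rd.σ z * rd.σ (rd.σ z)) : False :=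
  rd.E1 (rd.δ (z * rd.σ z * rd.σ (rd.σ z))) z hz h

/-- `N ≠ 0` -/
theorem s2_N0 (rd : RD R) (z : R) (hz : z ≠ 0) : z * rd.σ z * rd.σ (rd.σ z) ≠ 0 := by
  have h1 : rd.σ z ≠ 0 := (map_ne_zero rd.σ).2 hz
  have h2 : rd.σ (rd.σ z) ≠ 0 := (map_ne_zero rd.σ).2 h1
  exact mul_ne_zero (mul_ne_zero hz h1) h2

/-- the symbols: `w₃ = 0` is impossible -/
theorem s2_w3 (rd : RD R) (i : ℤ) (hi : ((i : R) = 1) ∨ ((i : R) = -1)) (z m w₁ w₂ w₃ : R)
    (hz : z ≠ 0) (hm : m ≠ 0)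
    (hrel : (i : R) * rd.δ (z * rd.σ z * rd.σ (rd.σ z)) * m =
      z * rd.σ z * rd.σ (rd.σ z) * rd.δ m)
    (h1 : w₁ = -(i : R) * m * rd.X)
    (h2 : w₂ = ((i + 1 : ℤ) : R) * rd.δ m * w₁ - (i : R) * m * rd.δ w₁)
    (h3 : w₃ = ((2 * i + 2 : ℤ) : R) * rd.δ m * w₂ - (i : R) * m * rd.δ w₂)
    (h0 : w₃ = 0) : False := by
  have hN := s2_N0 rd z hz
  rcases hi with hi | hi
  · have hw := w3_one rd i hi m w₁ w₂ w₃ h1 h2 h3
    rw [h0] at hw
    rw [hi, one_mul] at hrel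
    have hb := (m_eq_bN rd _ m hN).1 hrel
    set N := z * rd.σ z * rd.σ (rd.σ z) with hNdef
    have hmb : m = (m / N) * N := by field_simp
    have hb0 : m / N ≠ 0 := div_ne_zero hm hN
    have hd := (delta_bN rd N (m / N) hb).1
    rw [← hmb] at hd
    have h4 : rd.δ (rd.δ m) - m = 0 := by
      rcases mul_eq_zero.1 hw.symm with h5 | h5
      · exact absurd h5 (mul_ne_zero rd.X0 (pow_ne_zero 2 hm))
      · exact h5
    rw [hd] at h4
    have h5 : (m / N) * (rd.δ (rd.δ N) - N) = 0 := by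
      calc (m / N) * (rd.δ (rd.δ N) - N) = (m / N) * rd.δ (rd.δ N) - (m / N) * N := by ring
        _ = (m / N) * rd.δ (rd.δ N) - m := by rw [← hmb]
        _ = 0 := h4
    rcases mul_eq_zero.1 h5 with h6 | h6
    · exact hb0 h6
    · exact s2_no rd z hz (sub_eq_zero.1 h6)
  · have hw := w3_two rd i hi m w₁ w₂ w₃ h1 h2 h3
    rw [h0] at hw
    have hrel' : -(rd.δ (z * rd.σ z * rd.σ (rd.σ z)) * m) =
        z * rd.σ z * rd.σ (rd.σ z) * rd.δ m := by
      rw [← hrel, hi]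
      ring
    have hb := (m_eq_bN rd _ m hN).2 hrel'
    set N := z * rd.σ z * rd.σ (rd.σ z) with hNdef
    have hmb : m = (m / N ^ 2) * N ^ 2 := by field_simp
    have hb0 : m / N ^ 2 ≠ 0 := div_ne_zero hm (pow_ne_zero 2 hN)
    have hd := (delta_bN rd N (m / N ^ 2) hb).2
    rw [← hmb] at hd
    have h4 : m ^ 2 - rd.δ (rd.δ (m ^ 2)) = 0 := by
      rcases mul_eq_zero.1 hw.symm with h5 | h5
      · exact absurd h5 (mul_ne_zero hm rd.X0)
      · exact h5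
    rw [hd] at h4
    rcases mul_eq_zero.1 h4 with h6 | h6
    · exact absurd h6 (mul_ne_zero (pow_ne_zero 2 hb0) (pow_ne_zero 3 hN))
    · exact s2_no rd z hz (sub_eq_zero.1 h6).symm

/-- the symbols: `i = -1`, `w₃ = w₁` and `j m = -m` is impossible -/
theorem s2_w3' (rd : RD R) (z m w₁ w₂ w₃ : R)
    (hz : z ≠ 0) (hm : m ≠ 0)
    (hrel : ((-1 : ℤ) : R) * rd.δ (z * rd.σ z * rd.σ (rd.σ z)) * m =
      z * rd.σ z * rd.σ (rd.σ z) * rd.δ m)
    (h1 : w₁ = -((-1 : ℤ) : R) * m * rd.X)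
    (h2 : w₂ = ((-1 + 1 : ℤ) : R) * rd.δ m * w₁ - ((-1 : ℤ) : R) * m * rd.δ w₁)
    (h3 : w₃ = ((2 * (-1) + 2 : ℤ) : R) * rd.δ m * w₂ - ((-1 : ℤ) : R) * m * rd.δ w₂)
    (h0 : w₃ = w₁) (hj : rd.j m = -m) : False := by
  have hN := s2_N0 rd z hz
  have hi : ((-1 : ℤ) : R) = -1 := by push_cast; rfl
  have hw := w3_two rd (-1) hi m w₁ w₂ w₃ h1 h2 h3
  rw [h0, h1, hi] at hw
  have hrel' : -(rd.δ (z * rd.σ z * rd.σ (rd.σ z)) * m) =
      z * rd.σ z * rd.σ (rd.σ z) * rd.δ m := by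
    rw [← hrel, hi]
    ring
  have hb := (m_eq_bN rd _ m hN).2 hrel'
  set N := z * rd.σ z * rd.σ (rd.σ z) with hNdef
  have hmb : m = (m / N ^ 2) * N ^ 2 := by field_simp
  have hd := (delta_bN rd N (m / N ^ 2) hb).2
  rw [← hmb] at hd
  have h4 : m ^ 2 - rd.δ (rd.δ (m ^ 2)) = 1 := by
    have h5 : m * rd.X * (m ^ 2 - rd.δ (rd.δ (m ^ 2)) - 1) = 0 := by
      have : m * rd.X * (m ^ 2 - rd.δ (rd.δ (m ^ 2)) - 1) =
        m * rd.X * (m ^ 2 - rd.δ (rd.δ (m ^ 2))) - m * rd.X := by ring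
      rw [this, ← hw]
      ring
    rcases mul_eq_zero.1 h5 with h6 | h6
    · exact absurd h6 (mul_ne_zero hm rd.X0)
    · exact sub_eq_zero.1 h6
  rw [hd] at h4
  refine log_false rd z (m / N ^ 2) hz hb h4 ?_
  rw [← hNdef, ← hmb]
  exact hj

/-- the main part of the proof: the case `[q, μ] = r q`, `r ∈ {0, 1}` -/
theorem s2_core (P : CTP rd A) (μ : A) (hι : P.ι μ = μ) (hnc : ¬ ∀ x, μ * x = x * μ)
    (ht : (∀ x, μ ^ 3 * x = x * μ ^ 3) ∨ (∀ x, (μ ^ 3 - μ) * x = x * (μ ^ 3 - μ)))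
    (a : A) (ha : a ≠ 0) (q : A) (hq : q = a * P.ψ a * P.ψ (P.ψ a) * P.w)
    (hr : q * μ - μ * q = 0 ∨ q * μ - μ * q = q) : False := by
  obtain ⟨k, i, hkc, hkι, hlow, hne, hch⟩ := s2_max P μ hι hnc
  obtain ⟨n, hn, hz⟩ := s2_low P a ha
  obtain ⟨hqL, hqN⟩ := s2_q P a n hn
  rw [← hq] at hqL hqN
  set z := P.L n a with hzdef
  have hN := s2_N0 rd z hz
  set m := P.L i (μ + k) with hmdef
  -- the bracket with `q`
  have hbr : q * (μ + k) - (μ + k) * q = q * μ - μ * q := by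
    rw [mul_add, add_mul, hkc q]
    abel
  obtain ⟨hb1, hb2⟩ := P.P3 (3 * n + 1) i q (μ + k) hqL hlow
  rw [hbr, hqN, ← hmdef] at hb2
  rw [hbr] at hb1
  have hcast : (((3 * n + 1 : ℤ)) : R) = 1 := by
    push_cast
    rw [rd.three]
    ring
  rw [hcast, one_mul] at hb2
  -- the relation `i δ(N) m = N δ(m)`
  have hrel : (i : R) * rd.δ (z * rd.σ z * rd.σ (rd.σ z)) * m =
      z * rd.σ z * rd.σ (rd.σ z) * rd.δ m := by
    rcases hr with hr | hr
    · rw [hr, s2_L0] at hb2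
      exact sub_eq_zero.1 hb2.symm
    · rw [hr] at hb1 hb2
      rcases lt_trichotomy i (-1) with h | h | h
      · have h5 := hqL (3 * n + 1 + i + 1) (by omega)
        rw [h5] at hb2
        exact sub_eq_zero.1 hb2.symm
      · exfalso
        subst h
        have h5 : (3 * n + 1 + (-1) + 1 : ℤ) = 3 * n + 1 := by ring
        rw [h5, hqN] at hb2
        refine rd.E1 (-(z * rd.σ z * rd.σ (rd.σ z) * m)) z hz ?_
        rw [map_neg, Derivation.leibniz, smul_eq_mul, smul_eq_mul]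
        have h6 : ((-1 : ℤ) : R) = -1 := by push_cast; rfl
        rw [h6] at hb2
        linear_combination (-1 : R) * hb2
      · exfalso
        have h5 := hb1 (3 * n + 1) (by omega)
        rw [hqN] at h5
        exact hN h5
  -- `3 ∤ i`
  have hi : ((i : R) = 1) ∨ ((i : R) = -1) := by
    rcases s2_mod rd i with h | h
    · exfalso
      obtain ⟨t, ht'⟩ := h
      have hi0 : (i : R) = 0 := by
        rw [ht']
        push_cast
        rw [rd.three]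
        ring
      rw [hi0, zero_mul, zero_mul] at hrel
      rcases mul_eq_zero.1 hrel.symm with h5 | h5
      · exact hN h5
      · exact hch ⟨h5, ⟨t, ht'⟩⟩
    · exact h
  have hi0 : (i : R) ≠ 0 := by
    rcases hi with h | h
    · rw [h]
      exact one_ne_zero
    · rw [h]
      exact neg_ne_zero.2 one_ne_zero
  -- brackets with `y`
  obtain ⟨⟨hB1, hB1'⟩, hB3, hB3'⟩ := s2_brackets P (μ + k) i hlow m
    (-(i : R) * m * rd.X)
    (((i + 1 : ℤ) : R) * rd.δ m * (-(i : R) * m * rd.X) - (i : R) * m *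
      rd.δ (-(i : R) * m * rd.X))
    (((2 * i + 2 : ℤ) : R) * rd.δ m * (((i + 1 : ℤ) : R) * rd.δ m * (-(i : R) * m * rd.X) -
      (i : R) * m * rd.δ (-(i : R) * m * rd.X)) - (i : R) * m *
      rd.δ (((i + 1 : ℤ) : R) * rd.δ m * (-(i : R) * m * rd.X) -
      (i : R) * m * rd.δ (-(i : R) * m * rd.X))) hmdef.symm rfl rfl rfl
  have had : ∀ x, (μ + k) * x - x * (μ + k) = μ * x - x * μ := by
    intro x
    rw [add_mul, mul_add, hkc x]
    abel
  rw [had] at hB1 hB1'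
  rw [had, had, had, ad_cube P.three] at hB3 hB3'
  have hw1 : -(i : R) * m * rd.X ≠ 0 := mul_ne_zero (mul_ne_zero (neg_ne_zero.2 hi0) hne) rd.X0
  rcases ht with ht | ht
  · rw [ht P.y, sub_self, s2_L0] at hB3'
    exact s2_w3 rd i hi z m _ _ _ hz hne hrel rfl rfl rfl hB3'.symm
  · have h5 : μ ^ 3 * P.y - P.y * μ ^ 3 = μ * P.y - P.y * μ := by
      have h6 := ht P.y
      rw [sub_mul, mul_sub] at h6
      rw [sub_eq_sub_iff_add_eq_add] at h6 ⊢
      rw [add_comm (P.y * μ ^ 3) (μ * P.y)] at h6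
      exact h6
    rw [h5] at hB3 hB3'
    rcases lt_trichotomy i (-1) with h | h | h
    · rw [hB1 (3 * i + 3) (by omega)] at hB3'
      exact s2_w3 rd i hi z m _ _ _ hz hne hrel rfl rfl rfl hB3'.symm
    · subst h
      have h7 : (3 * (-1) + 3 : ℤ) = -1 + 1 := by norm_num
      rw [h7, hB1'] at hB3'
      refine s2_w3' rd z m _ _ _ hz hne hrel rfl rfl rfl hB3'.symm ?_
      have h8 := (P.P5 (-1) (μ + k) hlow).2
      rw [map_add, hι, hkι, ← hmdef] at h8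
      have h9 : ((-1 : R)) ^ (-1 : ℤ) = -1 := by
        rw [zpow_neg_one, inv_neg, inv_one]
      rw [h9] at h8
      linear_combination h8
    · have h8 := hB3 (i + 1) (by omega)
      rw [hB1'] at h8
      exact hw1 h8

/-- (★).  Proof.  Suppose `μ` commutes with `q μ q⁻¹`, `q = a ψ(a) ψ²(a) w`.  By `comm_cases`,
`[q, μ] = r q`, `r ∈ {0, 1, -1}`; replacing `μ` by `-μ` we may assume `r ∈ {0, 1}`.  Replace `μ` by
`μ + k` (`s2_max`; `[q, μ]`, `ad μ`, `ι μ = μ` and the type do not change).  Let `i`,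
`m = L i μ ≠ 0`, `n = ord a`, `z = L n a`, `N = z σz σ²z ≠ 0`, `q` has symbol `N` in degree
`j₀ = 3n+1`.  `P3` for `[q, μ]`: symbol `i δ(N) m - N δ(m)` in degree `j₀ + i + 1`.
If `r = 0`: `i δ(N) m = N δ(m)`.  If `r = 1`: `L j₀ q = N ≠ 0` forces `j₀ ≥ j₀ + i + 1`, `i ≤ -1`;
`i = -1` would give `-δ(N) m - N δ(m) = N`, `δ(-N m) = N`, contradiction to `E1`; `i < -1` gives
`i δ(N) m = N δ(m)`.  If `3 ∣ i` then `δ m = 0`: excluded by the choice.
`i ≡ 1`: `m = b N`; `i ≡ 2`: `m = b N²`, `δ b = 0`, `b ≠ 0` (`m_eq_bN`).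
Apply `s2_brackets`; `ad(μ)³ y = μ³ y - y μ³` (`ad_cube`) which is `0` (type i) or `μ y - y μ`
(type ii), the latter having symbol `w₁ = -i m X ≠ 0` in degree `i+1`.
Type i: `w₃ = 0`.  Type ii: `i < -1` gives `w₃ = 0` (`3i+3 < i+1`); `i ≥ 0` gives `w₁ = 0`
(`i + 1 < 3 i + 3`), impossible.  `w₃ = 0` gives `δ²N = N` (`w3_one`, `w3_two`, `delta_bN`),
contradiction to `E1` with `f = δ N`.  Type ii with `i = -1`: `w₃ = w₁`:
`m X b² N³ (N - δ²N) = m X`, and `ι μ = μ` with `P5` gives `j m = - m`: contradiction to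
`log_false`. -/
theorem star_A (P : CTP rd A) (μ : A) (hι : P.ι μ = μ) (hnc : ¬ ∀ x, μ * x = x * μ)
    (ht : (∀ x, μ ^ 3 * x = x * μ ^ 3) ∨ (∀ x, (μ ^ 3 - μ) * x = x * (μ ^ 3 - μ)))
    (a : A) (ha : a ≠ 0) :
    ¬ Commute μ ((a * P.ψ a * P.ψ (P.ψ a) * P.w) * μ * (a * P.ψ a * P.ψ (P.ψ a) * P.w)⁻¹) := by
  intro hcom
  have hw0 : P.w ≠ 0 := by
    intro h
    have h1 := P.P6w.2
    rw [h, s2_L0] at h1
    exact zero_ne_one h1
  have hψ : P.ψ a ≠ 0 := (map_ne_zero_iff P.ψ P.ψ.injective).2 ha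
  have hψ2 : P.ψ (P.ψ a) ≠ 0 := (map_ne_zero_iff P.ψ P.ψ.injective).2 hψ
  have hq0 : a * P.ψ a * P.ψ (P.ψ a) * P.w ≠ 0 :=
    mul_ne_zero (mul_ne_zero (mul_ne_zero ha hψ) hψ2) hw0
  rcases comm_cases P.three μ _ hq0 hcom ht with h | ⟨h1, h | h⟩
  · exact s2_core P μ hι hnc ht a ha _ rfl (Or.inl h)
  · exact s2_core P μ hι hnc ht a ha _ rfl (Or.inr h)
  · refine s2_core P (-μ) (by rw [map_neg, hι]) ?_ (Or.inr ?_) a ha _ rfl (Or.inr ?_)
    · intro h2
      apply hnc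
      intro x
      have h3 := h2 x
      rw [neg_mul, mul_neg] at h3
      exact neg_injective h3
    · intro x
      have h3 := h1 x
      have h4 : ((-μ) ^ 3 - -μ) = -(μ ^ 3 - μ) := by
        rw [Odd.neg_pow (by decide) μ]
        abel
      rw [h4, neg_mul, mul_neg, h3]
    · rw [mul_neg, neg_mul]
      have h5 : ∀ u v w : A, u - v = -w → -u - -v = w := by
        intro u v w h
        have : -u - -v = -(u - v) := by abel
        rw [this, h, neg_neg]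
      exact h5 _ _ _ h

end NCP
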