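import Pool.Agent.H24.NCP.CD
import Pool.Agent.H24.NCP.INV
import Pool.Agent.H24.NCP.ART
import Pool.Agent.H24.NCP.S2

/-! # Module CDI: `CD` for `C = C̃^ι` -/

set_option autoImplicit false

namespace NCP

/-- the restriction of `ψ` to the fixed division ring of `ι` -/
def CDI_res {A : Type} [DivisionRing A] (ψ ι : A ≃+* A) (h : ∀ x, ψ (ι x) = ι (ψ x)) :
    fixS ι ≃+* fixS ι where
  toFun x := ⟨ψ x, by
    rw [mem_fixS, ← h, (mem_fixS ι _).1 x.2]⟩
  invFun x := ⟨ψ.symm x, by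
    rw [mem_fixS]
    apply ψ.injective
    rw [h, ψ.apply_symm_apply, (mem_fixS ι _).1 x.2]⟩
  left_inv x := Subtype.ext (ψ.symm_apply_apply _)
  right_inv x := Subtype.ext (ψ.apply_symm_apply _)
  map_mul' x y := Subtype.ext (map_mul ψ _ _)
  map_add' x y := Subtype.ext (map_add ψ _ _)

theorem CDI_res_coe {A : Type} [DivisionRing A] (ψ ι : A ≃+* A) (h : ∀ x, ψ (ι x) = ι (ψ x))
    (x : fixS ι) : ((CDI_res ψ ι h x : fixS ι) : A) = ψ (x : A) := rfl

theorem CDI_center_coe {C : Type} [DivisionRing C] (ψ : C ≃+* C) (x : Subring.center C) :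
    ((Subring.centerCongr ψ x : Subring.center C) : C) = ψ (x : C) := rfl

/-- `C = fixS P.ι`, `K` its centre, `k` the subfield of `K` fixed by `ψ`, `c = w κ`.
`[C : K] = 9` by `inv_finrank` and `P.fr`; `[K : k] = 3` by `finrank_fixF` (`ψ³ = Int(c)` is
trivial on `K`; `ψ θ ≠ θ`); (★) from `star_A` (`κ` is central, so conjugation by
`a ψ(a) ψ²(a) w κ` is conjugation by `a ψ(a) ψ²(a) w`; an element of `C` is central in `C` iff it is
central in `A` by `inv_center`). -/
theorem exists_cd {R A : Type} [Field R] [DivisionRing A] {rd : RD R} (P : CTP rd A) :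
    ∃ (k K C : Type) (_ : Field k) (_ : Field K) (_ : DivisionRing C) (_ : Algebra k K)
      (_ : Algebra K C) (_ : Algebra k C) (_ : IsScalarTower k K C), Nonempty (CD k K C) := by
  have h2 : (2 : A) ≠ 0 := by
    intro h
    have h3 := P.three
    have h1 : (3 : A) = 2 + 1 := by norm_num
    rw [h1, h, zero_add] at h3
    exact one_ne_zero h3
  have hw0 : P.w ≠ 0 := by
    intro h
    have := P.P6w.2
    rw [h, map_zero] at this
    exact zero_ne_one this
  set ψC : fixS P.ι ≃+* fixS P.ι := CDI_res P.ψ P.ι P.ψι with hψC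
  set τ : Subring.center (fixS P.ι) ≃+* Subring.center (fixS P.ι) := Subring.centerCongr ψC with hτ
  have hcmem : P.ι (P.w * P.κ) = P.w * P.κ := by
    rw [map_mul, P.ιw, P.ικ, neg_mul_neg]
  have hcen : ∀ x : fixS P.ι, (∀ y, x * y = y * x) → ∀ y : A, (x : A) * y = y * x :=
    fun x hx y => inv_center h2 P.ι P.ι2 P.κ P.κc P.ικ P.κ0 x hx y
  have hcen' : ∀ x : fixS P.ι, (∀ y : A, (x : A) * y = y * x) → ∀ y, x * y = y * x :=
    fun x hx y => Subtype.ext (hx y)
  have hψ3 : ∀ x : A, P.ψ (P.ψ (P.ψ x)) * (P.w * P.κ) = (P.w * P.κ) * x := by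
    intro x
    rw [← mul_assoc, P.ψ3, mul_assoc, ← P.κc, ← mul_assoc]
  refine ⟨fixF τ, Subring.center (fixS P.ι), fixS P.ι, inferInstance, inferInstance, inferInstance,
    inferInstance, inferInstance, inferInstance, inferInstance, ⟨?_⟩⟩
  refine
    { ψ := ψC
      c := ⟨P.w * P.κ, hcmem⟩
      c0 := ?_
      ψc := ?_
      ψ3 := ?_
      three := ?_
      cK := ?_
      ck := ?_
      dK := ?_
      dk := ?_
      star := ?_ }
  · intro h
    have h3 := congrArg Subtype.val h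
    exact mul_ne_zero hw0 P.κ0 h3
  · apply Subtype.ext
    show P.ψ (P.w * P.κ) = P.w * P.κ
    rw [map_mul, P.ψw, P.ψκ]
  · intro x
    apply Subtype.ext
    exact hψ3 (x : A)
  · apply Subtype.ext
    exact P.three
  · intro x
    constructor
    · intro hx
      exact ⟨⟨x, Subring.mem_center_iff.2 fun y => (hx y).symm⟩, rfl⟩
    · rintro ⟨y, rfl⟩ z
      exact (Subring.mem_center_iff.1 y.2 z).symm
  · intro x
    constructor
    · rintro ⟨hx, hψx⟩
      refine ⟨⟨⟨x, Subring.mem_center_iff.2 fun y => (hx y).symm⟩, ?_⟩, rfl⟩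
      rw [mem_fixF]
      apply Subtype.ext
      exact hψx
    · rintro ⟨y, rfl⟩
      refine ⟨fun z => (Subring.mem_center_iff.1 y.1.2 z).symm, ?_⟩
      have h3 := (mem_fixF τ _).1 y.2
      have h4 := congrArg (fun t : Subring.center (fixS P.ι) => (t : fixS P.ι)) h3
      exact h4
  · rw [inv_finrank h2 P.ι P.ι2 P.κ P.κc P.ικ P.κ0]
    exact P.fr
  · refine finrank_fixF τ 3 Nat.prime_three ?_ ?_
    · intro x
      have hx : ∀ y : A, ((x : fixS P.ι) : A) * y = y * ((x : fixS P.ι) : A) :=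
        hcen x fun y => (Subring.mem_center_iff.1 x.2 y).symm
      apply Subtype.ext
      apply Subtype.ext
      show P.ψ (P.ψ (P.ψ ((x : fixS P.ι) : A))) = ((x : fixS P.ι) : A)
      have h3 := hψ3 ((x : fixS P.ι) : A)
      rw [← hx] at h3
      exact mul_right_cancel₀ (mul_ne_zero hw0 P.κ0) h3
    · have hθ : P.θ ∈ fixS P.ι := P.ιθ
      refine ⟨⟨⟨P.θ, hθ⟩, Subring.mem_center_iff.2 fun y => Subtype.ext (P.θc y).symm⟩, ?_⟩
      intro h
      have h3 := congrArg (fun t : Subring.center (fixS P.ι) => ((t : fixS P.ι) : A)) h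
      exact P.ψθ h3
  · intro μ hnc ht a ha
    have ha' : (a : A) ≠ 0 := fun h => ha (Subtype.ext h)
    have h4 := star_A P (μ : A) μ.2 (fun hc => hnc fun y => Subtype.ext (hc y)) (by
      rcases ht with ht | ht
      · left
        intro x
        have := hcen (μ ^ 3) (fun y => ht y) x
        simpa using this
      · right
        intro x
        have := hcen (μ ^ 3 - μ) (fun y => ht y) x
        simpa using this) (a : A) ha'
    intro hcomm
    apply h4
    have h5 : (a : A) * P.ψ a * P.ψ (P.ψ a) * (P.w * P.κ) = P.κ * ((a : A) * P.ψ a * P.ψ (P.ψ a) * P.w) := by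
      rw [← mul_assoc, ← P.κc]
    have h6 := congrArg (fun t : fixS P.ι => (t : A)) hcomm.eq
    have h7 : (μ : A) * ((a * P.ψ a * P.ψ (P.ψ a) * (P.w * P.κ)) * μ *
        (a * P.ψ a * P.ψ (P.ψ a) * (P.w * P.κ))⁻¹) =
        ((a * P.ψ a * P.ψ (P.ψ a) * (P.w * P.κ)) * μ *
        (a * P.ψ a * P.ψ (P.ψ a) * (P.w * P.κ))⁻¹) * μ := h6
    have h8 : (a * P.ψ a * P.ψ (P.ψ a) * (P.w * P.κ)) * μ *
        ((a : A) * P.ψ a * P.ψ (P.ψ a) * (P.w * P.κ))⁻¹ =
        (a * P.ψ a * P.ψ (P.ψ a) * P.w) * μ * ((a : A) * P.ψ a * P.ψ (P.ψ a) * P.w)⁻¹ := by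
      rw [h5, mul_inv_rev]
      generalize (a : A) * P.ψ a * P.ψ (P.ψ a) * P.w = q
      have h9 : P.κ * q * μ * (q⁻¹ * P.κ⁻¹) = P.κ * (q * μ * q⁻¹) * P.κ⁻¹ := by
        simp only [mul_assoc]
      rw [h9, P.κc, mul_inv_cancel_right₀ P.κ0]
    rw [h8] at h7
    exact h7

end NCP
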