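import Mathlib

/-! # The structure `RD`: the properties of the coefficient field `R = 𝔽₂₇(X)` that are used

`σ` = Frobenius of `𝔽₂₇` on the coefficients, `j : X ↦ X⁻¹`, `δ = X d/dX`,
`E f = (σ² f)³` (this is `f(X) ↦ f(X³)`), `e ∈ 𝔽₂₇` with `e³ - e² + 1 = 0`. -/

set_option autoImplicit false

namespace NCP

structure RD (R : Type) [Field R] where
  σ : R ≃+* R
  j : R ≃+* R
  δ : Derivation ℤ R R
  E : R →+* R
  X : R
  e : R
  three : (3 : R) = 0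
  σ3 : ∀ x, σ (σ (σ x)) = x
  j2 : ∀ x, j (j x) = x
  σj : ∀ x, σ (j x) = j (σ x)
  δσ : ∀ x, δ (σ x) = σ (δ x)
  δj : ∀ x, δ (j x) = -j (δ x)
  σX : σ X = X
  jX : j X = X⁻¹
  X0 : X ≠ 0
  δX : δ X = X
  Eσ : ∀ x, E (σ x) = σ (E x)
  Ej : ∀ x, E (j x) = j (E x)
  EX : E X = X ^ 3
  /-- the constants of `δ` are the image of `E` -/
  kerE : ∀ x, δ x = 0 ↔ ∃ y, E y = x
  /-- trace of `e` -/
  e1 : e + σ e + σ (σ e) = 1
  e2 : e * σ e + e * σ (σ e) + σ e * σ (σ e) = 0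
  /-- norm of `e` -/
  e3 : e * σ e * σ (σ e) = -1
  je : j e = e
  σe : σ e ≠ e
  /-- (E1) a logarithmic derivative argument: no norm is a derivative -/
  E1 : ∀ f z : R, z ≠ 0 → δ f ≠ z * σ z * σ (σ z)
  /-- (KLOG) -/
  KLOG : ∀ Y β z : R, Y ≠ 0 → σ Y = Y → δ β = 0 → β ≠ 0 → z ≠ 0 →
    δ Y = β * (z * σ z * σ (σ z)) * Y →
    j (β * (z * σ z * σ (σ z))) = -(β * (z * σ z * σ (σ z))) → False

end NCP
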