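import Pool.Agent.H24.NCP.HMap
import Pool.Agent.H24.NCP.RD

/-! # The structure `MD`: the field `M = R((ϖ))` with its automorphisms `sh`, `s`, `i` and the
elements `ρ`, `ε` -/

set_option autoImplicit false

namespace NCP
open HahnSeries

/-- One-units: `1 + c₁ ϖ + ...`. -/
def OneU {R : Type} [Field R] (a : HahnSeries ℤ R) : Prop :=
  (∀ k < 0, a.coeff k = 0) ∧ a.coeff 0 = 1

/-- The automorphisms of `M = R((ϖ))`: `sh : ϖ ↦ ϖ/(1-ϖ)` (trivial on coefficients),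
`s` = `σ` on coefficients, `i` = `j` on coefficients and `ϖ ↦ -ϖ`. -/
structure MA {R : Type} [Field R] (rd : RD R) where
  sh : HahnSeries ℤ R ≃+* HahnSeries ℤ R
  s : HahnSeries ℤ R ≃+* HahnSeries ℤ R
  i : HahnSeries ℤ R ≃+* HahnSeries ℤ R
  sh3 : ∀ a, sh (sh (sh a)) = a
  s3 : ∀ a, s (s (s a)) = a
  i2 : ∀ a, i (i a) = a
  s_sh : ∀ a, s (sh a) = sh (s a)
  s_i : ∀ a, s (i a) = i (s a)
  i_sh : ∀ a, i (sh a) = sh (sh (i a))
  sh_C : ∀ r : R, sh (single 0 r) = single 0 r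
  sh_w : sh (single 1 1) * (1 - single 1 1) = single 1 1
  sh_coeff : ∀ (n : ℤ) (a : HahnSeries ℤ R), (∀ k < n, a.coeff k = 0) →
        (∀ k < n, (sh a).coeff k = 0) ∧ (sh a).coeff n = a.coeff n ∧
        (sh a).coeff (n + 1) = a.coeff (n + 1) + (n : R) * a.coeff n
  s_coeff : ∀ (n : ℤ) (a : HahnSeries ℤ R), (s a).coeff n = rd.σ (a.coeff n)
  i_coeff : ∀ (n : ℤ) (a : HahnSeries ℤ R), (i a).coeff n = (-1 : R) ^ n * rd.j (a.coeff n)

/-- `MA` together with `ρ`, `ε`. -/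
structure MD {R : Type} [Field R] (rd : RD R) extends MA rd where
  ρ : HahnSeries ℤ R
  ε : HahnSeries ℤ R
  ρ1 : OneU ρ
  ε1 : OneU ε
  ρN : ρ * s ρ * s (s ρ) = 1 - single 1 1
  iρ : i ρ * sh (sh ρ) = 1
  shε : sh ε = ε
  ρε : ρ * sh ρ * sh (sh ρ) * ε = s ε
  iε : i ε * ε = 1

end NCP
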