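import Pool.Agent.H24.NCP.Cyc3
import Pool.Agent.H24.NCP.MD

/-! # The ring `C̃ = CT m` and its symbols -/

set_option autoImplicit false

namespace NCP
open HahnSeries

variable {R : Type} [Field R] {rd : RD R}

/-- `y f = sh(f) y`, `y³ = ε v` (`v = rd.X` as a constant). -/
noncomputable def ctD (m : MD rd) : Cyc3Data (HahnSeries ℤ R) where
  τ := m.sh
  b := m.ε * single 0 rd.X
  τb := by rw [map_mul, m.shε, m.sh_C]
  bx := fun x => by rw [m.sh3, mul_comm]

abbrev CT (m : MD rd) : Type := Cyc3 (ctD m)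

@[simp] theorem ctD_τ (m : MD rd) : (ctD m).τ = m.sh := rfl
@[simp] theorem ctD_b (m : MD rd) : (ctD m).b = m.ε * single 0 rd.X := rfl

/-- The symbol `L n x = Σ_i E(coeff_n x_i) X^i`. -/
noncomputable def symL (m : MD rd) (n : ℤ) : CT m →+ R where
  toFun x := rd.E (x.x0.coeff n) + rd.E (x.x1.coeff n) * rd.X + rd.E (x.x2.coeff n) * rd.X ^ 2
  map_zero' := by simp
  map_add' x y := by
    simp only [Cyc3.add_x0, Cyc3.add_x1, Cyc3.add_x2, HahnSeries.coeff_add, map_add, add_mul]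
    ring

theorem symL_apply (m : MD rd) (n : ℤ) (x : CT m) : symL m n x =
  rd.E (x.x0.coeff n) + rd.E (x.x1.coeff n) * rd.X + rd.E (x.x2.coeff n) * rd.X ^ 2 := rfl

/-- `LowC n x`: all symbols in degrees `< n` vanish. -/
def LowC (m : MD rd) (n : ℤ) (x : CT m) : Prop := ∀ k < n, symL m k x = 0

end NCP
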