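import Pool.Agent.H24.NCP.CT

/-! # Module CT1: symbols determine the coefficients; (P1) -/

set_option autoImplicit false

namespace NCP
open HahnSeries

variable {R : Type} [Field R] {rd : RD R}

theorem ct1_δE (rd : RD R) (a : R) : rd.δ (rd.E a) = 0 := (rd.kerE _).2 ⟨a, rfl⟩

theorem ct1_two (rd : RD R) : (2 : R) ≠ 0 := by
  intro h
  have h3 := rd.three
  have : (1 : R) = 0 := by linear_combination h3 - h
  exact one_ne_zero this

/-- `1, X, X²` are linearly independent over `E(R) = ker δ`: apply `δ` and `δ²`. -/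
theorem indep_E (rd : RD R) {a b c : R} (h : rd.E a + rd.E b * rd.X + rd.E c * rd.X ^ 2 = 0) :
    a = 0 ∧ b = 0 ∧ c = 0 := by
  have hd : ∀ u v : R, rd.δ (rd.E u * rd.X + rd.E v * rd.X ^ 2) =
      rd.E u * rd.X + 2 * (rd.E v * rd.X ^ 2) := by
    intro u v
    rw [map_add, Derivation.leibniz, Derivation.leibniz, pow_two, Derivation.leibniz]
    simp only [ct1_δE, rd.δX, smul_eq_mul, mul_zero, add_zero]
    ring
  have h1 : rd.E b * rd.X + 2 * (rd.E c * rd.X ^ 2) = 0 := by
    rw [← hd b c]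
    have h2 : rd.E b * rd.X + rd.E c * rd.X ^ 2 = - rd.E a := by linear_combination h
    rw [h2, map_neg, ct1_δE, neg_zero]
  have h2 : rd.E b * rd.X + 4 * (rd.E c * rd.X ^ 2) = 0 := by
    have h3 := hd b (c + c)
    have h4 : rd.E b * rd.X + rd.E (c + c) * rd.X ^ 2 = 0 := by
      rw [map_add]
      linear_combination h1
    rw [h4, map_zero, map_add] at h3
    linear_combination -h3
  have h3 : rd.E c = 0 := by
    have h4 : (2 : R) * (rd.E c * rd.X ^ 2) = 0 := by linear_combination h2 - h1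
    rcases mul_eq_zero.1 h4 with h5 | h5
    · exact absurd h5 (ct1_two rd)
    · rcases mul_eq_zero.1 h5 with h6 | h6
      · exact h6
      · exact absurd h6 (pow_ne_zero 2 rd.X0)
  have h4 : rd.E b = 0 := by
    rw [h3] at h1
    have h5 : rd.E b * rd.X = 0 := by linear_combination h1
    exact (mul_eq_zero.1 h5).resolve_right rd.X0
  have h5 : rd.E a = 0 := by
    rw [h3, h4] at h
    linear_combination h
  exact ⟨(map_eq_zero rd.E).1 h5, (map_eq_zero rd.E).1 h4, (map_eq_zero rd.E).1 h3⟩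

theorem ct1_symL_zero (m : MD rd) (n : ℤ) (x : CT m) : symL m n x = 0 ↔
    x.x0.coeff n = 0 ∧ x.x1.coeff n = 0 ∧ x.x2.coeff n = 0 := by
  constructor
  · intro h
    exact indep_E rd h
  · rintro ⟨h1, h2, h3⟩
    rw [symL_apply, h1, h2, h3]
    simp

theorem lowC_iff (m : MD rd) (n : ℤ) (x : CT m) : LowC m n x ↔
    (∀ k < n, x.x0.coeff k = 0) ∧ (∀ k < n, x.x1.coeff k = 0) ∧ (∀ k < n, x.x2.coeff k = 0) := by
  unfold LowC
  constructor
  · intro h
    exact ⟨fun k hk => ((ct1_symL_zero m k x).1 (h k hk)).1,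
      fun k hk => ((ct1_symL_zero m k x).1 (h k hk)).2.1,
      fun k hk => ((ct1_symL_zero m k x).1 (h k hk)).2.2⟩
  · rintro ⟨h1, h2, h3⟩ k hk
    exact (ct1_symL_zero m k x).2 ⟨h1 k hk, h2 k hk, h3 k hk⟩

theorem ct_P1a (m : MD rd) (x : CT m) : ∃ n, LowC m n x := by
  refine ⟨min x.x0.order (min x.x1.order x.x2.order), ?_⟩
  rw [lowC_iff]
  refine ⟨fun k hk => ?_, fun k hk => ?_, fun k hk => ?_⟩
  · exact HahnSeries.coeff_eq_zero_of_lt_order (lt_of_lt_of_le hk (min_le_left _ _))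
  · exact HahnSeries.coeff_eq_zero_of_lt_order
      (lt_of_lt_of_le hk ((min_le_right _ _).trans (min_le_left _ _)))
  · exact HahnSeries.coeff_eq_zero_of_lt_order
      (lt_of_lt_of_le hk ((min_le_right _ _).trans (min_le_right _ _)))

theorem ct_P1b (m : MD rd) (x : CT m) (h : ∀ n, symL m n x = 0) : x = 0 := by
  ext n
  · exact ((ct1_symL_zero m n x).1 (h n)).1
  · exact ((ct1_symL_zero m n x).1 (h n)).2.1
  · exact ((ct1_symL_zero m n x).1 (h n)).2.2

end NCP
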