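import Pool.Agent.H24.NCP.CT1

/-! # Module CT2: (P2), multiplicativity of symbols -/

set_option autoImplicit false

namespace NCP
open HahnSeries

variable {R : Type} [Field R] {rd : RD R}

theorem ct2_b (m : MD rd) : (∀ k < 0, (m.ε * single 0 rd.X).coeff k = 0) ∧
    (m.ε * single 0 rd.X).coeff 0 = rd.X := by
  have h1 : ∀ k < (0 : ℤ), (single (0 : ℤ) rd.X : HahnSeries ℤ R).coeff k = 0 := by
    intro k hk
    rw [coeff_single_of_ne hk.ne]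
  obtain ⟨h2, h3⟩ := coeff_mul_lead (n := 0) (m := 0) m.ε1.1 h1
  rw [add_zero] at h2 h3
  refine ⟨h2, ?_⟩
  rw [h3, m.ε1.2, one_mul, coeff_single_same]

theorem ct2_mulb (m : MD rd) {D : HahnSeries ℤ R} {N : ℤ} (h : ∀ k < N, D.coeff k = 0) :
    (∀ k < N, (D * (m.ε * single 0 rd.X)).coeff k = 0) ∧
      (D * (m.ε * single 0 rd.X)).coeff N = D.coeff N * rd.X := by
  obtain ⟨h1, h2⟩ := ct2_b m
  obtain ⟨h3, h4⟩ := coeff_mul_lead h h1
  rw [add_zero] at h3 h4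
  exact ⟨h3, by rw [h4, h2]⟩

theorem ct2_P {f g g' : HahnSeries ℤ R} {n n' : ℤ}
    (hf : ∀ k < n, f.coeff k = 0)
    (hg' : (∀ k < n', g'.coeff k = 0) ∧ g'.coeff n' = g.coeff n') :
    (∀ k < n + n', (f * g').coeff k = 0) ∧ (f * g').coeff (n + n') = f.coeff n * g.coeff n' := by
  obtain ⟨b1, b2⟩ := hg'
  obtain ⟨c1, c2⟩ := coeff_mul_lead hf b1
  exact ⟨c1, by rw [c2, b2]⟩

/-- (P2).  With `lowC_iff`, `coeff_mul_lead`, `m.sh_coeff`, and `b = ε v` of order 0 with constant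
coefficient `rd.X`, `rd.EX : E X = X³`. -/
theorem ct_P2 (m : MD rd) (n n' : ℤ) (x x' : CT m) (h : LowC m n x) (h' : LowC m n' x') :
    LowC m (n + n') (x * x') ∧ symL m (n + n') (x * x') = symL m n x * symL m n' x' := by
  obtain ⟨hx0, hx1, hx2⟩ := (lowC_iff m n x).1 h
  obtain ⟨hy0, hy1, hy2⟩ := (lowC_iff m n' x').1 h'
  have S0 : ∀ a : HahnSeries ℤ R, (∀ k < n', a.coeff k = 0) →
      (∀ k < n', a.coeff k = 0) ∧ a.coeff n' = a.coeff n' := fun a ha => ⟨ha, rfl⟩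
  have S1 : ∀ a : HahnSeries ℤ R, (∀ k < n', a.coeff k = 0) →
      (∀ k < n', (m.sh a).coeff k = 0) ∧ (m.sh a).coeff n' = a.coeff n' := fun a ha => by
    obtain ⟨h1, h2, _⟩ := m.sh_coeff n' a ha
    exact ⟨h1, h2⟩
  have S2 : ∀ a : HahnSeries ℤ R, (∀ k < n', a.coeff k = 0) →
      (∀ k < n', (m.sh (m.sh a)).coeff k = 0) ∧ (m.sh (m.sh a)).coeff n' = a.coeff n' :=
    fun a ha => by
    obtain ⟨h1, h2⟩ := S1 a ha
    obtain ⟨g1, g2⟩ := S1 _ h1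
    exact ⟨g1, g2.trans h2⟩
  obtain ⟨p00, q00⟩ := ct2_P hx0 (S0 _ hy0)
  obtain ⟨p12, q12⟩ := ct2_P hx1 (S1 _ hy2)
  obtain ⟨p21, q21⟩ := ct2_P hx2 (S2 _ hy1)
  obtain ⟨p01, q01⟩ := ct2_P hx0 (S0 _ hy1)
  obtain ⟨p10, q10⟩ := ct2_P hx1 (S1 _ hy0)
  obtain ⟨p22, q22⟩ := ct2_P hx2 (S2 _ hy2)
  obtain ⟨p02, q02⟩ := ct2_P hx0 (S0 _ hy2)
  obtain ⟨p11, q11⟩ := ct2_P hx1 (S1 _ hy1)
  obtain ⟨p20, q20⟩ := ct2_P hx2 (S2 _ hy0)
  obtain ⟨r12, s12⟩ := ct2_mulb m p12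
  obtain ⟨r21, s21⟩ := ct2_mulb m p21
  obtain ⟨r22, s22⟩ := ct2_mulb m p22
  have e0 : (x * x').x0 = x.x0 * x'.x0 + x.x1 * m.sh x'.x2 * (m.ε * single 0 rd.X) +
      x.x2 * m.sh (m.sh x'.x1) * (m.ε * single 0 rd.X) := by
    simp only [Cyc3.mul_x0, ctD_τ, ctD_b]
  have e1 : (x * x').x1 = x.x0 * x'.x1 + x.x1 * m.sh x'.x0 +
      x.x2 * m.sh (m.sh x'.x2) * (m.ε * single 0 rd.X) := by
    simp only [Cyc3.mul_x1, ctD_τ, ctD_b]
  have e2 : (x * x').x2 = x.x0 * x'.x2 + x.x1 * m.sh x'.x1 + x.x2 * m.sh (m.sh x'.x0) := by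
    simp only [Cyc3.mul_x2, ctD_τ]
  constructor
  · rw [lowC_iff]
    refine ⟨?_, ?_, ?_⟩
    · intro k hk
      rw [e0, HahnSeries.coeff_add, HahnSeries.coeff_add, p00 k hk, r12 k hk, r21 k hk, add_zero,
        add_zero]
    · intro k hk
      rw [e1, HahnSeries.coeff_add, HahnSeries.coeff_add, p01 k hk, p10 k hk, r22 k hk, add_zero,
        add_zero]
    · intro k hk
      rw [e2, HahnSeries.coeff_add, HahnSeries.coeff_add, p02 k hk, p11 k hk, p20 k hk, add_zero,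
        add_zero]
  · rw [symL_apply m (n + n'), e0, e1, e2]
    simp only [HahnSeries.coeff_add, s12, s21, s22, q00, q12, q21, q01, q10, q22, q02, q11, q20]
    rw [symL_apply m n, symL_apply m n']
    simp only [map_add, map_mul, rd.EX]
    ring

end NCP
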