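import Pool.Agent.H24.NCP.CT1

/-! # Module CT3: (P3), symbols of commutators -/

set_option autoImplicit false

namespace NCP
open HahnSeries

variable {R : Type} [Field R] {rd : RD R}

/-- The derivation `δ` on a symbol: `δ(E a + E b X + E c X²) = E b X + 2 E c X²`. -/
theorem δ_sym (rd : RD R) (a b c : R) :
    rd.δ (rd.E a + rd.E b * rd.X + rd.E c * rd.X ^ 2) = rd.E b * rd.X + 2 * (rd.E c * rd.X ^ 2) := by
  have hE : ∀ y, rd.δ (rd.E y) = 0 := fun y => (rd.kerE _).2 ⟨y, rfl⟩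
  rw [map_add, map_add, rd.δ.leibniz, rd.δ.leibniz, hE, hE, hE, pow_two, rd.δ.leibniz, rd.δX]
  simp only [smul_eq_mul]
  ring

theorem ct3_sh1 (m : MD rd) (n : ℤ) (a : HahnSeries ℤ R) (h : ∀ k < n, a.coeff k = 0) :
    (∀ k < n, (m.sh a).coeff k = 0) ∧ (m.sh a).coeff n = a.coeff n ∧
      (m.sh a).coeff (n + 1) = a.coeff (n + 1) + 1 * (n : R) * a.coeff n := by
  obtain ⟨h1, h2, h3⟩ := m.sh_coeff n a h
  exact ⟨h1, h2, by rw [h3, one_mul]⟩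

theorem ct3_sh2 (m : MD rd) (n : ℤ) (a : HahnSeries ℤ R) (h : ∀ k < n, a.coeff k = 0) :
    (∀ k < n, (m.sh (m.sh a)).coeff k = 0) ∧ (m.sh (m.sh a)).coeff n = a.coeff n ∧
      (m.sh (m.sh a)).coeff (n + 1) = a.coeff (n + 1) + 2 * (n : R) * a.coeff n := by
  obtain ⟨h1, h2, h3⟩ := m.sh_coeff n a h
  obtain ⟨g1, g2, g3⟩ := m.sh_coeff n (m.sh a) h1
  refine ⟨g1, by rw [g2, h2], ?_⟩
  rw [g3, h3, h2]
  ring

theorem ct3_sh0 (n : ℤ) (a : HahnSeries ℤ R) (h : ∀ k < n, a.coeff k = 0) :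
    (∀ k < n, a.coeff k = 0) ∧ a.coeff n = a.coeff n ∧
      a.coeff (n + 1) = a.coeff (n + 1) + 0 * (n : R) * a.coeff n :=
  ⟨h, rfl, by ring⟩

theorem ct3_D {f g f' g' : HahnSeries ℤ R} {n n' : ℤ} {i j : R}
    (hf : ∀ k < n, f.coeff k = 0) (hg : ∀ k < n', g.coeff k = 0)
    (hf' : (∀ k < n, f'.coeff k = 0) ∧ f'.coeff n = f.coeff n ∧
      f'.coeff (n + 1) = f.coeff (n + 1) + j * (n : R) * f.coeff n)
    (hg' : (∀ k < n', g'.coeff k = 0) ∧ g'.coeff n' = g.coeff n' ∧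
      g'.coeff (n' + 1) = g.coeff (n' + 1) + i * (n' : R) * g.coeff n') :
    (∀ k < n + n' + 1, (f * g' - g * f').coeff k = 0) ∧
      (f * g' - g * f').coeff (n + n' + 1) =
        (i * (n' : R) - j * (n : R)) * (f.coeff n * g.coeff n') := by
  obtain ⟨a1, a2, a3⟩ := hf'
  obtain ⟨b1, b2, b3⟩ := hg'
  obtain ⟨c1, c2⟩ := coeff_mul_lead hf b1
  obtain ⟨d1, d2⟩ := coeff_mul_lead hg a1
  have e1 := coeff_mul_sub hf b1
  have e2 := coeff_mul_sub hg a1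
  have hc : n' + n = n + n' := add_comm _ _
  rw [hc] at d1 d2 e2
  constructor
  · intro k hk
    rw [HahnSeries.coeff_sub]
    rcases lt_or_eq_of_le (Int.lt_add_one_iff.1 hk) with h | h
    · rw [c1 k h, d1 k h, sub_zero]
    · rw [h, c2, d2, a2, b2]
      ring
  · rw [HahnSeries.coeff_sub, e1, e2, a2, b2, a3, b3]
    ring

theorem ct3_b (m : MD rd) : (∀ k < 0, (m.ε * single 0 rd.X).coeff k = 0) ∧
    (m.ε * single 0 rd.X).coeff 0 = rd.X := by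
  have h1 : ∀ k < (0 : ℤ), (single (0 : ℤ) rd.X : HahnSeries ℤ R).coeff k = 0 := by
    intro k hk
    rw [coeff_single_of_ne hk.ne]
  obtain ⟨h2, h3⟩ := coeff_mul_lead (n := 0) (m := 0) m.ε1.1 h1
  rw [add_zero] at h2 h3
  refine ⟨h2, ?_⟩
  rw [h3, m.ε1.2, one_mul, coeff_single_same]

theorem ct3_mulb (m : MD rd) {D : HahnSeries ℤ R} {N : ℤ} (h : ∀ k < N, D.coeff k = 0) :
    (∀ k < N, (D * (m.ε * single 0 rd.X)).coeff k = 0) ∧
      (D * (m.ε * single 0 rd.X)).coeff N = D.coeff N * rd.X := by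
  obtain ⟨h1, h2⟩ := ct3_b m
  obtain ⟨h3, h4⟩ := coeff_mul_lead h h1
  rw [add_zero] at h3 h4
  exact ⟨h3, by rw [h4, h2]⟩

/-- (P3).  For components: if `f`, `g` have no terms below `n`, `n'` then
`coeff_{n+n'+1}(f · sh^i g) = f_{n+1} g_{n'} + f_n (g_{n'+1} + i n' g_{n'})`
(`coeff_mul_sub`, `m.sh_coeff`).  In `x x' - x' x` the products `f sh^i(g) - g sh^j(f)`
(`f = x_i`, `g = x'_j`) have no term in degree `≤ n + n'` and coefficient
`(i n' - j n) f_n g_{n'}` in degree `n + n' + 1`; for `i + j ≥ 3` they are multiplied by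
`b = ε v`, of order 0 and constant coefficient `rd.X` (`E X = X³`).  Then compare with
`δ(L_n x) = Σ i E(..) X^i` (`δ_sym`). -/
theorem ct_P3 (m : MD rd) (n n' : ℤ) (x x' : CT m) (h : LowC m n x) (h' : LowC m n' x') :
    LowC m (n + n' + 1) (x * x' - x' * x) ∧
    symL m (n + n' + 1) (x * x' - x' * x) =
      (n' : R) * rd.δ (symL m n x) * symL m n' x' - (n : R) * symL m n x * rd.δ (symL m n' x') := by
  obtain ⟨hx0, hx1, hx2⟩ := (lowC_iff m n x).1 h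
  obtain ⟨hy0, hy1, hy2⟩ := (lowC_iff m n' x').1 h'
  -- the six commutator terms
  obtain ⟨p12, q12⟩ := ct3_D hx1 hy2 (ct3_sh2 m n _ hx1) (ct3_sh1 m n' _ hy2)
  obtain ⟨p21, q21⟩ := ct3_D hx2 hy1 (ct3_sh1 m n _ hx2) (ct3_sh2 m n' _ hy1)
  obtain ⟨p01, q01⟩ := ct3_D hx0 hy1 (ct3_sh1 m n _ hx0) (ct3_sh0 n' _ hy1)
  obtain ⟨p10, q10⟩ := ct3_D hx1 hy0 (ct3_sh0 n _ hx1) (ct3_sh1 m n' _ hy0)
  obtain ⟨p22, q22⟩ := ct3_D hx2 hy2 (ct3_sh2 m n _ hx2) (ct3_sh2 m n' _ hy2)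
  obtain ⟨p02, q02⟩ := ct3_D hx0 hy2 (ct3_sh2 m n _ hx0) (ct3_sh0 n' _ hy2)
  obtain ⟨p11, q11⟩ := ct3_D hx1 hy1 (ct3_sh1 m n _ hx1) (ct3_sh1 m n' _ hy1)
  obtain ⟨p20, q20⟩ := ct3_D hx2 hy0 (ct3_sh0 n _ hx2) (ct3_sh2 m n' _ hy0)
  obtain ⟨r12, s12⟩ := ct3_mulb m p12
  obtain ⟨r21, s21⟩ := ct3_mulb m p21
  obtain ⟨r22, s22⟩ := ct3_mulb m p22
  have e0 : (x * x' - x' * x).x0 =
      (x.x1 * m.sh x'.x2 - x'.x2 * m.sh (m.sh x.x1)) * (m.ε * single 0 rd.X) +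
      (x.x2 * m.sh (m.sh x'.x1) - x'.x1 * m.sh x.x2) * (m.ε * single 0 rd.X) := by
    simp only [Cyc3.sub_x0, Cyc3.mul_x0, ctD_τ, ctD_b]
    ring
  have e1 : (x * x' - x' * x).x1 =
      (x.x0 * x'.x1 - x'.x1 * m.sh x.x0) + (x.x1 * m.sh x'.x0 - x'.x0 * x.x1) +
      (x.x2 * m.sh (m.sh x'.x2) - x'.x2 * m.sh (m.sh x.x2)) * (m.ε * single 0 rd.X) := by
    simp only [Cyc3.sub_x1, Cyc3.mul_x1, ctD_τ, ctD_b]
    ring
  have e2 : (x * x' - x' * x).x2 =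
      (x.x0 * x'.x2 - x'.x2 * m.sh (m.sh x.x0)) + (x.x1 * m.sh x'.x1 - x'.x1 * m.sh x.x1) +
      (x.x2 * m.sh (m.sh x'.x0) - x'.x0 * x.x2) := by
    simp only [Cyc3.sub_x2, Cyc3.mul_x2, ctD_τ]
    ring
  constructor
  · rw [lowC_iff]
    refine ⟨?_, ?_, ?_⟩
    · intro k hk
      rw [e0, HahnSeries.coeff_add, r12 k hk, r21 k hk, add_zero]
    · intro k hk
      rw [e1, HahnSeries.coeff_add, HahnSeries.coeff_add, p01 k hk, p10 k hk, r22 k hk, add_zero,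
        add_zero]
    · intro k hk
      rw [e2, HahnSeries.coeff_add, HahnSeries.coeff_add, p02 k hk, p11 k hk, p20 k hk, add_zero,
        add_zero]
  · rw [symL_apply m (n + n' + 1), e0, e1, e2]
    simp only [HahnSeries.coeff_add, s12, s21, s22, q12, q21, q01, q10, q22, q02, q11, q20]
    rw [symL_apply m n, symL_apply m n', δ_sym, δ_sym]
    simp only [map_add, map_sub, map_mul, map_intCast, rd.EX, map_one, map_ofNat, map_zero]
    ring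

end NCP
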