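import Pool.Agent.H24.NCP.CT1

/-! # Module CT4: the automorphism `ψ` of `C̃` -/

set_option autoImplicit false

namespace NCP
open HahnSeries

variable {R : Type} [Field R] {rd : RD R}

theorem CT4_s_single0 (m : MD rd) (r : R) : m.s (single 0 r) = single 0 (rd.σ r) := by
  ext n
  rw [m.s_coeff]
  by_cases h : n = 0
  · subst h; simp
  · rw [coeff_single_of_ne h, coeff_single_of_ne h, map_zero]

theorem CT4_s_w (m : MD rd) : m.s (single 1 1) = single 1 1 := by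
  ext n
  rw [m.s_coeff]
  by_cases h : n = 1
  · subst h; simp
  · rw [coeff_single_of_ne h, map_zero]

theorem CT4_mul_oneU {n : ℤ} {a u : HahnSeries ℤ R} (ha : ∀ k < n, a.coeff k = 0) (hu : OneU u) :
    (∀ k < n, (a * u).coeff k = 0) ∧ (a * u).coeff n = a.coeff n := by
  have h := coeff_mul_lead ha hu.1
  rw [add_zero] at h
  refine ⟨h.1, ?_⟩
  rw [h.2, hu.2, mul_one]

theorem CT4_sh_oneU (m : MD rd) {u : HahnSeries ℤ R} (hu : OneU u) : OneU (m.sh u) := by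
  have h := m.sh_coeff 0 u hu.1
  exact ⟨h.1, h.2.1.trans hu.2⟩

theorem CT4_h1 (m : MD rd) (x : HahnSeries ℤ R) :
    (Cyc3.inc (ctD m) m.ρ * Cyc3.Y (ctD m)) * ((Cyc3.inc (ctD m)).comp (m.s : HahnSeries ℤ R →+* HahnSeries ℤ R)) x =
    ((Cyc3.inc (ctD m)).comp (m.s : HahnSeries ℤ R →+* HahnSeries ℤ R)) ((ctD m).τ x) *
      (Cyc3.inc (ctD m) m.ρ * Cyc3.Y (ctD m)) := by
  simp only [RingHom.comp_apply, RingHom.coe_coe, ctD_τ]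
  rw [mul_assoc, Cyc3.Y_mul_inc, ctD_τ, ← mul_assoc, ← mul_assoc, ← map_mul, ← map_mul, m.s_sh,
    mul_comm m.ρ]

theorem CT4_h2 (m : MD rd) :
    (Cyc3.inc (ctD m) m.ρ * Cyc3.Y (ctD m)) * (Cyc3.inc (ctD m) m.ρ * Cyc3.Y (ctD m)) *
      (Cyc3.inc (ctD m) m.ρ * Cyc3.Y (ctD m)) =
    ((Cyc3.inc (ctD m)).comp (m.s : HahnSeries ℤ R →+* HahnSeries ℤ R)) (ctD m).b := by
  simp only [RingHom.comp_apply, RingHom.coe_coe, ctD_b]
  have e : m.s (m.ε * single 0 rd.X) = m.ρ * m.sh m.ρ * m.sh (m.sh m.ρ) * (m.ε * single 0 rd.X) := by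
    rw [map_mul, ← m.ρε, CT4_s_single0, rd.σX, mul_assoc]
  rw [e]
  ext1
  · simp only [Cyc3.mul_x0, Cyc3.mul_x1, Cyc3.mul_x2, Cyc3.inc_x0, Cyc3.inc_x1, Cyc3.inc_x2,
      Cyc3.Y_x0, Cyc3.Y_x1, Cyc3.Y_x2, ctD_τ, ctD_b, map_zero, map_one, mul_zero, zero_mul, add_zero,
      zero_add, mul_one]
  · simp
  · simp

/-- the ring endomorphism `ψ` -/
noncomputable def CT4_psi (m : MD rd) : CT m →+* CT m :=
  Cyc3.lift ((Cyc3.inc (ctD m)).comp (m.s : HahnSeries ℤ R →+* HahnSeries ℤ R))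
    (Cyc3.inc (ctD m) m.ρ * Cyc3.Y (ctD m)) (CT4_h1 m) (CT4_h2 m)

theorem CT4_psi_inc (m : MD rd) (a : HahnSeries ℤ R) :
    CT4_psi m (Cyc3.inc (ctD m) a) = Cyc3.inc (ctD m) (m.s a) := by
  unfold CT4_psi
  rw [Cyc3.lift_inc]; rfl

theorem CT4_psi_Y (m : MD rd) :
    CT4_psi m (Cyc3.Y (ctD m)) = Cyc3.inc (ctD m) m.ρ * Cyc3.Y (ctD m) := by
  unfold CT4_psi
  rw [Cyc3.lift_Y]

theorem CT4_psi_x (m : MD rd) (x : CT m) : (CT4_psi m x).x0 = m.s x.x0 ∧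
    (CT4_psi m x).x1 = m.s x.x1 * m.ρ ∧ (CT4_psi m x).x2 = m.s x.x2 * (m.ρ * m.sh m.ρ) := by
  unfold CT4_psi
  rw [Cyc3.lift_apply]
  simp

/-- `ψ³ x · ϖ = ϖ x` -/
def CT4_P (m : MD rd) (x : CT m) : Prop :=
  CT4_psi m (CT4_psi m (CT4_psi m x)) * Cyc3.inc (ctD m) (single 1 1) =
      Cyc3.inc (ctD m) (single 1 1) * x

theorem CT4_P_add (m : MD rd) {x y : CT m} (hx : CT4_P m x) (hy : CT4_P m y) :
    CT4_P m (x + y) := by
  unfold CT4_P at *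
  rw [map_add, map_add, map_add, add_mul, hx, hy, mul_add]

theorem CT4_P_mul (m : MD rd) {x y : CT m} (hx : CT4_P m x) (hy : CT4_P m y) :
    CT4_P m (x * y) := by
  unfold CT4_P at *
  rw [map_mul, map_mul, map_mul, mul_assoc, hy, ← mul_assoc, hx, mul_assoc]

theorem CT4_P_inc (m : MD rd) (a : HahnSeries ℤ R) : CT4_P m (Cyc3.inc (ctD m) a) := by
  unfold CT4_P
  rw [CT4_psi_inc, CT4_psi_inc, CT4_psi_inc, m.s3, ← map_mul, ← map_mul, mul_comm]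

theorem CT4_Y3 (m : MD rd) : CT4_psi m (CT4_psi m (CT4_psi m (Cyc3.Y (ctD m)))) =
    Cyc3.inc (ctD m) (1 - single 1 1) * Cyc3.Y (ctD m) := by
  have h1 : m.s (m.s m.ρ) * m.s m.ρ * m.ρ = 1 - single 1 1 := by
    rw [← m.ρN, mul_comm (m.s (m.s m.ρ)), mul_comm _ m.ρ, ← mul_assoc]
  rw [CT4_psi_Y, map_mul, CT4_psi_inc, CT4_psi_Y, map_mul, map_mul, CT4_psi_inc, CT4_psi_inc,
    CT4_psi_Y, ← mul_assoc, ← mul_assoc, ← map_mul, ← map_mul, h1]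

theorem CT4_P_Y (m : MD rd) : CT4_P m (Cyc3.Y (ctD m)) := by
  unfold CT4_P
  rw [CT4_Y3, mul_assoc, Cyc3.Y_mul_inc, ctD_τ, ← mul_assoc, ← map_mul, mul_comm (1 - single 1 1),
    m.sh_w]

theorem CT4_cube (m : MD rd) (x : CT m) :
    CT4_psi m (CT4_psi m (CT4_psi m x)) * Cyc3.inc (ctD m) (single 1 1) =
      Cyc3.inc (ctD m) (single 1 1) * x := by
  have h : CT4_P m (Cyc3.inc (ctD m) x.x0 + Cyc3.inc (ctD m) x.x1 * Cyc3.Y (ctD m) +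
      Cyc3.inc (ctD m) x.x2 * (Cyc3.Y (ctD m) * Cyc3.Y (ctD m))) :=
    CT4_P_add m (CT4_P_add m (CT4_P_inc m _) (CT4_P_mul m (CT4_P_inc m _) (CT4_P_Y m)))
      (CT4_P_mul m (CT4_P_inc m _) (CT4_P_mul m (CT4_P_Y m) (CT4_P_Y m)))
  rw [← pow_two, ← Cyc3.eq_sum x] at h
  exact h

theorem CT4_w (m : MD rd) : Cyc3.inc (ctD m) (single 1 1) * Cyc3.inc (ctD m) (single (-1) 1) = 1 ∧
    Cyc3.inc (ctD m) (single (-1) 1) * Cyc3.inc (ctD m) (single 1 1) = 1 := by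
  rw [← map_mul, ← map_mul, single_mul_single, single_mul_single]
  simp

theorem CT4_bij (m : MD rd) : Function.Bijective (CT4_psi m) := by
  obtain ⟨w1, w2⟩ := CT4_w m
  constructor
  · rw [injective_iff_map_eq_zero]
    intro x hx
    have h := CT4_cube m x
    rw [hx, map_zero, map_zero, zero_mul] at h
    calc x = Cyc3.inc (ctD m) (single (-1) 1) * (Cyc3.inc (ctD m) (single 1 1) * x) := by
          rw [← mul_assoc, w2, one_mul]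
      _ = 0 := by rw [← h, mul_zero]
  · intro y
    refine ⟨CT4_psi m (CT4_psi m (Cyc3.inc (ctD m) (single (-1) 1) * y * Cyc3.inc (ctD m) (single 1 1))), ?_⟩
    have h := CT4_cube m (Cyc3.inc (ctD m) (single (-1) 1) * y * Cyc3.inc (ctD m) (single 1 1))
    have h2 := congrArg (fun z => z * Cyc3.inc (ctD m) (single (-1) 1)) h
    simp only [mul_assoc, w1, mul_one] at h2
    rw [mul_assoc, h2, ← mul_assoc, w1, one_mul]

/-- `ψ = s` on `M`, `ψ Y = ρ Y`: `Cyc3.lift` (relation `(ρY)³ = N_sh(ρ) b = s(b)` by `m.ρε`).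
`ψ³ = Int(ϖ)`: on `M` since `s³ = 1`; `ψ³(Y) = s²(ρ) s(ρ) ρ Y = (1-ϖ) Y = ϖ Y ϖ⁻¹` (`m.ρN`,
`m.sh_w`: `ϖ · sh(ϖ)⁻¹ = 1 - ϖ`).  Hence `ψ` is bijective.  (P4): `ρ` is a one-unit. -/
theorem exists_psi (m : MD rd) : ∃ ψ : CT m ≃+* CT m,
    (∀ a, ψ (Cyc3.inc (ctD m) a) = Cyc3.inc (ctD m) (m.s a)) ∧
    ψ (Cyc3.Y (ctD m)) = Cyc3.inc (ctD m) m.ρ * Cyc3.Y (ctD m) ∧
    (∀ x, ψ (ψ (ψ x)) * Cyc3.inc (ctD m) (single 1 1) = Cyc3.inc (ctD m) (single 1 1) * x) ∧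
    (∀ n x, LowC m n x → LowC m n (ψ x) ∧ symL m n (ψ x) = rd.σ (symL m n x)) := by
  refine ⟨RingEquiv.ofBijective (CT4_psi m) (CT4_bij m), CT4_psi_inc m, CT4_psi_Y m, CT4_cube m, ?_⟩
  intro n x hx
  show LowC m n (CT4_psi m x) ∧ symL m n (CT4_psi m x) = rd.σ (symL m n x)
  obtain ⟨e0, e1, e2⟩ := CT4_psi_x m x
  rw [lowC_iff] at hx ⊢
  obtain ⟨h0, h1, h2⟩ := hx
  have hs : ∀ {a : HahnSeries ℤ R}, (∀ k < n, a.coeff k = 0) → ∀ k < n, (m.s a).coeff k = 0 := by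
    intro a ha k hk
    rw [m.s_coeff, ha k hk, map_zero]
  have hu : OneU (m.ρ * m.sh m.ρ) := by
    have := CT4_mul_oneU m.ρ1.1 (CT4_sh_oneU m m.ρ1)
    exact ⟨this.1, this.2.trans m.ρ1.2⟩
  have k1 := CT4_mul_oneU (hs h1) m.ρ1
  have k2 := CT4_mul_oneU (hs h2) hu
  rw [e0, e1, e2]
  refine ⟨⟨hs h0, k1.1, k2.1⟩, ?_⟩
  rw [symL_apply, symL_apply, e0, e1, e2, k1.2, k2.2, m.s_coeff, m.s_coeff, m.s_coeff]
  simp only [map_add, map_mul, map_pow, rd.σX, rd.Eσ]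

end NCP
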