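import Pool.Agent.H24.NCP.CT1

/-! # Module CT5: the involution `ι` of `C̃` -/

set_option autoImplicit false

namespace NCP
open HahnSeries

variable {R : Type} [Field R] {rd : RD R}

/-- the inverse of `b = ε v` -/
noncomputable def CT5_be (m : MD rd) : HahnSeries ℤ R := m.i m.ε * single 0 (rd.X)⁻¹

theorem CT5_be_mul (m : MD rd) : CT5_be m * (ctD m).b = 1 := by
  unfold CT5_be
  rw [ctD_b]
  have h : m.i m.ε * single 0 (rd.X)⁻¹ * (m.ε * single 0 rd.X) =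
      (m.i m.ε * m.ε) * (single 0 (rd.X)⁻¹ * single 0 rd.X) := by ring
  rw [h, m.iε, single_mul_single, inv_mul_cancel₀ rd.X0, one_mul, add_zero]
  rfl

theorem CT5_i_X (m : MD rd) : m.i (single 0 rd.X) = single 0 (rd.X)⁻¹ := by
  ext n
  rw [m.i_coeff, coeff_single, coeff_single]
  by_cases h : n = 0
  · subst h
    rw [if_pos rfl, if_pos rfl, rd.jX, zpow_zero, one_mul]
  · rw [if_neg h, if_neg h, map_zero, mul_zero]

theorem CT5_i_b (m : MD rd) : m.i (ctD m).b = CT5_be m := by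
  rw [ctD_b, map_mul, CT5_i_X]
  rfl

theorem CT5_i_be (m : MD rd) : m.i (CT5_be m) = (ctD m).b := by
  rw [← CT5_i_b, m.i2]

theorem CT5_sh_be (m : MD rd) : m.sh (CT5_be m) = CT5_be m := by
  have h1 : m.sh (CT5_be m) * (ctD m).b = 1 := by
    have h2 : m.sh ((ctD m).b) = (ctD m).b := (ctD m).τb
    rw [← h2, ← map_mul, CT5_be_mul, map_one]
  have h3 : (ctD m).b * CT5_be m = 1 := by rw [mul_comm]; exact CT5_be_mul m
  exact left_inv_eq_right_inv h1 h3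

theorem CT5_be_coeff (m : MD rd) : (∀ k < 0, (CT5_be m).coeff k = 0) ∧
    (CT5_be m).coeff 0 = (rd.X)⁻¹ := by
  obtain ⟨h1, h2⟩ := m.ε1
  constructor
  · intro k hk
    unfold CT5_be
    rw [coeff_mul_single_zero, m.i_coeff, h1 k hk, map_zero, mul_zero, zero_mul]
  · unfold CT5_be
    rw [coeff_mul_single_zero, m.i_coeff, h2, map_one, zpow_zero, one_mul, one_mul]

/-- the image of `Y` -/
noncomputable def CT5_s (m : MD rd) : CT m := ⟨0, 0, CT5_be m⟩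

theorem CT5_ss (m : MD rd) : CT5_s m * CT5_s m = (⟨0, CT5_be m, 0⟩ : CT m) := by
  have h := CT5_be_mul m
  rw [ctD_b] at h
  unfold CT5_s
  ext1
  · simp
  · simp only [Cyc3.mul_x1, mul_zero, zero_mul, map_zero, add_zero, zero_add, ctD_τ, ctD_b,
      CT5_sh_be]
    rw [mul_assoc, h, mul_one]
  · simp

theorem CT5_sss (m : MD rd) : CT5_s m * CT5_s m * CT5_s m =
    ((Cyc3.inc (ctD m)).comp (m.i : HahnSeries ℤ R →+* HahnSeries ℤ R)) (ctD m).b := by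
  have h := CT5_be_mul m
  rw [ctD_b] at h
  rw [CT5_ss, RingHom.comp_apply]
  show _ = Cyc3.inc (ctD m) (m.i (ctD m).b)
  rw [CT5_i_b]
  unfold CT5_s
  ext1
  · simp only [Cyc3.mul_x0, Cyc3.inc_x0, mul_zero, zero_mul, map_zero, add_zero, zero_add, ctD_τ,
      ctD_b, CT5_sh_be]
    rw [mul_assoc, h, mul_one]
  · simp
  · simp

theorem CT5_sf (m : MD rd) (x : HahnSeries ℤ R) :
    CT5_s m * ((Cyc3.inc (ctD m)).comp (m.i : HahnSeries ℤ R →+* HahnSeries ℤ R)) x =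
    ((Cyc3.inc (ctD m)).comp (m.i : HahnSeries ℤ R →+* HahnSeries ℤ R)) ((ctD m).τ x) *
      CT5_s m := by
  rw [RingHom.comp_apply, RingHom.comp_apply]
  show CT5_s m * Cyc3.inc (ctD m) (m.i x) = Cyc3.inc (ctD m) (m.i (m.sh x)) * CT5_s m
  rw [m.i_sh]
  unfold CT5_s
  ext1
  · simp
  · simp
  · simp only [Cyc3.mul_x2, Cyc3.inc_x0, Cyc3.inc_x1, Cyc3.inc_x2, mul_zero, zero_mul, map_zero,
      add_zero, zero_add, ctD_τ]
    rw [mul_comm]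

/-- the ring homomorphism `ι` -/
noncomputable def CT5_hom (m : MD rd) : CT m →+* CT m :=
  Cyc3.lift ((Cyc3.inc (ctD m)).comp (m.i : HahnSeries ℤ R →+* HahnSeries ℤ R)) (CT5_s m)
    (CT5_sf m) (CT5_sss m)

theorem CT5_hom_inc (m : MD rd) (a : HahnSeries ℤ R) :
    CT5_hom m (Cyc3.inc (ctD m) a) = Cyc3.inc (ctD m) (m.i a) := by
  unfold CT5_hom
  rw [Cyc3.lift_inc]
  rfl

theorem CT5_hom_Y (m : MD rd) : CT5_hom m (Cyc3.Y (ctD m)) = CT5_s m := by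
  unfold CT5_hom
  rw [Cyc3.lift_Y]

theorem CT5_hom_apply (m : MD rd) (x : CT m) :
    CT5_hom m x = ⟨m.i x.x0, m.i x.x2 * CT5_be m, m.i x.x1 * CT5_be m⟩ := by
  unfold CT5_hom
  rw [Cyc3.lift_apply, CT5_ss]
  show Cyc3.inc (ctD m) (m.i x.x0) + Cyc3.inc (ctD m) (m.i x.x1) * CT5_s m +
    Cyc3.inc (ctD m) (m.i x.x2) * (⟨0, CT5_be m, 0⟩ : CT m) = _
  unfold CT5_s
  ext1 <;> simp

theorem CT5_s_eq (m : MD rd) : CT5_s m = Cyc3.inc (ctD m) (CT5_be m) * Cyc3.Y (ctD m) *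
    Cyc3.Y (ctD m) := by
  unfold CT5_s
  ext1 <;> simp

theorem CT5_hom_hom (m : MD rd) (x : CT m) : CT5_hom m (CT5_hom m x) = x := by
  have h := Cyc3.hom_ext (F := (CT5_hom m).comp (CT5_hom m)) (G := RingHom.id (CT m))
    (fun a => by
      rw [RingHom.comp_apply, CT5_hom_inc, CT5_hom_inc, m.i2]; rfl)
    (by
      rw [RingHom.comp_apply, CT5_hom_Y, CT5_s_eq, map_mul, map_mul, CT5_hom_inc, CT5_hom_Y,
        mul_assoc, CT5_ss, CT5_i_be, RingHom.id_apply]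
      have h := CT5_be_mul m
      rw [mul_comm] at h
      ext1
      · simp
      · simp only [Cyc3.mul_x1, Cyc3.inc_x0, Cyc3.inc_x1, Cyc3.inc_x2, mul_zero, zero_mul,
          map_zero, add_zero, Cyc3.Y_x1]
        exact h
      · simp) x
  exact h

/-- `ι = i` on `M`, `ι Y = Y⁻¹ = b⁻¹ Y²`: `Cyc3.lift` (relations
`Y⁻¹ i(f) = sh²(i f) Y⁻¹ = i(sh f) Y⁻¹` by `m.i_sh`, `Y⁻³ = b⁻¹ = i(b)` by `m.iε`, `rd.jX`).
(P5): `b⁻¹` has order 0 and constant coefficient `X⁻¹`, so the symbol of `Y⁻¹` is `X⁻¹`; in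
components `ι x = i(x₀) + i(x₂) b⁻¹ Y + i(x₁) b⁻¹ Y²`. -/
theorem exists_iota (m : MD rd) : ∃ ι : CT m ≃+* CT m,
    (∀ a, ι (Cyc3.inc (ctD m) a) = Cyc3.inc (ctD m) (m.i a)) ∧
    ι (Cyc3.Y (ctD m)) * Cyc3.Y (ctD m) = 1 ∧ Cyc3.Y (ctD m) * ι (Cyc3.Y (ctD m)) = 1 ∧
    (∀ x, ι (ι x) = x) ∧
    (∀ n x, LowC m n x → LowC m n (ι x) ∧ symL m n (ι x) = (-1 : R) ^ n * rd.j (symL m n x)) := by
  have hb := CT5_be_mul m
  rw [ctD_b] at hb
  refine ⟨{ toFun := CT5_hom m, invFun := CT5_hom m, left_inv := CT5_hom_hom m,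
            right_inv := CT5_hom_hom m, map_mul' := map_mul (CT5_hom m),
            map_add' := map_add (CT5_hom m) }, ?_, ?_, ?_, ?_, ?_⟩
  · exact CT5_hom_inc m
  · show CT5_hom m (Cyc3.Y (ctD m)) * Cyc3.Y (ctD m) = 1
    rw [CT5_hom_Y]
    unfold CT5_s
    ext1
    · simp only [Cyc3.mul_x0, Cyc3.Y_x0, Cyc3.Y_x1, Cyc3.Y_x2, Cyc3.one_x0, mul_zero, zero_mul,
        map_zero, add_zero, zero_add, map_one, mul_one, ctD_b]
      exact hb
    · simp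
    · simp
  · show Cyc3.Y (ctD m) * CT5_hom m (Cyc3.Y (ctD m)) = 1
    rw [CT5_hom_Y]
    unfold CT5_s
    ext1
    · simp only [Cyc3.mul_x0, Cyc3.Y_x0, Cyc3.Y_x1, Cyc3.Y_x2, Cyc3.one_x0, mul_zero, zero_mul,
        map_zero, add_zero, zero_add, one_mul, ctD_τ, ctD_b, CT5_sh_be]
      exact hb
    · simp
    · simp
  · exact CT5_hom_hom m
  · intro n x hx
    show LowC m n (CT5_hom m x) ∧ symL m n (CT5_hom m x) = _
    obtain ⟨h0, h1, h2⟩ := (lowC_iff m n x).1 hx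
    obtain ⟨hb0, hb1⟩ := CT5_be_coeff m
    have hi : ∀ a : HahnSeries ℤ R, (∀ k < n, a.coeff k = 0) → ∀ k < n, (m.i a).coeff k = 0 := by
      intro a ha k hk
      rw [m.i_coeff, ha k hk, map_zero, mul_zero]
    obtain ⟨h3, h4⟩ := coeff_mul_lead (hi _ h2) hb0
    obtain ⟨h5, h6⟩ := coeff_mul_lead (hi _ h1) hb0
    rw [add_zero] at h3 h4 h5 h6
    constructor
    · rw [lowC_iff, CT5_hom_apply]
      exact ⟨hi _ h0, h3, h5⟩
    · rw [symL_apply, symL_apply, CT5_hom_apply]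
      simp only
      rw [h4, h6, hb1, m.i_coeff, m.i_coeff, m.i_coeff]
      simp only [map_mul, map_add, map_pow, map_zpow₀, map_neg, map_one, map_inv₀, rd.EX, rd.jX,
        rd.Ej]
      have hX := rd.X0
      field_simp
      ring

/-- `ψ ι = ι ψ` (check on `M` and on `Y`, `Cyc3.hom_ext`; on `Y` both sides are inverse to
`ρ Y`, because `i(ρ) · sh²(ρ) = 1`). -/
theorem psi_iota (m : MD rd) (ψ ι : CT m ≃+* CT m)
    (h1 : ∀ a, ψ (Cyc3.inc (ctD m) a) = Cyc3.inc (ctD m) (m.s a))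
    (h2 : ψ (Cyc3.Y (ctD m)) = Cyc3.inc (ctD m) m.ρ * Cyc3.Y (ctD m))
    (h3 : ∀ a, ι (Cyc3.inc (ctD m) a) = Cyc3.inc (ctD m) (m.i a))
    (h4 : ι (Cyc3.Y (ctD m)) * Cyc3.Y (ctD m) = 1) (h5 : Cyc3.Y (ctD m) * ι (Cyc3.Y (ctD m)) = 1)
    (x : CT m) : ψ (ι x) = ι (ψ x) := by
  refine Cyc3.hom_ext (F := (ψ : CT m →+* CT m).comp (ι : CT m →+* CT m))
    (G := (ι : CT m →+* CT m).comp (ψ : CT m →+* CT m)) ?_ ?_ x
  · intro a
    show ψ (ι (Cyc3.inc (ctD m) a)) = ι (ψ (Cyc3.inc (ctD m) a))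
    rw [h3, h1, h1, h3, m.s_i]
  · show ψ (ι (Cyc3.Y (ctD m))) = ι (ψ (Cyc3.Y (ctD m)))
    -- `ι Y` moves past constants
    have h6 : ∀ a, ι (Cyc3.Y (ctD m)) * Cyc3.inc (ctD m) (m.sh a) =
        Cyc3.inc (ctD m) a * ι (Cyc3.Y (ctD m)) := by
      intro a
      have h7 : Cyc3.Y (ctD m) * Cyc3.inc (ctD m) a = Cyc3.inc (ctD m) (m.sh a) * Cyc3.Y (ctD m) :=
        Cyc3.Y_mul_inc a
      calc ι (Cyc3.Y (ctD m)) * Cyc3.inc (ctD m) (m.sh a)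
          = ι (Cyc3.Y (ctD m)) * Cyc3.inc (ctD m) (m.sh a) *
              (Cyc3.Y (ctD m) * ι (Cyc3.Y (ctD m))) := by rw [h5, mul_one]
        _ = ι (Cyc3.Y (ctD m)) * (Cyc3.inc (ctD m) (m.sh a) * Cyc3.Y (ctD m)) *
              ι (Cyc3.Y (ctD m)) := by simp only [mul_assoc]
        _ = (ι (Cyc3.Y (ctD m)) * Cyc3.Y (ctD m)) * Cyc3.inc (ctD m) a *
              ι (Cyc3.Y (ctD m)) := by rw [← h7]; simp only [mul_assoc]
        _ = Cyc3.inc (ctD m) a * ι (Cyc3.Y (ctD m)) := by rw [h4, one_mul]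
    have h7 : ι (ψ (Cyc3.Y (ctD m))) * ψ (Cyc3.Y (ctD m)) = 1 := by
      rw [h2, map_mul, h3]
      have h8 : ι (Cyc3.Y (ctD m)) * Cyc3.inc (ctD m) m.ρ =
          Cyc3.inc (ctD m) (m.sh (m.sh m.ρ)) * ι (Cyc3.Y (ctD m)) := by
        have h9 := h6 (m.sh (m.sh m.ρ))
        rw [m.sh3] at h9
        exact h9
      calc Cyc3.inc (ctD m) (m.i m.ρ) * ι (Cyc3.Y (ctD m)) *
            (Cyc3.inc (ctD m) m.ρ * Cyc3.Y (ctD m))
          = Cyc3.inc (ctD m) (m.i m.ρ) * (ι (Cyc3.Y (ctD m)) * Cyc3.inc (ctD m) m.ρ) *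
              Cyc3.Y (ctD m) := by simp only [mul_assoc]
        _ = Cyc3.inc (ctD m) (m.i m.ρ) * Cyc3.inc (ctD m) (m.sh (m.sh m.ρ)) *
              (ι (Cyc3.Y (ctD m)) * Cyc3.Y (ctD m)) := by rw [h8]; simp only [mul_assoc]
        _ = 1 := by rw [h4, mul_one, ← map_mul, m.iρ, map_one]
    have h8 : ψ (Cyc3.Y (ctD m)) * ψ (ι (Cyc3.Y (ctD m))) = 1 := by
      rw [← map_mul, h5, map_one]
    exact (left_inv_eq_right_inv h7 h8).symm

end NCP
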