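import Pool.Agent.H24.NCP.CT2

/-! # Module CT6: `C̃` is a division ring; (P7) -/

set_option autoImplicit false

namespace NCP
open HahnSeries

variable {R : Type} [Field R] {rd : RD R}

instance (m : MD rd) : Nontrivial (CT m) := (Cyc3.inc_injective (ctD m)).nontrivial

/-- the lowest symbol -/
theorem ct6_low (m : MD rd) (x : CT m) (hx : x ≠ 0) : ∃ n, LowC m n x ∧ symL m n x ≠ 0 := by
  obtain ⟨n₀, hn₀⟩ := ct_P1a m x
  have hex : ∃ n, symL m n x ≠ 0 := by
    by_contra hcon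
    push Not at hcon
    exact hx (ct_P1b m x hcon)
  obtain ⟨n, hn, hmin⟩ := Int.exists_least_of_bdd (P := fun n => symL m n x ≠ 0)
    ⟨n₀, fun z hz => by
      by_contra hlt
      exact hz (hn₀ z (not_le.mp hlt))⟩ hex
  refine ⟨n, fun k hk => ?_, hn⟩
  by_contra hne
  exact absurd (hmin k hne) (not_le.mpr hk)

/-- Domain by (P2): the lowest symbols multiply in the field `R`. -/
theorem ct_mul_eq_zero (m : MD rd) (x y : CT m) (h : x * y = 0) : x = 0 ∨ y = 0 := by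
  by_contra hcon
  push Not at hcon
  obtain ⟨n, h1, h2⟩ := ct6_low m x hcon.1
  obtain ⟨n', h1', h2'⟩ := ct6_low m y hcon.2
  have h3 := (ct_P2 m n n' x y h1 h1').2
  rw [h, map_zero] at h3
  exact mul_ne_zero h2 h2' h3.symm

/-- right multiplication by `c`, in coordinates -/
noncomputable def ct6R (m : MD rd) (c : CT m) :
    (HahnSeries ℤ R × HahnSeries ℤ R × HahnSeries ℤ R) →ₗ[HahnSeries ℤ R]
      (HahnSeries ℤ R × HahnSeries ℤ R × HahnSeries ℤ R) where
  toFun a := (((⟨a.1, a.2.1, a.2.2⟩ : CT m) * c).x0, ((⟨a.1, a.2.1, a.2.2⟩ : CT m) * c).x1,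
    ((⟨a.1, a.2.1, a.2.2⟩ : CT m) * c).x2)
  map_add' a b := by
    refine Prod.ext ?_ (Prod.ext ?_ ?_) <;>
    · simp only [Cyc3.mul_x0, Cyc3.mul_x1, Cyc3.mul_x2, Prod.fst_add, Prod.snd_add]
      ring
  map_smul' r a := by
    refine Prod.ext ?_ (Prod.ext ?_ ?_) <;>
    · simp only [Cyc3.mul_x0, Cyc3.mul_x1, Cyc3.mul_x2, Prod.smul_fst, Prod.smul_snd, smul_eq_mul,
        RingHom.id_apply]
      ring

theorem ct6_left_inv (m : MD rd) (c : CT m) (hc : c ≠ 0) : ∃ a : CT m, a * c = 1 := by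
  have hinj : Function.Injective (ct6R m c) := by
    rw [injective_iff_map_eq_zero]
    intro a ha
    have h1 : (⟨a.1, a.2.1, a.2.2⟩ : CT m) * c = 0 := by
      refine Cyc3.ext ?_ ?_ ?_
      · exact congrArg Prod.fst ha
      · exact congrArg (fun p => p.2.1) ha
      · exact congrArg (fun p => p.2.2) ha
    rcases ct_mul_eq_zero m _ _ h1 with h2 | h2
    · refine Prod.ext ?_ (Prod.ext ?_ ?_)
      · exact congrArg Cyc3.x0 h2
      · exact congrArg Cyc3.x1 h2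
      · exact congrArg Cyc3.x2 h2
    · exact absurd h2 hc
  have hsurj : Function.Surjective (ct6R m c) := LinearMap.injective_iff_surjective.mp hinj
  obtain ⟨a, ha⟩ := hsurj (1, 0, 0)
  refine ⟨⟨a.1, a.2.1, a.2.2⟩, ?_⟩
  refine Cyc3.ext ?_ ?_ ?_
  · exact congrArg Prod.fst ha
  · exact congrArg (fun p => p.2.1) ha
  · exact congrArg (fun p => p.2.2) ha

/-- `x ↦ x c` (`c ≠ 0`) is left `M`-linear and injective on the three-dimensional left
`M`-vector space `C̃`, so surjective: `c` has a left inverse; similarly every non-zero element has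
a left inverse, hence is a unit. -/
theorem ct_unit (m : MD rd) (x : CT m) : IsUnit x ∨ x = 0 := by
  by_cases hx : x = 0
  · exact Or.inr hx
  · left
    obtain ⟨a, ha⟩ := ct6_left_inv m x hx
    have ha0 : a ≠ 0 := by
      rintro rfl
      rw [zero_mul] at ha
      exact zero_ne_one ha
    obtain ⟨b, hb⟩ := ct6_left_inv m a ha0
    have hbx : b = x := by
      calc b = b * (a * x) := by rw [ha, mul_one]
        _ = x := by rw [← mul_assoc, hb, one_mul]
    rw [hbx] at hb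
    exact ⟨⟨x, a, hb, ha⟩, rfl⟩

noncomputable instance instDivCT (m : MD rd) : DivisionRing (CT m) :=
  DivisionRing.ofIsUnitOrEqZero (ct_unit m)

/-- monic of order `n` -/
def ct6M (n : ℤ) (a : HahnSeries ℤ R) : Prop := (∀ k < n, a.coeff k = 0) ∧ a.coeff n = 1

theorem ct6M_mul {n n' : ℤ} {a b : HahnSeries ℤ R} (ha : ct6M n a) (hb : ct6M n' b) :
    ct6M (n + n') (a * b) := by
  obtain ⟨h1, h2⟩ := coeff_mul_lead ha.1 hb.1
  exact ⟨h1, by rw [h2, ha.2, hb.2, mul_one]⟩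

theorem ct6M_one : ct6M 0 (1 : HahnSeries ℤ R) := by
  refine ⟨fun k hk => ?_, ?_⟩
  · rw [HahnSeries.coeff_one, if_neg hk.ne]
  · rw [HahnSeries.coeff_one, if_pos rfl]

theorem ct6M_ne {n : ℤ} {a : HahnSeries ℤ R} (ha : ct6M n a) : a ≠ 0 := by
  rintro rfl
  have := ha.2
  simp at this

theorem ct6M_inv {n : ℤ} {a : HahnSeries ℤ R} (ha : ct6M n a) : ct6M (-n) a⁻¹ := by
  have ha0 := ct6M_ne ha
  have hb0 : a⁻¹ ≠ 0 := inv_ne_zero ha0
  have hlow : ∀ k < (a⁻¹).order, (a⁻¹).coeff k = 0 :=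
    fun k hk => HahnSeries.coeff_eq_zero_of_lt_order hk
  have hlead : (a⁻¹).coeff (a⁻¹).order ≠ 0 := HahnSeries.coeff_order_eq_zero.not.mpr hb0
  have h := (coeff_mul_lead ha.1 hlow).2
  rw [mul_inv_cancel₀ ha0, ha.2, one_mul, HahnSeries.coeff_one] at h
  by_cases h0 : n + (a⁻¹).order = 0
  · rw [if_pos h0] at h
    have h3 : (a⁻¹).order = -n := by omega
    rw [h3] at hlow h
    exact ⟨hlow, h.symm⟩
  · rw [if_neg h0] at h
    exact absurd h.symm hlead

theorem ct6M_pow {n : ℤ} {a : HahnSeries ℤ R} (ha : ct6M n a) (k : ℕ) : ct6M (n * k) (a ^ k) := by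
  induction k with
  | zero => simpa using ct6M_one
  | succ k ih =>
    rw [pow_succ]
    have := ct6M_mul ih ha
    have e : n * ((k + 1 : ℕ) : ℤ) = n * k + n := by push_cast; ring
    rwa [e]

theorem ct6M_zpow {n : ℤ} {a : HahnSeries ℤ R} (ha : ct6M n a) (k : ℤ) :
    ct6M (n * k) (a ^ k) := by
  obtain ⟨j, rfl | rfl⟩ := k.eq_nat_or_neg
  · rw [zpow_natCast]
    exact ct6M_pow ha j
  · rw [zpow_neg, zpow_natCast, mul_neg]
    exact ct6M_inv (ct6M_pow ha j)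

/-- the element `ϖ sh(ϖ) sh²(ϖ)` -/
noncomputable def ct6s (m : MD rd) : HahnSeries ℤ R :=
  single 1 1 * m.sh (single 1 1) * m.sh (m.sh (single 1 1))

theorem ct6s_M (m : MD rd) : ct6M 3 (ct6s m) := by
  have h1 : ct6M 1 (single 1 1 : HahnSeries ℤ R) := by
    refine ⟨fun k hk => ?_, ?_⟩
    · rw [HahnSeries.coeff_single, if_neg hk.ne]
    · rw [HahnSeries.coeff_single, if_pos rfl]
  have hsh : ∀ a : HahnSeries ℤ R, ct6M 1 a → ct6M 1 (m.sh a) := by
    intro a ha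
    obtain ⟨h2, h3, _⟩ := m.sh_coeff 1 a ha.1
    exact ⟨h2, by rw [h3, ha.2]⟩
  have h2 := hsh _ h1
  have h3 := hsh _ h2
  have := ct6M_mul (ct6M_mul h1 h2) h3
  exact this

theorem ct6s_sh (m : MD rd) : m.sh (ct6s m) = ct6s m := by
  unfold ct6s
  rw [map_mul, map_mul, m.sh3]
  ring

/-- (P7).  `c = E c₁`, `κ = c₁ sⁿ` with `s = ϖ sh(ϖ) sh²(ϖ)` (order 3, leading coefficient 1,
fixed by `sh`), central. -/
theorem ct_P7 (m : MD rd) (c : R) (hc : rd.δ c = 0) (n : ℤ) :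
    ∃ k : CT m, (∀ x, k * x = x * k) ∧ LowC m (3 * n) k ∧ symL m (3 * n) k = c := by
  obtain ⟨c₁, rfl⟩ := (rd.kerE c).mp hc
  set a : HahnSeries ℤ R := single 0 c₁ * ct6s m ^ n with ha
  have hsh : m.sh a = a := by
    rw [ha, map_mul, m.sh_C, map_zpow₀, ct6s_sh]
  have hM := ct6M_zpow (ct6s_M m) n
  have hs0 : ∀ k < (0 : ℤ), (single 0 c₁ : HahnSeries ℤ R).coeff k = 0 := fun k hk => by
    rw [HahnSeries.coeff_single, if_neg hk.ne]
  obtain ⟨h1, h2⟩ := coeff_mul_lead hs0 hM.1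
  rw [zero_add] at h1 h2
  rw [hM.2, mul_one, HahnSeries.coeff_single, if_pos rfl] at h2
  refine ⟨Cyc3.inc (ctD m) a, ?_, ?_, ?_⟩
  · intro x
    refine Cyc3.ext ?_ ?_ ?_
    · simp only [Cyc3.mul_x0, Cyc3.inc_x0, Cyc3.inc_x1, Cyc3.inc_x2, map_zero, mul_zero, zero_mul,
        add_zero]
      exact mul_comm _ _
    · simp only [Cyc3.mul_x1, Cyc3.inc_x0, Cyc3.inc_x1, Cyc3.inc_x2, map_zero, mul_zero, zero_mul,
        add_zero, zero_add, ctD_τ, hsh]
      exact mul_comm _ _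
    · simp only [Cyc3.mul_x2, Cyc3.inc_x0, Cyc3.inc_x1, Cyc3.inc_x2, map_zero, mul_zero, zero_mul,
        add_zero, zero_add, ctD_τ, hsh]
      exact mul_comm _ _
  · rw [lowC_iff]
    exact ⟨h1, fun k _ => by simp, fun k _ => by simp⟩
  · rw [symL_apply]
    simp only [Cyc3.inc_x0, Cyc3.inc_x1, Cyc3.inc_x2, HahnSeries.coeff_zero, map_zero, zero_mul,
      add_zero]
    rw [h2]

end NCP
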