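import Pool.Agent.H24.NCP.CT6
import Pool.Agent.H24.NCP.ART

/-! # Module CT7: the centre of `C̃` and its dimension -/

set_option autoImplicit false

namespace NCP
open HahnSeries

variable {R : Type} [Field R] {rd : RD R}

theorem ct7_sh_w_ne (m : MD rd) : m.sh (single 1 1) ≠ single 1 1 := by
  intro h
  have h1 := m.sh_w
  rw [h] at h1
  have h2 : (single (1 : ℤ) (1 : R)) * single 1 1 = 0 := by
    have h3 : (single (1 : ℤ) (1 : R)) * (1 - single 1 1) = single 1 1 - single 1 1 * single 1 1 := by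
      ring
    rw [h3] at h1
    have h4 := sub_eq_self.1 h1
    exact h4
  have h5 : (single (1 : ℤ) (1 : R)) = 0 := mul_self_eq_zero.1 h2
  have h6 : (single (1 : ℤ) (1 : R)) ≠ 0 := by
    simp
  exact h6 h5

theorem ct7_sh2_w_ne (m : MD rd) : m.sh (m.sh (single 1 1)) ≠ single 1 1 := by
  intro h
  apply ct7_sh_w_ne m
  have h1 := m.sh3 (single 1 1)
  rw [h] at h1
  exact h1

/-- The centre is `M^sh`: commuting with `ϖ` kills `x₁`, `x₂` (`sh ϖ ≠ ϖ`, `sh² ϖ ≠ ϖ`),
commuting with `Y` gives `sh x₀ = x₀`. -/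
theorem ct_center (m : MD rd) (x : CT m) :
    (∀ y, x * y = y * x) ↔ ∃ a, m.sh a = a ∧ x = Cyc3.inc (ctD m) a := by
  constructor
  · intro h
    have h1 := h (Cyc3.inc (ctD m) (single 1 1))
    have h2 := h (Cyc3.Y (ctD m))
    have h3 : x.x1 * m.sh (single 1 1) = single 1 1 * x.x1 := by
      have := congrArg Cyc3.x1 h1
      simpa using this
    have h4 : x.x2 * m.sh (m.sh (single 1 1)) = single 1 1 * x.x2 := by
      have := congrArg Cyc3.x2 h1
      simpa using this
    have h5 : x.x0 = m.sh x.x0 := by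
      have := congrArg Cyc3.x1 h2
      simpa using this
    have h6 : x.x1 = 0 := by
      by_contra h0
      exact ct7_sh_w_ne m (mul_left_cancel₀ h0 (by rw [h3, mul_comm]))
    have h7 : x.x2 = 0 := by
      by_contra h0
      exact ct7_sh2_w_ne m (mul_left_cancel₀ h0 (by rw [h4, mul_comm]))
    refine ⟨x.x0, h5.symm, ?_⟩
    ext1
    · rfl
    · exact h6
    · exact h7
  · rintro ⟨a, ha, rfl⟩ y
    ext1
    · simp [mul_comm]
    · simp [ha, mul_comm]
    · simp [ha, mul_comm]

/-- the centre as a field of fixed elements -/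
theorem ct7_mem_center (m : MD rd) (a : HahnSeries ℤ R) (ha : m.sh a = a) :
    Cyc3.inc (ctD m) a ∈ Subring.center (CT m) := by
  rw [Subring.mem_center_iff]
  intro g
  exact ((ct_center m _).2 ⟨a, ha, rfl⟩ g).symm

/-- the triples -/
def ct7E (m : MD rd) : (HahnSeries ℤ R × HahnSeries ℤ R × HahnSeries ℤ R) ≃+ CT m where
  toFun p := ⟨p.1, p.2.1, p.2.2⟩
  invFun x := (x.x0, x.x1, x.x2)
  left_inv _ := rfl
  right_inv _ := rfl
  map_add' _ _ := rfl

/-- `[M : M^sh] = 3` (`finrank_fixF`), `C̃ ≅ M³` as a left `M^sh`-space; transport along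
`M^sh ≅ centre` by `finrank_eq_of_equiv_equiv`-type lemmas. -/
theorem ct_finrank (m : MD rd) : Module.finrank (Subring.center (CT m)) (CT m) = 9 := by
  have h3 : Module.finrank (fixF m.sh) (HahnSeries ℤ R) = 3 :=
    finrank_fixF m.sh 3 Nat.prime_three (fun x => m.sh3 x) ⟨_, ct7_sh_w_ne m⟩
  have : Module.Finite (fixF m.sh) (HahnSeries ℤ R) :=
    Module.finite_of_finrank_pos (by rw [h3]; norm_num)
  have h9 : Module.finrank (fixF m.sh) (HahnSeries ℤ R × HahnSeries ℤ R × HahnSeries ℤ R) = 9 := by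
    rw [Module.finrank_prod, Module.finrank_prod, h3]
  rw [← h9]
  symm
  unfold Module.finrank
  congr 1
  refine rank_eq_of_equiv_equiv (fun a : fixF m.sh =>
    (⟨Cyc3.inc (ctD m) a.1, ct7_mem_center m a.1 a.2⟩ : Subring.center (CT m))) (ct7E m) ?_ ?_
  · constructor
    · intro a b hab
      have h1 := congrArg Subtype.val hab
      exact Subtype.ext (Cyc3.inc_injective (ctD m) h1)
    · rintro ⟨x, hx⟩
      rw [Subring.mem_center_iff] at hx
      obtain ⟨a, ha, rfl⟩ := (ct_center m x).1 (fun y => (hx y).symm)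
      exact ⟨⟨a, ha⟩, rfl⟩
  · intro r p
    ext1
    · show (r.1 * p.1 : HahnSeries ℤ R) = _
      simp [ct7E, Subring.smul_def]
    · show (r.1 * p.2.1 : HahnSeries ℤ R) = _
      simp [ct7E, Subring.smul_def]
    · show (r.1 * p.2.2 : HahnSeries ℤ R) = _
      simp [ct7E, Subring.smul_def]

end NCP
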