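import Pool.Agent.H24.NCP.CTP
import Pool.Agent.H24.NCP.CT3
import Pool.Agent.H24.NCP.CT4
import Pool.Agent.H24.NCP.CT5
import Pool.Agent.H24.NCP.CT7

/-! # Module CT8: assembly of `CTP` for `C̃` -/

set_option autoImplicit false

namespace NCP
open HahnSeries

variable {R : Type} [Field R] {rd : RD R}

/-- `L = symL m`, `w = ϖ`, `y = Y`, `κ = v - v⁻¹` (`v = rd.X`, constant), `θ = e` (constant).
`κ ≠ 0`: `v = v⁻¹` would give `v = δ v = δ(v⁻¹) = -v⁻¹ = -v`, `2 v = 0`, `v = 0`. -/
theorem exists_ctp (m : MD rd) : Nonempty (CTP rd (CT m)) := by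
  obtain ⟨ψ, hψ1, hψ2, hψ3, hψ4⟩ := exists_psi m
  obtain ⟨ι, hι1, hι2, hι3, hι4, hι5⟩ := exists_iota m
  have hcent : ∀ a, m.sh a = a → ∀ y, Cyc3.inc (ctD m) a * y = y * Cyc3.inc (ctD m) a :=
    fun a ha => (ct_center m _).2 ⟨a, ha, rfl⟩
  have hw1 : LowC m 1 (Cyc3.inc (ctD m) (single 1 1)) := by
    intro k hk
    rw [symL_apply]
    simp only [Cyc3.inc_x0, Cyc3.inc_x1, Cyc3.inc_x2]
    rw [coeff_single_of_ne (by omega)]
    simp
  have hw2 : symL m 1 (Cyc3.inc (ctD m) (single 1 1)) = 1 := by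
    rw [symL_apply]
    simp
  have hy1 : LowC m 0 (Cyc3.Y (ctD m)) := by
    intro k hk
    rw [symL_apply]
    simp only [Cyc3.Y_x0, Cyc3.Y_x1, Cyc3.Y_x2]
    rw [coeff_one, if_neg (by omega)]
    simp
  have hy2 : symL m 0 (Cyc3.Y (ctD m)) = rd.X := by
    rw [symL_apply]
    simp
  have h2 : (2 : R) ≠ 0 := by
    intro h
    have : (1 : R) = 0 := by linear_combination rd.three - h
    exact one_ne_zero this
  have hδinv : rd.δ (rd.X⁻¹) = -rd.X⁻¹ := by
    have h := rd.δj rd.X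
    rwa [rd.jX, rd.δX, rd.jX] at h
  have hκ0 : rd.X - rd.X⁻¹ ≠ 0 := by
    intro h
    have h1 : rd.X = rd.X⁻¹ := sub_eq_zero.1 h
    have h3 := congrArg rd.δ h1
    rw [rd.δX, hδinv, ← h1] at h3
    have : (2 : R) * rd.X = 0 := by linear_combination h3
    rcases mul_eq_zero.1 this with h4 | h4
    · exact h2 h4
    · exact rd.X0 h4
  have hi : ∀ r : R, m.i (single 0 r) = single 0 (rd.j r) := by
    intro r
    ext n
    rw [m.i_coeff]
    rcases eq_or_ne n 0 with rfl | hn
    · simp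
    · rw [coeff_single_of_ne hn, coeff_single_of_ne hn]
      simp
  have hs : ∀ (n : ℤ) (r : R), m.s (single n r) = single n (rd.σ r) := by
    intro n r
    ext l
    rw [m.s_coeff]
    rcases eq_or_ne l n with rfl | hn
    · simp
    · rw [coeff_single_of_ne hn, coeff_single_of_ne hn]
      simp
  have hiw : m.i (single 1 1) = -single 1 1 := by
    ext n
    rw [m.i_coeff, coeff_neg]
    rcases eq_or_ne n 1 with rfl | hn
    · simp
    · rw [coeff_single_of_ne hn]
      simp
  exact ⟨{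
    L := symL m
    ψ := ψ
    ι := ι
    w := Cyc3.inc (ctD m) (single 1 1)
    y := Cyc3.Y (ctD m)
    κ := Cyc3.inc (ctD m) (single 0 (rd.X - rd.X⁻¹))
    θ := Cyc3.inc (ctD m) (single 0 rd.e)
    three := by
      have h3 : (3 : HahnSeries ℤ R) = 0 := by
        have : (HahnSeries.C (3 : R) : HahnSeries ℤ R) = 0 := by rw [rd.three, map_zero]
        rwa [map_ofNat] at this
      have : Cyc3.inc (ctD m) 3 = 0 := by rw [h3, map_zero]
      rwa [map_ofNat] at this
    P1a := ct_P1a m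
    P1b := ct_P1b m
    P2 := fun n n' x x' h h' => ct_P2 m n n' x x' h h'
    P3 := fun n n' x x' h h' => ct_P3 m n n' x x' h h'
    P4 := fun n x h => hψ4 n x h
    P5 := fun n x h => hι5 n x h
    P6w := ⟨hw1, hw2⟩
    P6y := ⟨hy1, hy2⟩
    P7 := fun c hc n => ct_P7 m c hc n
    ι2 := hι4
    ψι := psi_iota m ψ ι hψ1 hψ2 hι1 hι2 hι3
    ψ3 := hψ3
    ψw := by rw [hψ1, hs, map_one]
    ιw := by rw [hι1, hiw, map_neg]
    κc := hcent _ (m.sh_C _)
    ικ := by
      have e1 : rd.j (rd.X - rd.X⁻¹) = -(rd.X - rd.X⁻¹) := by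
        rw [map_sub, map_inv₀, rd.jX, inv_inv]; ring
      have e2 : ∀ r : R, (single 0 (-r) : HahnSeries ℤ R) = -single 0 r := by
        intro r
        ext n
        rw [coeff_neg]
        rcases eq_or_ne n 0 with rfl | hn
        · simp
        · rw [coeff_single_of_ne hn, coeff_single_of_ne hn]
          simp
      rw [hι1, hi, e1, e2, map_neg]
    ψκ := by rw [hψ1, hs, map_sub, map_inv₀, rd.σX]
    κ0 := by
      intro h
      have := (Cyc3.inc_injective (ctD m)) (h.trans (map_zero _).symm)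
      rw [HahnSeries.single_eq_zero_iff] at this
      exact hκ0 this
    θc := hcent _ (m.sh_C _)
    ιθ := by rw [hι1, hi, rd.je]
    ψθ := by
      rw [hψ1, hs]
      intro h
      have := (Cyc3.inc_injective (ctD m)) h
      exact rd.σe (HahnSeries.single_injective 0 this)
    fr := ct_finrank m }⟩

end NCP
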