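import Pool.Agent.H24.NCP.RD

/-! # The structure `CTP`: properties of the division algebra `C̃` -/

set_option autoImplicit false

namespace NCP

/-- `A = C̃` is a division ring with symbols `L n : A → R`: `L n x` is the symbol of `x` in
degree `n`.  `Low L n x` : all symbols of degree `< n` vanish. -/
def Low {R A : Type} [Field R] [DivisionRing A] (L : ℤ → A →+ R) (n : ℤ) (x : A) : Prop :=
  ∀ k < n, L k x = 0

structure CTP {R : Type} [Field R] (rd : RD R) (A : Type) [DivisionRing A] where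
  L : ℤ → A →+ R
  ψ : A ≃+* A
  ι : A ≃+* A
  w : A
  y : A
  κ : A
  θ : A
  three : (3 : A) = 0
  P1a : ∀ x, ∃ n, Low L n x
  P1b : ∀ x, (∀ n, L n x = 0) → x = 0
  P2 : ∀ n n' x x', Low L n x → Low L n' x' →
    Low L (n + n') (x * x') ∧ L (n + n') (x * x') = L n x * L n' x'
  P3 : ∀ n n' x x', Low L n x → Low L n' x' →
    Low L (n + n' + 1) (x * x' - x' * x) ∧
    L (n + n' + 1) (x * x' - x' * x) =
      (n' : R) * rd.δ (L n x) * L n' x' - (n : R) * L n x * rd.δ (L n' x')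
  P4 : ∀ n x, Low L n x → Low L n (ψ x) ∧ L n (ψ x) = rd.σ (L n x)
  P5 : ∀ n x, Low L n x → Low L n (ι x) ∧ L n (ι x) = (-1 : R) ^ n * rd.j (L n x)
  P6w : Low L 1 w ∧ L 1 w = 1
  P6y : Low L 0 y ∧ L 0 y = rd.X
  P7 : ∀ c, rd.δ c = 0 → ∀ n : ℤ, ∃ k, (∀ x, k * x = x * k) ∧ Low L (3 * n) k ∧ L (3 * n) k = c
  ι2 : ∀ x, ι (ι x) = x
  ψι : ∀ x, ψ (ι x) = ι (ψ x)
  ψ3 : ∀ x, ψ (ψ (ψ x)) * w = w * x
  ψw : ψ w = w
  ιw : ι w = -w
  κc : ∀ x, κ * x = x * κ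
  ικ : ι κ = -κ
  ψκ : ψ κ = κ
  κ0 : κ ≠ 0
  θc : ∀ x, θ * x = x * θ
  ιθ : ι θ = θ
  ψθ : ψ θ ≠ θ
  fr : Module.finrank (Subring.center A) A = 9

end NCP
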