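import Mathlib

/-! # Module CYC: the ring `M[Y; τ]/(Y³ - b)`

`M` is a ring (not necessarily commutative), `τ` an automorphism with `τ b = b` and
`b x = τ³(x) b`.  `Cyc3 d` is the ring of expressions `x₀ + x₁ Y + x₂ Y²` with
`Y x = τ(x) Y`, `Y³ = b`.  -/

set_option autoImplicit false

namespace NCP

/-- Data for the ring `M[Y;τ]/(Y³-b)`. -/
structure Cyc3Data (M : Type*) [Ring M] where
  τ : M ≃+* M
  b : M
  τb : τ b = b
  bx : ∀ x, b * x = τ (τ (τ x)) * b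

/-- Elements `x₀ + x₁ Y + x₂ Y²`. -/
@[ext] structure Cyc3 {M : Type*} [Ring M] (d : Cyc3Data M) where
  x0 : M
  x1 : M
  x2 : M

namespace Cyc3
variable {M : Type*} [Ring M] {d : Cyc3Data M}

instance : Zero (Cyc3 d) := ⟨⟨0, 0, 0⟩⟩
instance : One (Cyc3 d) := ⟨⟨1, 0, 0⟩⟩
instance : Add (Cyc3 d) := ⟨fun x y => ⟨x.x0 + y.x0, x.x1 + y.x1, x.x2 + y.x2⟩⟩
instance : Neg (Cyc3 d) := ⟨fun x => ⟨-x.x0, -x.x1, -x.x2⟩⟩
instance : Sub (Cyc3 d) := ⟨fun x y => ⟨x.x0 - y.x0, x.x1 - y.x1, x.x2 - y.x2⟩⟩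
instance : Mul (Cyc3 d) := ⟨fun x y =>
  ⟨x.x0 * y.x0 + x.x1 * d.τ y.x2 * d.b + x.x2 * d.τ (d.τ y.x1) * d.b,
   x.x0 * y.x1 + x.x1 * d.τ y.x0 + x.x2 * d.τ (d.τ y.x2) * d.b,
   x.x0 * y.x2 + x.x1 * d.τ y.x1 + x.x2 * d.τ (d.τ y.x0)⟩⟩

@[simp] theorem zero_x0 : (0 : Cyc3 d).x0 = 0 := rfl
@[simp] theorem zero_x1 : (0 : Cyc3 d).x1 = 0 := rfl
@[simp] theorem zero_x2 : (0 : Cyc3 d).x2 = 0 := rfl
@[simp] theorem one_x0 : (1 : Cyc3 d).x0 = 1 := rfl
@[simp] theorem one_x1 : (1 : Cyc3 d).x1 = 0 := rfl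
@[simp] theorem one_x2 : (1 : Cyc3 d).x2 = 0 := rfl
@[simp] theorem add_x0 (x y : Cyc3 d) : (x + y).x0 = x.x0 + y.x0 := rfl
@[simp] theorem add_x1 (x y : Cyc3 d) : (x + y).x1 = x.x1 + y.x1 := rfl
@[simp] theorem add_x2 (x y : Cyc3 d) : (x + y).x2 = x.x2 + y.x2 := rfl
@[simp] theorem neg_x0 (x : Cyc3 d) : (-x).x0 = -x.x0 := rfl
@[simp] theorem neg_x1 (x : Cyc3 d) : (-x).x1 = -x.x1 := rfl
@[simp] theorem neg_x2 (x : Cyc3 d) : (-x).x2 = -x.x2 := rfl
@[simp] theorem sub_x0 (x y : Cyc3 d) : (x - y).x0 = x.x0 - y.x0 := rfl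
@[simp] theorem sub_x1 (x y : Cyc3 d) : (x - y).x1 = x.x1 - y.x1 := rfl
@[simp] theorem sub_x2 (x y : Cyc3 d) : (x - y).x2 = x.x2 - y.x2 := rfl
@[simp] theorem mul_x0 (x y : Cyc3 d) : (x * y).x0 =
  x.x0 * y.x0 + x.x1 * d.τ y.x2 * d.b + x.x2 * d.τ (d.τ y.x1) * d.b := rfl
@[simp] theorem mul_x1 (x y : Cyc3 d) : (x * y).x1 =
  x.x0 * y.x1 + x.x1 * d.τ y.x0 + x.x2 * d.τ (d.τ y.x2) * d.b := rfl
@[simp] theorem mul_x2 (x y : Cyc3 d) : (x * y).x2 =
  x.x0 * y.x2 + x.x1 * d.τ y.x1 + x.x2 * d.τ (d.τ y.x0) := rfl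

theorem bx' (d : Cyc3Data M) (x w : M) : d.b * (x * w) = d.τ (d.τ (d.τ x)) * (d.b * w) := by
  rw [← mul_assoc, d.bx, mul_assoc]

protected theorem mul_assoc (x y z : Cyc3 d) : x * y * z = x * (y * z) := by
  ext
  · simp only [mul_x0, mul_x1, mul_x2, mul_add, add_mul, map_add, map_mul, d.τb, mul_assoc, d.bx,
      bx']
    abel
  · simp only [mul_x0, mul_x1, mul_x2, mul_add, add_mul, map_add, map_mul, d.τb, mul_assoc, d.bx,
      bx']
    abel
  · simp only [mul_x0, mul_x1, mul_x2, mul_add, add_mul, map_add, map_mul, d.τb, mul_assoc, d.bx,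
      bx']
    abel

instance : Ring (Cyc3 d) where
  add_assoc x y z := by ext <;> simp [add_assoc]
  zero_add x := by ext <;> simp
  add_zero x := by ext <;> simp
  add_comm x y := by ext <;> simp [add_comm]
  nsmul := nsmulRec
  zsmul := zsmulRec
  neg_add_cancel x := by ext <;> simp
  sub_eq_add_neg x y := by ext <;> simp [sub_eq_add_neg]
  left_distrib x y z := by
    ext <;> simp only [mul_x0, mul_x1, mul_x2, add_x0, add_x1, add_x2, map_add, mul_add, add_mul] <;>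
      abel
  right_distrib x y z := by
    ext <;> simp only [mul_x0, mul_x1, mul_x2, add_x0, add_x1, add_x2, map_add, mul_add, add_mul] <;>
      abel
  zero_mul x := by ext <;> simp
  mul_zero x := by ext <;> simp
  mul_assoc := Cyc3.mul_assoc
  one_mul x := by ext <;> simp
  mul_one x := by ext <;> simp

/-- The inclusion of `M`. -/
def inc (d : Cyc3Data M) : M →+* Cyc3 d where
  toFun a := ⟨a, 0, 0⟩
  map_one' := rfl
  map_mul' x y := by ext <;> simp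
  map_zero' := rfl
  map_add' x y := by ext <;> simp

/-- The generator `Y`. -/
def Y (d : Cyc3Data M) : Cyc3 d := ⟨0, 1, 0⟩

@[simp] theorem inc_x0 (a : M) : (inc d a).x0 = a := rfl
@[simp] theorem inc_x1 (a : M) : (inc d a).x1 = 0 := rfl
@[simp] theorem inc_x2 (a : M) : (inc d a).x2 = 0 := rfl
@[simp] theorem Y_x0 : (Y d).x0 = 0 := rfl
@[simp] theorem Y_x1 : (Y d).x1 = 1 := rfl
@[simp] theorem Y_x2 : (Y d).x2 = 0 := rfl

theorem inc_injective (d : Cyc3Data M) : Function.Injective (inc d) := fun a b h => by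
  simpa using congrArg Cyc3.x0 h

theorem Y_mul_inc (a : M) : Y d * inc d a = inc d (d.τ a) * Y d := by
  ext <;> simp

theorem Y_pow_three : Y d ^ 3 = inc d d.b := by
  rw [pow_succ, pow_two]
  ext <;> simp

theorem eq_sum (x : Cyc3 d) : x = inc d x.x0 + inc d x.x1 * Y d + inc d x.x2 * Y d ^ 2 := by
  rw [pow_two]
  ext <;> simp

/-- Universal property. -/
def lift {S : Type*} [Ring S] (f : M →+* S) (s : S) (h1 : ∀ x, s * f x = f (d.τ x) * s)
    (h2 : s * s * s = f d.b) : Cyc3 d →+* S where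
  toFun x := f x.x0 + f x.x1 * s + f x.x2 * (s * s)
  map_one' := by simp
  map_zero' := by simp
  map_add' x y := by simp only [add_x0, add_x1, add_x2, map_add, add_mul]; abel
  map_mul' x y := by
    have h1' : ∀ x w, s * (f x * w) = f (d.τ x) * (s * w) := fun x w => by
      rw [← mul_assoc, h1, mul_assoc]
    have h2' : s * (s * s) = f d.b := by rw [← mul_assoc, h2]
    simp only [mul_x0, mul_x1, mul_x2, map_add, map_mul, mul_add, add_mul, mul_assoc, h1, h1',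
      h2', d.τb]
    abel

@[simp] theorem lift_inc {S : Type*} [Ring S] (f : M →+* S) (s : S)
    (h1 : ∀ x, s * f x = f (d.τ x) * s) (h2 : s * s * s = f d.b) (a : M) :
    lift f s h1 h2 (inc d a) = f a := by
  simp [lift]

@[simp] theorem lift_Y {S : Type*} [Ring S] (f : M →+* S) (s : S)
    (h1 : ∀ x, s * f x = f (d.τ x) * s) (h2 : s * s * s = f d.b) :
    lift f s h1 h2 (Y d) = s := by
  simp [lift]

theorem lift_apply {S : Type*} [Ring S] (f : M →+* S) (s : S)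
    (h1 : ∀ x, s * f x = f (d.τ x) * s) (h2 : s * s * s = f d.b) (x : Cyc3 d) :
    lift f s h1 h2 x = f x.x0 + f x.x1 * s + f x.x2 * (s * s) := rfl

/-- Two ring homomorphisms agreeing on `M` and on `Y` are equal. -/
theorem hom_ext {S : Type*} [Ring S] {F G : Cyc3 d →+* S} (h1 : ∀ a, F (inc d a) = G (inc d a))
    (h2 : F (Y d) = G (Y d)) (x : Cyc3 d) : F x = G x := by
  rw [eq_sum x]
  simp only [map_add, map_mul, map_pow, h1, h2]

end Cyc3
end NCP
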