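import Mathlib

/-! # Module HMAP: coefficientwise maps of Laurent series (over noncommutative rings) -/

set_option autoImplicit false

namespace NCP
open HahnSeries

section
variable {A B C : Type*} [Ring A] [Ring B] [Ring C]

/-- The coefficientwise ring homomorphism `A((t)) → B((t))`. -/
noncomputable def hmap (f : A →+* B) : HahnSeries ℤ A →+* HahnSeries ℤ B where
  toFun x := x.map f
  map_one' := by
    ext n
    simp only [HahnSeries.map_coeff, HahnSeries.coeff_one]
    split_ifs <;> simp
  map_mul' x y := HahnSeries.map_mul (f : A →ₙ+* B)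
  map_zero' := by ext n; simp
  map_add' x y := by ext n; simp

@[simp] theorem hmap_coeff (f : A →+* B) (x : HahnSeries ℤ A) (n : ℤ) :
    (hmap f x).coeff n = f (x.coeff n) := rfl

theorem hmap_single (f : A →+* B) (n : ℤ) (a : A) : hmap f (single n a) = single n (f a) := by
  ext m
  simp only [hmap_coeff, coeff_single]
  split_ifs <;> simp

/-- The coefficientwise ring isomorphism. -/
noncomputable def hmapE (f : A ≃+* B) : HahnSeries ℤ A ≃+* HahnSeries ℤ B where
  toFun := hmap (f : A →+* B)
  invFun := hmap (f.symm : B →+* A)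
  left_inv x := by ext n; simp
  right_inv x := by ext n; simp
  map_mul' := map_mul _
  map_add' := map_add _

@[simp] theorem hmapE_coeff (f : A ≃+* B) (x : HahnSeries ℤ A) (n : ℤ) :
    (hmapE f x).coeff n = f (x.coeff n) := rfl

theorem hmapE_single (f : A ≃+* B) (n : ℤ) (a : A) : hmapE f (single n a) = single n (f a) :=
  hmap_single _ n a

private theorem mem_anti {x y : HahnSeries ℤ A} {n m : ℤ} (hx : ∀ k < n, x.coeff k = 0)
    (hy : ∀ k < m, y.coeff k = 0) {k : ℤ} {p : ℤ × ℤ}
    (hp : p ∈ Finset.antidiagonal x.isPWO_support y.isPWO_support k) :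
    n ≤ p.1 ∧ m ≤ p.2 ∧ p.1 + p.2 = k := by
  rw [Finset.mem_antidiagonal] at hp
  refine ⟨?_, ?_, hp.2.2⟩
  · by_contra h
    exact hp.1 (hx _ (not_le.mp h))
  · by_contra h
    exact hp.2.1 (hy _ (not_le.mp h))

/-- Leading coefficient of a product. -/
theorem coeff_mul_lead {x y : HahnSeries ℤ A} {n m : ℤ} (hx : ∀ k < n, x.coeff k = 0)
    (hy : ∀ k < m, y.coeff k = 0) :
    (∀ k < n + m, (x * y).coeff k = 0) ∧ (x * y).coeff (n + m) = x.coeff n * y.coeff m := by
  constructor
  · intro k hk
    rw [HahnSeries.coeff_mul]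
    apply Finset.sum_eq_zero
    intro p hp
    have := mem_anti hx hy hp
    omega
  · rw [HahnSeries.coeff_mul]
    have hs : Finset.antidiagonal x.isPWO_support y.isPWO_support (n + m) ⊆ {(n, m)} := by
      intro p hp
      have := mem_anti hx hy hp
      rw [Finset.mem_singleton]
      exact Prod.ext (by simp; omega) (by simp; omega)
    rw [Finset.sum_subset hs]
    · rw [Finset.sum_singleton]
    · intro p hp hnp
      rw [Finset.mem_singleton] at hp
      subst hp
      rw [Finset.mem_antidiagonal] at hnp
      by_cases h : x.coeff n = 0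
      · simp [h]
      · by_cases h' : y.coeff m = 0
        · simp [h']
        · exact absurd ⟨h, h', rfl⟩ hnp

/-- Subleading coefficient of a product. -/
theorem coeff_mul_sub {x y : HahnSeries ℤ A} {n m : ℤ} (hx : ∀ k < n, x.coeff k = 0)
    (hy : ∀ k < m, y.coeff k = 0) :
    (x * y).coeff (n + m + 1) = x.coeff (n + 1) * y.coeff m + x.coeff n * y.coeff (m + 1) := by
  rw [HahnSeries.coeff_mul]
  have hs : Finset.antidiagonal x.isPWO_support y.isPWO_support (n + m + 1) ⊆
      {(n + 1, m), (n, m + 1)} := by
    intro p hp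
    have := mem_anti hx hy hp
    rw [Finset.mem_insert, Finset.mem_singleton]
    by_cases h : p.1 = n
    · right
      exact Prod.ext (by simp; omega) (by simp; omega)
    · left
      exact Prod.ext (by simp; omega) (by simp; omega)
  rw [Finset.sum_subset hs]
  · rw [Finset.sum_pair]
    simp
  · intro p hp hnp
    rw [Finset.mem_antidiagonal] at hnp
    by_cases h : x.coeff p.1 = 0
    · simp [h]
    · by_cases h' : y.coeff p.2 = 0
      · simp [h']
      · refine absurd ⟨h, h', ?_⟩ hnp
        rw [Finset.mem_insert, Finset.mem_singleton] at hp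
        rcases hp with rfl | rfl <;> simp <;> ring

theorem coeff_neg_eq_zero {x : HahnSeries ℤ A} {n : ℤ} (hx : ∀ k < n, x.coeff k = 0) :
    ∀ k < n, (-x).coeff k = 0 := fun k hk => by simp [hx k hk]

/-- Every Laurent series has only finitely many terms of negative degree. -/
theorem exists_low (x : HahnSeries ℤ A) : ∃ n : ℤ, ∀ k < n, x.coeff k = 0 :=
  ⟨x.order, fun _ hk => HahnSeries.coeff_eq_zero_of_lt_order hk⟩

end

section
variable {R : Type*} [Field R]

/-- The automorphism `ϖ ↦ -ϖ` of Laurent series. -/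
noncomputable def hneg : HahnSeries ℤ R ≃+* HahnSeries ℤ R where
  toFun x := ⟨fun n => (-1 : R) ^ n * x.coeff n, by
    apply x.isPWO_support.mono
    intro n hn
    rw [HahnSeries.mem_support]
    intro h
    exact hn (by simp [h])⟩
  invFun x := ⟨fun n => (-1 : R) ^ n * x.coeff n, by
    apply x.isPWO_support.mono
    intro n hn
    rw [HahnSeries.mem_support]
    intro h
    exact hn (by simp [h])⟩
  left_inv x := by
    ext n
    show (-1 : R) ^ n * ((-1 : R) ^ n * x.coeff n) = x.coeff n
    rw [← mul_assoc, ← mul_zpow]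
    simp
  right_inv x := by
    ext n
    show (-1 : R) ^ n * ((-1 : R) ^ n * x.coeff n) = x.coeff n
    rw [← mul_assoc, ← mul_zpow]
    simp
  map_mul' x y := by
    ext n
    rw [HahnSeries.coeff_mul]
    show (-1 : R) ^ n * (x * y).coeff n = _
    rw [HahnSeries.coeff_mul, Finset.mul_sum]
    refine Finset.sum_congr ?_ ?_
    · ext p
      simp only [Finset.mem_antidiagonal, HahnSeries.mem_support]
      have h : ∀ k : ℤ, (-1 : R) ^ k ≠ 0 := fun k => zpow_ne_zero _ (by simp)
      have h1 := h p.1
      have h2 := h p.2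
      constructor
      · rintro ⟨a, b, c⟩
        exact ⟨mul_ne_zero h1 a, mul_ne_zero h2 b, c⟩
      · rintro ⟨a, b, c⟩
        exact ⟨right_ne_zero_of_mul a, right_ne_zero_of_mul b, c⟩
    · intro p hp
      rw [Finset.mem_antidiagonal] at hp
      show _ = ((-1 : R) ^ p.1 * x.coeff p.1) * ((-1 : R) ^ p.2 * y.coeff p.2)
      rw [← hp.2.2, zpow_add₀ (by simp)]
      ring
  map_add' x y := by
    ext n
    show (-1 : R) ^ n * (x + y).coeff n = _
    rw [HahnSeries.coeff_add, mul_add]
    rfl

@[simp] theorem hneg_coeff (x : HahnSeries ℤ R) (n : ℤ) :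
    (hneg x).coeff n = (-1 : R) ^ n * x.coeff n := rfl

end
end NCP
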