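import Pool.Agent.H24.NCP.Cyc3
import Pool.Agent.H24.NCP.HMap
import Pool.Agent.H24.NCP.CD

/-! # The algebra `D = C((T;ψ))` over `F = k((t))`, as `Cyc3` over `C((t))`: `T³ = c t` -/

set_option autoImplicit false

namespace NCP
open HahnSeries

variable {k K C : Type} [Field k] [Field K] [DivisionRing C] [Algebra k K] [Algebra K C]
    [Algebra k C] [IsScalarTower k K C]

/-- `T x = ψ(x) T`, `T³ = c t`. -/
noncomputable def ddD (d : CD k K C) : Cyc3Data (HahnSeries ℤ C) where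
  τ := hmapE d.ψ
  b := single 1 d.c
  τb := by rw [hmapE_single, d.ψc]
  bx := fun x => by
    ext n
    rw [show n = (n - 1) + 1 by ring, coeff_mul_single_add, add_comm (n - 1) 1]
    rw [add_comm 1 (n - 1), coeff_single_mul_add]
    simp only [hmapE_coeff, d.ψ3]

abbrev DD (d : CD k K C) : Type := Cyc3 (ddD d)

abbrev FF (k : Type) [Field k] : Type := HahnSeries ℤ k

@[simp] theorem ddD_τ (d : CD k K C) (x : HahnSeries ℤ C) : (ddD d).τ x = hmapE d.ψ x := rfl
@[simp] theorem ddD_b (d : CD k K C) : (ddD d).b = single 1 d.c := rfl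

/-- `k((t)) → C((t)) → D`. -/
noncomputable def FtoD (d : CD k K C) : FF k →+* DD d :=
  (Cyc3.inc (ddD d)).comp (hmap (algebraMap k C))

theorem FtoD_x0 (d : CD k K C) (f : FF k) : (FtoD d f).x0 = hmap (algebraMap k C) f := rfl
theorem FtoD_x1 (d : CD k K C) (f : FF k) : (FtoD d f).x1 = 0 := rfl
theorem FtoD_x2 (d : CD k K C) (f : FF k) : (FtoD d f).x2 = 0 := rfl

theorem ψ_algebraMap (d : CD k K C) (r : k) : d.ψ (algebraMap k C r) = algebraMap k C r :=
  ((d.ck _).2 ⟨r, rfl⟩).2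

theorem hmap_comm (f : FF k) (x : HahnSeries ℤ C) :
    hmap (algebraMap k C) f * x = x * hmap (algebraMap k C) f := by
  ext n
  rw [coeff_mul, coeff_mul]
  refine Finset.sum_bij' (fun p _ => p.swap) (fun p _ => p.swap) ?_ ?_ ?_ ?_ ?_
  · intro p hp
    rw [Finset.mem_antidiagonal] at hp ⊢
    exact ⟨hp.2.1, hp.1, by rw [← hp.2.2]; exact add_comm _ _⟩
  · intro p hp
    rw [Finset.mem_antidiagonal] at hp ⊢
    exact ⟨hp.2.1, hp.1, by rw [← hp.2.2]; exact add_comm _ _⟩
  · intro p _; rfl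
  · intro p _; rfl
  · intro p _
    exact Algebra.commutes _ _

theorem hmapE_hmap (d : CD k K C) (f : FF k) :
    hmapE d.ψ (hmap (algebraMap k C) f) = hmap (algebraMap k C) f := by
  ext n
  simp only [hmapE_coeff, hmap_coeff, ψ_algebraMap]

theorem FtoD_comm (d : CD k K C) (f : FF k) (x : DD d) : FtoD d f * x = x * FtoD d f := by
  ext1
  · simp [FtoD_x0, FtoD_x1, FtoD_x2, hmap_comm]
  · simp [FtoD_x0, FtoD_x1, FtoD_x2, hmap_comm, hmapE_hmap]
  · simp [FtoD_x0, FtoD_x1, FtoD_x2, hmap_comm, hmapE_hmap]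

noncomputable instance instAlgDD (d : CD k K C) : Algebra (FF k) (DD d) :=
  RingHom.toAlgebra' (FtoD d) (FtoD_comm d)

theorem algebraMap_DD (d : CD k K C) (f : FF k) : algebraMap (FF k) (DD d) f = FtoD d f := rfl

/-- The coefficients in `x = Σ (cf n x) Tⁿ`. -/
noncomputable def cf (d : CD k K C) (n : ℤ) : DD d →+ C where
  toFun x := (if n % 3 = 0 then x.x0.coeff (n / 3) else if n % 3 = 1 then x.x1.coeff (n / 3)
    else x.x2.coeff (n / 3)) * d.c ^ (-(n / 3))
  map_zero' := by split_ifs <;> simp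
  map_add' x y := by
    split_ifs <;> simp [add_mul]

theorem cf_apply (d : CD k K C) (n : ℤ) (x : DD d) : cf d n x =
  (if n % 3 = 0 then x.x0.coeff (n / 3) else if n % 3 = 1 then x.x1.coeff (n / 3)
    else x.x2.coeff (n / 3)) * d.c ^ (-(n / 3)) := rfl

/-- `LowD d n x`: `x` has order `≥ n` in `T`. -/
def LowD (d : CD k K C) (n : ℤ) (x : DD d) : Prop := ∀ m < n, cf d m x = 0

theorem cf_three (d : CD k K C) (m : ℤ) (x : DD d) :
    cf d (3 * m) x = x.x0.coeff m * d.c ^ (-m) := by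
  rw [cf_apply, show (3 * m) % 3 = 0 by omega, show (3 * m) / 3 = m by omega]
  simp

theorem cf_three_one (d : CD k K C) (m : ℤ) (x : DD d) :
    cf d (3 * m + 1) x = x.x1.coeff m * d.c ^ (-m) := by
  rw [cf_apply, show (3 * m + 1) % 3 = 1 by omega, show (3 * m + 1) / 3 = m by omega]
  simp

theorem cf_three_two (d : CD k K C) (m : ℤ) (x : DD d) :
    cf d (3 * m + 2) x = x.x2.coeff m * d.c ^ (-m) := by
  rw [cf_apply, show (3 * m + 2) % 3 = 2 by omega, show (3 * m + 2) / 3 = m by omega]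
  simp

instance (d : CD k K C) : Nontrivial (DD d) := (Cyc3.inc_injective (ddD d)).nontrivial

end NCP
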