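import Pool.Agent.H24.NCP.DD

/-! # Module DD1: coefficients in `T` and multiplication by `T` -/

set_option autoImplicit false

namespace NCP
open HahnSeries

variable {k K C : Type} [Field k] [Field K] [DivisionRing C] [Algebra k K] [Algebra K C]
    [Algebra k C] [IsScalarTower k K C]

theorem cf_ext (d : CD k K C) (x : DD d) (h : ∀ n, cf d n x = 0) : x = 0 := by
  have hz : ∀ (z : C) (m : ℤ), z * d.c ^ m = 0 → z = 0 := fun z m h =>
    (mul_eq_zero.1 h).resolve_right (zpow_ne_zero _ d.c0)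
  ext m
  · have h1 := h (3 * m)
    rw [cf_three] at h1
    exact hz _ _ h1
  · have h1 := h (3 * m + 1)
    rw [cf_three_one] at h1
    exact hz _ _ h1
  · have h1 := h (3 * m + 2)
    rw [cf_three_two] at h1
    exact hz _ _ h1

theorem exists_lowD (d : CD k K C) (x : DD d) : ∃ n, LowD d n x := by
  obtain ⟨n0, h0⟩ := exists_low x.x0
  obtain ⟨n1, h1⟩ := exists_low x.x1
  obtain ⟨n2, h2⟩ := exists_low x.x2
  refine ⟨3 * min n0 (min n1 n2), fun m hm => ?_⟩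
  have a0 := min_le_left n0 (min n1 n2)
  have a1 := (min_le_right n0 (min n1 n2)).trans (min_le_left n1 n2)
  have a2 := (min_le_right n0 (min n1 n2)).trans (min_le_right n1 n2)
  rw [cf_apply]
  split_ifs with c0 c1
  · rw [h0 (m / 3) (by omega), zero_mul]
  · rw [h1 (m / 3) (by omega), zero_mul]
  · rw [h2 (m / 3) (by omega), zero_mul]

/-- A non-zero element has an order and a leading coefficient. -/
theorem exists_ord (d : CD k K C) (x : DD d) (hx : x ≠ 0) : ∃ n, LowD d n x ∧ cf d n x ≠ 0 := by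
  obtain ⟨N, hN⟩ := exists_lowD d x
  have hex : ∃ n, cf d n x ≠ 0 := by
    by_contra hc
    push Not at hc
    exact hx (cf_ext d x hc)
  obtain ⟨n, hn, hmin⟩ := Int.exists_least_of_bdd (P := fun n => cf d n x ≠ 0)
    ⟨N, fun z hz => not_lt.1 fun hlt => hz (hN z hlt)⟩ hex
  refine ⟨n, fun m hm => ?_, hn⟩
  by_contra hc
  exact absurd (hmin m hc) (not_le.2 hm)

/-- `T x = Σ ψ(x_n) T^(n+1)`. -/
theorem cf_T_mul (d : CD k K C) (n : ℤ) (x : DD d) :
    cf d n (Cyc3.Y (ddD d) * x) = d.ψ (cf d (n - 1) x) := by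
  have hψ : ∀ m : ℤ, d.ψ (d.c ^ m) = d.c ^ m := fun m => by rw [map_zpow₀, d.ψc]
  have e0 : (Cyc3.Y (ddD d) * x).x0 = hmapE d.ψ x.x2 * single 1 d.c := by simp
  have e1 : (Cyc3.Y (ddD d) * x).x1 = hmapE d.ψ x.x0 := by simp
  have e2 : (Cyc3.Y (ddD d) * x).x2 = hmapE d.ψ x.x1 := by simp
  obtain ⟨m, hm | hm | hm⟩ : ∃ m : ℤ, n = 3 * m ∨ n = 3 * m + 1 ∨ n = 3 * m + 2 :=
    ⟨n / 3, by omega⟩
  · rw [hm, cf_three, e0, show 3 * m - 1 = 3 * (m - 1) + 2 by ring, cf_three_two, map_mul, hψ]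
    have h1 : (hmapE d.ψ x.x2 * single 1 d.c).coeff m = d.ψ (x.x2.coeff (m - 1)) * d.c := by
      have h2 := coeff_mul_single_add (r := d.c) (x := hmapE d.ψ x.x2) (a := m - 1) (b := 1)
      rw [sub_add_cancel] at h2
      rw [h2, hmapE_coeff]
    rw [h1, mul_assoc, ← zpow_one_add₀ d.c0]
    congr 2
    ring
  · rw [hm, cf_three_one, e1, show 3 * m + 1 - 1 = 3 * m by ring, cf_three, map_mul, hψ,
      hmapE_coeff]
  · rw [hm, cf_three_two, e2, show 3 * m + 2 - 1 = 3 * m + 1 by ring, cf_three_one, map_mul, hψ,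
      hmapE_coeff]

/-- `x T = Σ x_n T^(n+1)`. -/
theorem cf_mul_T (d : CD k K C) (n : ℤ) (x : DD d) :
    cf d n (x * Cyc3.Y (ddD d)) = cf d (n - 1) x := by
  have e0 : (x * Cyc3.Y (ddD d)).x0 = x.x2 * single 1 d.c := by
    rw [Cyc3.mul_x0]
    simp only [Cyc3.Y_x0, Cyc3.Y_x1, Cyc3.Y_x2, map_zero, map_one, mul_zero, zero_mul, mul_one,
      zero_add, ddD_b]
  have e1 : (x * Cyc3.Y (ddD d)).x1 = x.x0 := by
    rw [Cyc3.mul_x1]
    simp only [Cyc3.Y_x0, Cyc3.Y_x1, Cyc3.Y_x2, map_zero, map_one, mul_zero, zero_mul, mul_one,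
      add_zero]
  have e2 : (x * Cyc3.Y (ddD d)).x2 = x.x1 := by
    rw [Cyc3.mul_x2]
    simp only [Cyc3.Y_x0, Cyc3.Y_x1, Cyc3.Y_x2, map_zero, map_one, mul_zero, zero_mul, mul_one,
      add_zero, zero_add]
  obtain ⟨m, hm | hm | hm⟩ : ∃ m : ℤ, n = 3 * m ∨ n = 3 * m + 1 ∨ n = 3 * m + 2 :=
    ⟨n / 3, by omega⟩
  · rw [hm, cf_three, e0, show 3 * m - 1 = 3 * (m - 1) + 2 by ring, cf_three_two]
    have h1 : (x.x2 * single 1 d.c).coeff m = x.x2.coeff (m - 1) * d.c := by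
      have h2 := coeff_mul_single_add (r := d.c) (x := x.x2) (a := m - 1) (b := 1)
      rw [sub_add_cancel] at h2
      exact h2
    rw [h1, mul_assoc, ← zpow_one_add₀ d.c0]
    congr 2
    ring
  · rw [hm, cf_three_one, e1, show 3 * m + 1 - 1 = 3 * m by ring, cf_three]
  · rw [hm, cf_three_two, e2, show 3 * m + 2 - 1 = 3 * m + 1 by ring, cf_three_one]

/-- `T` is invertible: `T · T² (c t)⁻¹ = 1`. -/
theorem T_unit (d : CD k K C) : ∃ u : (DD d)ˣ, (u : DD d) = Cyc3.Y (ddD d) := by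
  set b' : HahnSeries ℤ C := single (-1) d.c⁻¹ with hb'
  have hbb : (ddD d).b * b' = 1 := by
    rw [ddD_b, hb', single_mul_single, mul_inv_cancel₀ d.c0]
    rfl
  have hτ : (ddD d).τ b' = b' := by
    rw [ddD_τ, hb', hmapE_single, map_inv₀, d.ψc]
  have h3 : Cyc3.Y (ddD d) * (Cyc3.Y (ddD d) ^ 2 * Cyc3.inc (ddD d) b') = 1 := by
    rw [← mul_assoc, ← pow_succ', Cyc3.Y_pow_three, ← map_mul, hbb, map_one]
  have h4 : Cyc3.Y (ddD d) ^ 2 * Cyc3.inc (ddD d) b' * Cyc3.Y (ddD d) = 1 := by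
    have h5 : Cyc3.inc (ddD d) b' * Cyc3.Y (ddD d) = Cyc3.Y (ddD d) * Cyc3.inc (ddD d) b' := by
      rw [Cyc3.Y_mul_inc, hτ]
    rw [mul_assoc, h5, ← mul_assoc, ← pow_succ, Cyc3.Y_pow_three, ← map_mul, hbb, map_one]
  exact ⟨⟨Cyc3.Y (ddD d), _, h3, h4⟩, rfl⟩

end NCP
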