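import Pool.Agent.H24.NCP.DD1

/-! # Module DD2: leading coefficients of products in `D` -/

set_option autoImplicit false

namespace NCP
open HahnSeries

variable {k K C : Type} [Field k] [Field K] [DivisionRing C] [Algebra k K] [Algebra K C]
    [Algebra k C] [IsScalarTower k K C]

/-- order at least `n` -/
def dd2_low {A : Type*} [Ring A] (n : ℤ) (x : HahnSeries ℤ A) : Prop := ∀ k < n, x.coeff k = 0

theorem dd2_low_mul {A : Type*} [Ring A] {n m : ℤ} {x y : HahnSeries ℤ A} (hx : dd2_low n x)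
    (hy : dd2_low m y) : dd2_low (n + m) (x * y) := (coeff_mul_lead hx hy).1

theorem dd2_low_add {A : Type*} [Ring A] {n : ℤ} {x y : HahnSeries ℤ A} (hx : dd2_low n x)
    (hy : dd2_low n y) : dd2_low n (x + y) := fun k hk => by
  rw [coeff_add, hx k hk, hy k hk, add_zero]

theorem dd2_low_mono {A : Type*} [Ring A] {n m : ℤ} {x : HahnSeries ℤ A} (hx : dd2_low n x)
    (h : m ≤ n) : dd2_low m x := fun k hk => hx k (lt_of_lt_of_le hk h)

theorem dd2_low_hmapE {A : Type*} [Ring A] {n : ℤ} {x : HahnSeries ℤ A} (f : A ≃+* A)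
    (hx : dd2_low n x) : dd2_low n (hmapE f x) := fun k hk => by
  rw [hmapE_coeff, hx k hk, map_zero]

theorem dd2_low_single {A : Type*} [Ring A] (n : ℤ) (a : A) :
    dd2_low n (single n a) := fun k hk => by
  rw [coeff_single_of_ne (ne_of_lt hk)]

theorem dd2_low_iff (d : CD k K C) (x : DD d) :
    LowD d 0 x ↔ dd2_low 0 x.x0 ∧ dd2_low 0 x.x1 ∧ dd2_low 0 x.x2 := by
  have hc : ∀ m : ℤ, d.c ^ (-m) ≠ 0 := fun m => zpow_ne_zero _ d.c0
  constructor
  · intro h
    refine ⟨fun m hm => ?_, fun m hm => ?_, fun m hm => ?_⟩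
    · have := h (3 * m) (by omega)
      rw [cf_three] at this
      exact (mul_eq_zero.1 this).resolve_right (hc m)
    · have := h (3 * m + 1) (by omega)
      rw [cf_three_one] at this
      exact (mul_eq_zero.1 this).resolve_right (hc m)
    · have := h (3 * m + 2) (by omega)
      rw [cf_three_two] at this
      exact (mul_eq_zero.1 this).resolve_right (hc m)
  · rintro ⟨h0, h1, h2⟩ m hm
    rw [cf_apply]
    have hm3 : m / 3 < 0 := by omega
    rw [h0 _ hm3, h1 _ hm3, h2 _ hm3]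
    simp

/-- The case of order 0: directly from the multiplication formula (`b = c t` has order 1),
`coeff_mul_lead`. -/
theorem dd_Q0 (d : CD k K C) (x x' : DD d) (h : LowD d 0 x) (h' : LowD d 0 x') :
    LowD d 0 (x * x') ∧ cf d 0 (x * x') = cf d 0 x * cf d 0 x' := by
  obtain ⟨a0, a1, a2⟩ := (dd2_low_iff d x).1 h
  obtain ⟨b0, b1, b2⟩ := (dd2_low_iff d x').1 h'
  have hb : dd2_low 1 (ddD d).b := dd2_low_single 1 d.c
  have h1 : dd2_low 0 (x.x0 * x'.x0) := dd2_low_mul a0 b0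
  have h2 : dd2_low 1 (x.x1 * (ddD d).τ x'.x2 * (ddD d).b) :=
    dd2_low_mul (dd2_low_mul a1 (dd2_low_hmapE d.ψ b2)) hb
  have h3 : dd2_low 1 (x.x2 * (ddD d).τ ((ddD d).τ x'.x1) * (ddD d).b) :=
    dd2_low_mul (dd2_low_mul a2 (dd2_low_hmapE d.ψ (dd2_low_hmapE d.ψ b1))) hb
  have h4 : dd2_low 0 (x.x0 * x'.x1) := dd2_low_mul a0 b1
  have h5 : dd2_low 0 (x.x1 * (ddD d).τ x'.x0) := dd2_low_mul a1 (dd2_low_hmapE d.ψ b0)
  have h6 : dd2_low 1 (x.x2 * (ddD d).τ ((ddD d).τ x'.x2) * (ddD d).b) :=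
    dd2_low_mul (dd2_low_mul a2 (dd2_low_hmapE d.ψ (dd2_low_hmapE d.ψ b2))) hb
  have h7 : dd2_low 0 (x.x0 * x'.x2) := dd2_low_mul a0 b2
  have h8 : dd2_low 0 (x.x1 * (ddD d).τ x'.x1) := dd2_low_mul a1 (dd2_low_hmapE d.ψ b1)
  have h9 : dd2_low 0 (x.x2 * (ddD d).τ ((ddD d).τ x'.x0)) :=
    dd2_low_mul a2 (dd2_low_hmapE d.ψ (dd2_low_hmapE d.ψ b0))
  constructor
  · rw [dd2_low_iff]
    refine ⟨?_, ?_, ?_⟩
    · rw [Cyc3.mul_x0]
      exact dd2_low_add (dd2_low_add h1 (dd2_low_mono h2 (by norm_num)))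
        (dd2_low_mono h3 (by norm_num))
    · rw [Cyc3.mul_x1]
      exact dd2_low_add (dd2_low_add h4 h5) (dd2_low_mono h6 (by norm_num))
    · rw [Cyc3.mul_x2]
      exact dd2_low_add (dd2_low_add h7 h8) h9
  · have e : ∀ y : DD d, cf d 0 y = y.x0.coeff 0 := by
      intro y
      have := cf_three d 0 y
      simpa using this
    rw [e, e, e, Cyc3.mul_x0, coeff_add, coeff_add, h2 0 (by norm_num), h3 0 (by norm_num),
      add_zero, add_zero]
    have := (coeff_mul_lead (n := 0) (m := 0) a0 b0).2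
    simpa using this

/-- powers of `T` on the right -/
theorem dd2_mul_pow (d : CD k K C) (u : (DD d)ˣ) (hu : (u : DD d) = Cyc3.Y (ddD d)) (m : ℤ) :
    ∀ (n : ℤ) (x : DD d), cf d n (x * ((u ^ m : (DD d)ˣ) : DD d)) = cf d (n - m) x := by
  have hinv : ∀ (n : ℤ) (x : DD d), cf d n (x * ((u⁻¹ : (DD d)ˣ) : DD d)) = cf d (n + 1) x := by
    intro n x
    have h1 := cf_mul_T d (n + 1) (x * ((u⁻¹ : (DD d)ˣ) : DD d))
    rw [← hu, mul_assoc, Units.inv_mul, mul_one, add_sub_cancel_right] at h1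
    exact h1.symm
  induction m using Int.induction_on with
  | zero => intro n x; simp
  | succ i ih =>
    intro n x
    rw [zpow_add_one, Units.val_mul, ← mul_assoc, hu, cf_mul_T, ih,
      show n - 1 - (i : ℤ) = n - ((i : ℤ) + 1) by ring]
  | pred i ih =>
    intro n x
    rw [zpow_sub_one, Units.val_mul, ← mul_assoc, hinv, ih,
      show n + 1 - -(i : ℤ) = n - (-(i : ℤ) - 1) by ring]

/-- powers of `T` on the left -/
theorem dd2_pow_mul (d : CD k K C) (u : (DD d)ˣ) (hu : (u : DD d) = Cyc3.Y (ddD d)) (m : ℤ) :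
    ∀ (n : ℤ) (x : DD d), cf d n (((u ^ m : (DD d)ˣ) : DD d) * x) =
      ((d.ψ : RingAut C) ^ m) (cf d (n - m) x) := by
  have hinv : ∀ (n : ℤ) (x : DD d), cf d n (((u⁻¹ : (DD d)ˣ) : DD d) * x) =
      ((d.ψ : RingAut C)⁻¹) (cf d (n + 1) x) := by
    intro n x
    have h1 := cf_T_mul d (n + 1) (((u⁻¹ : (DD d)ˣ) : DD d) * x)
    rw [← hu, ← mul_assoc, Units.mul_inv, one_mul, add_sub_cancel_right] at h1
    rw [h1]
    exact (d.ψ.symm_apply_apply _).symm
  induction m using Int.induction_on with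
  | zero => intro n x; simp
  | succ i ih =>
    intro n x
    rw [zpow_add_one, Units.val_mul, mul_assoc, ih, hu, cf_T_mul, zpow_add_one,
      RingAut.mul_apply, sub_sub]
  | pred i ih =>
    intro n x
    rw [zpow_sub_one, Units.val_mul, mul_assoc, ih, hinv, zpow_sub_one, RingAut.mul_apply,
      show n - -(i : ℤ) + 1 = n - (-(i : ℤ) - 1) by ring]

/-- The general case: reduce to order 0 by writing `x x' = (x T^(-n)) (Tⁿ x' T^(-n-n')) T^(n+n')`
(powers of the unit of `T_unit`, `cf_T_mul`, `cf_mul_T` and induction on the exponent). -/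
theorem dd_Q2 (d : CD k K C) (n n' : ℤ) (x x' : DD d) (h : LowD d n x) (h' : LowD d n' x') :
    LowD d (n + n') (x * x') ∧
      cf d (n + n') (x * x') = cf d n x * ((d.ψ : RingAut C) ^ n) (cf d n' x') := by
  obtain ⟨u, hu⟩ := T_unit d
  obtain ⟨y, hy⟩ : ∃ y, y = x * ((u ^ (-n) : (DD d)ˣ) : DD d) := ⟨_, rfl⟩
  obtain ⟨y', hy'⟩ : ∃ y', y' = ((u ^ n : (DD d)ˣ) : DD d) * x' * ((u ^ (-(n + n')) : (DD d)ˣ) : DD d) :=
    ⟨_, rfl⟩
  have cy : ∀ m, cf d m y = cf d (m + n) x := by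
    intro m
    rw [hy, dd2_mul_pow d u hu, sub_neg_eq_add]
  have cy' : ∀ m, cf d m y' = ((d.ψ : RingAut C) ^ n) (cf d (m + n') x') := by
    intro m
    rw [hy', dd2_mul_pow d u hu, dd2_pow_mul d u hu,
      show m - -(n + n') - n = m + n' by ring]
  have ly : LowD d 0 y := by
    intro m hm
    rw [cy]
    exact h _ (by omega)
  have ly' : LowD d 0 y' := by
    intro m hm
    rw [cy', h' _ (by omega), map_zero]
  have hxy : x * x' = (y * y') * ((u ^ (n + n') : (DD d)ˣ) : DD d) := by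
    rw [hy, hy']
    have e1 : ((u ^ (-n) : (DD d)ˣ) : DD d) * ((u ^ n : (DD d)ˣ) : DD d) = 1 := by
      rw [← Units.val_mul, ← zpow_add, neg_add_cancel, zpow_zero, Units.val_one]
    have e2 : ((u ^ (-(n + n')) : (DD d)ˣ) : DD d) * ((u ^ (n + n') : (DD d)ˣ) : DD d) = 1 := by
      rw [← Units.val_mul, ← zpow_add, neg_add_cancel, zpow_zero, Units.val_one]
    calc x * x' = x * 1 * x' * 1 := by rw [mul_one, mul_one]
      _ = x * (((u ^ (-n) : (DD d)ˣ) : DD d) * ((u ^ n : (DD d)ˣ) : DD d)) * x' *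
          (((u ^ (-(n + n')) : (DD d)ˣ) : DD d) * ((u ^ (n + n') : (DD d)ˣ) : DD d)) := by
            rw [e1, e2]
      _ = _ := by simp only [mul_assoc]
  obtain ⟨q1, q2⟩ := dd_Q0 d y y' ly ly'
  constructor
  · intro m hm
    rw [hxy, dd2_mul_pow d u hu]
    exact q1 _ (by omega)
  · rw [hxy, dd2_mul_pow d u hu, sub_self, q2, cy, cy', zero_add, zero_add]

end NCP
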