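import Pool.Agent.H24.NCP.DD1

/-! # Module DD3: scalars from `F = k((t))` -/

set_option autoImplicit false

namespace NCP
open HahnSeries

variable {k K C : Type} [Field k] [Field K] [DivisionRing C] [Algebra k K] [Algebra K C]
    [Algebra k C] [IsScalarTower k K C]

theorem DD3_smul_x0 (d : CD k K C) (f : FF k) (x : DD d) :
    (f • x).x0 = hmap (algebraMap k C) f * x.x0 := by
  rw [Algebra.smul_def, algebraMap_DD]
  simp [FtoD_x0, FtoD_x1, FtoD_x2]

theorem DD3_smul_x1 (d : CD k K C) (f : FF k) (x : DD d) :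
    (f • x).x1 = hmap (algebraMap k C) f * x.x1 := by
  rw [Algebra.smul_def, algebraMap_DD]
  simp [FtoD_x0, FtoD_x1, FtoD_x2]

theorem DD3_smul_x2 (d : CD k K C) (f : FF k) (x : DD d) :
    (f • x).x2 = hmap (algebraMap k C) f * x.x2 := by
  rw [Algebra.smul_def, algebraMap_DD]
  simp [FtoD_x0, FtoD_x1, FtoD_x2]

/-- Components. -/
noncomputable def DD3_cp {d : CD k K C} (i : ℤ) (x : DD d) : HahnSeries ℤ C :=
  if i = 0 then x.x0 else if i = 1 then x.x1 else x.x2

theorem DD3_cf (d : CD k K C) (n : ℤ) (x : DD d) :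
    cf d n x = (DD3_cp (n % 3) x).coeff (n / 3) * d.c ^ (-(n / 3)) := by
  rw [cf_apply, DD3_cp]
  split_ifs <;> rfl

theorem DD3_cp_smul {d : CD k K C} (i : ℤ) (f : FF k) (x : DD d) :
    DD3_cp i (f • x) = hmap (algebraMap k C) f * DD3_cp i x := by
  unfold DD3_cp
  split_ifs
  · exact DD3_smul_x0 d f x
  · exact DD3_smul_x1 d f x
  · exact DD3_smul_x2 d f x

theorem DD3_cp_low {d : CD k K C} {n' : ℤ} {x : DD d} (hx : LowD d n' x) (i : ℤ) (hi0 : 0 ≤ i)
    (hi3 : i < 3) (m : ℤ) (hm : 3 * m + i < n') : (DD3_cp i x).coeff m = 0 := by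
  have h := hx (3 * m + i) hm
  rw [DD3_cf, show (3 * m + i) % 3 = i by omega, show (3 * m + i) / 3 = m by omega] at h
  rcases mul_eq_zero.1 h with h | h
  · exact h
  · exact absurd h (zpow_ne_zero _ d.c0)

/-- `f = α tⁿ + ...`, `x = x_{n'} T^{n'} + ...`: `f x = α x_{n'} c⁻ⁿ T^(3n+n') + ...`
(componentwise, `coeff_mul_lead`; `n' mod 3` does not change). -/
theorem dd_smul (d : CD k K C) (n n' : ℤ) (f : FF k) (x : DD d) (hf : ∀ m < n, f.coeff m = 0)
    (hx : LowD d n' x) :
    LowD d (3 * n + n') (f • x) ∧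
      cf d (3 * n + n') (f • x) = algebraMap k C (f.coeff n) * cf d n' x * d.c ^ (-n) := by
  have hF : ∀ m < n, (hmap (algebraMap k C) f).coeff m = 0 := by
    intro m hm
    rw [hmap_coeff, hf m hm, map_zero]
  constructor
  · intro N hN
    have hlow : ∀ m < (n' - N % 3 + 2) / 3, (DD3_cp (N % 3) x).coeff m = 0 := by
      intro m hm
      exact DD3_cp_low hx (N % 3) (by omega) (by omega) m (by omega)
    have h1 := (coeff_mul_lead hF hlow).1 (N / 3) (by omega)
    rw [DD3_cf, DD3_cp_smul, h1, zero_mul]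
  · have hlow : ∀ m < n' / 3, (DD3_cp (n' % 3) x).coeff m = 0 := by
      intro m hm
      exact DD3_cp_low hx (n' % 3) (by omega) (by omega) m (by omega)
    have h1 := (coeff_mul_lead hF hlow).2
    rw [DD3_cf, DD3_cp_smul, show (3 * n + n') % 3 = n' % 3 by omega,
      show (3 * n + n') / 3 = n + n' / 3 by omega, h1, hmap_coeff, DD3_cf,
      show -(n + n' / 3) = -(n' / 3) + -n by ring, zpow_add₀ d.c0]
    simp only [mul_assoc]

/-- Coefficients of scalars. -/
theorem cf_algebraMap_zero (d : CD k K C) (f : FF k) :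
    cf d 0 (algebraMap (FF k) (DD d) f) = algebraMap k C (f.coeff 0) := by
  rw [DD3_cf, algebraMap_DD]
  simp [DD3_cp, FtoD_x0]

/-- `t = single 1 1` shifts exactly by 3. -/
theorem cf_t_smul (d : CD k K C) (m : ℤ) (x : DD d) :
    cf d (m + 3) ((single 1 1 : FF k) • x) = cf d m x * d.c⁻¹ := by
  rw [DD3_cf, DD3_cp_smul, show (m + 3) % 3 = m % 3 by omega,
    show (m + 3) / 3 = m / 3 + 1 by omega, hmap_single, map_one, coeff_single_mul_add, one_mul,
    DD3_cf, mul_assoc, neg_add, zpow_add₀ d.c0, zpow_neg_one]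

/-- Multiplying by `t⁻¹`: if `x` has order `≥ 3` then `x = t • x'` with `x'` of order `≥ 0`. -/
theorem cf_t_inv_smul (d : CD k K C) (m : ℤ) (x : DD d) :
    cf d (m - 3) ((single (-1) 1 : FF k) • x) = cf d m x * d.c := by
  rw [DD3_cf, DD3_cp_smul, show (m - 3) % 3 = m % 3 by omega,
    show (m - 3) / 3 = m / 3 + -1 by omega, hmap_single, map_one, coeff_single_mul_add, one_mul,
    DD3_cf, mul_assoc, neg_add, neg_neg, zpow_add₀ d.c0, zpow_one]

end NCP
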