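import Pool.Agent.H24.NCP.DD2

/-! # Module DD4: dimension of `D` over `F`, and `D` is a division ring -/

set_option autoImplicit false

namespace NCP
open HahnSeries

variable {k K C : Type} [Field k] [Field K] [DivisionRing C] [Algebra k K] [Algebra K C]
    [Algebra k C] [IsScalarTower k K C]

/-- `[C : k] = 27`. -/
theorem cd_finrank (d : CD k K C) : Module.finrank k C = 27 := by
  have h := Module.finrank_mul_finrank k K C
  rw [d.dk, d.dK] at h
  exact h.symm

/-- coefficientwise linear map -/
noncomputable def DD4_map (l : C →ₗ[k] k) : HahnSeries ℤ C →+ HahnSeries ℤ k where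
  toFun x := x.map l
  map_zero' := by ext n; simp
  map_add' x y := by ext n; simp

theorem DD4_map_coeff (l : C →ₗ[k] k) (x : HahnSeries ℤ C) (n : ℤ) :
    (DD4_map l x).coeff n = l (x.coeff n) := rfl

theorem DD4_map_mul (l : C →ₗ[k] k) (f : HahnSeries ℤ k) (x : HahnSeries ℤ C) :
    DD4_map l (hmap (algebraMap k C) f * x) = f * DD4_map l x := by
  ext n
  rw [DD4_map_coeff]
  have h1 : (hmap (algebraMap k C) f).support ⊆ f.support := by
    intro m hm hm'
    apply hm
    rw [hmap_coeff, hm', map_zero]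
  have h2 : (DD4_map l x).support ⊆ x.support := by
    intro m hm hm'
    apply hm
    rw [DD4_map_coeff, hm', map_zero]
  rw [HahnSeries.coeff_mul_left' f.isPWO_support h1,
    HahnSeries.coeff_mul_right' x.isPWO_support h2, map_sum]
  apply Finset.sum_congr rfl
  intro p _
  rw [hmap_coeff, DD4_map_coeff, ← Algebra.smul_def, map_smul, smul_eq_mul]

/-- the component of an element of `D` -/
def DD4_comp {d : CD k K C} (x : DD d) (j : Fin 3) : HahnSeries ℤ C :=
  if j = 0 then x.x0 else if j = 1 then x.x1 else x.x2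

theorem DD4_comp_add {d : CD k K C} (x y : DD d) (j : Fin 3) :
    DD4_comp (x + y) j = DD4_comp x j + DD4_comp y j := by
  unfold DD4_comp
  split_ifs <;> rfl

theorem DD4_comp_smul {d : CD k K C} (f : FF k) (x : DD d) (j : Fin 3) :
    DD4_comp (f • x) j = hmap (algebraMap k C) f * DD4_comp x j := by
  have h : f • x = FtoD d f * x := by
    rw [Algebra.smul_def, algebraMap_DD]
  rw [h]
  unfold DD4_comp
  split_ifs
  · simp [FtoD_x0, FtoD_x1, FtoD_x2]
  · simp [FtoD_x0, FtoD_x1, FtoD_x2]
  · simp [FtoD_x0, FtoD_x1, FtoD_x2]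

/-- coordinates -/
noncomputable def DD4_lin (d : CD k K C) {ι : Type} (b : Module.Basis ι k C) :
    DD d →ₗ[FF k] (Fin 3 × ι → FF k) where
  toFun x := fun p => DD4_map (b.coord p.2) (DD4_comp x p.1)
  map_add' x y := by
    funext p
    rw [DD4_comp_add, map_add, Pi.add_apply]
  map_smul' f x := by
    funext p
    rw [DD4_comp_smul, DD4_map_mul, Pi.smul_apply, smul_eq_mul, RingHom.id_apply]

theorem DD4_lin_apply (d : CD k K C) {ι : Type} (b : Module.Basis ι k C) (x : DD d)
    (p : Fin 3 × ι) : DD4_lin d b x p = DD4_map (b.coord p.2) (DD4_comp x p.1) := rfl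

theorem DD4_inj (d : CD k K C) {ι : Type} (b : Module.Basis ι k C) :
    Function.Injective (DD4_lin d b) := by
  rw [injective_iff_map_eq_zero]
  intro x hx
  have h : ∀ j : Fin 3, DD4_comp x j = 0 := by
    intro j
    ext n
    rw [HahnSeries.coeff_zero]
    apply b.ext_elem
    intro i
    have h1 := congrFun hx (j, i)
    rw [DD4_lin_apply] at h1
    have h2 := congrArg (fun y : HahnSeries ℤ k => y.coeff n) h1
    simp only [DD4_map_coeff, Pi.zero_apply, HahnSeries.coeff_zero,
      Module.Basis.coord_apply] at h2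
    rw [h2, map_zero, Finsupp.zero_apply]
  apply Cyc3.ext
  · exact h 0
  · exact h 1
  · exact h 2

theorem DD4_single_exists {ι : Type} [Fintype ι] (b : Module.Basis ι k C)
    (g : ι → HahnSeries ℤ k) :
    ∃ y : HahnSeries ℤ C, ∀ i, DD4_map (b.coord i) y = g i := by
  refine ⟨∑ i, (g i).map (LinearMap.toSpanSingleton k C (b i)), ?_⟩
  intro i
  ext n
  rw [DD4_map_coeff, HahnSeries.coeff_sum, map_sum, Finset.sum_eq_single i]
  · rw [HahnSeries.map_coeff, LinearMap.toSpanSingleton_apply, map_smul,
      Module.Basis.coord_apply, b.repr_self, Finsupp.single_eq_same, smul_eq_mul, mul_one]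
  · intro j _ hj
    rw [HahnSeries.map_coeff, LinearMap.toSpanSingleton_apply, map_smul,
      Module.Basis.coord_apply, b.repr_self, Finsupp.single_eq_of_ne hj.symm, smul_zero]
  · intro h
    exact absurd (Finset.mem_univ i) h

theorem DD4_surj (d : CD k K C) {ι : Type} [Fintype ι] (b : Module.Basis ι k C) :
    Function.Surjective (DD4_lin d b) := by
  intro g
  choose y hy using fun j : Fin 3 => DD4_single_exists b (fun i => g (j, i))
  refine ⟨⟨y 0, y 1, y 2⟩, ?_⟩
  funext p
  obtain ⟨j, i⟩ := p
  rw [DD4_lin_apply]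
  fin_cases j
  · exact hy 0 i
  · exact hy 1 i
  · exact hy 2 i

/-- If `b₁, ..., b₂₇` is a `k`-basis of `C` then the constants `b_i T^j`, `j = 0, 1, 2`, form an
`F`-basis of `D`: `C((t))` is coefficientwise `k((t))^27`. -/
theorem dd_finrank (d : CD k K C) : Module.finrank (FF k) (DD d) = 81 := by
  have h27 := cd_finrank d
  have hfin : FiniteDimensional k C := Module.finite_of_finrank_pos (by rw [h27]; norm_num)
  let b := Module.finBasis k C
  have e := LinearEquiv.ofBijective (DD4_lin d b) ⟨DD4_inj d b, DD4_surj d b⟩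
  rw [e.finrank_eq, Module.finrank_fintype_fun_eq_card, Fintype.card_prod, Fintype.card_fin,
    Fintype.card_fin, h27]

/-- Domain, by `dd_Q2` and `exists_ord`. -/
theorem dd_mul_eq_zero (d : CD k K C) (x y : DD d) (h : x * y = 0) : x = 0 ∨ y = 0 := by
  by_contra hcon
  push Not at hcon
  obtain ⟨n, hn1, hn2⟩ := exists_ord d x hcon.1
  obtain ⟨m, hm1, hm2⟩ := exists_ord d y hcon.2
  have h1 := (dd_Q2 d n m x y hn1 hm1).2
  rw [h, map_zero] at h1
  have h2 : ((d.ψ : RingAut C) ^ n) (cf d m y) ≠ 0 := by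
    intro h0
    exact hm2 ((map_eq_zero_iff _ (RingEquiv.injective _)).1 h0)
  exact mul_ne_zero hn2 h2 h1.symm

/-- A finite-dimensional domain over a field. -/
theorem dd_unit (d : CD k K C) (x : DD d) : IsUnit x ∨ x = 0 := by
  by_cases hx : x = 0
  · exact Or.inr hx
  left
  have hnz : NoZeroDivisors (DD d) := ⟨fun {a b} h => dd_mul_eq_zero d a b h⟩
  have hdom : IsDomain (DD d) := NoZeroDivisors.to_isDomain _
  have hfin : FiniteDimensional (FF k) (DD d) :=
    Module.finite_of_finrank_pos (by rw [dd_finrank]; norm_num)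
  obtain ⟨y, hy⟩ := FiniteDimensional.exists_mul_eq_one (FF k) hx
  have hy0 : y ≠ 0 := by
    rintro rfl
    rw [mul_zero] at hy
    exact zero_ne_one hy
  obtain ⟨z, hz⟩ := FiniteDimensional.exists_mul_eq_one (FF k) hy0
  have hxz : x = z := by
    calc x = x * (y * z) := by rw [hz, mul_one]
      _ = z := by rw [← mul_assoc, hy, one_mul]
  refine ⟨⟨x, y, hy, ?_⟩, rfl⟩
  rw [hxz]
  exact hz

noncomputable instance instDivDD (d : CD k K C) : DivisionRing (DD d) :=
  DivisionRing.ofIsUnitOrEqZero (dd_unit d)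

end NCP
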