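import Pool.Agent.H24.NCP.DD4

/-! # Module DD5: the centre of `D` is `F` -/

set_option autoImplicit false

namespace NCP
open HahnSeries

variable {k K C : Type} [Field k] [Field K] [DivisionRing C] [Algebra k K] [Algebra K C]
    [Algebra k C] [IsScalarTower k K C]

/-- There is `θ` in the centre `K` of `C` with `ψ θ ≠ θ` and `ψ² θ ≠ θ` (`[K : k] = 3`, so
`K ≠ k`; `ψ³ = Int(c)` is trivial on `K`). -/
theorem exists_theta (d : CD k K C) : ∃ θ : C, (∀ y, θ * y = y * θ) ∧ d.ψ θ ≠ θ ∧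
    d.ψ (d.ψ θ) ≠ θ ∧ d.ψ (d.ψ (d.ψ θ)) = θ := by
  have h3 : ∀ θ : C, (∀ y, θ * y = y * θ) → d.ψ (d.ψ (d.ψ θ)) = θ := by
    intro θ hθ
    have h1 := d.ψ3 θ
    rw [← hθ d.c] at h1
    exact mul_right_cancel₀ d.c0 h1
  have h1 : ∃ θ : C, (∀ y, θ * y = y * θ) ∧ d.ψ θ ≠ θ := by
    by_contra hcon
    push Not at hcon
    have hsurj : Function.Surjective (algebraMap k K) := by
      intro κ
      have hc : ∀ y, algebraMap K C κ * y = y * algebraMap K C κ := (d.cK _).2 ⟨κ, rfl⟩
      obtain ⟨r, hr⟩ := (d.ck (algebraMap K C κ)).1 ⟨hc, hcon _ hc⟩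
      refine ⟨r, ?_⟩
      apply (algebraMap K C).injective
      rw [← hr, ← IsScalarTower.algebraMap_apply]
    have hbij : Function.Bijective (Algebra.linearMap k K) :=
      ⟨(algebraMap k K).injective, hsurj⟩
    have h2 := (LinearEquiv.ofBijective _ hbij).finrank_eq
    rw [Module.finrank_self, d.dk] at h2
    omega
  obtain ⟨θ, hθ, hne⟩ := h1
  refine ⟨θ, hθ, hne, ?_, h3 θ hθ⟩
  intro h2
  apply hne
  have h4 := h3 θ hθ
  rw [h2] at h4
  exact h4

theorem DD5_coeff_mul {x : HahnSeries ℤ C} (r : C) (n : ℤ) :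
    (x * single 0 r).coeff n = x.coeff n * r := by
  have h := coeff_mul_single_add (r := r) (x := x) (a := n) (b := 0)
  rwa [add_zero] at h

theorem DD5_coeff_mul' {x : HahnSeries ℤ C} (r : C) (n : ℤ) :
    (single 0 r * x).coeff n = r * x.coeff n := by
  have h := coeff_single_mul_add (r := r) (x := x) (a := n) (b := 0)
  rwa [add_zero] at h

/-- An element commuting with the constants of `C` and with `T` is in `F`: commuting with `θ`
kills `x₁`, `x₂`; commuting with `C`: coefficients of `x₀` in `K`; with `T`: in `k`. -/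
theorem dd_center (d : CD k K C) (x : DD d) (h : ∀ y, x * y = y * x) :
    ∃ f : FF k, algebraMap (FF k) (DD d) f = x := by
  obtain ⟨θ, hθ, h1, h2, -⟩ := exists_theta d
  have hcomm := fun r : C => h (Cyc3.inc (ddD d) (single 0 r))
  have hx1 : x.x1 = 0 := by
    ext n
    have e := congrArg (fun z : DD d => z.x1.coeff n) (hcomm θ)
    simp only [Cyc3.mul_x1, Cyc3.inc_x0, Cyc3.inc_x1, Cyc3.inc_x2, ddD_τ, map_zero, mul_zero,
      zero_mul, add_zero, zero_add, hmapE_single, DD5_coeff_mul, DD5_coeff_mul'] at e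
    rw [hθ, ← sub_eq_zero, ← mul_sub] at e
    rcases mul_eq_zero.1 e with h3 | h3
    · simpa using h3
    · exact absurd (sub_eq_zero.1 h3) h1
  have hx2 : x.x2 = 0 := by
    ext n
    have e := congrArg (fun z : DD d => z.x2.coeff n) (hcomm θ)
    simp only [Cyc3.mul_x2, Cyc3.inc_x0, Cyc3.inc_x1, Cyc3.inc_x2, ddD_τ, map_zero, mul_zero,
      zero_mul, add_zero, zero_add, hmapE_single, DD5_coeff_mul, DD5_coeff_mul'] at e
    rw [hθ, ← sub_eq_zero, ← mul_sub] at e
    rcases mul_eq_zero.1 e with h3 | h3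
    · simpa using h3
    · exact absurd (sub_eq_zero.1 h3) h2
  have hx0 : ∀ n (r : C), x.x0.coeff n * r = r * x.x0.coeff n := by
    intro n r
    have e := congrArg (fun z : DD d => z.x0.coeff n) (hcomm r)
    simpa only [Cyc3.mul_x0, Cyc3.inc_x0, Cyc3.inc_x1, Cyc3.inc_x2, ddD_τ, map_zero, mul_zero,
      zero_mul, add_zero, zero_add, hmapE_single, DD5_coeff_mul, DD5_coeff_mul'] using e
  have hψ : ∀ n, d.ψ (x.x0.coeff n) = x.x0.coeff n := by
    intro n
    have e := congrArg (fun z : DD d => z.x1.coeff n) (h (Cyc3.Y (ddD d)))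
    simp only [Cyc3.mul_x1, Cyc3.Y_x0, Cyc3.Y_x1, Cyc3.Y_x2, ddD_τ, map_zero, mul_zero,
      zero_mul, add_zero, zero_add, one_mul, mul_one, hmapE_coeff] at e
    exact e.symm
  have hran : ∀ n, x.x0.coeff n ∈ Set.range (algebraMap k C) :=
    fun n => (d.ck _).1 ⟨hx0 n, hψ n⟩
  have hinj : Function.Injective (algebraMap k C) := (algebraMap k C).injective
  let g : ZeroHom C k :=
    { toFun := Function.invFun (algebraMap k C)
      map_zero' := by
        have := Function.leftInverse_invFun hinj 0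
        rwa [map_zero] at this }
  refine ⟨x.x0.map g, ?_⟩
  rw [algebraMap_DD]
  ext1
  · rw [FtoD_x0]
    ext n
    rw [hmap_coeff]
    obtain ⟨r, hr⟩ := hran n
    show algebraMap k C (Function.invFun (algebraMap k C) (x.x0.coeff n)) = x.x0.coeff n
    rw [← hr, Function.leftInverse_invFun hinj r]
  · rw [FtoD_x1, hx1]
  · rw [FtoD_x2, hx2]

instance dd_isCentral (d : CD k K C) : Algebra.IsCentral (FF k) (DD d) := by
  constructor
  intro x hx
  rw [Subalgebra.mem_center_iff] at hx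
  obtain ⟨f, hf⟩ := dd_center d x (fun y => (hx y).symm)
  rw [Algebra.mem_bot]
  exact ⟨f, hf⟩

end NCP
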