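import Pool.Agent.H24.NCP.RF2

/-! # Module E1M: (E1): `δ f ≠ z σ(z) σ²(z)` for `z ≠ 0` -/

set_option autoImplicit false

namespace NCP
open Polynomial

variable {σ j : RF ≃+* RF} {δ : Derivation ℤ RF RF}

private theorem e1m_trail {R : Type} [Field R] (P : R[X]) (F : R →+* R) :
    (P.map F).natTrailingDegree = P.natTrailingDegree := by
  unfold natTrailingDegree trailingDegree
  rw [support_map_of_injective _ F.injective]

/-- the polynomial statement -/
private theorem e1m_poly {R : Type} [Field R] (h3 : (3 : R) = 0) (F : R →+* R) (g P : R[X])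
    (hP : P ≠ 0) : X * derivative g ≠ P * P.map F * (P.map F).map F := by
  intro h
  have hP1 : P.map F ≠ 0 := (Polynomial.map_ne_zero_iff F.injective).2 hP
  have hP2 : (P.map F).map F ≠ 0 := (Polynomial.map_ne_zero_iff F.injective).2 hP1
  have hne : P * P.map F * (P.map F).map F ≠ 0 := mul_ne_zero (mul_ne_zero hP hP1) hP2
  have ht : (P * P.map F * (P.map F).map F).natTrailingDegree = 3 * P.natTrailingDegree := by
    rw [natTrailingDegree_mul (mul_ne_zero hP hP1) hP2, natTrailingDegree_mul hP hP1,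
      e1m_trail (P.map F), e1m_trail P]
    ring
  have h1 : (P * P.map F * (P.map F).map F).coeff (3 * P.natTrailingDegree) ≠ 0 := by
    rw [← ht]
    exact trailingCoeff_nonzero_iff_nonzero.2 hne
  apply h1
  rw [← h]
  rcases Nat.eq_zero_or_pos (3 * P.natTrailingDegree) with h0 | h0
  · rw [h0, mul_coeff_zero, coeff_X_zero, zero_mul]
  · obtain ⟨m, hm⟩ := Nat.exists_eq_succ_of_ne_zero h0.ne'
    rw [hm, Nat.succ_eq_add_one, coeff_X_mul, coeff_derivative]
    have h2 : ((m : R) + 1) = ((3 * P.natTrailingDegree : ℕ) : R) := by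
      rw [hm]; push_cast; ring
    rw [h2]
    push_cast
    rw [h3]
    ring

/-- (E1).  Proof: write `z = p/q`, `f = a/b` with polynomials.  Then
`δ f = X (a' b - a b')/b²`, and `δ f = N(z)` reads
`X (a' b - a b') N(q) = N(p) b²`, `N(p) = p · σp · σ²p`.  Compare the coefficient at the lowest
degree (`natTrailingDegree`, or `coeff`): multiply `f` by the cube of `N(q)`... more precisely,
WLOG (multiply both sides by the `δ`-constant `(b σb σ²b · q σq σ²q)³` = norm of
`(b q)·…`) everything is a polynomial: if `d = b * q` and `D = d · σd · σ²d`, then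
`δ(f D³) = D³ N(z) = N(z D)` (as `N(D) = D³`), with `f D³`, `z D` polynomials.  So it suffices:
for polynomials `g`, `p ≠ 0`: `X g' ≠ p · σp · σ²p`: the trailing degree of the right hand side is
`3 t`, `t = natTrailingDegree p`, with non-zero coefficient, while the coefficient of `X g'` at
`3t` is `3 t g_{3t} = 0`. -/
theorem RPre.e1 (h : RPre σ j δ) (f z : RF) (hz : z ≠ 0) : δ f ≠ z * σ z * σ (σ z) := by
  intro heq
  obtain ⟨a, b, hb, rfl⟩ := IsFractionRing.div_surjective (A := K27[X]) f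
  obtain ⟨p, q, hq, rfl⟩ := IsFractionRing.div_surjective (A := K27[X]) z
  have hb0 : b ≠ 0 := nonZeroDivisors.ne_zero hb
  have hq0 : q ≠ 0 := nonZeroDivisors.ne_zero hq
  have hinj : Function.Injective pol := IsFractionRing.injective K27[X] RF
  have hpb : pol b ≠ 0 := fun h0 => hb0 (hinj (by rw [h0, map_zero]))
  have hpq : pol q ≠ 0 := fun h0 => hq0 (hinj (by rw [h0, map_zero]))
  have hp0 : p ≠ 0 := by
    rintro rfl
    exact hz (by rw [map_zero, zero_div])
  have h3 : (3 : RF) = 0 := by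
    have := CharP.cast_eq_zero RF 3
    exact_mod_cast this
  set F : K27 →+* K27 := frobenius K27 3 with hF
  obtain ⟨d, hd⟩ : ∃ d : K27[X], d = b * q := ⟨_, rfl⟩
  obtain ⟨d1, hd1⟩ : ∃ d1 : K27[X], d1 = d.map F := ⟨_, rfl⟩
  obtain ⟨d2, hd2⟩ : ∃ d2 : K27[X], d2 = d1.map F := ⟨_, rfl⟩
  have hs1 : σ (pol d) = pol d1 := by rw [h.σ_alg, hd1]
  have hs2 : σ (pol d1) = pol d2 := by rw [h.σ_alg, hd2]
  have hs3 : σ (pol d2) = pol d := by rw [← hs2, ← hs1, h.σ3]
  have hpd : pol d = pol b * pol q := by rw [hd, map_mul]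
  obtain ⟨D, hD⟩ : ∃ D : RF, D = pol d * pol d1 * pol d2 := ⟨_, rfl⟩
  have hσD : σ D = D := by
    rw [hD, map_mul, map_mul, hs1, hs2, hs3]; ring
  have hδD : δ (D ^ 3) = 0 := by
    rw [Derivation.leibniz_pow]
    have : (3 : ℕ) • (D ^ (3 - 1) • δ D) = ((3 : RF)) * (D ^ (3 - 1) * δ D) := by
      rw [nsmul_eq_mul, smul_eq_mul]; norm_num
    rw [this, h3, zero_mul]
  -- the polynomials
  have e1 : pol a / pol b * D ^ 3 = pol (a * q * d1 * d2 * (d * d1 * d2) ^ 2) := by
    simp only [map_mul, map_pow]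
    rw [hD, hpd]
    field_simp
  have e2 : pol p / pol q * D = pol (p * b * d1 * d2) := by
    simp only [map_mul]
    rw [hD, hpd]
    field_simp
  have key : δ (pol a / pol b * D ^ 3) = (pol p / pol q * D) * σ (pol p / pol q * D) *
      σ (σ (pol p / pol q * D)) := by
    rw [Derivation.leibniz, hδD, smul_zero, zero_add, smul_eq_mul, heq]
    simp only [map_mul, hσD]
    ring
  rw [e1, e2, h.δ_alg, h.σ_alg, h.σ_alg, ← map_mul, ← map_mul] at key
  have h4 := hinj key
  refine e1m_poly three27 F _ _ ?_ h4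
  have hd0 : d ≠ 0 := by rw [hd]; exact mul_ne_zero hb0 hq0
  have hd10 : d1 ≠ 0 := by rw [hd1]; exact (Polynomial.map_ne_zero_iff F.injective).2 hd0
  have hd20 : d2 ≠ 0 := by rw [hd2]; exact (Polynomial.map_ne_zero_iff F.injective).2 hd10
  exact mul_ne_zero (mul_ne_zero (mul_ne_zero hp0 hb0) hd10) hd20

end NCP
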