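import Pool.Agent.H24.NCP.HMap

/-! # Module ZS: an Artin–Schreier root of `ϖ` -/

set_option autoImplicit false

namespace NCP
open HahnSeries

open scoped Classical in
/-- the power series `-Σ X^(3^n)` -/
noncomputable def zsF (R : Type) [Field R] : PowerSeries R :=
  PowerSeries.mk (fun n => if ∃ k, n = 3 ^ k then -1 else 0)

open scoped Classical in
theorem zs_coeff (R : Type) [Field R] (n : ℕ) :
    PowerSeries.coeff n (zsF R) = if ∃ k, n = 3 ^ k then -1 else 0 := by
  rw [zsF, PowerSeries.coeff_mk]

theorem zs_coeff_cases (R : Type) [Field R] (n : ℕ) :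
    PowerSeries.coeff n (zsF R) = -1 ∨ PowerSeries.coeff n (zsF R) = 0 := by
  rw [zs_coeff]
  split_ifs
  · left; rfl
  · right; rfl

theorem zs_cube (R : Type) [Field R] (h3 : (3 : R) = 0) (f : PowerSeries R) (n : ℕ) :
    PowerSeries.coeff n (f ^ 3) = (if 3 ∣ n then PowerSeries.coeff (n / 3) f else 0) ^ 3 := by
  have hc : CharP R 3 := by
    refine (CharP.charP_iff_prime_eq_zero Nat.prime_three).2 ?_
    exact_mod_cast h3
  have hexp : ExpChar R 3 := ExpChar.prime Nat.prime_three
  have h := MvPowerSeries.map_frobenius_expand (σ := Unit) (R := R) 3 (by norm_num) (f := f)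
  have h' : (PowerSeries.map (frobenius R 3)) (PowerSeries.expand 3 (by norm_num) f) = f ^ 3 := h
  rw [← h', PowerSeries.coeff_map, PowerSeries.coeff_expand, frobenius_def]

theorem zs_root (R : Type) [Field R] (h3 : (3 : R) = 0) :
    (zsF R) ^ 3 - zsF R = PowerSeries.X := by
  ext n
  rw [map_sub, zs_cube R h3, PowerSeries.coeff_X]
  by_cases h1 : n = 1
  · subst h1
    rw [if_neg (by norm_num), zs_coeff, if_pos ⟨0, by norm_num⟩, if_pos rfl]
    ring
  · rw [if_neg h1]
    by_cases hd : 3 ∣ n
    · rw [if_pos hd]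
      obtain ⟨m, rfl⟩ := hd
      rw [Nat.mul_div_cancel_left _ (by norm_num), zs_coeff, zs_coeff]
      by_cases hk : ∃ k, m = 3 ^ k
      · have hk' : ∃ k, 3 * m = 3 ^ k := by
          obtain ⟨k, rfl⟩ := hk
          exact ⟨k + 1, by rw [pow_succ]; ring⟩
        rw [if_pos hk, if_pos hk']
        ring
      · have hk' : ¬ ∃ k, 3 * m = 3 ^ k := by
          rintro ⟨k, hk'⟩
          apply hk
          cases k with
          | zero => omega
          | succ k =>
            refine ⟨k, ?_⟩
            rw [pow_succ] at hk'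
            omega
        rw [if_neg hk, if_neg hk']
        ring
    · rw [if_neg hd, zs_coeff]
      have hk' : ¬ ∃ k, n = 3 ^ k := by
        rintro ⟨k, hk'⟩
        cases k with
        | zero => exact h1 (by simpa using hk')
        | succ k =>
          apply hd
          rw [hk', pow_succ]
          exact Dvd.intro_left _ rfl
      rw [if_neg hk']
      ring

/-- `z = -Σ_{n ≥ 0} ϖ^(3^n)` satisfies `z³ - z = ϖ`.  Work in `R⟦X⟧` first:
for a power series `f` with coefficients in `{0,1,-1}` (so `c³ = c`) one has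
`coeff n (f ^ 3) = if 3 ∣ n then coeff (n/3) f else 0` (use truncations and
`Polynomial.expand_char`/`Polynomial.map_frobenius_expand`, or any Frobenius lemma for power
series), then `HahnSeries.ofPowerSeries ℤ R`.  Fixed by every coefficientwise automorphism. -/
theorem exists_z (R : Type) [Field R] (h3 : (3 : R) = 0) :
    ∃ z : HahnSeries ℤ R, z ^ 3 - z = single 1 1 ∧ (∀ k ≤ 0, z.coeff k = 0) ∧
      (∀ g : R ≃+* R, hmapE g z = z) := by
  refine ⟨HahnSeries.ofPowerSeries ℤ R (zsF R), ?_, ?_, ?_⟩
  · rw [← map_pow, ← map_sub, zs_root R h3, HahnSeries.ofPowerSeries_X]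
  · intro k hk
    rw [PowerSeries.coeff_coe]
    split_ifs with h
    · rfl
    · have : k = 0 := by omega
      subst this
      rw [zs_coeff, if_neg]
      rintro ⟨k, hk⟩
      have : 0 < 3 ^ k := by positivity
      simp at hk
      omega
  · intro g
    ext n
    rw [hmapE_coeff, PowerSeries.coeff_coe]
    split_ifs with h
    · simp
    · rcases zs_coeff_cases R n.natAbs with h1 | h1
      · rw [h1]; simp
      · rw [h1]; simp

end NCP
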