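import Pool.Agent.H24.NCP.MDA
import Pool.Agent.H24.NCP.ZS

/-! # Module MDI: construction of `MD` -/

set_option autoImplicit false

namespace NCP
open HahnSeries

section abs
variable {M : Type} [Field M] (sh s i : M ≃+* M)

theorem mdi_norm (e e' e'' z w : M) (h1 : e + e' + e'' = 1)
    (h2 : e * e' + e * e'' + e' * e'' = 0) (h3 : e * e' * e'' = -1) (hz : z ^ 3 - z = w) :
    (1 + e * z) * (1 + e' * z) * (1 + e'' * z) = 1 - w := by
  linear_combination z * h1 + z ^ 2 * h2 + z ^ 3 * h3 - hz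

theorem mdi_rN (s_sh : ∀ a, s (sh a) = sh (s a)) (s_i : ∀ a, s (i a) = i (s a))
    (three : (3 : M) = 0) (r w : M) (hr : r * s r * s (s r) = 1 - w)
    (hsw : sh w * (1 - w) = w) (hiw : i w = -w) (hr0 : r ≠ 0) (h2 : 1 + w ≠ 0) :
    (i r / sh r) * s (i r / sh r) * s (s (i r / sh r)) = 1 - w := by
  have e1 : i r * s (i r) * s (s (i r)) = 1 + w := by
    have := congrArg i hr
    simp only [map_mul, map_sub, map_one, hiw] at this
    simp only [s_i]
    rw [this]; ring
  have e2 : sh r * s (sh r) * s (s (sh r)) = 1 - sh w := by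
    have := congrArg sh hr
    simp only [map_mul, map_sub, map_one] at this
    simp only [s_sh]
    exact this
  have e3 : (1 - sh w) * (1 - w) = 1 + w := by
    linear_combination -hsw - w * three
  have e4 : 1 - sh w ≠ 0 := by
    intro h
    rw [h, zero_mul] at e3
    exact h2 e3.symm
  have hsr : sh r ≠ 0 := by simpa using hr0
  have hsr' : s (sh r) ≠ 0 := by simpa using hr0
  have hsr'' : s (s (sh r)) ≠ 0 := by simpa using hr0
  simp only [map_div₀]
  rw [div_mul_div_comm, div_mul_div_comm, e1, e2, div_eq_iff e4]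
  linear_combination -e3

theorem mdi_ir (sh3 : ∀ a, sh (sh (sh a)) = a) (i2 : ∀ a, i (i a) = a)
    (i_sh : ∀ a, i (sh a) = sh (sh (i a))) (r : M) (hr0 : r ≠ 0) :
    i (i r / sh r) * sh (sh (i r / sh r)) = 1 := by
  simp only [map_div₀, i2, i_sh, sh3]
  have h : sh (sh (i r)) ≠ 0 := by simpa using hr0
  field_simp

/-- norm for `sh` -/
theorem mdi_shA (sh3 : ∀ a, sh (sh (sh a)) = a) (r : M) :
    sh (r * sh r * sh (sh r)) = r * sh r * sh (sh r) := by
  simp only [map_mul, sh3]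
  ring

theorem mdi_NA (s_sh : ∀ a, s (sh a) = sh (s a)) (three : (3 : M) = 0)
    (r w : M) (hr : r * s r * s (s r) = 1 - w)
    (hsw : sh w * (1 - w) = w) (h1 : 1 - w ≠ 0) :
    (r * sh r * sh (sh r)) * s (r * sh r * sh (sh r)) * s (s (r * sh r * sh (sh r))) = 1 := by
  have e2 : sh r * sh (s r) * sh (s (s r)) = 1 - sh w := by
    have := congrArg sh hr
    simp only [map_mul, map_sub, map_one] at this
    exact this
  have e3 : sh (sh r) * sh (sh (s r)) * sh (sh (s (s r))) = 1 - sh (sh w) := by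
    have := congrArg sh e2
    simp only [map_mul, map_sub, map_one] at this
    exact this
  have e4 : (r * sh r * sh (sh r)) * s (r * sh r * sh (sh r)) * s (s (r * sh r * sh (sh r))) =
      (1 - w) * (1 - sh w) * (1 - sh (sh w)) := by
    rw [← hr, ← e2, ← e3]
    simp only [map_mul, s_sh]
    ring
  have e5 : (1 - w) * (1 - sh w) = 1 + w := by
    linear_combination -hsw - w * three
  have e6 : sh (sh w) * (1 - sh w) = sh w := by
    have := congrArg sh hsw
    simp only [map_mul, map_sub, map_one] at this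
    exact this
  have e7 : (1 + w) * (1 - sh (sh w)) = 1 := by
    have h8 : (1 - w) * ((1 + w) * (1 - sh (sh w))) = (1 - w) * 1 := by
      rw [← e5]
      have h9 : sh (sh w) * ((1 - w) * (1 - sh w)) = w := by
        linear_combination (1 - w) * e6 + hsw
      rw [e5] at h9 ⊢
      linear_combination (-(1 - w)) * h9
    exact mul_left_cancel₀ h1 h8
  rw [e4, e5, e7]

theorem mdi_sB (s3 : ∀ a, s (s (s a)) = a) (A e : M) (hA : A * s A * s (s A) = 1) :
    s (e + A⁻¹ * s e + A⁻¹ * (s A)⁻¹ * s (s e)) =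
      A * (e + A⁻¹ * s e + A⁻¹ * (s A)⁻¹ * s (s e)) := by
  have h0 : A ≠ 0 := by
    rintro rfl
    simp at hA
  have h1 : s A ≠ 0 := by simpa using h0
  have h2 : s (s A) ≠ 0 := by simpa using h0
  simp only [map_add, map_mul, map_inv₀, s3]
  have h3 : (s A)⁻¹ * (s (s A))⁻¹ = A := by
    field_simp
    linear_combination -hA
  rw [h3]
  field_simp
  ring

theorem mdi_sh_i (sh3 : ∀ a, sh (sh (sh a)) = a)
    (i_sh : ∀ a, i (sh a) = sh (sh (i a))) (a : M) : sh (i a) = i (sh (sh a)) := by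
  rw [i_sh (sh a), i_sh a, sh3]

theorem mdi_shB (s_sh : ∀ a, s (sh a) = sh (s a)) (A e : M) (hA : sh A = A) (he : sh e = e) :
    sh (e + A⁻¹ * s e + A⁻¹ * (s A)⁻¹ * s (s e)) = e + A⁻¹ * s e + A⁻¹ * (s A)⁻¹ * s (s e) := by
  simp only [map_add, map_mul, map_inv₀, ← s_sh, hA, he]

theorem mdi_she (sh3 : ∀ a, sh (sh (sh a)) = a)
    (i_sh : ∀ a, i (sh a) = sh (sh (i a))) (B : M) (hB : sh B = B) :
    sh (i B / B) = i B / B := by
  rw [map_div₀, hB, mdi_sh_i sh i sh3 i_sh, hB, hB]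

theorem mdi_re (sh3 : ∀ a, sh (sh (sh a)) = a) (s_i : ∀ a, s (i a) = i (s a))
    (i_sh : ∀ a, i (sh a) = sh (sh (i a))) (r B : M) (hr0 : r ≠ 0)
    (hB0 : B ≠ 0) (hB : s B = (r * sh r * sh (sh r)) * B) :
    (i r / sh r) * sh (i r / sh r) * sh (sh (i r / sh r)) * (i B / B) = s (i B / B) := by
  have h1 : sh r ≠ 0 := by simpa using hr0
  have h2 : sh (sh r) ≠ 0 := by simpa using hr0
  rw [map_div₀ s, s_i, hB]
  simp only [map_div₀, map_mul, sh3]
  rw [mdi_sh_i sh i sh3 i_sh r, mdi_sh_i sh i sh3 i_sh (sh (sh r)), sh3 (sh r)]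
  field_simp

theorem mdi_ie (i2 : ∀ a, i (i a) = a) (B : M) (hB0 : B ≠ 0) :
    i (i B / B) * (i B / B) = 1 := by
  have h : i B ≠ 0 := by simpa using hB0
  rw [map_div₀, i2]
  field_simp

end abs

theorem mdi_three {R : Type} [Field R] (h3 : (3 : R) = 0) : (3 : HahnSeries ℤ R) = 0 := by
  rw [← map_ofNat (HahnSeries.C (Γ := ℤ) (R := R)) 3, h3, map_zero]

/-- Let `z` be as in `exists_z`, `ρ₀ = 1 + e z` (so `ρ₀ · sρ₀ · s²ρ₀ = 1 + z - z³ = 1 - ϖ` by
`e1 e2 e3`), `ρ = i(ρ₀)/sh(ρ₀)`, `A = ρ₀ · sh ρ₀ · sh² ρ₀` (`A · sA · s²A = N_sh(1 - ϖ) = 1`),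
`B = e + A⁻¹ σe + A⁻¹ (sA)⁻¹ σ²e` (`s B = A B`, `B` is a one-unit since `e1`), `ε = i(B)/B`. -/
theorem exists_md {R : Type} [Field R] (rd : RD R) : Nonempty (MD rd) := by
  classical
  obtain ⟨m, hm⟩ := exists_ma rd
  obtain ⟨z, hz, hz0, hzg⟩ := exists_z R rd.three
  have hsz : m.s z = z := hm z hzg
  have three := mdi_three rd.three
  set w : HahnSeries ℤ R := single 1 1 with hw
  set e : HahnSeries ℤ R := single 0 rd.e with he
  have hse : ∀ r : R, m.s (single 0 r) = single 0 (rd.σ r) := by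
    intro r
    ext n
    rw [m.s_coeff]
    simp only [coeff_single]
    split_ifs <;> simp
  have hie : m.i e = e := by
    ext n
    rw [m.i_coeff, he]
    simp only [coeff_single]
    split_ifs with h
    · rw [h, zpow_zero, one_mul, rd.je]
    · simp
  have hiw : m.i w = -w := by
    ext n
    rw [m.i_coeff, hw]
    simp only [coeff_single, coeff_neg]
    split_ifs with h
    · rw [h]; simp
    · simp
  have hadd : ∀ a b : R, (single 0 a : HahnSeries ℤ R) + single 0 b = single 0 (a + b) := by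
    intro a b
    exact (map_add (HahnSeries.C (Γ := ℤ) (R := R)) a b).symm
  have hmul : ∀ a b : R, (single 0 a : HahnSeries ℤ R) * single 0 b = single 0 (a * b) := by
    intro a b
    exact (map_mul (HahnSeries.C (Γ := ℤ) (R := R)) a b).symm
  have h1 : e + m.s e + m.s (m.s e) = 1 := by
    rw [he, hse, hse, hadd, hadd, rd.e1]; rfl
  have h2 : e * m.s e + e * m.s (m.s e) + m.s e * m.s (m.s e) = 0 := by
    rw [he, hse, hse, hmul, hmul, hmul, hadd, hadd, rd.e2]; simp
  have h3 : e * m.s e * m.s (m.s e) = -1 := by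
    rw [he, hse, hse, hmul, hmul, rd.e3]
    exact map_neg (HahnSeries.C (Γ := ℤ) (R := R)) 1 |>.trans (by rw [map_one])
  -- one-units
  have one_unit_ne : ∀ a : HahnSeries ℤ R, OneU a → a ≠ 0 := by
    rintro a ⟨_, h⟩ rfl
    simp at h
  have ou_sh : ∀ a : HahnSeries ℤ R, OneU a → OneU (m.sh a) := by
    rintro a ⟨ha, ha'⟩
    have := m.sh_coeff 0 a ha
    exact ⟨this.1, by rw [this.2.1, ha']⟩
  have ou_i : ∀ a : HahnSeries ℤ R, OneU a → OneU (m.i a) := by
    rintro a ⟨ha, ha'⟩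
    refine ⟨fun k hk => by rw [m.i_coeff, ha k hk]; simp, ?_⟩
    rw [m.i_coeff, ha']; simp
  have ou_s : ∀ a : HahnSeries ℤ R, OneU a → OneU (m.s a) := by
    rintro a ⟨ha, ha'⟩
    refine ⟨fun k hk => by rw [m.s_coeff, ha k hk]; simp, ?_⟩
    rw [m.s_coeff, ha']; simp
  have hpw : OneU (1 + w) := by
    constructor
    · intro k hk
      rw [coeff_add, hw, coeff_one, coeff_single]
      rw [if_neg (by omega), if_neg (by omega)]; simp
    · rw [coeff_add, hw, coeff_one, coeff_single]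
      simp
  have hmw : OneU (1 - w) := by
    constructor
    · intro k hk
      rw [coeff_sub, hw, coeff_one, coeff_single]
      rw [if_neg (by omega), if_neg (by omega)]; simp
    · rw [coeff_sub, hw, coeff_one, coeff_single]
      simp
  have hez : ∀ k ≤ 0, (e * z).coeff k = 0 := by
    intro k hk
    have := (coeff_mul_lead (x := e) (y := z) (n := 0) (m := 1) (fun k hk => by
      rw [he, coeff_single, if_neg (by omega)]) (fun k hk => hz0 k (by omega))).1
    exact this k (by omega)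
  set r : HahnSeries ℤ R := 1 + e * z with hr
  have our : OneU r := by
    constructor
    · intro k hk
      rw [hr, coeff_add, hez k hk.le, coeff_one, if_neg (by omega)]; simp
    · rw [hr, coeff_add, hez 0 le_rfl, coeff_one]; simp
  have hr0 := one_unit_ne r our
  have hNr : r * m.s r * m.s (m.s r) = 1 - w := by
    have h := mdi_norm e (m.s e) (m.s (m.s e)) z w h1 h2 h3 hz
    rw [hr]
    simp only [map_add, map_mul, map_one, hsz]
    exact h
  set A : HahnSeries ℤ R := r * m.sh r * m.sh (m.sh r) with hA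
  have ouA : OneU A := (our.mul (ou_sh _ our)).mul (ou_sh _ (ou_sh _ our))
  have hNA : A * m.s A * m.s (m.s A) = 1 :=
    mdi_NA m.sh m.s m.s_sh three r w hNr m.sh_w (one_unit_ne _ hmw)
  set B : HahnSeries ℤ R := e + A⁻¹ * m.s e + A⁻¹ * (m.s A)⁻¹ * m.s (m.s e) with hB
  have ouB : OneU B := by
    have key : ∀ (a : HahnSeries ℤ R) (c : R), OneU a →
        (∀ k < 0, (a * single 0 c).coeff k = 0) ∧ (a * single 0 c).coeff 0 = c := by
      rintro a c ⟨ha, ha'⟩
      have := coeff_mul_lead (x := a) (y := single 0 c) (n := 0) (m := 0) ha (fun k hk => by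
        rw [coeff_single, if_neg (by omega)])
      rw [add_zero] at this
      refine ⟨this.1, ?_⟩
      rw [this.2, ha', one_mul, coeff_single, if_pos rfl]
    have k1 := key A⁻¹ (rd.σ rd.e) ouA.inv
    have k2 := key (A⁻¹ * (m.s A)⁻¹) (rd.σ (rd.σ rd.e)) (ouA.inv.mul (ou_s _ ouA).inv)
    rw [hB, he, hse, hse]
    constructor
    · intro k hk
      rw [coeff_add, coeff_add, k1.1 k hk, k2.1 k hk, coeff_single, if_neg (by omega)]
      simp
    · rw [coeff_add, coeff_add, k1.2, k2.2, coeff_single, if_pos rfl, rd.e1]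
  have hB0 := one_unit_ne B ouB
  have hsB : m.s B = A * B := mdi_sB m.s m.s3 A e hNA
  have hshA : m.sh A = A := mdi_shA m.sh m.sh3 r
  have hshB : m.sh B = B := mdi_shB m.sh m.s m.s_sh A e hshA (m.sh_C _)
  refine ⟨{ m with
    ρ := m.i r / m.sh r
    ε := m.i B / B
    ρ1 := by rw [div_eq_mul_inv]; exact (ou_i _ our).mul (ou_sh _ our).inv
    ε1 := by rw [div_eq_mul_inv]; exact (ou_i _ ouB).mul ouB.inv
    ρN := mdi_rN m.sh m.s m.i m.s_sh m.s_i three r w hNr m.sh_w hiw hr0 (one_unit_ne _ hpw)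
    iρ := mdi_ir m.sh m.i m.sh3 m.i2 m.i_sh r hr0
    shε := mdi_she m.sh m.i m.sh3 m.i_sh B hshB
    ρε := mdi_re m.sh m.s m.i m.sh3 m.s_i m.i_sh r B hr0 hB0 hsB
    iε := mdi_ie m.i m.i2 B hB0 }⟩

end NCP
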