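import Pool.Agent.H24.NCP.CA2
import Pool.Agent.H24.NCP.CB

/-! # Step I -/

set_option autoImplicit false

namespace NCP
open HahnSeries

variable {k K C : Type} [Field k] [Field K] [DivisionRing C] [Algebra k K] [Algebra K C]
    [Algebra k C] [IsScalarTower k K C]

/-- No Galois extension of degree 9 embeds in `D`. -/
theorem step_one (d : CD k K C) {L : Type} [Field L] [Algebra (FF k) L] (φ : L →ₐ[FF k] DD d)
    [FiniteDimensional (FF k) L] [IsGalois (FF k) L] (h9 : Module.finrank (FF k) L = 9) :
    False := by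
  by_cases hA : ∀ (l : L) (n : ℤ), LowD d n (φ l) → cf d n (φ l) ≠ 0 → (3 : ℤ) ∣ n
  · exact case_A d φ h9 hA
  · obtain ⟨π, hπ⟩ := exists_unif d φ hA
    exact case_B d φ h9 π hπ

end NCP
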