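import Mathlib

/-! # Module TOR: crossed products and Galois maximal tori -/

set_option autoImplicit false

namespace NCP

/-- An étale `F`-algebra: a finite direct product of finite separable field extensions. -/
def IsEtaleAlg (F L : Type) [Field F] [CommRing L] [Algebra F L] : Prop :=
  ∃ (n : ℕ) (E : Fin n → Type) (_ : ∀ i, Field (E i)) (_ : ∀ i, Algebra F (E i)),
    (∀ i, FiniteDimensional F (E i)) ∧ (∀ i, Algebra.IsSeparable F (E i)) ∧
    Nonempty (L ≃ₐ[F] (∀ i, E i))

/-- The algebra `L` is Galois over `F` with group `G`: `G` acts on `L` by `F`-algebra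
automorphisms and the induced action on `Hom_F(L, F_sep)` is simply transitive. -/
def IsGaloisAlg (F L : Type) [Field F] [CommRing L] [Algebra F L] (G : Type) [Group G] : Prop :=
  ∃ ρ : G →* (L ≃ₐ[F] L), ∀ f f' : L →ₐ[F] SeparableClosure F,
    ∃! g : G, f.comp ((ρ g : L ≃ₐ[F] L) : L →ₐ[F] L) = f'

/-- The algebra `B` (of degree `n`) is a crossed product: it contains a commutative étale
subalgebra of dimension `n` (a maximal torus) which is Galois over `F` for some group. -/
def IsCrossedProduct (F B : Type) [Field F] [Ring B] [Algebra F B] (n : ℕ) : Prop :=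
  ∃ (L : Type) (_ : CommRing L) (_ : Algebra F L) (φ : L →ₐ[F] B),
    Function.Injective φ ∧ IsEtaleAlg F L ∧ Module.finrank F L = n ∧
    ∃ (G : Type) (_ : Group G), IsGaloisAlg F L G

/-- In a division algebra a torus is a field (`L ↪ D` is a domain, so a product of exactly one
field), and simple transitivity gives `|Aut(L/F)| ≥ |Hom_F(L, F_sep)| = [L : F]`, i.e. `L/F` is a
Galois extension (`IsGalois.of_card_aut_eq_finrank`; the number of embeddings of a finite
separable extension in `SeparableClosure F` is its degree, e.g. `AlgHom.natCard_of_splits`,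
`IsSepClosed`). -/
theorem torus_galois {F D : Type} [Field F] [DivisionRing D] [Algebra F D] (n : ℕ)
    (h : IsCrossedProduct F D n) :
    ∃ (L : Type) (_ : Field L) (_ : Algebra F L) (_ : L →ₐ[F] D),
      FiniteDimensional F L ∧ IsGalois F L ∧ Module.finrank F L = n := by
  obtain ⟨L, _, _, φ, hφ, ⟨m, E, _, _, hfin, hsep, ⟨e⟩⟩, hn, G, _, ρ, hρ⟩ := h
  -- `L` is a domain
  have hnt : (1 : L) ≠ 0 := by
    intro h
    have := congrArg φ h
    rw [map_one, map_zero] at this
    exact one_ne_zero this
  have hdom : ∀ a b : L, a * b = 0 → a = 0 ∨ b = 0 := by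
    intro a b hab
    have h1 : φ a * φ b = 0 := by rw [← map_mul, hab, map_zero]
    rcases mul_eq_zero.1 h1 with h2 | h2
    · left; apply hφ; rw [h2, map_zero]
    · right; apply hφ; rw [h2, map_zero]
  -- there is an index
  have hm : Nonempty (Fin m) := by
    by_contra hcon
    rw [not_nonempty_iff] at hcon
    apply hnt
    apply e.injective
    funext i
    exact hcon.elim i
  obtain ⟨i0⟩ := hm
  let f0 : L →ₐ[F] E i0 := (Pi.evalAlgHom F E i0).comp (e : L →ₐ[F] (∀ i, E i))
  have hf0 : ∀ x, f0 x = e x i0 := fun x => rfl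
  have hinj : Function.Injective f0 := by
    rw [injective_iff_map_eq_zero]
    intro x hx
    have h1 : e x * Pi.single i0 1 = 0 := by
      funext i
      by_cases hi : i = i0
      · subst hi
        simp only [Pi.mul_apply, Pi.single_eq_same, mul_one, Pi.zero_apply]
        exact hx
      · simp [Pi.single_eq_of_ne hi]
    have h2 : x * e.symm (Pi.single i0 1) = 0 := by
      apply e.injective
      rw [map_mul, AlgEquiv.apply_symm_apply, h1, map_zero]
    rcases hdom _ _ h2 with h3 | h3
    · exact h3
    · exfalso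
      have h4 : (Pi.single i0 1 : ∀ i, E i) = 0 := by
        rw [← e.apply_symm_apply (Pi.single i0 1), h3, map_zero]
      have h5 := congrFun h4 i0
      simp at h5
  have hsurj : Function.Surjective f0 := by
    intro y
    refine ⟨e.symm (Pi.single i0 y), ?_⟩
    rw [hf0, AlgEquiv.apply_symm_apply]
    simp
  let ε : L ≃ₐ[F] E i0 := AlgEquiv.ofBijective f0 ⟨hinj, hsurj⟩
  have hfi := hfin i0
  have hsi := hsep i0
  -- number of embeddings
  have hcard : Nat.card (E i0 →ₐ[F] SeparableClosure F) = Module.finrank F (E i0) := by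
    apply AlgHom.natCard_of_splits
    intro x
    exact IsSepClosed.splits_codomain _ (Algebra.IsSeparable.isSeparable F x)
  let f1 : E i0 →ₐ[F] SeparableClosure F := IsSepClosed.lift
  -- `Aut` surjects onto the embeddings
  have hsur : Function.Surjective
      (fun σ : (E i0 ≃ₐ[F] E i0) => f1.comp (σ : E i0 →ₐ[F] E i0)) := by
    intro f'
    obtain ⟨g, hg, -⟩ := hρ (f1.comp (ε : L →ₐ[F] E i0)) (f'.comp (ε : L →ₐ[F] E i0))
    refine ⟨(ε.symm.trans (ρ g)).trans ε, ?_⟩
    ext y
    have h1 := DFunLike.congr_fun hg (ε.symm y)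
    simpa using h1
  have hge : Module.finrank F (E i0) ≤ Nat.card (E i0 ≃ₐ[F] E i0) := by
    rw [← hcard]
    exact Nat.card_le_card_of_surjective _ hsur
  have hle : Nat.card (E i0 ≃ₐ[F] E i0) ≤ Module.finrank F (E i0) := by
    rw [Nat.card_eq_fintype_card]
    exact AlgEquiv.card_le
  refine ⟨E i0, inferInstance, inferInstance, φ.comp (ε.symm : E i0 →ₐ[F] L), hfi, ?_, ?_⟩
  · exact IsGalois.of_card_aut_eq_finrank F (E i0) (le_antisymm hle hge)
  · rw [← hn]
    exact ε.symm.toLinearEquiv.finrank_eq

end NCP
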