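import Mathlib

/-! # Module SN: Galois automorphisms of a subfield of a central division algebra are inner -/

set_option autoImplicit false

namespace NCP

open Polynomial in
/-- `∏ (X - h α)` has coefficients in `F` -/
theorem SN_prod {F L : Type} [Field F] [Field L] [Algebra F L] [FiniteDimensional F L]
    [IsGalois F L] (α : L) :
    ∃ P : F[X], P.map (algebraMap F L) = ∏ h : L ≃ₐ[F] L, (X - C (h α)) := by
  have h1 : (∏ h : L ≃ₐ[F] L, (X - C (h α))) ∈ lifts (algebraMap F L) := by
    rw [lifts_iff_coeff_lifts]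
    intro n
    rw [IsGalois.mem_range_algebraMap_iff_fixed]
    intro σ
    have h2 : (∏ h : L ≃ₐ[F] L, (X - C (h α))).map (σ : L →+* L) =
        ∏ h : L ≃ₐ[F] L, (X - C (h α)) := by
      rw [Polynomial.map_prod]
      simp only [Polynomial.map_sub, Polynomial.map_X, Polynomial.map_C]
      exact Fintype.prod_equiv (Equiv.mulLeft σ) _ _ (fun h => rfl)
    have h3 := congrArg (fun Q => Q.coeff n) h2
    simpa [Polynomial.coeff_map] using h3
  exact (mem_lifts _).1 h1

open Polynomial in
/-- the decomposition of the identity -/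
theorem SN_decomp {F D L : Type} [Field F] [DivisionRing D] [Algebra F D]
    [Field L] [Algebra F L] [FiniteDimensional F L] [IsGalois F L] (φ : L →ₐ[F] D) (α : L)
    (hα : ∀ g h : L ≃ₐ[F] L, g α = h α → g = h) (x : D) :
    ∃ w : (L ≃ₐ[F] L) → D, x = ∑ g, w g ∧ ∀ g, w g * φ α = φ (g α) * w g := by
  classical
  let _ : Module L D := Module.compHom D φ.toRingHom
  have hsm : ∀ (l : L) (y : D), l • y = φ l * y := fun l y => rfl
  let r : Module.End L D :=
    { toFun := fun y => y * φ α
      map_add' := fun y z => add_mul y z _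
      map_smul' := fun l y => by simp only [hsm, RingHom.id_apply, mul_assoc] }
  have hr : ∀ y, r y = y * φ α := fun y => rfl
  have hker : ∀ (P : F[X]) (y : D), aeval r (P.map (algebraMap F L)) y = y * φ (aeval α P) := by
    intro P
    induction P using Polynomial.induction_on' with
    | add p q hp hq =>
      intro y
      simp only [Polynomial.map_add, map_add, LinearMap.add_apply, hp, hq, mul_add]
    | monomial n a =>
      intro y
      have h1 : ∀ (n : ℕ) (y : D), (r ^ n) y = y * φ α ^ n := by
        intro n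
        induction n with
        | zero => intro y; simp
        | succ n ih => intro y; rw [pow_succ', Module.End.mul_apply, ih, hr, pow_succ, mul_assoc]
      rw [Polynomial.map_monomial, aeval_monomial, Module.End.mul_apply, h1,
        Module.algebraMap_end_apply, hsm, AlgHom.commutes, aeval_monomial, map_mul, map_pow,
        AlgHom.commutes, ← mul_assoc, ← mul_assoc, Algebra.commutes]
  obtain ⟨P, hP⟩ := SN_prod (F := F) α
  have hP0 : aeval r (∏ h : L ≃ₐ[F] L, (X - C (h α))) = 0 := by
    rw [← hP]
    ext y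
    rw [hker, LinearMap.zero_apply]
    have h1 : aeval α P = 0 := by
      rw [aeval_def, ← eval_map, hP, eval_prod]
      apply Finset.prod_eq_zero (Finset.mem_univ 1)
      simp
    rw [h1, map_zero, mul_zero]
  have hinj : Set.InjOn (fun g : L ≃ₐ[F] L => g α) (Finset.univ : Finset (L ≃ₐ[F] L)) :=
    fun g _ h _ e => hα g h e
  refine ⟨fun g => aeval r (Lagrange.basis Finset.univ (fun g : L ≃ₐ[F] L => g α) g) x, ?_, ?_⟩
  · rw [← LinearMap.sum_apply, ← map_sum, Lagrange.sum_basis hinj ⟨1, Finset.mem_univ _⟩, map_one]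
    rfl
  · intro g
    have h1 : (X - C (g α)) * Lagrange.basis Finset.univ (fun g : L ≃ₐ[F] L => g α) g =
        C (∏ h ∈ Finset.univ.erase g, (g α - h α)⁻¹) * ∏ h : L ≃ₐ[F] L, (X - C (h α)) := by
      rw [← Finset.mul_prod_erase Finset.univ _ (Finset.mem_univ g), Lagrange.basis]
      simp only [Lagrange.basisDivisor]
      rw [Finset.prod_mul_distrib, map_prod]
      ring
    have h2 := congrArg (fun Q => aeval r Q x) h1
    simp only [map_mul, Module.End.mul_apply, hP0, LinearMap.zero_apply, map_zero] at h2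
    rw [map_sub, aeval_X, aeval_C, LinearMap.sub_apply, Module.algebraMap_end_apply, hr, hsm,
      sub_eq_zero] at h2
    exact h2

/-- Let `D` be a division ring with centre `F`, `L/F` finite Galois, `φ : L → D`.  For every
`g ∈ Gal(L/F)` there is `u ≠ 0` with `u φ(l) = φ(g l) u`.
Proof: `L = F(α)`, `D` is a left `L`-vector space, `r : x ↦ x φ(α)` is left `L`-linear and is
annihilated by `minpoly F α`, which over `L` is `∏_g (X - g α)` with distinct roots; so
`D = ⊕_g V_g`, `V_g = {x : x φ(α) = φ(gα) x}` (`V_g = {x : ∀ l, x φ(l) = φ(g l) x}`).  The set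
`S = {g : V_g ≠ 0}` is closed under products (`V_g V_h ⊆ V_{gh}`, `D` has no zero divisors), so it
is a subgroup (finite group), and `l ∈ L^S` is fixed: `x φ(l) = φ(l) x` for all `x ∈ V_g`, hence for
all `x ∈ D`, so `φ l` is in the centre `F`, `l ∈ F`.  By Galois theory `S = Gal(L/F)`. -/
theorem exists_inner {F D L : Type} [Field F] [DivisionRing D] [Algebra F D]
    (hc : ∀ x : D, (∀ y, x * y = y * x) → ∃ f : F, algebraMap F D f = x)
    [Field L] [Algebra F L] [FiniteDimensional F L] [IsGalois F L] (φ : L →ₐ[F] D)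
    (g : L ≃ₐ[F] L) : ∃ u : D, u ≠ 0 ∧ ∀ l, u * φ l = φ (g l) * u := by
  let pb := Field.powerBasisOfFiniteOfSeparable F L
  have hα : ∀ g h : L ≃ₐ[F] L, g pb.gen = h pb.gen → g = h := by
    intro g h e
    apply AlgEquiv.coe_toAlgHom_injective
    exact pb.algHom_ext e
  have hfull : ∀ (g : L ≃ₐ[F] L) (u : D), u * φ pb.gen = φ (g pb.gen) * u →
      ∀ l, u * φ l = φ (g l) * u := by
    intro g u hu l
    obtain ⟨P, rfl⟩ := pb.exists_eq_aeval' l
    induction P using Polynomial.induction_on' with
    | add p q hp hq =>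
      simp only [map_add, mul_add, add_mul, hp, hq]
    | monomial n a =>
      rw [Polynomial.aeval_monomial, map_mul, map_pow, AlgHom.commutes, map_mul, map_mul,
        AlgEquiv.commutes, AlgHom.commutes, map_pow, map_pow]
      have h1 : ∀ n : ℕ, u * φ pb.gen ^ n = φ (g pb.gen) ^ n * u := by
        intro n
        induction n with
        | zero => simp
        | succ n ih => rw [pow_succ, ← mul_assoc, ih, mul_assoc, hu, ← mul_assoc, ← pow_succ]
      rw [← mul_assoc, ← Algebra.commutes a u, mul_assoc, h1, mul_assoc]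
  let Sm : Submonoid (L ≃ₐ[F] L) :=
    { carrier := {g | ∃ u : D, u ≠ 0 ∧ ∀ l, u * φ l = φ (g l) * u}
      one_mem' := ⟨1, one_ne_zero, fun l => by simp⟩
      mul_mem' := by
        rintro g h ⟨u, hu, hu'⟩ ⟨v, hv, hv'⟩
        refine ⟨u * v, mul_ne_zero hu hv, fun l => ?_⟩
        rw [mul_assoc, hv', ← mul_assoc, hu', mul_assoc, AlgEquiv.mul_apply] }
  let H : Subgroup (L ≃ₐ[F] L) :=
    { Sm with
      inv_mem' := by
        intro g hg
        have h1 : g ^ (orderOf g - 1) * g = 1 := by
          rw [← pow_succ, Nat.sub_add_cancel (orderOf_pos g), pow_orderOf_eq_one]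
        rw [show g⁻¹ = g ^ (orderOf g - 1) from (eq_inv_of_mul_eq_one_left h1).symm]
        exact Sm.pow_mem hg _ }
  have hH : ∀ g, g ∈ H ↔ ∃ u : D, u ≠ 0 ∧ ∀ l, u * φ l = φ (g l) * u := fun g => Iff.rfl
  have hbot : IntermediateField.fixedField H = ⊥ := by
    rw [eq_bot_iff]
    intro l hl
    have hl' : ∀ g ∈ H, g l = l := fun g hg => hl ⟨g, hg⟩
    have hcent : ∀ x : D, φ l * x = x * φ l := by
      intro x
      obtain ⟨w, hx, hw⟩ := SN_decomp φ pb.gen hα x
      rw [hx, Finset.mul_sum, Finset.sum_mul]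
      refine Finset.sum_congr rfl (fun g _ => ?_)
      by_cases h0 : w g = 0
      · rw [h0, mul_zero, zero_mul]
      · have h1 := hfull g (w g) (hw g)
        have h2 : g ∈ H := ⟨w g, h0, h1⟩
        rw [h1 l, hl' g h2]
    obtain ⟨f, hf⟩ := hc (φ l) hcent
    rw [IntermediateField.mem_bot]
    refine ⟨f, ?_⟩
    apply φ.toRingHom.injective
    show φ (algebraMap F L f) = φ l
    rw [AlgHom.commutes, hf]
  have htop : H = ⊤ := by
    rw [← IntermediateField.fixingSubgroup_fixedField H, hbot, IntermediateField.fixingSubgroup_bot]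
  exact (hH g).1 (htop ▸ Subgroup.mem_top g)

end NCP
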