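import Pool.Agent.H24.NCP.LB
import Pool.Agent.H24.NCP.DD5
import Pool.Agent.H24.NCP.SN

/-! # Module INN: elements of `D` inducing Galois automorphisms on `L` -/

set_option autoImplicit false

namespace NCP
open HahnSeries

variable {k K C : Type} [Field k] [Field K] [DivisionRing C] [Algebra k K] [Algebra K C]
    [Algebra k C] [IsScalarTower k K C]

/-- `x` has order exactly `n`. -/
def OrdD (d : CD k K C) (n : ℤ) (x : DD d) : Prop := LowD d n x ∧ cf d n x ≠ 0

/-- `u` induces `g` on `L` and has order `n`. -/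
def Inn (d : CD k K C) {L : Type} [Field L] [Algebra (FF k) L] (φ : L →ₐ[FF k] DD d)
    (g : L ≃ₐ[FF k] L) (n : ℤ) (u : DD d) : Prop :=
  (∀ l, u * φ l = φ (g l) * u) ∧ OrdD d n u

theorem OrdD.mul {d : CD k K C} {n n' : ℤ} {x x' : DD d} (h : OrdD d n x) (h' : OrdD d n' x') :
    OrdD d (n + n') (x * x') := by
  obtain ⟨h1, h2⟩ := dd_Q2 d n n' x x' h.1 h'.1
  refine ⟨h1, ?_⟩
  rw [h2]
  refine mul_ne_zero h.2 ?_
  rw [Ne, map_eq_zero_iff _ (RingEquiv.injective _)]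
  exact h'.2

theorem OrdD.unique {d : CD k K C} {n n' : ℤ} {x : DD d} (h : OrdD d n x) (h' : OrdD d n' x) :
    n = n' := by
  rcases lt_trichotomy n n' with h1 | h1 | h1
  · exact absurd (h'.1 n h1) h.2
  · exact h1
  · exact absurd (h.1 n' h1) h'.2

theorem inn_ord_one (d : CD k K C) : OrdD d 0 (1 : DD d) := by
  constructor
  · intro m hm
    rw [cf_apply]
    have h0 : m / 3 ≠ 0 := by omega
    have h1 : (1 : DD d).x0.coeff (m / 3) = 0 := by
      rw [Cyc3.one_x0, HahnSeries.coeff_one, if_neg h0]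
    have h2 : (1 : DD d).x1.coeff (m / 3) = 0 := by
      rw [Cyc3.one_x1, HahnSeries.coeff_zero]
    have h3 : (1 : DD d).x2.coeff (m / 3) = 0 := by
      rw [Cyc3.one_x2, HahnSeries.coeff_zero]
    rw [h1, h2, h3]
    simp
  · have h := cf_algebraMap_zero d 1
    rw [map_one] at h
    rw [h, HahnSeries.coeff_one, if_pos rfl, map_one]
    exact one_ne_zero

theorem inn_ne_zero {d : CD k K C} {n : ℤ} {x : DD d} (h : OrdD d n x) : x ≠ 0 := by
  rintro rfl
  exact h.2 (map_zero _)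

theorem inn_pow (d : CD k K C) {L : Type} [Field L] [Algebra (FF k) L] (φ : L →ₐ[FF k] DD d)
    (π : L) (n : ℤ) (h : OrdD d n (φ π)) (m : ℕ) : OrdD d (m * n) (φ (π ^ m)) := by
  induction m with
  | zero =>
    rw [pow_zero, map_one, Nat.cast_zero, zero_mul]
    exact inn_ord_one d
  | succ m ih =>
    rw [pow_succ, map_mul]
    have h1 := ih.mul h
    have h2 : ((m + 1 : ℕ) : ℤ) * n = m * n + n := by push_cast; ring
    rw [h2]
    exact h1

/-- Powers of an element of `L`. -/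
theorem ord_zpow (d : CD k K C) {L : Type} [Field L] [Algebra (FF k) L] (φ : L →ₐ[FF k] DD d)
    (π : L) (n : ℤ) (h : OrdD d n (φ π)) (m : ℤ) : OrdD d (m * n) (φ (π ^ m)) := by
  have hπ : π ≠ 0 := by
    rintro rfl
    exact inn_ne_zero h (map_zero φ)
  obtain ⟨m', rfl | rfl⟩ := m.eq_nat_or_neg
  · rw [zpow_natCast]
    exact inn_pow d φ π n h m'
  · have h1 : φ π * φ (π⁻¹) = 1 := by
      rw [← map_mul, mul_inv_cancel₀ hπ, map_one]
    have h2 : φ (π⁻¹) ≠ 0 := by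
      intro h3
      rw [h3, mul_zero] at h1
      exact zero_ne_one h1
    obtain ⟨n', hn'⟩ := exists_ord d _ h2
    have h3 : OrdD d (n + n') (1 : DD d) := by
      rw [← h1]
      exact h.mul hn'
    have h4 := h3.unique (inn_ord_one d)
    have h5 : n' = -n := by omega
    subst h5
    have h6 := inn_pow d φ π⁻¹ (-n) hn' m'
    rw [zpow_neg, zpow_natCast, ← inv_pow]
    have h7 : -(m' : ℤ) * n = m' * -n := by ring
    rw [h7]
    exact h6

theorem Inn.mul {d : CD k K C} {L : Type} [Field L] [Algebra (FF k) L] {φ : L →ₐ[FF k] DD d}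
    {g g' : L ≃ₐ[FF k] L} {n n' : ℤ} {u u' : DD d} (h : Inn d φ g n u) (h' : Inn d φ g' n' u') :
    Inn d φ (g * g') (n + n') (u * u') := by
  refine ⟨fun l => ?_, h.2.mul h'.2⟩
  rw [mul_assoc, h'.1 l, ← mul_assoc, h.1, mul_assoc]
  rfl

theorem inn_scale_ord {d : CD k K C} {n : ℤ} {u : DD d} (h : OrdD d n u) (m : ℤ) :
    OrdD d (n + 3 * m) ((single m 1 : FF k) • u) := by
  have hf : ∀ j < m, (single m 1 : FF k).coeff j = 0 := by
    intro j hj
    exact HahnSeries.coeff_single_of_ne hj.ne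
  obtain ⟨h1, h2⟩ := dd_smul d m n (single m 1 : FF k) u hf h.1
  rw [add_comm n (3 * m)]
  refine ⟨h1, ?_⟩
  rw [h2, HahnSeries.coeff_single_same, map_one, one_mul]
  exact mul_ne_zero h.2 (zpow_ne_zero _ d.c0)

/-- Multiplication by a power of `t`. -/
theorem Inn.scale {d : CD k K C} {L : Type} [Field L] [Algebra (FF k) L] {φ : L →ₐ[FF k] DD d}
    {g : L ≃ₐ[FF k] L} {n : ℤ} {u : DD d} (h : Inn d φ g n u) (m : ℤ) :
    ∃ u', Inn d φ g (n + 3 * m) u' := by
  refine ⟨(single m 1 : FF k) • u, fun l => ?_, inn_scale_ord h.2 m⟩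
  rw [smul_mul_assoc, h.1 l, mul_smul_comm]

/-- Elements of `L` induce the identity. -/
theorem Inn.of_mem (d : CD k K C) {L : Type} [Field L] [Algebra (FF k) L] (φ : L →ₐ[FF k] DD d)
    {n : ℤ} {l : L} (h : OrdD d n (φ l)) : Inn d φ 1 n (φ l) := by
  refine ⟨fun l' => ?_, h⟩
  rw [← map_mul, mul_comm, map_mul]
  rfl

/-- Every Galois automorphism is induced (`exists_inner`, `dd_center`, `exists_ord`). -/
theorem exists_inn (d : CD k K C) {L : Type} [Field L] [Algebra (FF k) L] (φ : L →ₐ[FF k] DD d)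
    [FiniteDimensional (FF k) L] [IsGalois (FF k) L] (g : L ≃ₐ[FF k] L) :
    ∃ n u, Inn d φ g n u := by
  obtain ⟨u, hu, h⟩ := exists_inner (F := FF k) (D := DD d) (dd_center d) φ g
  obtain ⟨n, hn⟩ := exists_ord d u hu
  exact ⟨n, u, h, hn⟩

/-- `res_action`. -/
theorem Inn.res {d : CD k K C} {L : Type} [Field L] [Algebra (FF k) L] {φ : L →ₐ[FF k] DD d}
    {g : L ≃ₐ[FF k] L} {n : ℤ} {u : DD d} (h : Inn d φ g n u) (l : L) (hl : LowD d 0 (φ l)) :
    LowD d 0 (φ (g l)) ∧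
      cf d n u * ((d.ψ : RingAut C) ^ n) (cf d 0 (φ l)) = cf d 0 (φ (g l)) * cf d n u :=
  res_action d φ g u h.1 n h.2.1 h.2.2 l hl

/-- If not all orders of `L` are divisible by 3, there is an element of order 1. -/
theorem exists_unif (d : CD k K C) {L : Type} [Field L] [Algebra (FF k) L] (φ : L →ₐ[FF k] DD d)
    (h : ¬ ∀ (l : L) (n : ℤ), LowD d n (φ l) → cf d n (φ l) ≠ 0 → (3 : ℤ) ∣ n) :
    ∃ π : L, OrdD d 1 (φ π) := by
  push Not at h
  obtain ⟨l, n, h1, h2, h3⟩ := h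
  have hl : OrdD d n (φ l) := ⟨h1, h2⟩
  obtain ⟨m, j, hmj⟩ : ∃ m j : ℤ, m * n + 3 * j = 1 := by
    have h4 : n % 3 = 1 ∨ n % 3 = 2 := by omega
    rcases h4 with h4 | h4
    · exact ⟨1, (1 - n) / 3, by omega⟩
    · exact ⟨-1, (1 + n) / 3, by omega⟩
  have h5 := inn_scale_ord (ord_zpow d φ l n hl m) j
  rw [hmj] at h5
  refine ⟨(single j 1 : FF k) • (l ^ m), ?_⟩
  rw [map_smul]
  exact h5

end NCP
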