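import Mathlib

/-! # Module F27: the field with 27 elements, and `e` with `e³ = e² - 1` -/

set_option autoImplicit false

namespace NCP
open Polynomial

/-- The polynomial `X³ - X² + 1` over `𝔽₃` (irreducible: it has no root). -/
noncomputable abbrev P27 : (ZMod 3)[X] := X ^ 3 - X ^ 2 + 1

theorem P27_natDegree : P27.natDegree = 3 := by
  unfold P27; compute_degree!

instance P27_irred : Fact (Irreducible P27) := ⟨by
  have h0 : P27 ≠ 0 := by
    intro h
    have := P27_natDegree
    rw [h] at this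
    simp at this
  rw [Polynomial.irreducible_iff_roots_eq_zero_of_degree_le_three (by rw [P27_natDegree]; norm_num)
    (by rw [P27_natDegree])]
  rw [Multiset.eq_zero_iff_forall_notMem]
  intro a ha
  rw [Polynomial.mem_roots h0, Polynomial.IsRoot.def] at ha
  simp only [eval_add, eval_sub, eval_pow, eval_X, eval_one] at ha
  revert ha
  revert a
  decide⟩

abbrev K27 : Type := AdjoinRoot P27

noncomputable instance : Field K27 := AdjoinRoot.instField

instance : CharP K27 3 := by
  have : Function.Injective (algebraMap (ZMod 3) K27) := (algebraMap (ZMod 3) K27).injective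
  exact charP_of_injective_algebraMap this 3

noncomputable def e27 : K27 := AdjoinRoot.root P27

theorem e27_eq : e27 ^ 3 = e27 ^ 2 - 1 := by
  have h := AdjoinRoot.eval₂_root P27
  simp only [P27, eval₂_add, eval₂_sub, eval₂_pow, eval₂_X, eval₂_one] at h
  have : AdjoinRoot.root P27 ^ 3 - AdjoinRoot.root P27 ^ 2 + 1 = 0 := h
  unfold e27
  linear_combination this

theorem three27 : (3 : K27) = 0 := by
  have := CharP.cast_eq_zero K27 3
  exact_mod_cast this

theorem e27_nine : (e27 ^ 3) ^ 3 = 2 * e27 ^ 2 - e27 - 1 := by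
  rw [e27_eq]
  linear_combination (e27 ^ 3 + e27 ^ 2 - 2 * e27 - 3) * e27_eq + (-e27 ^ 2 + e27 + 1) * three27

theorem e27_27 : ((e27 ^ 3) ^ 3) ^ 3 = e27 := by
  rw [e27_nine]
  linear_combination (-7 - 10 * e27 - 4 * e27 ^ 2 + 8 * e27 ^ 3) * e27_eq +
    (2 + 2 * e27) * three27

/-- Frobenius has order 3 on `𝔽₂₇`. -/
theorem frob27 (x : K27) : ((x ^ 3) ^ 3) ^ 3 = x := by
  have h : ((frobenius K27 3).comp ((frobenius K27 3).comp (frobenius K27 3))) =
      RingHom.id K27 := by
    apply AdjoinRoot.ringHom_ext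
    · exact Subsingleton.elim _ _
    · exact e27_27
  exact congrArg (fun f => f x) h

theorem e27_tr : e27 + e27 ^ 3 + (e27 ^ 3) ^ 3 = 1 := by
  rw [e27_nine, e27_eq]
  linear_combination (e27 ^ 2 - 1) * three27

theorem e27_e2 : e27 * e27 ^ 3 + e27 * (e27 ^ 3) ^ 3 + e27 ^ 3 * (e27 ^ 3) ^ 3 = 0 := by
  rw [e27_nine, e27_eq]
  linear_combination (4 + 2 * e27) * e27_eq + (-1 - e27) * three27

theorem e27_nm : e27 * e27 ^ 3 * (e27 ^ 3) ^ 3 = -1 := by
  rw [e27_nine, e27_eq]
  linear_combination (-2 + e27 + 2 * e27 ^ 2) * e27_eq + (1 - e27 ^ 2) * three27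

theorem e27_ne : e27 ^ 3 ≠ e27 := by
  intro h
  have h1 := e27_tr
  rw [h, h] at h1
  have : (1 : K27) = 0 := by
    linear_combination -h1 + e27 * three27
  exact one_ne_zero this

end NCP
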