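import Pool.Agent.H24.NCP.RatF

/-! # Module KER: the constants of `δ` are the cubes -/

set_option autoImplicit false

namespace NCP
open Polynomial

variable {σ j : RF ≃+* RF} {δ : Derivation ℤ RF RF}

/-- Cubes of polynomials: a polynomial with zero derivative is a cube. -/
theorem KER_pol (p : K27[X]) (hp : derivative p = 0) : ∃ q : K27[X], q ^ 3 = p := by
  have hs : Function.Surjective (frobenius K27 3) := fun x => ⟨(x ^ 3) ^ 3, by
    rw [frobenius_def]
    exact frob27 x⟩
  have : PerfectRing K27 3 := PerfectRing.ofSurjective K27 3 hs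
  refine ⟨(contract 3 p).map (frobeniusEquiv K27 3).symm, ?_⟩
  rw [← polynomial_expand_eq]
  exact expand_contract 3 hp (by norm_num)

theorem KER_cube (x : RF) : δ (x ^ 3) = 0 := by
  rw [Derivation.leibniz_pow]
  have h : (3 : RF) = 0 := by
    have := CharP.cast_eq_zero RF 3
    exact_mod_cast this
  rw [nsmul_eq_mul]
  push_cast
  rw [h, zero_mul]

/-- `δ x = 0` iff `x` is a cube.  Proof: `x = p/q = p q²/q³`; `δ(p q²) = 0` gives
`derivative (p q²) = 0`, so `p q² = expand 3 g` (`Polynomial.expand_contract` with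
`derivative = 0`) and `expand 3 g` is a cube because `K27` is perfect
(`Polynomial.expand_char`/`polynomial_expand_eq`: `expand K27 3 (g.map frob) = g ^ 3`, and the
Frobenius of `K27` is surjective, `frob27`). -/
theorem RPre.ker_cube (h : RPre σ j δ) (x : RF) : δ x = 0 ↔ ∃ y, y ^ 3 = x := by
  constructor
  · intro hx
    obtain ⟨p, q, hq, hpq⟩ := IsFractionRing.div_surjective (A := K27[X]) x
    have hq0 : q ≠ 0 := nonZeroDivisors.ne_zero hq
    have hq1 : pol q ≠ 0 := by
      intro h0
      exact hq0 ((map_eq_zero_iff _ (IsFractionRing.injective K27[X] RF)).1 h0)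
    have hx3 : x * (pol q) ^ 3 = pol (p * q ^ 2) := by
      rw [← hpq, map_mul, map_pow]
      field_simp
    have h1 : δ (x * (pol q) ^ 3) = 0 := by
      rw [Derivation.leibniz, KER_cube, hx, smul_zero, smul_zero, add_zero]
    rw [hx3, h.δ_alg] at h1
    have h2 : X * derivative (p * q ^ 2) = 0 :=
      (map_eq_zero_iff _ (IsFractionRing.injective K27[X] RF)).1 h1
    have h3 : derivative (p * q ^ 2) = 0 := (mul_eq_zero.1 h2).resolve_left X_ne_zero
    obtain ⟨r, hr⟩ := KER_pol _ h3
    refine ⟨pol r / pol q, ?_⟩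
    rw [div_pow, ← map_pow, hr, ← hx3]
    field_simp
  · rintro ⟨y, rfl⟩
    exact KER_cube y

/-- Cubes of polynomials: a polynomial with zero derivative is a cube. -/
theorem pol_cube_of_derivative (p : K27[X]) (hp : derivative p = 0) : ∃ q : K27[X], q ^ 3 = p :=
  KER_pol p hp

end NCP
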