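import Pool.Agent.H24.NCP.K27

/-! # Module KL1: multiplicity of a prime in `X f'` -/

set_option autoImplicit false

namespace NCP
open Polynomial

/-- If the irreducible `p ∤ X` divides `f = pⁿ g` exactly `n` times and `3 ∤ n` then it divides
`X f'` exactly `n - 1` times: `X f' = p^(n-1) (n X p' g + p X g')`, `p ∤ p'` because `K27` is
perfect (irreducible ⇒ separable, or: `p' = 0` would make `p` a cube by perfectness, and
`deg p' < deg p`), `p ∤ X`, `p ∤ g`, `n ≠ 0` in `K27`. -/
theorem mult_derivative (p : K27[X]) (hp : Irreducible p) (hX : ¬ p ∣ X) (n : ℕ) (g : K27[X])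
    (hg : ¬ p ∣ g) (hn : ¬ 3 ∣ n) :
    ∃ g' : K27[X], X * derivative (p ^ n * g) = p ^ (n - 1) * g' ∧ ¬ p ∣ g' := by
  have : ExpChar K27 3 := ExpChar.prime (by norm_num)
  have : PerfectRing K27 3 := PerfectRing.ofSurjective K27 3
    (fun x => ⟨(x ^ 3) ^ 3, by rw [frobenius_def]; exact frob27 x⟩)
  have : PerfectField K27 := PerfectRing.toPerfectField K27 3
  have hsep : p.Separable := PerfectField.separable_of_irreducible hp
  have hprime : Prime p := hp.prime
  have hpd : ¬ p ∣ derivative p := by
    intro h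
    have hcop : IsCoprime p (derivative p) := hsep
    exact hp.not_isUnit (hcop.isUnit_of_dvd' (dvd_refl p) h)
  have hnK : (n : K27) ≠ 0 := by
    intro h
    exact hn ((CharP.cast_eq_zero_iff K27 3 n).1 h)
  refine ⟨C (n : K27) * X * derivative p * g + p * X * derivative g, ?_, ?_⟩
  · rcases Nat.exists_eq_succ_of_ne_zero (show n ≠ 0 by rintro rfl; exact hn (dvd_zero 3)) with ⟨m, rfl⟩
    rw [derivative_mul, derivative_pow]
    simp only [Nat.succ_eq_add_one, Nat.add_sub_cancel, pow_succ]
    ring
  · intro h
    have h1 : p ∣ C (n : K27) * X * derivative p * g := by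
      have h2 : p ∣ p * X * derivative g := Dvd.intro _ (by ring : p * (X * derivative g) = _)
      exact (dvd_add_left h2).1 h
    rcases hprime.dvd_or_dvd h1 with h1 | h1
    · rcases hprime.dvd_or_dvd h1 with h1 | h1
      · rcases hprime.dvd_or_dvd h1 with h1 | h1
        · have hu : IsUnit (C (n : K27)) := isUnit_C.2 (isUnit_iff_ne_zero.2 hnK)
          exact hp.not_isUnit (isUnit_of_dvd_unit h1 hu)
        · exact hX h1
      · exact hpd h1
    · exact hg h1

end NCP
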