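import Pool.Agent.H24.NCP.K27

/-! # Module KL2: degrees of Frobenius-invariant polynomials modulo 3 -/

set_option autoImplicit false

namespace NCP
open Polynomial

theorem kl2_eq {p q : K27[X]} (hp : p.Monic) (hq : q.Monic) (hpi : Irreducible p)
    (hqi : Irreducible q) (h : p ∣ q) : p = q :=
  eq_of_monic_of_associated hp hq (hpi.associated_of_dvd hqi h)

/-- the coefficientwise Frobenius -/
noncomputable def kl2_s : K27[X] →+* K27[X] := Polynomial.mapRingHom (frobenius K27 3)

theorem kl2_s_apply (f : K27[X]) : kl2_s f = f.map (frobenius K27 3) := rfl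

theorem kl2_s3 (f : K27[X]) : kl2_s (kl2_s (kl2_s f)) = f := by
  simp only [kl2_s_apply]
  ext n
  simp only [coeff_map, frobenius_def]
  exact frob27 _

theorem kl2_s_inj : Function.Injective kl2_s := by
  intro f g h
  rw [← kl2_s3 f, h, kl2_s3]

noncomputable def kl2_e : K27[X] ≃+* K27[X] :=
  { kl2_s with
    invFun := fun f => kl2_s (kl2_s f)
    left_inv := fun f => kl2_s3 f
    right_inv := fun f => kl2_s3 f }

theorem kl2_e_apply (f : K27[X]) : kl2_e f = kl2_s f := rfl

theorem kl2_irr {p : K27[X]} (h : Irreducible p) : Irreducible (kl2_s p) := by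
  rw [← kl2_e_apply]
  exact (MulEquiv.irreducible_iff kl2_e).2 h

theorem kl2_monic {p : K27[X]} (h : p.Monic) : (kl2_s p).Monic := h.map _

theorem kl2_deg (p : K27[X]) : (kl2_s p).natDegree = p.natDegree := by
  rw [kl2_s_apply]
  exact natDegree_map _

theorem kl2_ntd (p : K27[X]) (_hp : p ≠ 0) (h0 : ¬ X ∣ p) : p.natTrailingDegree = 0 := by
  rw [natTrailingDegree_eq_zero]
  right
  rwa [X_dvd_iff] at h0

/-- one induction step -/
theorem kl2_step (h f₁ : K27[X]) (hh : kl2_s h = h) (hh0 : h * f₁ ≠ 0)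
    (hdeg : h.natDegree ≡ h.natTrailingDegree [MOD 3])
    (hm : ∀ p : K27[X], p.Monic → Irreducible p → p ≠ X → kl2_s p = p →
      ∃ (m : ℕ) (k : K27[X]), 3 ∣ m ∧ h = p ^ m * k ∧ ¬ p ∣ k)
    (hs : kl2_s (h * f₁) = h * f₁)
    (hp : ∀ p : K27[X], p.Monic → Irreducible p → p ≠ X → kl2_s p = p →
      ∀ (n : ℕ) (g : K27[X]), h * f₁ = p ^ n * g → ¬ p ∣ g → 3 ∣ n)
    (ih : f₁ ≠ 0 → kl2_s f₁ = f₁ → (∀ p : K27[X], p.Monic → Irreducible p → p ≠ X → kl2_s p = p →
      ∀ (n : ℕ) (g : K27[X]), f₁ = p ^ n * g → ¬ p ∣ g → 3 ∣ n) →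
      f₁.natDegree ≡ f₁.natTrailingDegree [MOD 3]) :
    (h * f₁).natDegree ≡ (h * f₁).natTrailingDegree [MOD 3] := by
  have h0 : h ≠ 0 := left_ne_zero_of_mul hh0
  have f0 : f₁ ≠ 0 := right_ne_zero_of_mul hh0
  rw [natDegree_mul h0 f0, natTrailingDegree_mul h0 f0]
  refine Nat.ModEq.add hdeg (ih f0 ?_ ?_)
  · rw [map_mul, hh] at hs
    exact mul_left_cancel₀ h0 hs
  · intro p hpm hpi hpX hps n g hg hpg
    obtain ⟨m, k, hm3, hk, hpk⟩ := hm p hpm hpi hpX hps
    have h1 := hp p hpm hpi hpX hps (m + n) (k * g) (by rw [hg, hk]; ring) (by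
      intro hdvd
      rcases hpi.prime.dvd_or_dvd hdvd with h2 | h2
      · exact hpk h2
      · exact hpg h2)
    exact (Nat.dvd_add_right hm3).1 h1

theorem kl2_main (N : ℕ) : ∀ f : K27[X], f.natDegree = N → f ≠ 0 → kl2_s f = f →
    (∀ p : K27[X], p.Monic → Irreducible p → p ≠ X → kl2_s p = p →
      ∀ (n : ℕ) (g : K27[X]), f = p ^ n * g → ¬ p ∣ g → 3 ∣ n) →
    f.natDegree ≡ f.natTrailingDegree [MOD 3] := by
  induction N using Nat.strong_induction_on with
  | _ N IH =>
    intro f hN hf hs hp
    by_cases hN0 : N = 0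
    · have h1 : f.natTrailingDegree ≤ f.natDegree := natTrailingDegree_le_natDegree f
      have h2 : f.natTrailingDegree = f.natDegree := by omega
      rw [h2]
    have hu : ¬ IsUnit f := by
      intro h
      exact hN0 (hN ▸ natDegree_eq_zero_of_isUnit h)
    obtain ⟨p, hpm, hpi, hpf⟩ := exists_monic_irreducible_factor f hu
    have hXm : (X : K27[X]).Monic := monic_X
    have hXi : Irreducible (X : K27[X]) := irreducible_X
    have hpdeg : 0 < p.natDegree := hpi.natDegree_pos
    -- reduction to `kl2_step`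
    have red : ∀ h f₁ : K27[X], f = h * f₁ → 0 < h.natDegree → kl2_s h = h →
        h.natDegree ≡ h.natTrailingDegree [MOD 3] →
        (∀ p : K27[X], p.Monic → Irreducible p → p ≠ X → kl2_s p = p →
          ∃ (m : ℕ) (k : K27[X]), 3 ∣ m ∧ h = p ^ m * k ∧ ¬ p ∣ k) →
        f.natDegree ≡ f.natTrailingDegree [MOD 3] := by
      intro h f₁ hff hpos hh hdeg hm
      rw [hff] at hf hs hp ⊢
      refine kl2_step h f₁ hh hf hdeg hm hs hp ?_
      intro hf1 hs1 hp1
      refine IH f₁.natDegree ?_ f₁ rfl hf1 hs1 hp1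
      rw [← hN, hff, natDegree_mul (left_ne_zero_of_mul hf) hf1]
      omega
    by_cases hpX : p = X
    · obtain ⟨f₁, hf1⟩ := hpf
      rw [hpX] at hf1
      refine red X f₁ hf1 (by rw [natDegree_X]; norm_num) (by rw [kl2_s_apply, map_X])
        (by rw [natDegree_X, natTrailingDegree_X]) ?_
      intro q hqm hqi hqX _
      refine ⟨0, X, dvd_zero 3, by rw [pow_zero, one_mul], ?_⟩
      intro hdvd
      exact hqX (kl2_eq hqm hXm hqi hXi hdvd)
    · have hXp : ∀ q : K27[X], q.Monic → Irreducible q → q ≠ X → q.natTrailingDegree = 0 := by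
        intro q hqm hqi hqX
        apply kl2_ntd q hqi.ne_zero
        intro hdvd
        exact hqX (kl2_eq hXm hqm hXi hqi hdvd).symm
      by_cases hps : kl2_s p = p
      · -- multiplicity of p in f
        obtain ⟨n, g, hpg, hg⟩ := WfDvdMonoid.max_power_factor hf hpi
        have h3 : 3 ∣ n := hp p hpm hpi hpX hps n g hg hpg
        have hn0 : n ≠ 0 := by
          rintro rfl
          rw [pow_zero, one_mul] at hg
          exact hpg (hg ▸ hpf)
        obtain ⟨m, rfl⟩ := h3
        have hm0 : m ≠ 0 := by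
          rintro rfl
          exact hn0 rfl
        obtain ⟨m', rfl⟩ := Nat.exists_eq_succ_of_ne_zero hm0
        refine red (p ^ 3) (p ^ (3 * m') * g) (by rw [hg, Nat.succ_eq_add_one]; ring)
          (by rw [natDegree_pow]; omega) (by rw [map_pow, hps]) ?_ ?_
        · rw [natDegree_pow, kl2_ntd (p ^ 3) (pow_ne_zero 3 hpi.ne_zero) (by
            intro h
            exact hpX (kl2_eq hXm hpm hXi hpi (hXi.prime.dvd_of_dvd_pow h)).symm)]
          exact (Nat.modEq_zero_iff_dvd).2 ⟨_, rfl⟩
        · intro q hqm hqi hqX hqs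
          by_cases hqp : q = p
          · refine ⟨3, 1, dvd_refl 3, by rw [hqp, mul_one], ?_⟩
            intro h
            exact hqi.not_isUnit (isUnit_of_dvd_one h)
          · refine ⟨0, p ^ 3, dvd_zero 3, by rw [pow_zero, one_mul], ?_⟩
            intro h
            exact hqp (kl2_eq hqm hpm hqi hpi (hqi.prime.dvd_of_dvd_pow h))
      · -- three conjugates
        have hp1i := kl2_irr hpi
        have hp2i := kl2_irr hp1i
        have hp1m := kl2_monic hpm
        have hp2m := kl2_monic hp1m
        have hne1 : kl2_s (kl2_s p) ≠ kl2_s p := fun h => hps (kl2_s_inj h)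
        have hne2 : p ≠ kl2_s (kl2_s p) := by
          intro h
          have h1 := kl2_s3 p
          rw [← h] at h1
          exact hps h1
        have hd1 : kl2_s p ∣ f := by
          have := map_dvd kl2_s hpf
          rwa [hs] at this
        have hd2 : kl2_s (kl2_s p) ∣ f := by
          have := map_dvd kl2_s hd1
          rwa [hs] at this
        have c01 : IsCoprime p (kl2_s p) := by
          rw [hpi.coprime_iff_not_dvd]
          intro h
          exact hps (kl2_eq hpm hp1m hpi hp1i h).symm
        have c02 : IsCoprime p (kl2_s (kl2_s p)) := by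
          rw [hpi.coprime_iff_not_dvd]
          intro h
          exact hne2 (kl2_eq hpm hp2m hpi hp2i h)
        have c12 : IsCoprime (kl2_s p) (kl2_s (kl2_s p)) := by
          rw [hp1i.coprime_iff_not_dvd]
          intro h
          exact hne1 (kl2_eq hp1m hp2m hp1i hp2i h).symm
        have hd : p * kl2_s p * kl2_s (kl2_s p) ∣ f :=
          (c02.mul_left c12).mul_dvd (c01.mul_dvd hpf hd1) hd2
        obtain ⟨f₁, hf1⟩ := hd
        have hX1 : kl2_s p ≠ X := by
          intro h
          have h1 := kl2_s3 p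
          rw [h, kl2_s_apply X, map_X, kl2_s_apply X, map_X] at h1
          exact hpX h1.symm
        have hX2 : kl2_s (kl2_s p) ≠ X := by
          intro h
          have h1 := kl2_s3 p
          rw [h, kl2_s_apply X, map_X] at h1
          exact hpX h1.symm
        have hn : p * kl2_s p ≠ 0 := mul_ne_zero hpi.ne_zero hp1i.ne_zero
        refine red _ f₁ hf1 ?_ ?_ ?_ ?_
        · rw [natDegree_mul hn hp2i.ne_zero, natDegree_mul hpi.ne_zero hp1i.ne_zero]
          omega
        · rw [map_mul, map_mul, kl2_s3]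
          ring
        · rw [natDegree_mul hn hp2i.ne_zero, natDegree_mul hpi.ne_zero hp1i.ne_zero,
            natTrailingDegree_mul hn hp2i.ne_zero, natTrailingDegree_mul hpi.ne_zero hp1i.ne_zero,
            hXp p hpm hpi hpX, hXp _ hp1m hp1i hX1, hXp _ hp2m hp2i hX2]
          simp only [kl2_deg]
          exact (Nat.modEq_zero_iff_dvd).2 ⟨p.natDegree, by ring⟩
        · intro q hqm hqi hqX hqs
          refine ⟨0, _, dvd_zero 3, by rw [pow_zero, one_mul], ?_⟩
          intro h
          rcases hqi.prime.dvd_or_dvd h with h | h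
          · rcases hqi.prime.dvd_or_dvd h with h | h
            · have := kl2_eq hqm hpm hqi hpi h
              exact hps (this ▸ hqs)
            · have := kl2_eq hqm hp1m hqi hp1i h
              exact hne1 (this ▸ hqs)
          · have := kl2_eq hqm hp2m hqi hp2i h
            have h1 : kl2_s (kl2_s (kl2_s p)) = kl2_s (kl2_s p) := this ▸ hqs
            rw [kl2_s3] at h1
            exact hne2 h1

/-- Let `f ≠ 0` be fixed by the coefficientwise Frobenius `s`, and suppose that every monic
irreducible `p ≠ X` which is fixed by `s` occurs in `f` with multiplicity divisible by 3.  Then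
`deg f ≡ (multiplicity of X in f) mod 3`.
Proof by strong induction on `deg f`.  If `deg f = 0` both sides are 0.  Otherwise take a monic
irreducible divisor `p`.  If `p = X`: `f = X f₁`, apply induction to `f₁`.  If `p ≠ X` and
`s p = p`: `p³ ∣ f`, `f = p³ f₁`.  If `s p ≠ p`: then `p`, `s p`, `s² p` are pairwise distinct monic
irreducibles (`s³ = 1` by `frob27`), none is `X`, and all divide `f`, so `f = p (s p) (s² p) f₁`
with `s f₁ = f₁`, and the multiplicities of `s`-fixed primes do not change. -/
theorem degree_mod (f : K27[X]) (hf : f ≠ 0) (hs : f.map (frobenius K27 3) = f)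
    (hp : ∀ p : K27[X], p.Monic → Irreducible p → p ≠ X → p.map (frobenius K27 3) = p →
      ∀ (n : ℕ) (g : K27[X]), f = p ^ n * g → ¬ p ∣ g → 3 ∣ n) :
    f.natDegree ≡ f.natTrailingDegree [MOD 3] :=
  kl2_main f.natDegree f rfl hf hs hp

end NCP
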