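import Pool.Agent.H24.NCP.RF2
import Pool.Agent.H24.NCP.KER
import Pool.Agent.H24.NCP.KL1
import Pool.Agent.H24.NCP.KL2

/-! # Module KL3: (KLOG) -/

set_option autoImplicit false

namespace NCP
open Polynomial

variable {σ j : RF ≃+* RF} {δ : Derivation ℤ RF RF}

/-- coefficientwise Frobenius -/
noncomputable def KL3_s (p : K27[X]) : K27[X] := p.map (frobenius K27 3)

theorem KL3_s_mul (p q : K27[X]) : KL3_s (p * q) = KL3_s p * KL3_s q := Polynomial.map_mul _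

theorem KL3_s_pow (p : K27[X]) (n : ℕ) : KL3_s (p ^ n) = KL3_s p ^ n := Polynomial.map_pow _ _

theorem KL3_sss (p : K27[X]) : KL3_s (KL3_s (KL3_s p)) = p := by
  unfold KL3_s
  ext n
  simp only [coeff_map, frobenius_def]
  exact frob27 _

theorem KL3_s_ne {p : K27[X]} (hp : p ≠ 0) : KL3_s p ≠ 0 := by
  intro h
  apply hp
  rw [← KL3_sss p, h]
  simp [KL3_s]

/-- the norm -/
noncomputable def KL3_N (a : K27[X]) : K27[X] := a * KL3_s a * KL3_s (KL3_s a)

theorem KL3_N_mul (a b : K27[X]) : KL3_N (a * b) = KL3_N a * KL3_N b := by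
  unfold KL3_N
  rw [KL3_s_mul, KL3_s_mul]
  ring

theorem KL3_s_N (a : K27[X]) : KL3_s (KL3_N a) = KL3_N a := by
  unfold KL3_N
  rw [KL3_s_mul, KL3_s_mul, KL3_sss]
  ring

theorem KL3_s_dvd {P g : K27[X]} (hs : KL3_s P = P) (h : P ∣ KL3_s g) : P ∣ g := by
  obtain ⟨c, hc⟩ := h
  refine ⟨KL3_s (KL3_s c), ?_⟩
  have := congrArg (fun x => KL3_s (KL3_s x)) hc
  simp only [KL3_sss, KL3_s_mul, hs] at this
  exact this

theorem KL3_decomp {P : K27[X]} (hP : Prime P) {b : K27[X]} (hb : b ≠ 0) :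
    ∃ m g, b = P ^ m * g ∧ ¬ P ∣ g :=
  ⟨_, (FiniteMultiplicity.of_prime_left hP hb).exists_eq_pow_mul_and_not_dvd⟩

theorem KL3_N_not_dvd {P : K27[X]} (hP : Prime P) (hs : KL3_s P = P) {g : K27[X]}
    (hg : ¬ P ∣ g) : ¬ P ∣ KL3_N g := by
  unfold KL3_N
  intro h
  rcases hP.dvd_or_dvd h with h | h
  · rcases hP.dvd_or_dvd h with h | h
    · exact hg h
    · exact hg (KL3_s_dvd hs h)
  · exact hg (KL3_s_dvd hs (KL3_s_dvd hs h))

theorem KL3_N_pow {P : K27[X]} (hs : KL3_s P = P) (m : ℕ) : KL3_N (P ^ m) = P ^ (3 * m) := by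
  unfold KL3_N
  rw [KL3_s_pow, KL3_s_pow, hs, hs]
  ring

theorem KL3_uniq {P : K27[X]} (hP : Prime P) {a b : ℕ} {g h : K27[X]} (hg : ¬ P ∣ g)
    (hh : ¬ P ∣ h) (heq : P ^ a * g = P ^ b * h) : a = b := by
  have key : ∀ {a b : ℕ} {g h : K27[X]}, ¬ P ∣ g → P ^ a * g = P ^ b * h → b ≤ a := by
    intro a b g h hg heq
    by_contra hlt
    push Not at hlt
    obtain ⟨c, rfl⟩ := Nat.exists_eq_add_of_lt hlt
    have h1 : P ^ a * g = P ^ a * (P ^ (c + 1) * h) := by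
      rw [heq]; ring
    have h2 := mul_left_cancel₀ (pow_ne_zero _ hP.ne_zero) h1
    exact hg ⟨P ^ c * h, by rw [h2]; ring⟩
  exact le_antisymm (key hh heq.symm) (key hg heq)

theorem KL3_mod {P : K27[X]} (hP : Prime P) (hs : KL3_s P = P) {u v : ℕ} {F f g g' a b p q : K27[X]}
    (hF : F = P ^ u * g') (hg' : ¬ P ∣ g') (hf : f = P ^ v * g) (hg : ¬ P ∣ g)
    (ha : a ≠ 0) (hb : b ≠ 0) (hp : p ≠ 0) (hq : q ≠ 0)
    (h1 : F * KL3_N b * q ^ 3 = p ^ 3 * KL3_N a * f) : u ≡ v [MOD 3] := by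
  obtain ⟨ma, ga, rfl, hga⟩ := KL3_decomp hP ha
  obtain ⟨mb, gb, rfl, hgb⟩ := KL3_decomp hP hb
  obtain ⟨mp, gp, rfl, hgp⟩ := KL3_decomp hP hp
  obtain ⟨mq, gq, rfl, hgq⟩ := KL3_decomp hP hq
  rw [KL3_N_mul, KL3_N_mul, KL3_N_pow hs, KL3_N_pow hs, hF, hf] at h1
  have h2 : P ^ (u + 3 * mb + 3 * mq) * (g' * KL3_N gb * gq ^ 3) =
      P ^ (3 * mp + 3 * ma + v) * (gp ^ 3 * KL3_N ga * g) := by
    calc P ^ (u + 3 * mb + 3 * mq) * (g' * KL3_N gb * gq ^ 3)
        = P ^ u * g' * (P ^ (3 * mb) * KL3_N gb) * (P ^ mq * gq) ^ 3 := by ring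
      _ = (P ^ mp * gp) ^ 3 * (P ^ (3 * ma) * KL3_N ga) * (P ^ v * g) := h1
      _ = _ := by ring
  have h3 : ¬ P ∣ g' * KL3_N gb * gq ^ 3 := by
    intro h
    rcases hP.dvd_or_dvd h with h | h
    · rcases hP.dvd_or_dvd h with h | h
      · exact hg' h
      · exact KL3_N_not_dvd hP hs hgb h
    · exact hgq (hP.dvd_of_dvd_pow h)
  have h4 : ¬ P ∣ gp ^ 3 * KL3_N ga * g := by
    intro h
    rcases hP.dvd_or_dvd h with h | h
    · rcases hP.dvd_or_dvd h with h | h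
      · exact hgp (hP.dvd_of_dvd_pow h)
      · exact KL3_N_not_dvd hP hs hga h
    · exact hg h
  have h5 := KL3_uniq hP h3 h4 h2
  unfold Nat.ModEq
  omega

/-- (KLOG) for polynomials: there is no `σ`-fixed polynomial `f ≠ 0` with
`X f' N(b) q³ = p³ N(a) f` (`a, b, p, q ≠ 0`, `N(a) = a · σa · σ²a`) and
`X^d f a₁³ = rev(f) b₁³`, `d = natDegree f`, `rev = Polynomial.reverse`, `a₁, b₁ ≠ 0`.
Proof.  For a monic irreducible `p₀ ≠ X` with `σ p₀ = p₀`, multiplicity `v`: `v(N(b)) = 3 v(b)`,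
so the first identity gives `v(X f') ≡ v(f) mod 3`; by `mult_derivative`, `3 ∣ v(f)`.  Hence
`degree_mod`: `d ≡ t := natTrailingDegree f mod 3`.  The second identity gives
`d + t + 3 t(a₁) = 3 t(b₁)` (`rev f` has non-zero constant coefficient), so `d + t ≡ 0`, so
`t ≡ 0 mod 3`.  The first identity gives `t(X f') ≡ t(f) ≡ 0 mod 3` (and `f' ≠ 0`), but the lowest
coefficient of `X f'` is at a degree `n` with `n f_n ≠ 0`, so `3 ∤ n`.  Contradiction. -/
theorem klog_poly (f a b p q a₁ b₁ : K27[X]) (hf : f ≠ 0) (hs : f.map (frobenius K27 3) = f)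
    (ha : a ≠ 0) (hb : b ≠ 0) (hp : p ≠ 0) (hq : q ≠ 0) (ha₁ : a₁ ≠ 0) (hb₁ : b₁ ≠ 0)
    (h1 : X * derivative f * (b * b.map (frobenius K27 3) *
        (b.map (frobenius K27 3)).map (frobenius K27 3)) * q ^ 3 =
      p ^ 3 * (a * a.map (frobenius K27 3) * (a.map (frobenius K27 3)).map (frobenius K27 3)) * f)
    (h2 : X ^ f.natDegree * f * a₁ ^ 3 = f.reverse * b₁ ^ 3) : False := by
  have h1' : X * derivative f * KL3_N b * q ^ 3 = p ^ 3 * KL3_N a * f := h1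
  have hXs : KL3_s X = X := by simp [KL3_s]
  have hXp : Prime (X : K27[X]) := prime_X
  -- step 1
  have hd : f.natDegree ≡ f.natTrailingDegree [MOD 3] := by
    apply degree_mod f hf hs
    intro P hPm hPi hPX hPs n g hfg hg
    by_contra hn
    have hPnX : ¬ P ∣ X := by
      intro hdvd
      apply hPX
      exact eq_of_monic_of_associated hPm monic_X
        (hPi.associated_of_dvd irreducible_X hdvd)
    obtain ⟨g', hg1, hg2⟩ := mult_derivative P hPi hPnX n g hg hn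
    rw [← hfg] at hg1
    have h3 := KL3_mod hPi.prime hPs hg1 hg2 hfg hg ha hb hp hq h1'
    unfold Nat.ModEq at h3
    omega
  -- decomposition with respect to `X`
  obtain ⟨t, g, hfg, hg⟩ := KL3_decomp hXp hf
  have hg0 : g.coeff 0 ≠ 0 := fun h => hg (X_dvd_iff.mpr h)
  have hgne : g ≠ 0 := by
    rintro rfl
    simp at hg0
  have ht : f.natTrailingDegree = t := by
    rw [hfg, mul_comm, natTrailingDegree_mul_X_pow hgne, natTrailingDegree_eq_zero.mpr (Or.inr hg0),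
      zero_add]
  have hrev : ¬ (X : K27[X]) ∣ f.reverse := by
    rw [X_dvd_iff, coeff_zero_reverse]
    exact leadingCoeff_ne_zero.mpr hf
  have h3 : f.natDegree + t ≡ 0 [MOD 3] := by
    obtain ⟨m₁, g₁, rfl, hg₁⟩ := KL3_decomp hXp ha₁
    obtain ⟨m₂, g₂, rfl, hg₂⟩ := KL3_decomp hXp hb₁
    have h4 : X ^ (f.natDegree + t + 3 * m₁) * (g * g₁ ^ 3) =
        X ^ (3 * m₂) * (f.reverse * g₂ ^ 3) := by
      calc X ^ (f.natDegree + t + 3 * m₁) * (g * g₁ ^ 3)
          = X ^ f.natDegree * (X ^ t * g) * (X ^ m₁ * g₁) ^ 3 := by ring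
        _ = X ^ f.natDegree * f * (X ^ m₁ * g₁) ^ 3 := by rw [← hfg]
        _ = f.reverse * (X ^ m₂ * g₂) ^ 3 := h2
        _ = _ := by ring
    have h5 : ¬ (X : K27[X]) ∣ g * g₁ ^ 3 := by
      intro h
      rcases hXp.dvd_or_dvd h with h | h
      · exact hg h
      · exact hg₁ (hXp.dvd_of_dvd_pow h)
    have h6 : ¬ (X : K27[X]) ∣ f.reverse * g₂ ^ 3 := by
      intro h
      rcases hXp.dvd_or_dvd h with h | h
      · exact hrev h
      · exact hg₂ (hXp.dvd_of_dvd_pow h)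
    have h7 := KL3_uniq hXp h5 h6 h4
    unfold Nat.ModEq
    omega
  -- the derivative
  have hN : ∀ c : K27[X], c ≠ 0 → KL3_N c ≠ 0 := fun c hc =>
    mul_ne_zero (mul_ne_zero hc (KL3_s_ne hc)) (KL3_s_ne (KL3_s_ne hc))
  have hder : X * derivative f ≠ 0 := by
    intro h
    rw [h, zero_mul, zero_mul] at h1'
    exact mul_ne_zero (mul_ne_zero (pow_ne_zero 3 hp) (hN a ha)) hf h1'.symm
  obtain ⟨n, g', hn, hg'⟩ := KL3_decomp hXp hder
  have h8 := KL3_mod hXp hXs hn hg' hfg hg ha hb hp hq h1'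
  have h9 : (3 : ℕ) ∣ n := by
    rw [ht] at hd
    unfold Nat.ModEq at *
    omega
  have h10 : (X * derivative f).coeff n = g'.coeff 0 := by
    rw [hn, coeff_X_pow_mul']
    simp
  have h11 : g'.coeff 0 ≠ 0 := fun h => hg' (X_dvd_iff.mpr h)
  apply h11
  rw [← h10]
  rcases n with _ | n
  · simp
  · rw [coeff_X_mul, coeff_derivative]
    have h12 : ((n : K27) + 1) = 0 := by
      have := (CharP.cast_eq_zero_iff K27 3 (n + 1)).mpr h9
      exact_mod_cast this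
    rw [h12, mul_zero]

theorem KL3_pol_inj : Function.Injective pol := IsFractionRing.injective K27[X] RF

theorem KL3_pol_ne {p : K27[X]} (hp : p ≠ 0) : pol p ≠ 0 := by
  intro h
  exact hp (KL3_pol_inj (h.trans (map_zero pol).symm))

theorem KL3_div (x : RF) : ∃ p q : K27[X], q ≠ 0 ∧ x = pol p / pol q := by
  obtain ⟨p, q, hq, rfl⟩ := IsFractionRing.div_surjective (A := K27[X]) x
  exact ⟨p, q, nonZeroDivisors.ne_zero hq, rfl⟩

theorem KL3_σ (h : RPre σ j δ) (p : K27[X]) : σ (pol p) = pol (KL3_s p) := h.σ_alg p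

theorem KL3_σN (h : RPre σ j δ) (p : K27[X]) :
    pol p * σ (pol p) * σ (σ (pol p)) = pol (KL3_N p) := by
  unfold KL3_N
  rw [KL3_σ h, KL3_σ h, map_mul, map_mul]

theorem KL3_j (h : RPre σ j δ) (f : K27[X]) :
    j (pol f) * pol X ^ f.natDegree = pol f.reverse := by
  have hX : pol X ≠ 0 := KL3_pol_ne X_ne_zero
  have h1 : ∀ g : K27[X], j (pol g) = eval₂ (pol.comp C) (pol X)⁻¹ g := by
    intro g
    have h2 : (j : RF →+* RF).comp pol = eval₂RingHom (pol.comp C) (pol X)⁻¹ := by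
      apply Polynomial.ringHom_ext
      · intro a
        rw [coe_eval₂RingHom, eval₂_C]
        exact h.j_C a
      · rw [coe_eval₂RingHom, eval₂_X]
        exact h.j_X
    exact congrArg (fun φ : K27[X] →+* RF => φ g) h2
  have h3 : ∀ g : K27[X], pol g = eval₂ (pol.comp C) (pol X) g := by
    intro g
    have h2 : (pol : K27[X] →+* RF) = eval₂RingHom (pol.comp C) (pol X) := by
      apply Polynomial.ringHom_ext
      · intro a
        rw [coe_eval₂RingHom, eval₂_C]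
        rfl
      · rw [coe_eval₂RingHom, eval₂_X]
    exact congrArg (fun φ : K27[X] →+* RF => φ g) h2
  let : Invertible ((pol X)⁻¹ : RF) := ⟨pol X, mul_inv_cancel₀ hX, inv_mul_cancel₀ hX⟩
  have h4 := eval₂_reverse_mul_pow (pol.comp C) ((pol X)⁻¹ : RF) f
  have h5 : (⅟((pol X)⁻¹ : RF)) = pol X := rfl
  rw [h5, ← h3, ← h1] at h4
  rw [← h4, mul_assoc, ← mul_pow, inv_mul_cancel₀ hX, one_pow, mul_one]

/-- (KLOG).  Proof: multiply `Y = u/w` by the cube of `D = w · σw · σ²w` (a `σ`-fixed polynomial):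
`δ(Y D³)/(Y D³) = δ Y/Y`, so WLOG `Y = pol f`, `f` a polynomial fixed by Frobenius.  `β` is a cube
(`ker_cube`), `β = (p/q)³`, `z = a/b`: the first identity of `klog_poly`.  Let `P = δ Y/Y`
`= β N(z)`.  `δ(jY) = -j(δY) = -j(P) jY = P jY`, so `δ(jY/Y) = 0` and `jY/Y = (a₁/b₁)³`;
`jY = pol(reverse f)/X^d`: the second identity. -/
theorem RPre.klog (h : RPre σ j δ) (Y β z : RF) (hY : Y ≠ 0) (hs : σ Y = Y) (hβ : δ β = 0)
    (hβ0 : β ≠ 0) (hz : z ≠ 0) (h1 : δ Y = β * (z * σ z * σ (σ z)) * Y)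
    (h2 : j (β * (z * σ z * σ (σ z))) = -(β * (z * σ z * σ (σ z)))) : False := by
  have h3z : (3 : RF) = 0 := by
    have := CharP.cast_eq_zero RF 3
    exact_mod_cast this
  set P : RF := β * (z * σ z * σ (σ z)) with hP
  obtain ⟨u, w, hw, hYuw⟩ := KL3_div Y
  set W : K27[X] := KL3_N w with hW
  set f : K27[X] := u * (KL3_s w * KL3_s (KL3_s w)) * W ^ 2 with hf
  have hwp : pol w ≠ 0 := KL3_pol_ne hw
  have hfY : pol f = Y * pol W ^ 3 := by
    rw [hYuw, hf, hW]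
    unfold KL3_N
    simp only [map_mul, map_pow]
    field_simp
  have hW0 : W ≠ 0 := mul_ne_zero (mul_ne_zero hw (KL3_s_ne hw)) (KL3_s_ne (KL3_s_ne hw))
  have hf0 : f ≠ 0 := by
    intro h0
    rw [h0, map_zero] at hfY
    exact mul_ne_zero hY (pow_ne_zero 3 (KL3_pol_ne hW0)) hfY.symm
  have hfp : pol f ≠ 0 := KL3_pol_ne hf0
  have hfs : KL3_s f = f := by
    apply KL3_pol_inj
    rw [← KL3_σ h, hfY, map_mul, map_pow, hs, KL3_σ h, hW, KL3_s_N]
  have hcube : ∀ x : RF, δ (x ^ 3) = 0 := fun x => (h.ker_cube _).mpr ⟨x, rfl⟩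
  have hδf : δ (pol f) = P * pol f := by
    rw [hfY, Derivation.leibniz, hcube, smul_zero, zero_add, smul_eq_mul, h1]
    ring
  clear_value f
  -- numerators and denominators
  obtain ⟨y, hy⟩ := (h.ker_cube β).mp hβ
  obtain ⟨p, q, hq, hypq⟩ := KL3_div y
  obtain ⟨a, b, hb, hzab⟩ := KL3_div z
  have hp : p ≠ 0 := by
    rintro rfl
    apply hβ0
    rw [← hy, hypq]
    simp
  have ha : a ≠ 0 := by
    rintro rfl
    apply hz
    rw [hzab]
    simp
  have hqp : pol q ≠ 0 := KL3_pol_ne hq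
  have hN : ∀ c : K27[X], c ≠ 0 → KL3_N c ≠ 0 := fun c hc =>
    mul_ne_zero (mul_ne_zero hc (KL3_s_ne hc)) (KL3_s_ne (KL3_s_ne hc))
  have hPeq : P = (pol p / pol q) ^ 3 * (pol (KL3_N a) / pol (KL3_N b)) := by
    rw [hP, ← hy, hypq, ← KL3_σN h, ← KL3_σN h, hzab, map_div₀, map_div₀]
    have e1 : σ (pol b) ≠ 0 := by rw [KL3_σ h]; exact KL3_pol_ne (KL3_s_ne hb)
    have e2 : σ (σ (pol b)) ≠ 0 := by
      rw [KL3_σ h, KL3_σ h]; exact KL3_pol_ne (KL3_s_ne (KL3_s_ne hb))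
    have e3 : pol b ≠ 0 := KL3_pol_ne hb
    field_simp
  have hid1 : X * derivative f * KL3_N b * q ^ 3 = p ^ 3 * KL3_N a * f := by
    apply KL3_pol_inj
    have h4 : pol (X * derivative f) = P * pol f := by rw [← h.δ_alg, hδf]
    have e1 : pol (KL3_N b) ≠ 0 := KL3_pol_ne (hN b hb)
    have h5 : pol (X * derivative f) * pol (KL3_N b) * pol q ^ 3 =
        pol p ^ 3 * pol (KL3_N a) * pol f := by
      rw [h4, hPeq]
      field_simp
    simpa only [map_mul, map_pow] using h5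
  -- the second identity
  have hjf : j (pol f) ≠ 0 := by
    intro h0
    exact hfp (j.injective (h0.trans (map_zero j).symm))
  have hδj : δ (j (pol f)) = P * j (pol f) := by
    rw [h.δj, hδf, map_mul, h2]
    ring
  have hδq : δ (j (pol f) / pol f) = 0 := by
    have h4 : j (pol f) = (j (pol f) / pol f) * pol f := (div_mul_cancel₀ _ hfp).symm
    have h5 := congrArg δ h4
    rw [Derivation.leibniz, hδj, hδf, smul_eq_mul, smul_eq_mul] at h5
    have h6 : pol f * δ (j (pol f) / pol f) = 0 := by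
      have h7 : j (pol f) / pol f * (P * pol f) = P * j (pol f) := by
        field_simp
      rw [h7] at h5
      linear_combination -h5
    exact (mul_eq_zero.mp h6).resolve_left hfp
  obtain ⟨c, hc⟩ := (h.ker_cube _).mp hδq
  obtain ⟨a₁, b₁, hb₁, hcab⟩ := KL3_div c
  have ha₁ : a₁ ≠ 0 := by
    rintro rfl
    apply div_ne_zero hjf hfp
    rw [← hc, hcab]
    simp
  have hid2 : X ^ f.natDegree * f * a₁ ^ 3 = f.reverse * b₁ ^ 3 := by
    apply KL3_pol_inj
    have e1 : pol b₁ ≠ 0 := KL3_pol_ne hb₁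
    have h4 : j (pol f) = (pol a₁ / pol b₁) ^ 3 * pol f := by
      rw [← hcab, hc, div_mul_cancel₀ _ hfp]
    have h5 : pol X ^ f.natDegree * pol f * pol a₁ ^ 3 = pol f.reverse * pol b₁ ^ 3 := by
      rw [← KL3_j h, h4]
      field_simp
    simpa only [map_mul, map_pow] using h5
  exact klog_poly f a b p q a₁ b₁ hf0 hfs ha hb hp hq ha₁ hb₁ hid1 hid2

end NCP
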