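import Pool.Agent.H24.NCP.LB

/-! # Module LATS: successive approximation -/

set_option autoImplicit false

namespace NCP
open HahnSeries

variable {k K C : Type} [Field k] [Field K] [DivisionRing C] [Algebra k K] [Algebra K C]
    [Algebra k C] [IsScalarTower k K C]

theorem lats_mono (d : CD k K C) {m n : ℤ} (h : m ≤ n) {x : DD d} (hx : LowD d n x) :
    LowD d m x := fun j hj => hx j (lt_of_lt_of_le hj h)

theorem lats_add (d : CD k K C) {n : ℤ} {x y : DD d} (hx : LowD d n x) (hy : LowD d n y) :
    LowD d n (x + y) := fun j hj => by rw [map_add, hx j hj, hy j hj, add_zero]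

theorem lats_sum (d : CD k K C) {n : ℤ} {ι : Type*} (S : Finset ι) (f : ι → DD d)
    (h : ∀ i ∈ S, LowD d n (f i)) : LowD d n (∑ i ∈ S, f i) := fun j hj => by
  rw [map_sum]
  exact Finset.sum_eq_zero fun i hi => h i hi j hj

/-- the Laurent series with coefficients `a n`, `n ≥ 0` -/
noncomputable def latsA (a : ℕ → k) : FF k :=
  ⟨fun n => if 0 ≤ n then a n.toNat else 0, by
    have h : (Function.support (fun n : ℤ => if 0 ≤ n then a n.toNat else 0)) ⊆ Set.Ici 0 := by
      intro n hn
      by_contra h
      exact hn (if_neg h)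
    exact (BddBelow.isWF ⟨0, fun n hn => h hn⟩).isPWO⟩

theorem latsA_coeff (a : ℕ → k) (n : ℤ) :
    (latsA a).coeff n = if 0 ≤ n then a n.toNat else 0 := rfl

theorem lats_partial_coeff (a : ℕ → k) (n : ℕ) (m : ℤ) (hm : m < n) :
    (∑ j ∈ Finset.range n, (single (j : ℤ) (a j) : FF k)).coeff m = (latsA a).coeff m := by
  rw [HahnSeries.coeff_sum, latsA_coeff]
  split_ifs with h
  · rw [Finset.sum_eq_single m.toNat]
    · rw [show ((m.toNat : ℕ) : ℤ) = m from Int.toNat_of_nonneg h, HahnSeries.coeff_single_same]
    · intro j _ hj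
      rw [HahnSeries.coeff_single_of_ne]
      intro h1
      apply hj
      omega
    · intro h1
      rw [Finset.mem_range] at h1
      omega
  · refine Finset.sum_eq_zero fun j _ => ?_
    rw [HahnSeries.coeff_single_of_ne]
    omega

/-- Successive approximation.  If every `l ∈ L` of order `≥ 0` can be written
`l = Σ a_i s_i + t l'` with `a_i ∈ k` and `l'` of order `≥ 0`, then the `s_i` span `L` over
`F = k((t))`: iterate, `A_i = Σ_n a_i^{(n)} tⁿ` (a power series), `φ(l - Σ A_i s_i)` has order
`≥ 3 n` for all `n`, so it is `0` (`cf_ext`).  Every `l ∈ L` becomes of order `≥ 0` after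
multiplication by a power of `t`. -/
theorem lat_span (d : CD k K C) {L : Type} [Field L] [Algebra (FF k) L] (φ : L →ₐ[FF k] DD d)
    (r : ℕ) (s : Fin r → L) (hs : ∀ i, LowD d 0 (φ (s i)))
    (H : ∀ l : L, LowD d 0 (φ l) → ∃ (a : Fin r → k) (l' : L), LowD d 0 (φ l') ∧
      l = ∑ i, (single 0 (a i) : FF k) • s i + (single 1 1 : FF k) • l') :
    Submodule.span (FF k) (Set.range s) = ⊤ := by
  classical
  have hsm : ∀ (f : FF k) (l : L), φ (f • l) = f • φ l := fun f l => map_smul φ f l
  -- elements of non-negative order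
  have key : ∀ l : L, LowD d 0 (φ l) → l ∈ Submodule.span (FF k) (Set.range s) := by
    intro l hl
    let P : Type := {l : L // LowD d 0 (φ l)}
    choose a nx hnx using fun p : P => H p.1 p.2
    let sq : ℕ → P := fun n => Nat.rec (⟨l, hl⟩ : P) (fun _ p => ⟨nx p, (hnx p).1⟩) n
    have hsq0 : (sq 0).1 = l := rfl
    have hsqs : ∀ n, (sq n).1 = ∑ i, (single 0 (a (sq n) i) : FF k) • s i +
        (single 1 1 : FF k) • (sq (n + 1)).1 := fun n => (hnx (sq n)).2
    have hpart : ∀ n : ℕ, l = ∑ i, (∑ j ∈ Finset.range n, (single (j : ℤ) (a (sq j) i) : FF k)) • s i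
        + (single (n : ℤ) 1 : FF k) • (sq n).1 := by
      intro n
      induction n with
      | zero =>
        have h1 : (single ((0 : ℕ) : ℤ) 1 : FF k) = 1 := rfl
        rw [h1, one_smul, hsq0]
        simp
      | succ n ih =>
        rw [hsqs n, smul_add, ← add_assoc] at ih
        rw [ih]
        congr 1
        · rw [Finset.smul_sum, ← Finset.sum_add_distrib]
          refine Finset.sum_congr rfl fun i _ => ?_
          rw [Finset.sum_range_succ, add_smul, smul_smul, HahnSeries.single_mul_single, add_zero,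
            one_mul]
        · rw [smul_smul, HahnSeries.single_mul_single, one_mul]
          push_cast
          rfl
    let A : Fin r → FF k := fun i => latsA (fun j => a (sq j) i)
    have hzero : φ (l - ∑ i, A i • s i) = 0 := by
      apply cf_ext d
      intro m
      obtain ⟨n, hn⟩ : ∃ n : ℕ, m < 3 * (n : ℤ) := ⟨(m.toNat + 1), by push_cast; omega⟩
      have h1 : l - ∑ i, A i • s i =
          ∑ i, ((∑ j ∈ Finset.range n, (single (j : ℤ) (a (sq j) i) : FF k)) - A i) • s i
            + (single (n : ℤ) 1 : FF k) • (sq n).1 := by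
        conv_lhs => rw [hpart n]
        simp only [sub_smul, Finset.sum_sub_distrib]
        abel
      have h2 : LowD d (3 * (n : ℤ)) (φ (l - ∑ i, A i • s i)) := by
        rw [h1, map_add, map_sum]
        refine lats_add d (lats_sum d _ _ fun i _ => ?_) ?_
        · rw [hsm]
          have h3 := (dd_smul d (n : ℤ) 0
            ((∑ j ∈ Finset.range n, (single (j : ℤ) (a (sq j) i) : FF k)) - A i) (φ (s i)) (by
              intro m' hm'
              rw [HahnSeries.coeff_sub, lats_partial_coeff _ _ _ hm', sub_self]) (hs i)).1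
          rwa [add_zero] at h3
        · rw [hsm]
          have h3 := (dd_smul d (n : ℤ) 0 (single (n : ℤ) 1 : FF k) (φ (sq n).1) (by
              intro m' hm'
              exact HahnSeries.coeff_single_of_ne hm'.ne) (sq n).2).1
          rwa [add_zero] at h3
      exact h2 m hn
    have hl0 : l - ∑ i, A i • s i = 0 := by
      have hinj : Function.Injective φ := φ.toRingHom.injective
      exact hinj (by rw [hzero, map_zero])
    rw [sub_eq_zero.1 hl0]
    refine Submodule.sum_mem _ fun i _ => ?_
    exact Submodule.smul_mem _ _ (Submodule.subset_span ⟨i, rfl⟩)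
  rw [eq_top_iff]
  intro l _
  obtain ⟨n, hn⟩ := exists_lowD d (φ l)
  obtain ⟨N, hN⟩ : ∃ N : ℤ, 0 ≤ 3 * N + n := ⟨|n|, by have := neg_abs_le n; have := abs_nonneg n; omega⟩
  have h1 : LowD d 0 (φ ((single N 1 : FF k) • l)) := by
    rw [hsm]
    exact lats_mono d hN (dd_smul d N n (single N 1 : FF k) (φ l) (by
      intro m' hm'
      exact HahnSeries.coeff_single_of_ne hm'.ne) hn).1
  have h2 := Submodule.smul_mem _ (single (-N) 1 : FF k) (key _ h1)
  have h3 : (single (-N) 1 : FF k) • ((single N 1 : FF k) • l) = l := by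
    rw [smul_smul, HahnSeries.single_mul_single, one_mul, neg_add_cancel]
    exact one_smul _ l
  rwa [h3] at h2

end NCP
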