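import Pool.Agent.H24.NCP.DD2
import Pool.Agent.H24.NCP.DD3

/-! # Module LB: the residue algebra `L̄` of a subfield `L` of `D` -/

set_option autoImplicit false

namespace NCP
open HahnSeries

variable {k K C : Type} [Field k] [Field K] [DivisionRing C] [Algebra k K] [Algebra K C]
    [Algebra k C] [IsScalarTower k K C]

theorem LB_low_single (d : CD k K C) (r : k) :
    LowD d 0 (algebraMap (FF k) (DD d) (single 0 r)) := by
  intro m hm
  rw [algebraMap_DD, cf_apply, FtoD_x0, FtoD_x1, FtoD_x2]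
  have h3 : m / 3 ≠ 0 := by omega
  have h4 : (hmap (algebraMap k C) (single 0 r)).coeff (m / 3) = 0 := by
    rw [hmap_coeff, coeff_single_of_ne h3, map_zero]
  rw [h4]
  simp

/-- `L̄ = {leading coefficients in degree 0 of the elements of order ≥ 0 of L}`. -/
def Lbar (d : CD k K C) {L : Type} [Field L] [Algebra (FF k) L] (φ : L →ₐ[FF k] DD d) :
    Subalgebra k C where
  carrier := {x | ∃ l : L, LowD d 0 (φ l) ∧ cf d 0 (φ l) = x}
  mul_mem' := by
    rintro a b ⟨l, hl, rfl⟩ ⟨l', hl', rfl⟩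
    refine ⟨l * l', ?_, ?_⟩
    · rw [map_mul]; exact (dd_Q0 d _ _ hl hl').1
    · rw [map_mul]; exact (dd_Q0 d _ _ hl hl').2
  add_mem' := by
    rintro a b ⟨l, hl, rfl⟩ ⟨l', hl', rfl⟩
    refine ⟨l + l', ?_, ?_⟩
    · intro m hm
      rw [map_add, map_add, hl m hm, hl' m hm, add_zero]
    · rw [map_add, map_add]
  algebraMap_mem' := by
    intro r
    refine ⟨algebraMap (FF k) L (single 0 r), ?_, ?_⟩
    · rw [AlgHom.commutes]; exact LB_low_single d r
    · rw [AlgHom.commutes, cf_algebraMap_zero]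
      simp

theorem mem_Lbar (d : CD k K C) {L : Type} [Field L] [Algebra (FF k) L] (φ : L →ₐ[FF k] DD d)
    (x : C) : x ∈ Lbar d φ ↔ ∃ l : L, LowD d 0 (φ l) ∧ cf d 0 (φ l) = x := Iff.rfl

/-- `L̄` is commutative. -/
theorem Lbar_comm (d : CD k K C) {L : Type} [Field L] [Algebra (FF k) L] (φ : L →ₐ[FF k] DD d)
    (x y : C) (hx : x ∈ Lbar d φ) (hy : y ∈ Lbar d φ) : x * y = y * x := by
  obtain ⟨l, hl, rfl⟩ := hx
  obtain ⟨l', hl', rfl⟩ := hy
  rw [← (dd_Q0 d _ _ hl hl').2, ← (dd_Q0 d _ _ hl' hl).2, ← map_mul, ← map_mul, mul_comm]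

/-- The action on residues: if `u φ(l) = φ(g l) u` for all `l` and `u = a Tⁿ + ...`, `a ≠ 0`, then
for `φ l` of order `≥ 0` so is `φ (g l)`, and `a ψⁿ(l̄) = \overline{g l} a`.
(`u φ(l) = φ(g l) u`; compare orders and leading coefficients by `dd_Q2`; `φ l = 0` iff
`φ (g l) = 0`.) -/
theorem res_action (d : CD k K C) {L : Type} [Field L] [Algebra (FF k) L] (φ : L →ₐ[FF k] DD d)
    (g : L ≃ₐ[FF k] L) (u : DD d) (hu : ∀ l, u * φ l = φ (g l) * u) (n : ℤ) (hn : LowD d n u)
    (hn0 : cf d n u ≠ 0) (l : L) (hl : LowD d 0 (φ l)) :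
    LowD d 0 (φ (g l)) ∧
      cf d n u * ((d.ψ : RingAut C) ^ n) (cf d 0 (φ l)) = cf d 0 (φ (g l)) * cf d n u := by
  by_cases h0 : l = 0
  · subst h0
    simp only [map_zero, mul_zero, zero_mul, and_true]
    intro m _
    simp
  have hinj : Function.Injective φ := φ.toRingHom.injective
  have hg0 : φ (g l) ≠ 0 := by
    rw [Ne, map_eq_zero_iff φ hinj, EmbeddingLike.map_eq_zero_iff]
    exact h0
  have h1 := dd_Q2 d n 0 u (φ l) hn hl
  rw [add_zero] at h1
  obtain ⟨m, hm, hm0⟩ := exists_ord d (φ (g l)) hg0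
  have h2 := dd_Q2 d m n (φ (g l)) u hm hn
  have h3 : cf d (m + n) (φ (g l) * u) ≠ 0 := by
    rw [h2.2]
    refine mul_ne_zero hm0 ?_
    intro h
    exact hn0 ((EmbeddingLike.map_eq_zero_iff (f := ((d.ψ : RingAut C) ^ m))).1 h)
  have hm1 : 0 ≤ m := by
    by_contra hlt
    push Not at hlt
    apply h3
    rw [← hu]
    exact h1.1 (m + n) (by omega)
  have hL : LowD d 0 (φ (g l)) := fun j hj => hm j (lt_of_lt_of_le hj hm1)
  refine ⟨hL, ?_⟩
  have h4 := dd_Q2 d 0 n (φ (g l)) u hL hn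
  rw [zero_add] at h4
  rw [← h1.2, hu, h4.2]
  simp

/-- Norms: if all conjugates of `l` have the same residue `x` then `x⁹ ∈ k`:
`∏_g g l` is fixed by the Galois group, so it is in `F`, and its residue is `x⁹`. -/
theorem res_norm (d : CD k K C) {L : Type} [Field L] [Algebra (FF k) L] (φ : L →ₐ[FF k] DD d)
    [IsGalois (FF k) L] (h9 : Module.finrank (FF k) L = 9) (l : L) (x : C)
    (h : ∀ g : L ≃ₐ[FF k] L, LowD d 0 (φ (g l)) ∧ cf d 0 (φ (g l)) = x) :
    x ^ 9 ∈ Set.range (algebraMap k C) := by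
  classical
  have : FiniteDimensional (FF k) L := Module.finite_of_finrank_pos (by rw [h9]; norm_num)
  have hcard : Fintype.card (L ≃ₐ[FF k] L) = 9 := by
    rw [← h9, ← IsGalois.card_aut_eq_finrank, Nat.card_eq_fintype_card]
  have key : ∀ s : Finset (L ≃ₐ[FF k] L),
      LowD d 0 (φ (∏ g ∈ s, g l)) ∧ cf d 0 (φ (∏ g ∈ s, g l)) = x ^ s.card := by
    intro s
    induction s using Finset.induction_on with
    | empty =>
      have e1 : φ (∏ g ∈ (∅ : Finset (L ≃ₐ[FF k] L)), g l)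
          = algebraMap (FF k) (DD d) (single 0 1) := by
        rw [Finset.prod_empty, map_one, show (single 0 (1 : k) : FF k) = 1 from rfl, map_one]
      rw [e1]
      refine ⟨LB_low_single d 1, ?_⟩
      rw [cf_algebraMap_zero]
      simp
    | insert a s ha ih =>
      rw [Finset.prod_insert ha, map_mul, Finset.card_insert_of_notMem ha]
      obtain ⟨h1, h2⟩ := dd_Q0 d _ _ (h a).1 ih.1
      refine ⟨h1, ?_⟩
      rw [h2, (h a).2, ih.2, pow_succ']
  have h1 := key Finset.univ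
  rw [Finset.card_univ, hcard, ← Algebra.norm_eq_prod_automorphisms (FF k) l, AlgHom.commutes,
    cf_algebraMap_zero] at h1
  exact ⟨_, h1.2⟩

end NCP
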