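import Mathlib

/-! # Module SH1: the substitution `X ↦ X/(1-X)` on power series -/

set_option autoImplicit false

namespace NCP
open PowerSeries

section SH1
variable {R : Type} [Field R]

/-- `X/(1-X)` -/
noncomputable def SH1_u (R : Type) [Field R] : R⟦X⟧ := X * (1 - X)⁻¹

theorem SH1_const : constantCoeff (1 - X : R⟦X⟧) = 1 := by simp

theorem SH1_ne : (1 - X : R⟦X⟧) ≠ 0 := by
  intro h
  have := SH1_const (R := R)
  rw [h] at this
  simp at this

theorem SH1_u_mul : SH1_u R * (1 - X) = X := by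
  unfold SH1_u
  rw [mul_assoc, PowerSeries.inv_mul_cancel _ (by rw [SH1_const]; exact one_ne_zero), mul_one]

theorem SH1_u_const : constantCoeff (SH1_u R) = 0 := by
  simp [SH1_u]

theorem SH1_hu : HasSubst (SH1_u R) := HasSubst.of_constantCoeff_zero' SH1_u_const

/-- the substitution as a function -/
noncomputable def SH1_φ (R : Type) [Field R] : R⟦X⟧ →ₐ[R] R⟦X⟧ := substAlgHom (SH1_hu (R := R))

theorem SH1_φ_apply (f : R⟦X⟧) : SH1_φ R f = f.subst (SH1_u R) := by
  unfold SH1_φ
  rw [coe_substAlgHom]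

theorem SH1_φX : SH1_φ R X = SH1_u R := by
  rw [SH1_φ_apply, subst_X SH1_hu]

theorem SH1_φu : SH1_φ R (SH1_u R) * (1 - 2 * X) = X := by
  have h1 := congrArg (SH1_φ R) (SH1_u_mul (R := R))
  rw [map_mul, map_sub, map_one, SH1_φX] at h1
  linear_combination (1 - X) * h1 + (SH1_φ R (SH1_u R) + 1) * SH1_u_mul (R := R)

theorem SH1_φφu (h3 : (3 : R) = 0) : SH1_φ R (SH1_φ R (SH1_u R)) = X := by
  have h1 := congrArg (SH1_φ R) (SH1_φu (R := R))
  rw [map_mul, map_sub, map_one, map_mul, SH1_φX, map_ofNat] at h1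
  have h3' : (3 : R⟦X⟧) = 0 := by
    rw [show (3 : R⟦X⟧) = C (3 : R) from (map_ofNat C 3).symm, h3, map_zero]
  linear_combination (1 - X) * h1 + (2 * SH1_φ R (SH1_φ R (SH1_u R)) + 1) * SH1_u_mul (R := R)
    + SH1_φ R (SH1_φ R (SH1_u R)) * X * h3'

theorem SH1_comp (a f : R⟦X⟧) (ha : HasSubst a) : SH1_φ R (f.subst a) = f.subst (SH1_φ R a) := by
  rw [SH1_φ_apply, SH1_φ_apply, subst_comp_subst_apply ha SH1_hu]

theorem SH1_const_φ (f : R⟦X⟧) : constantCoeff (SH1_φ R f) = constantCoeff f := by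
  obtain ⟨g, hg⟩ := X_dvd_iff.mpr (show constantCoeff (f - C (constantCoeff f)) = 0 by simp)
  have h1 : f = C (constantCoeff f) + X * g := by rw [← hg]; ring
  have h2 : SH1_φ R f = C (constantCoeff f) + SH1_u R * SH1_φ R g := by
    conv_lhs => rw [h1]
    rw [map_add, map_mul, SH1_φX]
    congr 1
    exact (SH1_φ R).commutes (constantCoeff f)
  rw [h2, map_add, map_mul, SH1_u_const]
  simp

end SH1

/-- The automorphism `X ↦ X/(1-X)` of `R⟦X⟧`, `3 = 0` in `R`.
`s f = f.subst (X * (1 - X)⁻¹)` (`PowerSeries.subst`, `substAlgHom`); note that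
`X/(1-X) = mk (fun n => if n = 0 then 0 else 1)`.  `s³ = 1` by `subst_comp_subst_apply` and
`s² X = X/(1-2X)`, `s³ X = X/(1-3X) = X`.  `s` commutes with `map f` by `map_subst`, and with
`rescale (-1) = subst (-X)` (`rescale_eq_subst`): `rescale(-1) (s X) = -X/(1+X) = s²(rescale(-1) X)`.
(All identities between such substitutions follow from `subst_comp_subst_apply` and an
identity of power series checked after multiplying by denominators.) -/
theorem exists_sh1 (R : Type) [Field R] (h3 : (3 : R) = 0) :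
    ∃ s : R⟦X⟧ ≃+* R⟦X⟧,
      (∀ f, s (s (s f)) = f) ∧ (∀ r : R, s (C r) = C r) ∧ s X * (1 - X) = X ∧
      (∀ f, coeff 0 (s f) = coeff 0 f) ∧ (∀ f, coeff 1 (s f) = coeff 1 f) ∧
      (∀ (g : R ≃+* R) (f : R⟦X⟧), PowerSeries.map (g : R →+* R) (s f) =
        s (PowerSeries.map (g : R →+* R) f)) ∧
      (∀ f, rescale (-1 : R) (s f) = s (s (rescale (-1 : R) f))) := by
  have h3' : (3 : R⟦X⟧) = 0 := by
    rw [show (3 : R⟦X⟧) = C (3 : R) from (map_ofNat C 3).symm, h3, map_zero]
  have hcc : ∀ a : R⟦X⟧, constantCoeff a = 0 → HasSubst (SH1_φ R a) := fun a ha =>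
    HasSubst.of_constantCoeff_zero' (by rw [SH1_const_φ, ha])
  have hφ3 : ∀ f, SH1_φ R (SH1_φ R (SH1_φ R f)) = f := by
    intro f
    rw [SH1_φ_apply f, SH1_comp _ _ SH1_hu, SH1_comp _ _ (hcc _ SH1_u_const), SH1_φφu h3,
      X_subst]
  let s : R⟦X⟧ ≃+* R⟦X⟧ :=
    { toFun := fun f => SH1_φ R f
      invFun := fun f => SH1_φ R (SH1_φ R f)
      left_inv := fun f => hφ3 f
      right_inv := fun f => hφ3 f
      map_mul' := fun f g => map_mul _ f g
      map_add' := fun f g => map_add _ f g }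
  have hs : ∀ f, s f = SH1_φ R f := fun _ => rfl
  refine ⟨s, ?_, ?_, ?_, ?_, ?_, ?_, ?_⟩
  · intro f
    simp only [hs]
    exact hφ3 f
  · intro r
    rw [hs]
    exact (SH1_φ R).commutes r
  · rw [hs, SH1_φX, SH1_u_mul]
  · intro f
    rw [hs, coeff_zero_eq_constantCoeff_apply, coeff_zero_eq_constantCoeff_apply, SH1_const_φ]
  · intro f
    rw [hs]
    obtain ⟨g, hg⟩ := X_dvd_iff.mpr (show constantCoeff (f - C (constantCoeff f)) = 0 by simp)
    have h1 : f = C (constantCoeff f) + X * g := by rw [← hg]; ring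
    have h2 : SH1_φ R f = C (constantCoeff f) + X * ((1 - X)⁻¹ * SH1_φ R g) := by
      conv_lhs => rw [h1]
      rw [map_add, map_mul, SH1_φX]
      congr 1
      · exact (SH1_φ R).commutes (constantCoeff f)
      · unfold SH1_u; ring
    have h4 : coeff 1 f = constantCoeff g := by
      conv_lhs => rw [h1]
      rw [map_add, coeff_C, show (1 : ℕ) = 0 + 1 from rfl, coeff_succ_X_mul]
      simp
    rw [h4]
    conv_lhs => rw [h2]
    rw [map_add, coeff_C, show (1 : ℕ) = 0 + 1 from rfl, coeff_succ_X_mul,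
      coeff_zero_eq_constantCoeff_apply, map_mul, SH1_const_φ]
    simp
  · intro g f
    rw [hs, hs, SH1_φ_apply, SH1_φ_apply]
    have h5 : PowerSeries.map (g : R →+* R) (SH1_u R) = SH1_u R := by
      have h6 := congrArg (PowerSeries.map (g : R →+* R)) (SH1_u_mul (R := R))
      rw [map_mul, map_sub, map_one, PowerSeries.map_X] at h6
      exact mul_right_cancel₀ SH1_ne (h6.trans (SH1_u_mul (R := R)).symm)
    have h7 := PowerSeries.map_subst (SH1_hu (R := R)) (h := (g : R →+* R)) f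
    have h8 : MvPowerSeries.map (g : R →+* R) (SH1_u R) = SH1_u R := h5
    rw [h8] at h7
    exact h7
  · intro f
    have hv : constantCoeff ((-1 : R) • X : R⟦X⟧) = 0 := by simp
    have hvs : HasSubst ((-1 : R) • X : R⟦X⟧) := HasSubst.of_constantCoeff_zero' hv
    rw [hs, hs, hs, rescale_eq_subst, rescale_eq_subst, SH1_comp _ _ hvs,
      SH1_comp _ _ (hcc _ hv), SH1_φ_apply f, subst_comp_subst_apply SH1_hu hvs]
    congr 1
    have h1 : SH1_φ R (SH1_φ R ((-1 : R) • X)) = - SH1_φ R (SH1_u R) := by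
      rw [map_smul, map_smul, SH1_φX]
      simp
    rw [h1]
    have h2 : subst ((-1 : R) • X : R⟦X⟧) (SH1_u R) * (1 + X) = -X := by
      have h3 := congrArg (substAlgHom (R := R) hvs) (SH1_u_mul (R := R))
      rw [map_mul, map_sub, map_one, coe_substAlgHom, subst_X hvs] at h3
      have h4 : (1 + X : R⟦X⟧) = 1 - (-1 : R) • X := by simp
      rw [h4]
      have h5 : (-X : R⟦X⟧) = (-1 : R) • X := by simp
      rw [h5]
      exact h3
    have h3 := SH1_φu (R := R)
    have h4 : (1 + X : R⟦X⟧) ≠ 0 := by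
      intro h
      have := congrArg constantCoeff h
      simp at this
    apply mul_right_cancel₀ h4
    rw [h2]
    linear_combination h3 + SH1_φ R (SH1_u R) * X * h3'

end NCP
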