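import Pool.Agent.H24.NCP.HMap
import Pool.Agent.H24.NCP.SH1

/-! # Module SH2: the automorphism `ϖ ↦ ϖ/(1-ϖ)` of Laurent series -/

set_option autoImplicit false

namespace NCP
open HahnSeries

section SH2
variable {R : Type} [Field R]

/-- power series as Laurent series -/
noncomputable abbrev SH2ι (R : Type) [Field R] : PowerSeries R →+* HahnSeries ℤ R :=
  HahnSeries.ofPowerSeries ℤ R

theorem SH2_coeff (f : PowerSeries R) (n : ℕ) :
    (SH2ι R f).coeff (n : ℤ) = PowerSeries.coeff n f :=
  HahnSeries.ofPowerSeries_apply_coeff f n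

theorem SH2_coeff_neg (f : PowerSeries R) (k : ℤ) (hk : k < 0) : (SH2ι R f).coeff k = 0 := by
  have h := PowerSeries.coeff_coe f k
  rw [if_pos hk] at h
  exact h

/-- two ring homomorphisms agreeing on power series agree -/
theorem SH2_ext (f g : HahnSeries ℤ R →+* HahnSeries ℤ R)
    (h : ∀ u : PowerSeries R, f (SH2ι R u) = g (SH2ι R u)) (a : HahnSeries ℤ R) : f a = g a := by
  have h1 : f = g := by
    apply IsLocalization.ringHom_ext (nonZeroDivisors (PowerSeries R))
      (S := LaurentSeries R) (P := HahnSeries ℤ R) (j := f) (k := g)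
    ext1 u
    exact h u
  rw [h1]

theorem SH2_decomp (n : ℤ) (a : HahnSeries ℤ R) (ha : ∀ k < n, a.coeff k = 0) :
    a = single n 1 * SH2ι R (PowerSeries.mk (fun k => a.coeff (n + k))) := by
  ext m
  rw [HahnSeries.coeff_single_mul, one_mul]
  by_cases hm : m - n < 0
  · rw [SH2_coeff_neg _ _ hm]
    exact ha m (by omega)
  · obtain ⟨k, hk⟩ := Int.eq_ofNat_of_zero_le (not_lt.1 hm)
    rw [hk, SH2_coeff, PowerSeries.coeff_mk]
    congr 1
    omega

/-- the first two coefficients of the image of `ϖ^n` -/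
def SH2P (n : ℤ) (y : HahnSeries ℤ R) : Prop :=
  (∀ k < n, y.coeff k = 0) ∧ y.coeff n = 1 ∧ y.coeff (n + 1) = (n : R)

theorem SH2P_mul {n m : ℤ} {x y : HahnSeries ℤ R} (hx : SH2P n x) (hy : SH2P m y) :
    SH2P (n + m) (x * y) := by
  obtain ⟨h1, h2⟩ := coeff_mul_lead hx.1 hy.1
  refine ⟨h1, ?_, ?_⟩
  · rw [h2, hx.2.1, hy.2.1, one_mul]
  · rw [coeff_mul_sub hx.1 hy.1, hx.2.1, hy.2.1, hx.2.2, hy.2.2]
    push_cast
    ring

theorem SH2P_all (s : HahnSeries ℤ R →+* HahnSeries ℤ R) (h1 : SH2P 1 (s (single 1 1)))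
    (h2 : SH2P (-1) (s (single (-1) 1))) (n : ℤ) : SH2P n (s (single n 1)) := by
  induction n using Int.induction_on with
  | zero =>
    have h3 : (single 0 1 : HahnSeries ℤ R) = 1 := rfl
    rw [h3, map_one]
    refine ⟨?_, ?_, ?_⟩
    · intro k hk
      rw [HahnSeries.coeff_one, if_neg (by omega)]
    · rw [HahnSeries.coeff_one, if_pos rfl]
    · rw [HahnSeries.coeff_one, if_neg (by omega)]
      simp
  | succ i ih =>
    have h3 : (single ((i : ℤ) + 1) 1 : HahnSeries ℤ R) = single (i : ℤ) 1 * single 1 1 := by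
      rw [HahnSeries.single_mul_single, one_mul]
    rw [h3, map_mul]
    exact SH2P_mul ih h1
  | pred i ih =>
    have h3 : (single (-(i : ℤ) - 1) 1 : HahnSeries ℤ R) = single (-(i : ℤ)) 1 * single (-1) 1 := by
      rw [HahnSeries.single_mul_single, one_mul]
      rfl
    rw [h3, map_mul, sub_eq_add_neg]
    exact SH2P_mul ih h2

end SH2

/-- Extend `exists_sh1` to `R((ϖ))` (`IsFractionRing R⟦X⟧ (LaurentSeries R)` is an instance; use
`IsFractionRing.ringEquivOfRingEquiv`, or `IsLocalization.map`).  Identities of ring homomorphisms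
are checked on power series.  For the coefficients: if `a` has no terms below degree `n` then
`a = single n 1 * (power series u)` and
`sh a = (sh ϖ)ⁿ sh u = single n 1 * (1-ϖ)^(-n) * sh u`, `(1-ϖ)^(-n) = 1 + n ϖ + ...`
(for `n ≥ 0` and `n < 0` separately, by induction; `coeff_mul_lead`, `coeff_mul_sub`). -/
theorem exists_shift (R : Type) [Field R] (h3 : (3 : R) = 0) :
    ∃ s : HahnSeries ℤ R ≃+* HahnSeries ℤ R,
      (∀ a, s (s (s a)) = a) ∧ (∀ r : R, s (single 0 r) = single 0 r) ∧
      s (single 1 1) * (1 - single 1 1) = single 1 1 ∧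
      (∀ (n : ℤ) (a : HahnSeries ℤ R), (∀ k < n, a.coeff k = 0) →
        (∀ k < n, (s a).coeff k = 0) ∧ (s a).coeff n = a.coeff n ∧
        (s a).coeff (n + 1) = a.coeff (n + 1) + (n : R) * a.coeff n) ∧
      (∀ (g : R ≃+* R) (a : HahnSeries ℤ R), hmapE g (s a) = s (hmapE g a)) ∧
      (∀ a, hneg (s a) = s (s (hneg a))) := by
  obtain ⟨s1, hs3, hsC, hsX, hs0, hs1, hsg, hsr⟩ := exists_sh1 R h3
  let s : HahnSeries ℤ R ≃+* HahnSeries ℤ R :=
    IsFractionRing.ringEquivOfRingEquiv (K := LaurentSeries R) (L := LaurentSeries R) s1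
  have hsι : ∀ u : PowerSeries R, s (SH2ι R u) = SH2ι R (s1 u) := fun u =>
    IsFractionRing.ringEquivOfRingEquiv_algebraMap (K := LaurentSeries R) (L := LaurentSeries R)
      (h := s1) u
  have hX : SH2ι R PowerSeries.X = single 1 1 := HahnSeries.ofPowerSeries_X
  have hsX' : s (single 1 1) * (1 - single 1 1) = single 1 1 := by
    rw [← hX, hsι, ← map_one (SH2ι R), ← map_sub, ← map_mul, hsX]
  have hP1 : SH2P 1 (s (single 1 1)) := by
    rw [← hX, hsι]
    refine ⟨?_, ?_, ?_⟩
    · intro k hk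
      by_cases hk0 : k < 0
      · exact SH2_coeff_neg _ _ hk0
      · have : k = ((0 : ℕ) : ℤ) := by simp; omega
        rw [this, SH2_coeff, hs0]
        simp
    · have h4 := SH2_coeff (s1 PowerSeries.X) 1
      rw [hs1] at h4
      simpa using h4
    · -- coefficient 2
      have h5 : (PowerSeries.coeff 2) (s1 PowerSeries.X * (1 - PowerSeries.X)) =
          (PowerSeries.coeff 2) (PowerSeries.X : PowerSeries R) := by rw [hsX]
      rw [mul_sub, mul_one, map_sub, PowerSeries.coeff_succ_mul_X, hs1] at h5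
      have h6 : (PowerSeries.coeff 2) (s1 (PowerSeries.X : PowerSeries R)) = 1 := by
        have h7 : (PowerSeries.coeff 2) (PowerSeries.X : PowerSeries R) = 0 := by
          rw [PowerSeries.coeff_X]; simp
        rw [h7, sub_eq_zero] at h5
        rw [h5]; simp
      have h8 := SH2_coeff (s1 (PowerSeries.X : PowerSeries R)) 2
      rw [h6] at h8
      simpa using h8
  have hP2 : SH2P (-1) (s (single (-1) 1)) := by
    have h4 : (single (-1) 1 : HahnSeries ℤ R) * single 1 1 = 1 := by
      rw [HahnSeries.single_mul_single, one_mul]; rfl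
    have h5 : s (single (-1) 1) = single (-1) 1 * (1 - single 1 1) := by
      have h6 : s (single (-1) 1) * s (single 1 1) = 1 := by rw [← map_mul, h4, map_one]
      calc s (single (-1) 1) = s (single (-1) 1) * (single 1 1 * single (-1) 1) := by
            rw [mul_comm (single 1 1), h4, mul_one]
        _ = s (single (-1) 1) * (s (single 1 1) * (1 - single 1 1) * single (-1) 1) := by rw [hsX']
        _ = (s (single (-1) 1) * s (single 1 1)) * (single (-1) 1 * (1 - single 1 1)) := by ring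
        _ = _ := by rw [h6, one_mul]
    have h7 : s (single (-1) 1) = single (-1) 1 - single 0 1 := by
      rw [h5, mul_sub, mul_one, h4]; rfl
    rw [h7]
    refine ⟨?_, ?_, ?_⟩
    · intro k hk
      rw [HahnSeries.coeff_sub, HahnSeries.coeff_single_of_ne (by omega),
        HahnSeries.coeff_single_of_ne (by omega), sub_zero]
    · rw [HahnSeries.coeff_sub, HahnSeries.coeff_single_same,
        HahnSeries.coeff_single_of_ne (by omega), sub_zero]
    · rw [HahnSeries.coeff_sub, HahnSeries.coeff_single_of_ne (by omega)]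
      simp
  have hP := SH2P_all (s : HahnSeries ℤ R →+* HahnSeries ℤ R) hP1 hP2
  refine ⟨s, ?_, ?_, hsX', ?_, ?_, ?_⟩
  · intro a
    have h4 := SH2_ext (((s : HahnSeries ℤ R →+* HahnSeries ℤ R).comp
      (s : HahnSeries ℤ R →+* HahnSeries ℤ R)).comp (s : HahnSeries ℤ R →+* HahnSeries ℤ R))
      (RingHom.id _) (by
        intro u
        show s (s (s (SH2ι R u))) = SH2ι R u
        rw [hsι, hsι, hsι, hs3]) a
    exact h4
  · intro r
    have h4 : SH2ι R (PowerSeries.C r) = single 0 r := HahnSeries.ofPowerSeries_C r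
    rw [← h4, hsι, hsC]
  · intro n a ha
    have h4 := SH2_decomp n a ha
    set u := PowerSeries.mk (fun k => a.coeff (n + k)) with hu
    have h5 : s a = s (single n 1) * SH2ι R (s1 u) := by
      conv_lhs => rw [h4]
      rw [map_mul, hsι]
    obtain ⟨p1, p2, p3⟩ := hP n
    have p1' : ∀ k < n, (s (single n 1)).coeff k = 0 := p1
    have q1 : ∀ k < 0, (SH2ι R (s1 u)).coeff k = 0 := fun k hk => SH2_coeff_neg _ _ hk
    have q2 : (SH2ι R (s1 u)).coeff 0 = a.coeff n := by
      have h6 := SH2_coeff (s1 u) 0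
      rw [hs0, hu, PowerSeries.coeff_mk] at h6
      simpa using h6
    have q3 : (SH2ι R (s1 u)).coeff (0 + 1) = a.coeff (n + 1) := by
      have h6 := SH2_coeff (s1 u) 1
      rw [hs1, hu, PowerSeries.coeff_mk] at h6
      simpa using h6
    obtain ⟨h7, h8⟩ := coeff_mul_lead p1' q1
    have h9 := coeff_mul_sub p1' q1
    rw [add_zero] at h7 h8 h9
    rw [h5]
    refine ⟨h7, ?_, ?_⟩
    · rw [h8, q2]
      have p2' : (s (single n 1)).coeff n = 1 := p2
      rw [p2', one_mul]
    · rw [h9, q2, q3]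
      have p2' : (s (single n 1)).coeff n = 1 := p2
      have p3' : (s (single n 1)).coeff (n + 1) = (n : R) := p3
      rw [p2', p3', one_mul, add_comm]
  · intro g a
    have hg : ∀ u : PowerSeries R, hmapE g (SH2ι R u) =
        SH2ι R (PowerSeries.map (g : R →+* R) u) := by
      intro u
      ext k
      rw [hmapE_coeff]
      by_cases hk : k < 0
      · rw [SH2_coeff_neg _ _ hk, SH2_coeff_neg _ _ hk, map_zero]
      · obtain ⟨m, rfl⟩ := Int.eq_ofNat_of_zero_le (not_lt.1 hk)
        rw [SH2_coeff, SH2_coeff, PowerSeries.coeff_map]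
        rfl
    have h4 := SH2_ext ((hmapE g : HahnSeries ℤ R →+* HahnSeries ℤ R).comp
      (s : HahnSeries ℤ R →+* HahnSeries ℤ R)) ((s : HahnSeries ℤ R →+* HahnSeries ℤ R).comp
      (hmapE g : HahnSeries ℤ R →+* HahnSeries ℤ R)) (by
        intro u
        show hmapE g (s (SH2ι R u)) = s (hmapE g (SH2ι R u))
        rw [hsι, hg, hg, hsι, hsg]) a
    exact h4
  · intro a
    have hg : ∀ u : PowerSeries R, hneg (SH2ι R u) =
        SH2ι R (PowerSeries.rescale (-1 : R) u) := by
      intro u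
      ext k
      rw [hneg_coeff]
      by_cases hk : k < 0
      · rw [SH2_coeff_neg _ _ hk, SH2_coeff_neg _ _ hk, mul_zero]
      · obtain ⟨m, rfl⟩ := Int.eq_ofNat_of_zero_le (not_lt.1 hk)
        rw [SH2_coeff, SH2_coeff, PowerSeries.coeff_rescale, zpow_natCast]
    have h4 := SH2_ext (((hneg : HahnSeries ℤ R ≃+* HahnSeries ℤ R) : HahnSeries ℤ R →+* HahnSeries ℤ R).comp
      (s : HahnSeries ℤ R →+* HahnSeries ℤ R)) (((s : HahnSeries ℤ R →+* HahnSeries ℤ R).comp
      (s : HahnSeries ℤ R →+* HahnSeries ℤ R)).comp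
      ((hneg : HahnSeries ℤ R ≃+* HahnSeries ℤ R) : HahnSeries ℤ R →+* HahnSeries ℤ R)) (by
        intro u
        show hneg (s (SH2ι R u)) = s (s (hneg (SH2ι R u)))
        rw [hsι, hg, hg, hsι, hsι, hsr]) a
    exact h4

end NCP
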