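import Pool.Agent.H24.NCP.MD
import Pool.Agent.H24.NCP.SH2

/-! # Module MDA: construction of `MA`; one-units -/

set_option autoImplicit false

namespace NCP
open HahnSeries

/-- Products, inverses and images under `MA` automorphisms of one-units are one-units. -/
theorem OneU.mul {R : Type} [Field R] {a b : HahnSeries ℤ R} (ha : OneU a) (hb : OneU b) :
    OneU (a * b) := by
  have h := coeff_mul_lead ha.1 hb.1
  rw [add_zero] at h
  refine ⟨h.1, ?_⟩
  rw [h.2, ha.2, hb.2, mul_one]

theorem OneU.inv {R : Type} [Field R] {a : HahnSeries ℤ R} (ha : OneU a) :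
    OneU a⁻¹ := by
  have ha0 : a ≠ 0 := by
    intro h
    have := ha.2
    rw [h, coeff_zero] at this
    exact zero_ne_one this
  have hi0 : a⁻¹ ≠ 0 := inv_ne_zero ha0
  have hlow : ∀ k < (a⁻¹).order, (a⁻¹).coeff k = 0 := fun k hk =>
    HahnSeries.coeff_eq_zero_of_lt_order hk
  have hne : (a⁻¹).coeff (a⁻¹).order ≠ 0 := fun h => hi0 (coeff_order_eq_zero.1 h)
  have h := (coeff_mul_lead ha.1 hlow).2
  rw [zero_add, ha.2, one_mul, mul_inv_cancel₀ ha0, coeff_one] at h
  by_cases hn : (a⁻¹).order = 0
  · rw [hn] at h hlow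
    rw [if_pos rfl] at h
    exact ⟨hlow, h.symm⟩
  · rw [if_neg hn] at h
    exact absurd h.symm hne

/-- `s = hmapE σ`, `i = hneg ∘ hmapE j`, `sh` from `exists_shift`. -/
theorem exists_ma {R : Type} [Field R] (rd : RD R) :
    ∃ m : MA rd, (∀ z : HahnSeries ℤ R, (∀ g : R ≃+* R, hmapE g z = z) → m.s z = z) := by
  obtain ⟨sh, h3, hC, hw, hcoeff, hmap, hneg'⟩ := exists_shift R rd.three
  have hsgn : ∀ (g : R ≃+* R) (n : ℤ), g ((-1 : R) ^ n) = (-1 : R) ^ n := by
    intro g n
    rw [map_zpow₀, map_neg, map_one]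
  have hsq : ∀ n : ℤ, (-1 : R) ^ n * (-1 : R) ^ n = 1 := by
    intro n
    rw [← mul_zpow]
    simp
  refine ⟨{ sh := sh
            s := hmapE rd.σ
            i := (hmapE rd.j).trans hneg
            sh3 := h3
            s3 := ?_
            i2 := ?_
            s_sh := fun a => hmap rd.σ a
            s_i := ?_
            i_sh := ?_
            sh_C := hC
            sh_w := hw
            sh_coeff := hcoeff
            s_coeff := fun n a => rfl
            i_coeff := fun n a => rfl }, ?_⟩
  · intro a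
    ext n
    simp only [hmapE_coeff, rd.σ3]
  · intro a
    ext n
    simp only [RingEquiv.coe_trans, Function.comp_apply, hneg_coeff, hmapE_coeff, map_mul, hsgn,
      rd.j2]
    rw [← mul_assoc, hsq, one_mul]
  · intro a
    ext n
    simp only [RingEquiv.coe_trans, Function.comp_apply, hneg_coeff, hmapE_coeff, map_mul, hsgn,
      rd.σj]
  · intro a
    simp only [RingEquiv.coe_trans, Function.comp_apply]
    rw [hmap, hneg']
  · intro z hz
    exact hz rd.σ

end NCP
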