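import Pool.Agent.H24.NCP.RatF

/-! # Module RF2: relations between `σ`, `j`, `δ` on `𝔽₂₇(X)`

Each identity is an identity of ring homomorphisms (or derivations along ring homomorphisms), so
it only has to be checked on constants and on `X`; every element of `RF` is a quotient
`pol p / pol q` (e.g. `IsFractionRing.div_surjective`). -/

set_option autoImplicit false

namespace NCP
open Polynomial

variable {σ j : RF ≃+* RF} {δ : Derivation ℤ RF RF}

/-- every element is a quotient of polynomials -/
theorem rf_frac (x : RF) : ∃ p q : K27[X], pol q ≠ 0 ∧ x * pol q = pol p := by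
  obtain ⟨p, q, hq, rfl⟩ := IsFractionRing.div_surjective (A := K27[X]) x
  have hq0 : pol q ≠ 0 := by
    intro h
    have h1 : q = 0 := by
      apply IsFractionRing.injective K27[X] RF
      rw [map_zero]
      exact h
    exact nonZeroDivisors.ne_zero hq h1
  exact ⟨p, q, hq0, div_mul_cancel₀ _ hq0⟩

/-- Two ring homomorphisms `RF → S` agreeing on constants and on `X` agree. -/
theorem rf_hom_ext {S : Type*} [Ring S] [IsDomain S] {f g : RF →+* S}
    (h1 : ∀ a : K27, f (pol (C a)) = g (pol (C a))) (h2 : f (pol X) = g (pol X)) (x : RF) :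
    f x = g x := by
  have h3 : f.comp pol = g.comp pol := Polynomial.ringHom_ext h1 h2
  have h4 : ∀ p : K27[X], f (pol p) = g (pol p) := fun p => RingHom.congr_fun h3 p
  obtain ⟨p, q, hq, hx⟩ := rf_frac x
  have h5 : f x * f (pol q) = f (pol p) := by rw [← map_mul, hx]
  have h6 : g x * g (pol q) = g (pol p) := by rw [← map_mul, hx]
  rw [h4, h4, ← h6] at h5
  have h7 : g (pol q) ≠ 0 := by
    intro h
    apply hq
    apply g.injective
    rw [h, map_zero]
  exact mul_right_cancel₀ h7 h5

/-- a derivation along a ring homomorphism which vanishes on constants and on `X` is zero -/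
theorem rf_der_zero (φ : RF →+* RF) (D : RF →+ RF)
    (hD : ∀ x y, D (x * y) = φ x * D y + φ y * D x)
    (h1 : ∀ a : K27, D (pol (C a)) = 0) (h2 : D (pol X) = 0) (x : RF) : D x = 0 := by
  have h3 : ∀ p : K27[X], D (pol p) = 0 := by
    intro p
    induction p using Polynomial.induction_on with
    | C a => exact h1 a
    | add p q hp hq => rw [map_add, map_add, hp, hq, add_zero]
    | monomial n a ih =>
      have e : (C a * X ^ (n + 1) : K27[X]) = (C a * X ^ n) * X := by ring
      rw [e, map_mul, hD, ih, h2, mul_zero, mul_zero, add_zero]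
  obtain ⟨p, q, hq, hx⟩ := rf_frac x
  have h4 := hD x (pol q)
  rw [hx, h3, h3, mul_zero, zero_add] at h4
  have h5 : φ (pol q) ≠ 0 := by
    intro h
    apply hq
    apply φ.injective
    rw [h, map_zero]
  exact (mul_eq_zero.1 h4.symm).resolve_left h5

theorem RPre.σC (h : RPre σ j δ) (a : K27) : σ (pol (C a)) = pol (C (a ^ 3)) := by
  rw [h.σ_alg, Polynomial.map_C, frobenius_def]

theorem RPre.σX (h : RPre σ j δ) : σ (pol X) = pol X := by
  rw [h.σ_alg, Polynomial.map_X]

theorem RPre.δX (h : RPre σ j δ) : δ (pol X) = pol X := by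
  rw [h.δ_alg, derivative_X, mul_one]

theorem RPre.δC (h : RPre σ j δ) (a : K27) : δ (pol (C a)) = 0 := by
  rw [h.δ_alg, derivative_C, mul_zero, map_zero]

theorem RPre.σ3 (h : RPre σ j δ) (x : RF) : σ (σ (σ x)) = x := by
  have := rf_hom_ext (f := ((σ : RF →+* RF).comp ((σ : RF →+* RF).comp (σ : RF →+* RF))))
    (g := RingHom.id RF) (by
      intro a
      simp only [RingHom.comp_apply, RingHom.id_apply, RingEquiv.coe_toRingHom]
      rw [h.σC, h.σC, h.σC, frob27]) (by
      simp only [RingHom.comp_apply, RingHom.id_apply, RingEquiv.coe_toRingHom]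
      rw [h.σX, h.σX, h.σX]) x
  exact this

theorem RPre.j2 (h : RPre σ j δ) (x : RF) : j (j x) = x := by
  have := rf_hom_ext (f := ((j : RF →+* RF).comp (j : RF →+* RF)))
    (g := RingHom.id RF) (by
      intro a
      simp only [RingHom.comp_apply, RingHom.id_apply, RingEquiv.coe_toRingHom]
      rw [h.j_C, h.j_C]) (by
      simp only [RingHom.comp_apply, RingHom.id_apply, RingEquiv.coe_toRingHom]
      rw [h.j_X, map_inv₀, h.j_X, inv_inv]) x
  exact this

theorem RPre.σj (h : RPre σ j δ) (x : RF) : σ (j x) = j (σ x) := by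
  have := rf_hom_ext (f := ((σ : RF →+* RF).comp (j : RF →+* RF)))
    (g := ((j : RF →+* RF).comp (σ : RF →+* RF))) (by
      intro a
      simp only [RingHom.comp_apply, RingEquiv.coe_toRingHom]
      rw [h.j_C, h.σC, h.j_C]) (by
      simp only [RingHom.comp_apply, RingEquiv.coe_toRingHom]
      rw [h.j_X, map_inv₀, h.σX, h.j_X]) x
  exact this

theorem RPre.δσ (h : RPre σ j δ) (x : RF) : δ (σ x) = σ (δ x) := by
  let D : RF →+ RF :=
    { toFun := fun x => δ (σ x) - σ (δ x)
      map_zero' := by simp
      map_add' := fun x y => by simp only [map_add]; ring }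
  have h0 := rf_der_zero (σ : RF →+* RF) D (fun x y => by
    change δ (σ (x * y)) - σ (δ (x * y)) =
      σ x * (δ (σ y) - σ (δ y)) + σ y * (δ (σ x) - σ (δ x))
    rw [map_mul, Derivation.leibniz, Derivation.leibniz, smul_eq_mul, smul_eq_mul, smul_eq_mul,
      smul_eq_mul, map_add, map_mul, map_mul]
    ring) (by
    intro a
    change δ (σ (pol (C a))) - σ (δ (pol (C a))) = 0
    rw [h.σC, h.δC, h.δC, map_zero, sub_zero]) (by
    change δ (σ (pol X)) - σ (δ (pol X)) = 0
    rw [h.σX, h.δX, h.σX, sub_self]) x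
  exact sub_eq_zero.1 h0

theorem RPre.δj (h : RPre σ j δ) (x : RF) : δ (j x) = -j (δ x) := by
  let D : RF →+ RF :=
    { toFun := fun x => δ (j x) + j (δ x)
      map_zero' := by simp
      map_add' := fun x y => by simp only [map_add]; ring }
  have h0 := rf_der_zero (j : RF →+* RF) D (fun x y => by
    change δ (j (x * y)) + j (δ (x * y)) =
      j x * (δ (j y) + j (δ y)) + j y * (δ (j x) + j (δ x))
    rw [map_mul, Derivation.leibniz, Derivation.leibniz, smul_eq_mul, smul_eq_mul, smul_eq_mul,
      smul_eq_mul, map_add, map_mul, map_mul]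
    ring) (by
    intro a
    change δ (j (pol (C a))) + j (δ (pol (C a))) = 0
    rw [h.j_C, h.δC, map_zero, add_zero]) (by
    change δ (j (pol X)) + j (δ (pol X)) = 0
    have hX : (pol X : RF) ≠ 0 := by
      intro h
      have : (X : K27[X]) = 0 := by
        apply IsFractionRing.injective K27[X] RF
        rw [map_zero]
        exact h
      exact Polynomial.X_ne_zero this
    rw [h.j_X, h.δX, h.j_X, Derivation.leibniz_inv, h.δX, smul_eq_mul]
    field_simp
    ring) x
  exact eq_neg_of_add_eq_zero_left h0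

/-- `(σ² X)³ = X³` etc. -/
theorem RPre.σ_cube (h : RPre σ j δ) (x : RF) : σ ((σ (σ x)) ^ 3) = (σ (σ (σ x))) ^ 3 := by
  rw [map_pow]

end NCP
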