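import Pool.Agent.H24.NCP.RD
import Pool.Agent.H24.NCP.RF2
import Pool.Agent.H24.NCP.KER
import Pool.Agent.H24.NCP.E1M
import Pool.Agent.H24.NCP.KL3

/-! # Module RDI: the instance of `RD` -/

set_option autoImplicit false

namespace NCP
open Polynomial

/-- A derivation over `ℤ` from an additive map. -/
def rdiDer {R : Type} [Field R] (f : R →+ R) (h : ∀ a b, f (a * b) = a • f b + b • f a) :
    Derivation ℤ R R :=
  Derivation.mk' f.toIntLinearMap h

/-- `E x = (σ² x)³`. -/
theorem exists_rd : Nonempty (RD RF) := by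
  obtain ⟨σ, j, δ, h⟩ := exists_rpre
  have hE : ∀ x, ((frobenius RF 3).comp ((σ : RF →+* RF).comp (σ : RF →+* RF))) x =
      (σ (σ x)) ^ 3 := fun x => rfl
  have hfr : ∀ a : K27, (a ^ 3) = frobenius K27 3 a := fun a => rfl
  let δ' := rdiDer (R := RF) (δ : RF →+ RF) (fun a b => δ.leibniz a b)
  have hδ : ∀ x, δ' x = δ x := fun x => rfl
  refine ⟨{
    σ := σ
    j := j
    δ := δ'
    E := (frobenius RF 3).comp ((σ : RF →+* RF).comp (σ : RF →+* RF))
    X := pol X
    e := pol (C e27)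
    three := by exact_mod_cast CharP.cast_eq_zero RF 3
    σ3 := h.σ3
    j2 := h.j2
    σj := h.σj
    δσ := h.δσ
    δj := h.δj
    σX := h.σX
    jX := h.j_X
    X0 := by
      intro h0
      have := (map_eq_zero_iff pol (IsFractionRing.injective K27[X] RF)).1 h0
      exact Polynomial.X_ne_zero this
    δX := h.δX
    Eσ := ?_
    Ej := ?_
    EX := ?_
    kerE := ?_
    e1 := ?_
    e2 := ?_
    e3 := ?_
    je := h.j_C _
    σe := ?_
    E1 := h.e1
    KLOG := fun Y β z hY hs hβ hβ0 hz h1 h2 => h.klog Y β z hY hs hβ hβ0 hz h1 h2 }⟩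
  · intro x
    rw [hE, hE, map_pow]
  · intro x
    rw [hE, hE, map_pow, h.σj, h.σj]
  · rw [hE, h.σX, h.σX]
  · intro x
    rw [hδ, h.ker_cube]
    constructor
    · rintro ⟨y, rfl⟩
      refine ⟨σ y, ?_⟩
      rw [hE, h.σ3]
    · rintro ⟨y, rfl⟩
      exact ⟨_, (hE y).symm⟩
  · rw [h.σC, h.σC, ← map_add, ← map_add, ← C_add, ← C_add, e27_tr]
    simp
  · rw [h.σC, h.σC]
    simp only [← map_mul, ← map_add, e27_e2]
    simp
  · rw [h.σC, h.σC]
    simp only [← map_mul, e27_nm]
    simp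
  · rw [h.σC]
    intro h0
    exact e27_ne (C_injective (IsFractionRing.injective K27[X] RF h0))

end NCP
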