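import Pool.Agent.H24.NCP.K27

/-! # Module RF1: automorphisms and derivation of `𝔽₂₇(X)` -/

set_option autoImplicit false

namespace NCP
open Polynomial

abbrev RF : Type := RatFunc K27

noncomputable abbrev pol : K27[X] →+* RF := algebraMap K27[X] RF

instance : CharP RF 3 := by
  have h1 : Function.Injective (algebraMap K27 RF) := (algebraMap K27 RF).injective
  exact charP_of_injective_algebraMap h1 3

/-- Properties characterising `σ` (Frobenius on coefficients), `j` (`X ↦ X⁻¹`) and
`δ = X d/dX`. -/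
structure RPre (σ j : RF ≃+* RF) (δ : Derivation ℤ RF RF) : Prop where
  σ_alg : ∀ p : K27[X], σ (pol p) = pol (p.map (frobenius K27 3))
  j_C : ∀ a : K27, j (pol (C a)) = pol (C a)
  j_X : j (pol X) = (pol X)⁻¹
  δ_alg : ∀ p : K27[X], δ (pol p) = pol (X * derivative p)

theorem RatF_pol_inj : Function.Injective pol := IsFractionRing.injective K27[X] RF

theorem RatF_polX_ne : pol X ≠ 0 := by
  intro h
  exact X_ne_zero (RatF_pol_inj (h.trans (map_zero pol).symm))

/-- Frobenius as an automorphism -/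
noncomputable def RatFfrob : K27 ≃+* K27 :=
  RingEquiv.ofRingHom (frobenius K27 3) ((frobenius K27 3).comp (frobenius K27 3))
    (RingHom.ext frob27) (RingHom.ext frob27)

/-- `X ↦ X⁻¹` on polynomials -/
noncomputable def RatFj0 : K27[X] →+* RF :=
  eval₂RingHom (pol.comp C) (pol X)⁻¹

theorem RatFj0_inj : Function.Injective RatFj0 := by
  rw [injective_iff_map_eq_zero]
  intro p hp
  by_contra hne
  let _ : Invertible ((pol X)⁻¹ : RF) := ⟨pol X, mul_inv_cancel₀ RatF_polX_ne,
    inv_mul_cancel₀ RatF_polX_ne⟩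
  have h1 := eval₂_reverse_mul_pow (pol.comp C) ((pol X)⁻¹ : RF) p
  have h2 : eval₂ (pol.comp C) ((pol X)⁻¹ : RF) p = 0 := hp
  rw [h2] at h1
  have h3 : ((pol X)⁻¹ : RF) ^ p.natDegree ≠ 0 := pow_ne_zero _ (inv_ne_zero RatF_polX_ne)
  have h4 := (mul_eq_zero.1 h1).resolve_right h3
  have h5 : eval₂ (pol.comp C) (pol X) (reverse p) = pol (reverse p) := by
    have h6 : (eval₂RingHom (pol.comp C) (pol X)) = pol := by
      apply Polynomial.ringHom_ext
      · intro a; simp
      · simp
    exact congrArg (fun f => f (reverse p)) h6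
  have h7 : pol (reverse p) = 0 := h5.symm.trans h4
  have h8 : reverse p = 0 := RatF_pol_inj (h7.trans (map_zero pol).symm)
  exact hne (Polynomial.reverse_eq_zero.1 h8)

noncomputable def RatFj1 : RF →+* RF := IsFractionRing.lift (K := RF) RatFj0_inj

theorem RatFj1_pol (p : K27[X]) : RatFj1 (pol p) = RatFj0 p :=
  IsFractionRing.lift_algebraMap RatFj0_inj p

theorem RatFj1_C (a : K27) : RatFj1 (pol (C a)) = pol (C a) := by
  rw [RatFj1_pol]
  simp [RatFj0]

theorem RatFj1_X : RatFj1 (pol X) = (pol X)⁻¹ := by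
  rw [RatFj1_pol]
  simp [RatFj0]

/-- ring homomorphisms of `RF` agreeing on constants and `X` -/
theorem RatF_ext {S : Type*} [Semiring S] {f g : RF →+* S}
    (h1 : ∀ a : K27, f (pol (C a)) = g (pol (C a))) (h2 : f (pol X) = g (pol X)) : f = g := by
  apply IsLocalization.ringHom_ext (nonZeroDivisors K27[X])
  apply Polynomial.ringHom_ext
  · exact h1
  · exact h2

theorem RatFj1_j1 : RatFj1.comp RatFj1 = RingHom.id RF := by
  apply RatF_ext
  · intro a
    simp only [RingHom.comp_apply, RatFj1_C, RingHom.id_apply]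
  · simp only [RingHom.comp_apply, RatFj1_X, map_inv₀, inv_inv, RingHom.id_apply]

/-- `p ↦ p + X p' ε` -/
noncomputable def RatFφ : K27[X] →+* TrivSqZeroExt RF RF where
  toFun p := TrivSqZeroExt.inl (pol p) + TrivSqZeroExt.inr (pol (X * derivative p))
  map_one' := by
    ext <;> simp
  map_mul' p q := by
    ext
    · simp
    · simp only [TrivSqZeroExt.snd_add, TrivSqZeroExt.snd_inl, TrivSqZeroExt.snd_inr, zero_add,
        TrivSqZeroExt.snd_mul, TrivSqZeroExt.fst_add, TrivSqZeroExt.fst_inl,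
        TrivSqZeroExt.fst_inr, add_zero, smul_eq_mul, MulOpposite.smul_eq_mul_unop,
        MulOpposite.unop_op, derivative_mul, map_mul, map_add]
      ring
  map_zero' := by
    ext <;> simp
  map_add' p q := by
    ext
    · simp
    · simp [mul_add]

theorem RatFφ_fst (p : K27[X]) : (RatFφ p).fst = pol p := by
  show (TrivSqZeroExt.inl (pol p) + TrivSqZeroExt.inr (pol (X * derivative p))).fst = _
  simp

theorem RatFφ_snd (p : K27[X]) : (RatFφ p).snd = pol (X * derivative p) := by
  show (TrivSqZeroExt.inl (pol p) + TrivSqZeroExt.inr (pol (X * derivative p))).snd = _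
  simp

theorem RatFφ_unit (y : nonZeroDivisors K27[X]) : IsUnit (RatFφ y) := by
  rw [TrivSqZeroExt.isUnit_iff_isUnit_fst, RatFφ_fst, isUnit_iff_ne_zero]
  intro h
  exact nonZeroDivisors.ne_zero y.2 (RatF_pol_inj (h.trans (map_zero pol).symm))

noncomputable def RatFΦ : RF →+* TrivSqZeroExt RF RF :=
  IsLocalization.lift (M := nonZeroDivisors K27[X]) (S := RF) RatFφ_unit

theorem RatFΦ_pol (p : K27[X]) : RatFΦ (pol p) = RatFφ p :=
  IsLocalization.lift_eq RatFφ_unit p

theorem RatFΦ_fst (x : RF) : (RatFΦ x).fst = x := by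
  have h : ((TrivSqZeroExt.fstHom RF RF RF).toRingHom).comp RatFΦ = RingHom.id RF := by
    apply IsLocalization.ringHom_ext (nonZeroDivisors K27[X])
    refine RingHom.ext (fun p => ?_)
    show (RatFΦ (pol p)).fst = pol p
    rw [RatFΦ_pol, RatFφ_fst]
  exact congrArg (fun f => f x) h

noncomputable def RatFδ0 : RF →+ RF where
  toFun := fun x => (RatFΦ x).snd
  map_zero' := by simp
  map_add' := by intro x y; simp

theorem RatF_mkder {A : Type} [CommRing A] (inst : Algebra ℤ A) (m : Module ℤ A) (f : A →+ A)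
    (hf : ∀ a b, f (a * b) = a * f b + b * f a) :
    ∃ D : @Derivation ℤ A A _ _ _ inst _ m, ∀ x, D x = f x := by
  obtain rfl : inst = Ring.toIntAlgebra A := Subsingleton.elim _ _
  obtain rfl : m = AddCommGroup.toIntModule A := Subsingleton.elim _ _
  exact ⟨Derivation.mk' f.toIntLinearMap hf, fun _ => rfl⟩

theorem RatFδ_ex : ∃ δ : Derivation ℤ RF RF, ∀ x, δ x = RatFδ0 x := by
  apply RatF_mkder
  intro a b
  show (RatFΦ (a * b)).snd = a * (RatFΦ b).snd + b * (RatFΦ a).snd
  rw [map_mul, TrivSqZeroExt.snd_mul, RatFΦ_fst, RatFΦ_fst]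
  simp only [smul_eq_mul, MulOpposite.smul_eq_mul_unop, MulOpposite.unop_op]
  ring

/-- Existence.  `σ`: extend `Polynomial.mapEquiv (frobeniusEquiv K27 3)` to the fraction field
(`IsFractionRing.ringEquivOfRingEquiv`).  `j`: `eval₂ (algebraMap) X⁻¹` is injective (`X⁻¹` is
transcendental), extend it by `IsFractionRing.lift`, it is its own inverse.
`δ`: the ring homomorphism `K27[X] → DualNumber RF`, `X ↦ X + X ε` maps non-zero polynomials to
units (`TrivSqZeroExt.isUnit_iff_isUnit_fst`), so extends to `RF → DualNumber RF`, whose second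
component is a derivation.  (Or define `δ (p/q) = X (p' q - p q')/q²` by hand.) -/
theorem exists_rpre : ∃ (σ j : RF ≃+* RF) (δ : Derivation ℤ RF RF), RPre σ j δ := by
  obtain ⟨δ, hδ⟩ := RatFδ_ex
  refine ⟨IsFractionRing.ringEquivOfRingEquiv (K := RF) (L := RF) (Polynomial.mapEquiv RatFfrob),
    RingEquiv.ofRingHom RatFj1 RatFj1 RatFj1_j1 RatFj1_j1, δ, ?_, ?_, ?_, ?_⟩
  · intro p
    exact IsFractionRing.ringEquivOfRingEquiv_algebraMap (K := RF) (L := RF)
      (h := Polynomial.mapEquiv RatFfrob) p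
  · intro a
    exact RatFj1_C a
  · exact RatFj1_X
  · intro p
    rw [hδ]
    show (RatFΦ (pol p)).snd = _
    rw [RatFΦ_pol, RatFφ_snd]

end NCP
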