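import Pool.Agent.H24.NCP.CTP

/-! # Module S2A: preparation for Step II -/

set_option autoImplicit false

namespace NCP

variable {R A : Type} [Field R] [DivisionRing A] {rd : RD R}

theorem s2a_low_add {L : ℤ → A →+ R} {n : ℤ} {x y : A} (hx : Low L n x) (hy : Low L n y) :
    Low L n (x + y) := by
  intro k hk
  rw [map_add, hx k hk, hy k hk, add_zero]

theorem s2a_low_succ {L : ℤ → A →+ R} {n : ℤ} {x : A} (hx : Low L n x) (h : L n x = 0) :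
    Low L (n + 1) x := by
  intro k hk
  rcases lt_or_eq_of_le (Int.lt_add_one_iff.mp hk) with h1 | h1
  · exact hx k h1
  · rw [h1]; exact h

/-- Choice of the central correction.  Since `μ` is not central there is `x` with
`[μ, x] ≠ 0`; if `Low L n (μ + k)` with `k` central then `[μ, x] = [μ + k, x]` has
`Low L (n + n' + 1)` (`P3`), so `n` is bounded above; take the largest `n = i` for which some
central `ι`-fixed `k` has `Low L i (μ + k)`.  Then `L i (μ + k) ≠ 0`.  If `3 ∣ i = 3 n` and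
`δ m = 0` for `m = L i (μ + k)`, take `k'` central with symbol `m` in degree `3n` (`P7`);
`ι (μ+k) = μ+k` gives `(-1)^(3n) j m = m`, so `ι k'` has the same symbol, and
`k + k' + ι k'` contradicts maximality (`m + 2 m = 3 m = 0`). -/
theorem s2_max (P : CTP rd A) (μ : A) (hι : P.ι μ = μ) (hnc : ¬ ∀ x, μ * x = x * μ) :
    ∃ (k : A) (i : ℤ), (∀ x, k * x = x * k) ∧ P.ι k = k ∧ Low P.L i (μ + k) ∧
      P.L i (μ + k) ≠ 0 ∧ ¬ (rd.δ (P.L i (μ + k)) = 0 ∧ (3 : ℤ) ∣ i) := by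
  push Not at hnc
  obtain ⟨x, hx⟩ := hnc
  have hne : μ * x - x * μ ≠ 0 := sub_ne_zero.mpr hx
  obtain ⟨n', hn'⟩ := P.P1a x
  have h0 : ∃ n₀, P.L n₀ (μ * x - x * μ) ≠ 0 := by
    by_contra hcon
    push Not at hcon
    exact hne (P.P1b _ hcon)
  obtain ⟨n₀, hn₀⟩ := h0
  let S : ℤ → Prop := fun i => ∃ k : A, (∀ x, k * x = x * k) ∧ P.ι k = k ∧ Low P.L i (μ + k)
  have hb : ∃ b : ℤ, ∀ z : ℤ, S z → z ≤ b := by
    refine ⟨n₀ - n' - 1, ?_⟩
    rintro i ⟨k, hk, -, hlow⟩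
    by_contra hlt
    push Not at hlt
    have h1 := (P.P3 i n' (μ + k) x hlow hn').1
    have h2 : (μ + k) * x - x * (μ + k) = μ * x - x * μ := by
      rw [add_mul, mul_add, hk x]; abel
    rw [h2] at h1
    exact hn₀ (h1 n₀ (by omega))
  have hinh : ∃ z : ℤ, S z := by
    obtain ⟨n, hn⟩ := P.P1a μ
    exact ⟨n, 0, fun x => by simp, map_zero _, by simpa using hn⟩
  obtain ⟨i, ⟨k, hk, hιk, hlow⟩, hmax⟩ := Int.exists_greatest_of_bdd hb hinh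
  have hno : ∀ k : A, (∀ x, k * x = x * k) → P.ι k = k → ¬ Low P.L (i + 1) (μ + k) := by
    intro k h1 h2 h3
    have := hmax (i + 1) ⟨k, h1, h2, h3⟩
    omega
  refine ⟨k, i, hk, hιk, hlow, ?_, ?_⟩
  · intro h
    exact hno k hk hιk (s2a_low_succ hlow h)
  · rintro ⟨hδ, n, rfl⟩
    obtain ⟨k', hk', hlow', hL'⟩ := P.P7 _ hδ n
    obtain ⟨h5a, h5b⟩ := P.P5 _ _ hlow'
    obtain ⟨-, h6b⟩ := P.P5 _ _ hlow
    rw [map_add, hι, hιk] at h6b
    have hc : ∀ x, P.ι k' * x = x * P.ι k' := by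
      intro x
      apply P.ι.injective
      rw [map_mul, map_mul, P.ι2, hk']
    refine hno (k + (k' + P.ι k')) ?_ ?_ ?_
    · intro x
      rw [add_mul, add_mul, mul_add, mul_add, hk, hk', hc]
    · rw [map_add, map_add, P.ι2, hιk, add_comm (P.ι k') k']
    · rw [← add_assoc]
      refine s2a_low_succ (s2a_low_add hlow (s2a_low_add hlow' h5a)) ?_
      rw [map_add (P.L (3 * n)) (μ + k), map_add (P.L (3 * n)) k', h5b, hL', ← h6b]
      linear_combination P.L (3 * n) (μ + k) * rd.three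

/-- Lowest degree of a non-zero element. -/
theorem s2_low (P : CTP rd A) (a : A) (ha : a ≠ 0) : ∃ n, Low P.L n a ∧ P.L n a ≠ 0 := by
  have h0 : ∃ n₀, P.L n₀ a ≠ 0 := by
    by_contra hcon
    push Not at hcon
    exact ha (P.P1b _ hcon)
  obtain ⟨n₀, hn₀⟩ := h0
  obtain ⟨i, hi, hmax⟩ := Int.exists_greatest_of_bdd (P := fun n => Low P.L n a)
    ⟨n₀, fun z hz => by
      by_contra hlt
      push Not at hlt
      exact hn₀ (hz n₀ hlt)⟩ (P.P1a a)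
  refine ⟨i, hi, fun h => ?_⟩
  have := hmax (i + 1) (s2a_low_succ hi h)
  omega

/-- The symbol of `q = a ψ(a) ψ²(a) w`: degree `3 n + 1`, value `z σ(z) σ²(z)`. -/
theorem s2_q (P : CTP rd A) (a : A) (n : ℤ) (hn : Low P.L n a) :
    Low P.L (3 * n + 1) (a * P.ψ a * P.ψ (P.ψ a) * P.w) ∧
    P.L (3 * n + 1) (a * P.ψ a * P.ψ (P.ψ a) * P.w) =
      P.L n a * rd.σ (P.L n a) * rd.σ (rd.σ (P.L n a)) := by
  obtain ⟨h1, h1'⟩ := P.P4 n a hn
  obtain ⟨h2, h2'⟩ := P.P4 n _ h1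
  obtain ⟨h3, h3'⟩ := P.P2 n n a _ hn h1
  obtain ⟨h4, h4'⟩ := P.P2 (n + n) n _ _ h3 h2
  obtain ⟨h5, h5'⟩ := P.P2 (n + n + n) 1 _ _ h4 P.P6w.1
  have he : n + n + n + 1 = 3 * n + 1 := by ring
  rw [he] at h5 h5'
  refine ⟨h5, ?_⟩
  rw [h5', h4', h3', h2', h1', P.P6w.2, mul_one]

/-- Iterated brackets with `y`: if `μ` has symbol `m` in degree `i` then
`[μ,y], [μ,[μ,y]], [μ,[μ,[μ,y]]]` have symbols `w₁, w₂, w₃` in degrees `i+1, 2i+2, 3i+3`. -/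
theorem s2_brackets (P : CTP rd A) (μ : A) (i : ℤ) (h : Low P.L i μ) (m w₁ w₂ w₃ : R)
    (hm : P.L i μ = m) (h1 : w₁ = -(i : R) * m * rd.X)
    (h2 : w₂ = ((i + 1 : ℤ) : R) * rd.δ m * w₁ - (i : R) * m * rd.δ w₁)
    (h3 : w₃ = ((2 * i + 2 : ℤ) : R) * rd.δ m * w₂ - (i : R) * m * rd.δ w₂) :
    (Low P.L (i + 1) (μ * P.y - P.y * μ) ∧ P.L (i + 1) (μ * P.y - P.y * μ) = w₁) ∧
    (Low P.L (3 * i + 3) (μ * (μ * (μ * P.y - P.y * μ) - (μ * P.y - P.y * μ) * μ) -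
        (μ * (μ * P.y - P.y * μ) - (μ * P.y - P.y * μ) * μ) * μ) ∧
      P.L (3 * i + 3) (μ * (μ * (μ * P.y - P.y * μ) - (μ * P.y - P.y * μ) * μ) -
        (μ * (μ * P.y - P.y * μ) - (μ * P.y - P.y * μ) * μ) * μ) = w₃) := by
  obtain ⟨a1, a1'⟩ := P.P3 i 0 μ P.y h P.P6y.1
  have e1 : i + 0 + 1 = i + 1 := by ring
  rw [e1] at a1 a1'
  rw [hm, P.P6y.2, rd.δX, Int.cast_zero, zero_mul, zero_mul, zero_sub] at a1'
  have b1 : P.L (i + 1) (μ * P.y - P.y * μ) = w₁ := by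
    rw [a1', h1]; ring
  obtain ⟨a2, a2'⟩ := P.P3 i (i + 1) μ _ h a1
  have e2 : i + (i + 1) + 1 = 2 * i + 2 := by ring
  rw [e2] at a2 a2'
  rw [hm, b1, ← h2] at a2'
  obtain ⟨a3, a3'⟩ := P.P3 i (2 * i + 2) μ _ h a2
  have e3 : i + (2 * i + 2) + 1 = 3 * i + 3 := by ring
  rw [e3] at a3 a3'
  rw [hm, a2', ← h3] at a3'
  exact ⟨⟨a1, b1⟩, a3, a3'⟩

end NCP
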